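import Pool.Agent.H721R2.Quart.Def

set_option autoImplicit false

open MeasureTheory Set Filter Topology
open scoped InnerProductSpace

namespace Pool.Agent.H721R2.Quart

section A
variable {E Z : Type*} [NormedAddCommGroup E] [InnerProductSpace ℝ E] [FiniteDimensional ℝ E]
  [NormedAddCommGroup Z] [NormedSpace ℝ Z] [FiniteDimensional ℝ Z] [MeasurableSpace Z]
  [BorelSpace Z]

/-- the scalar case on the zero set -/
theorem A1_scalar (μ : Measure Z) [μ.IsAddHaarMeasure] {A : Set Z} (hA : MeasurableSet A)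
    {f : Z → ℝ} (hf : ∀ z ∈ A, DifferentiableAt ℝ f z) (h0 : ∀ z ∈ A, f z = 0) :
    ∀ᵐ z ∂(μ.restrict A), fderiv ℝ f z = 0 := by
  rcases subsingleton_or_nontrivial Z with hZ | hZ
  · refine Filter.Eventually.of_forall fun z => ?_
    ext v
    rw [Subsingleton.elim v 0]
    simp
  · obtain ⟨w, hw⟩ := exists_ne (0 : Z)
    have happ : ApproximatesLinearOn (fun x => f x • w) (0 : Z →L[ℝ] Z) A 0 := by
      intro x hx y hy
      simp [h0 x hx, h0 y hy]
    have h1 := happ.norm_fderiv_sub_le μ hA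
      (fun x => (fderiv ℝ f x).smulRight w)
      (fun x hx => ((hf x hx).hasFDerivAt.smul_const w).hasFDerivWithinAt)
    filter_upwards [h1] with x hx
    have h3 : (fderiv ℝ f x).smulRight w = 0 := by
      have : ‖(fderiv ℝ f x).smulRight w - 0‖₊ = 0 := le_antisymm hx (by positivity)
      simpa using nnnorm_eq_zero.1 this
    ext v
    have h4 := congrArg (fun T : Z →L[ℝ] Z => T v) h3
    simp only [ContinuousLinearMap.smulRight_apply, _root_.zero_apply,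
      smul_eq_zero] at h4
    rcases h4 with h4 | h4
    · simpa using h4
    · exact absurd h4 hw

omit [FiniteDimensional ℝ E] [FiniteDimensional ℝ Z] in
theorem A1_meas {A : Set Z} (hA : MeasurableSet A)
    {f : Z → E} (hf : ∀ z ∈ A, DifferentiableAt ℝ f z) :
    MeasurableSet (A ∩ {z | f z = 0}) := by
  have h : A ∩ {z | f z = 0} = A ∩ closure (A ∩ {z | f z = 0}) := by
    apply Subset.antisymm
    · exact fun z hz => ⟨hz.1, subset_closure hz⟩
    · rintro z ⟨hz, hc⟩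
      refine ⟨hz, ?_⟩
      have hcont : ContinuousAt f z := (hf z hz).continuousAt
      rw [mem_closure_iff_seq_limit] at hc
      obtain ⟨s, hs, hlim⟩ := hc
      have h1 := hcont.tendsto.comp hlim
      have h2 : (f ∘ s) = fun _ => 0 := by
        funext n
        exact (hs n).2
      rw [h2] at h1
      exact (tendsto_nhds_unique h1 tendsto_const_nhds)
  rw [h]
  exact hA.inter isClosed_closure.measurableSet

/-- A1 -/
theorem ae_zero (μ : Measure Z) [μ.IsAddHaarMeasure] {A : Set Z} (hA : MeasurableSet A)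
    {f : Z → E} (hf : ∀ z ∈ A, DifferentiableAt ℝ f z) :
    ∃ B ⊆ A, MeasurableSet B ∧ μ (A \ B) = 0 ∧ ∀ z ∈ B, f z = 0 → fderiv ℝ f z = 0 := by
  set A0 := A ∩ {z | f z = 0} with hA0
  have hm0 : MeasurableSet A0 := A1_meas hA hf
  set b := stdOrthonormalBasis ℝ E with hb
  have h1 : ∀ i, ∀ᵐ z ∂(μ.restrict A0), fderiv ℝ (fun z => ⟪b i, f z⟫_ℝ) z = 0 := fun i =>
    A1_scalar μ hm0 (fun z hz => (differentiableAt_const (b i)).inner ℝ (hf z hz.1))
      (fun z hz => by rw [show f z = 0 from hz.2, inner_zero_right])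
  have h2 : ∀ᵐ z ∂(μ.restrict A0), ∀ i, fderiv ℝ (fun z => ⟪b i, f z⟫_ℝ) z = 0 :=
    ae_all_iff.mpr h1
  rw [ae_restrict_iff' hm0, ae_iff] at h2
  obtain ⟨N, hN1, hN2, hN3⟩ := exists_measurable_superset_of_null h2
  refine ⟨A \ N, sdiff_subset, hA.diff hN2, ?_, ?_⟩
  · refine measure_mono_null ?_ hN3
    intro x hx
    by_contra hxN
    exact hx.2 ⟨hx.1, hxN⟩
  · intro z hz hfz
    have h3 : ∀ i, fderiv ℝ (fun z => ⟪b i, f z⟫_ℝ) z = 0 := by
      by_contra hcon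
      exact hz.2 (hN1 (fun h => hcon (h ⟨hz.1, hfz⟩)))
    ext v
    rw [_root_.zero_apply]
    refine (InnerProductSpace.ext_inner_left_basis b.toBasis fun i => ?_)
    have h4 : fderiv ℝ (fun z => ⟪b i, f z⟫_ℝ) z v = ⟪b i, fderiv ℝ f z v⟫_ℝ := by
      rw [fderiv_inner_apply ℝ (differentiableAt_const (b i)) (hf z hz.1)]
      simp
    have h5 := congrArg (fun T : Z →L[ℝ] ℝ => T v) (h3 i)
    simp only [_root_.zero_apply] at h5
    rw [OrthonormalBasis.coe_toBasis, ← h4, h5, inner_zero_right]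

variable (F : Fam E Z)

omit [FiniteDimensional ℝ E] [FiniteDimensional ℝ Z] [MeasurableSpace Z] [BorelSpace Z]

theorem A1_tr' {z : Z} (hz : z ∈ F.A) (k : ℕ) : ⟪F.n (k + 1) z, F.e k z⟫_ℝ ≠ 0 := by
  intro h
  apply F.tr (k + 1) z hz
  rw [F.refl k z hz, rf, inner_sub_right, inner_smul_right, h]
  simp

theorem A1_c {z : Z} (hz : z ∈ F.A) (k : ℕ) : DifferentiableAt ℝ (F.c k) z :=
  ((F.dn k z hz).inner ℝ (F.de k z hz)).neg

theorem A1_mo {z : Z} (hz : z ∈ F.A) (k : ℕ) : DifferentiableAt ℝ (F.mo k) z :=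
  (((F.dn k z hz).inner ℝ (F.de k z hz)).inv (F.tr k z hz)).smul (F.dn k z hz)

theorem A1_mi {z : Z} (hz : z ∈ F.A) (k : ℕ) : DifferentiableAt ℝ (F.mi k) z :=
  (((F.dn (k + 1) z hz).inner ℝ (F.de k z hz)).inv (A1_tr' F hz k)).smul (F.dn (k + 1) z hz)

theorem A1_rf {z : Z} {f g : Z → E} (hf : DifferentiableAt ℝ f z)
    (hg : DifferentiableAt ℝ g z) : DifferentiableAt ℝ (fun z => rf (f z) (g z)) z := by
  unfold rf
  exact hg.sub (((hf.inner ℝ hg).const_mul 2).smul hf)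

theorem A1_mC {z : Z} (hz : z ∈ F.A) : DifferentiableAt ℝ F.mC z := A1_mi F hz 0
theorem A1_mL {z : Z} (hz : z ∈ F.A) : DifferentiableAt ℝ F.mL z := A1_mo F hz 0
theorem A1_mR {z : Z} (hz : z ∈ F.A) : DifferentiableAt ℝ F.mR z :=
  A1_rf (F.dn 1 z hz) (A1_mi F hz 1)

theorem A1_nu {z : Z} (hz : z ∈ F.A) : DifferentiableAt ℝ F.fnu z :=
  (A1_mC F hz).sub (F.de 0 z hz)

theorem A1_plan {z : Z} (hz : z ∈ F.A) : DifferentiableAt ℝ F.fplan z := by
  have h1 := (A1_mC F hz).sub (F.de 0 z hz)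
  have h2 := (A1_mL F hz).sub (F.de 0 z hz)
  exact ((h1.inner ℝ h1).smul h2).sub ((h2.inner ℝ h1).smul h1)

theorem A1_Se {z : Z} (hz : z ∈ F.A) :
    DifferentiableAt ℝ (fun z => F.S 1 z (F.e 0 z)) z :=
  (F.dS 1 z hz).clm_apply (F.de 0 z hz)

theorem A1_umb {z : Z} (hz : z ∈ F.A) : DifferentiableAt ℝ F.fumb z := by
  have h1 := A1_Se F hz
  have h2 := A1_c F hz 1
  exact (((differentiableAt_const (1 : ℝ)).sub (h2.pow 2)).smul h1).sub
    ((h1.inner ℝ (F.de 0 z hz)).smul ((F.de 0 z hz).sub (h2.smul (F.dn 1 z hz))))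

theorem A1_fg {z : Z} (hz : z ∈ F.A) {v w : Z → E} (hv : DifferentiableAt ℝ v z)
    (hw : DifferentiableAt ℝ w z) : DifferentiableAt ℝ (fun z => F.fg z (v z) (w z)) z := by
  unfold Fam.fg
  exact (hv.inner ℝ hw).sub ((hv.inner ℝ (F.de 0 z hz)).mul (hw.inner ℝ (F.de 0 z hz)))

theorem A1_fB {z : Z} (hz : z ∈ F.A) {v w : Z → E} (hv : DifferentiableAt ℝ v z)
    (hw : DifferentiableAt ℝ w z) : DifferentiableAt ℝ (fun z => F.fB z (v z) (w z)) z := by
  unfold Fam.fB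
  have hL0 := F.dL 0 z hz
  have hL1 := F.dL 1 z hz
  have hc := A1_c F hz 1
  have hm := A1_mC F hz
  have he := F.de 0 z hz
  have h1 : DifferentiableAt ℝ (fun z => F.S 1 z (v z - ⟪F.mC z, v z⟫_ℝ • F.e 0 z)) z :=
    (F.dS 1 z hz).clm_apply (hv.sub ((hm.inner ℝ hv).smul he))
  have h2 : DifferentiableAt ℝ (fun z => w z - ⟪F.mC z, w z⟫_ℝ • F.e 0 z) z :=
    hw.sub ((hm.inner ℝ hw).smul he)
  exact (((hL0.mul hL1).mul (hc.const_mul 2)).mul (h1.inner ℝ h2)).add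
    ((hL0.add hL1).mul (A1_fg F hz hv hw))

theorem A1_tau {z : Z} (hz : z ∈ F.A) : DifferentiableAt ℝ F.ftau z := by
  have hC := A1_mC F hz
  have hL := A1_mL F hz
  exact (((A1_fB F hz hC hC).mul (A1_fg F hz hL hL)).sub
    (((A1_fB F hz hC hL).const_mul 2).mul (A1_fg F hz hC hL))).add
    ((A1_fB F hz hL hL).mul (A1_fg F hz hC hC))

theorem A1_cne {z : Z} (hz : z ∈ F.A) (k : ℕ) : F.c k z ≠ 0 := by
  unfold Fam.c
  exact neg_ne_zero.mpr (F.tr k z hz)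

theorem A1_T {z : Z} (hz : z ∈ F.A) : DifferentiableAt ℝ F.fT z := by
  have hL0 := F.dL 0 z hz
  have hL1 := F.dL 1 z hz
  have hC := A1_mC F hz
  have hL := A1_mL F hz
  have hR := A1_mR F hz
  have hc := A1_c F hz 1
  have he := F.de 0 z hz
  have hS := A1_Se F hz
  have hd : DifferentiableAt ℝ (fun z => 2 * F.L 0 z * F.L 1 z / F.c 1 z) z := by
    have h := ((hL0.const_mul 2).mul hL1).mul (hc.inv (A1_cne F hz 1))
    exact h
  exact (((hd).smul
    (hS.sub ((he.inner ℝ hS).smul hC))).add (hL0.smul (hR.sub hC))).add (hL1.smul (hL.sub hC))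

theorem A1_Phi {z : Z} (hz : z ∈ F.A) : DifferentiableAt ℝ F.fPhi z := by
  have hL0 := F.dL 0 z hz
  have hL1 := F.dL 1 z hz
  have hL2 := F.dL 2 z hz
  have hL3 := F.dL 3 z hz
  have h20 := (F.dx 2 z hz).sub (F.dx 0 z hz)
  have h31 := (F.dx 3 z hz).sub (F.dx 1 z hz)
  have hA1 : DifferentiableAt ℝ F.A1 z := ((hL0.add hL1).mul (hL2.add hL3)).add (h20.inner ℝ h20)
  have hA2 : DifferentiableAt ℝ F.A2 z := ((hL1.add hL2).mul (hL3.add hL0)).add (h31.inner ℝ h31)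
  have hP : DifferentiableAt ℝ F.P z := ((hL0.add hL1).add hL2).add hL3
  exact (hA1.mul hA2).sub ((hP.pow 2).mul ((hL0.mul hL2).add (hL1.mul hL3)))

theorem A1_H {z : Z} (hz : z ∈ F.A) : DifferentiableAt ℝ F.fH z := by
  have hL0 := F.dL 0 z hz
  have hL1 := F.dL 1 z hz
  have hL2 := F.dL 2 z hz
  have hL3 := F.dL 3 z hz
  have hP : DifferentiableAt ℝ F.P z := ((hL0.add hL1).add hL2).add hL3
  have hc := A1_c F hz 1
  exact (hP.mul ((A1_Se F hz).inner ℝ (F.de 0 z hz))).add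
    (((hc.pow 3).const_mul 2).mul ((differentiableAt_const (1 : ℝ)).sub (hc.pow 2)))

end A

section A2
variable {E Z : Type*} [NormedAddCommGroup E] [InnerProductSpace ℝ E] [FiniteDimensional ℝ E]
  [NormedAddCommGroup Z] [NormedSpace ℝ Z] [FiniteDimensional ℝ Z] [MeasurableSpace Z]
  [BorelSpace Z]

theorem A1_good (μ : Measure Z) [μ.IsAddHaarMeasure] (F : Fam E Z) (hA : MeasurableSet F.A) :
    ∃ B ⊆ F.A, MeasurableSet B ∧ μ (F.A \ B) = 0 ∧ ∀ z ∈ B, F.Good z := by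
  obtain ⟨B1, s1, m1, n1, g1⟩ := ae_zero μ hA (f := F.fnu) (fun z hz => A1_nu F hz)
  obtain ⟨B2, s2, m2, n2, g2⟩ := ae_zero μ hA (f := F.fplan) (fun z hz => A1_plan F hz)
  obtain ⟨B3, s3, m3, n3, g3⟩ := ae_zero μ hA (f := F.fumb) (fun z hz => A1_umb F hz)
  obtain ⟨B4, s4, m4, n4, g4⟩ := ae_zero μ hA (f := F.ftau) (fun z hz => A1_tau F hz)
  obtain ⟨B5, s5, m5, n5, g5⟩ := ae_zero μ hA (f := F.fT) (fun z hz => A1_T F hz)
  obtain ⟨B6, s6, m6, n6, g6⟩ := ae_zero μ hA (f := F.fPhi) (fun z hz => A1_Phi F hz)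
  obtain ⟨B7, s7, m7, n7, g7⟩ := ae_zero μ hA (f := F.fH) (fun z hz => A1_H F hz)
  refine ⟨B1 ∩ (B2 ∩ (B3 ∩ (B4 ∩ (B5 ∩ (B6 ∩ B7))))), fun z hz => s1 hz.1,
    m1.inter (m2.inter (m3.inter (m4.inter (m5.inter (m6.inter m7))))), ?_, ?_⟩
  · have h : F.A \ (B1 ∩ (B2 ∩ (B3 ∩ (B4 ∩ (B5 ∩ (B6 ∩ B7)))))) ⊆
        (F.A \ B1) ∪ ((F.A \ B2) ∪ ((F.A \ B3) ∪ ((F.A \ B4) ∪ ((F.A \ B5) ∪
          ((F.A \ B6) ∪ (F.A \ B7)))))) := by
      rw [Set.sdiff_inter, Set.sdiff_inter, Set.sdiff_inter, Set.sdiff_inter, Set.sdiff_inter,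
        Set.sdiff_inter]
    refine measure_mono_null h ?_
    exact measure_union_null n1 (measure_union_null n2 (measure_union_null n3
      (measure_union_null n4 (measure_union_null n5 (measure_union_null n6 n7)))))
  · rintro z ⟨h1, h2, h3, h4, h5, h6, h7⟩
    exact ⟨g1 z h1, g2 z h2, g3 z h3, g4 z h4, g5 z h5, g6 z h6, g7 z h7⟩

/-- A2 (uses A1) -/
theorem exists_good (μ : Measure Z) [μ.IsAddHaarMeasure] (F : Fam E Z)
    (hA : MeasurableSet F.A) :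
    ∃ B ⊆ F.A, MeasurableSet B ∧ μ (F.A \ B) = 0 ∧ ∀ z ∈ B, ∀ j, (F.shift j).Good z := by
  have h : ∀ j, ∃ B ⊆ F.A, MeasurableSet B ∧ μ (F.A \ B) = 0 ∧
      ∀ z ∈ B, (F.shift j).Good z := fun j => A1_good μ (F.shift j) hA
  choose B s m n g using h
  refine ⟨⋂ j, B j, fun z hz => s 0 (mem_iInter.mp hz 0), MeasurableSet.iInter m, ?_, ?_⟩
  · rw [Set.sdiff_iInter]
    exact measure_iUnion_null n
  · exact fun z hz j => g j z (mem_iInter.mp hz j)

end A2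

end Pool.Agent.H721R2.Quart
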