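import Pool.Agent.H721R2.Quart.Def

set_option autoImplicit false

open MeasureTheory Set Filter Topology
open scoped InnerProductSpace

namespace Pool.Agent.H721R2.Quart

namespace Fam

variable {E Z : Type*} [NormedAddCommGroup E] [InnerProductSpace ℝ E]
  [NormedAddCommGroup Z] [NormedSpace ℝ Z] (F : Fam E Z) {z : Z}

theorem B1_fd_smul {c : Z → ℝ} {f : Z → E} (hc : DifferentiableAt ℝ c z)
    (hf : DifferentiableAt ℝ f z) (ζ : Z) :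
    fderiv ℝ (fun z => c z • f z) z ζ = c z • fderiv ℝ f z ζ + (fderiv ℝ c z ζ) • f z := by
  have h := (hc.hasFDerivAt.smul hf.hasFDerivAt).fderiv
  have h2 := congrArg (fun T : Z →L[ℝ] E => T ζ) h
  have h3 : (fderiv ℝ (c • f) z) ζ = c z • fderiv ℝ f z ζ + (fderiv ℝ c z ζ) • f z := by
    simpa using h2
  exact h3

theorem B1_fd_norm {n e : Z → E} (hn : DifferentiableAt ℝ n z) (he : DifferentiableAt ℝ e z)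
    (h : ⟪n z, e z⟫_ℝ ≠ 0) (ζ : Z) :
    fderiv ℝ (fun z => (⟪n z, e z⟫_ℝ)⁻¹ • n z) z ζ = (⟪n z, e z⟫_ℝ)⁻¹ • fderiv ℝ n z ζ -
      ((⟪n z, e z⟫_ℝ)⁻¹ * (⟪n z, e z⟫_ℝ)⁻¹ *
        (⟪fderiv ℝ n z ζ, e z⟫_ℝ + ⟪n z, fderiv ℝ e z ζ⟫_ℝ)) • n z := by
  have hi : DifferentiableAt ℝ (fun z => ⟪n z, e z⟫_ℝ) z := hn.inner ℝ he
  have h1 := B1_fd_smul (hi.inv h) hn ζ
  have h2 : fderiv ℝ (fun z => (⟪n z, e z⟫_ℝ)⁻¹) z ζ = -((⟪n z, e z⟫_ℝ)⁻¹ * (⟪n z, e z⟫_ℝ)⁻¹ *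
        (⟪fderiv ℝ n z ζ, e z⟫_ℝ + ⟪n z, fderiv ℝ e z ζ⟫_ℝ)) := by
    have h3 := ((hasDerivAt_inv h).comp_hasFDerivAt z hi.hasFDerivAt).fderiv
    have h4 := congrArg (fun T : Z →L[ℝ] ℝ => T ζ) h3
    have h5 : fderiv ℝ (Inv.inv ∘ fun z => ⟪n z, e z⟫_ℝ) z ζ =
        -((⟪n z, e z⟫_ℝ ^ 2)⁻¹ * fderiv ℝ (fun z => ⟪n z, e z⟫_ℝ) z ζ) := by
      simpa using h4
    have h6 : fderiv ℝ (fun z => (⟪n z, e z⟫_ℝ)⁻¹) z ζ =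
        -((⟪n z, e z⟫_ℝ ^ 2)⁻¹ * fderiv ℝ (fun z => ⟪n z, e z⟫_ℝ) z ζ) := h5
    rw [h6, fderiv_inner_apply ℝ hn he, sq, mul_inv]
    ring
  have h3 : fderiv ℝ (fun z => (⟪n z, e z⟫_ℝ)⁻¹ • n z) z ζ =
      (⟪n z, e z⟫_ℝ)⁻¹ • fderiv ℝ n z ζ +
      (fderiv ℝ (fun z => (⟪n z, e z⟫_ℝ)⁻¹) z ζ) • n z := h1
  rw [h3, h2, neg_smul, sub_eq_add_neg]

theorem B1_tr' (hz : z ∈ F.A) (k : ℕ) : ⟪F.n (k + 1) z, F.e k z⟫_ℝ ≠ 0 := by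
  intro h
  apply F.tr (k + 1) z hz
  rw [F.refl k z hz, rf, inner_sub_right, inner_smul_right, h]
  simp

theorem B1_rf_sub (n a b : E) : rf n (a - b) = rf n a - rf n b := by
  unfold rf
  rw [inner_sub_right, mul_sub, sub_smul]; abel

theorem B1_rf_neg (n a : E) : rf n (-a) = -rf n a := by
  unfold rf
  rw [inner_neg_right, mul_neg, neg_smul]; abel

theorem B1_rf_smul (n a : E) (r : ℝ) : rf n (r • a) = r • rf n a := by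
  unfold rf
  rw [inner_smul_right, smul_sub, smul_smul]
  congr 2; ring

theorem B1_inner_rf (n a b : E) : ⟪rf n a, b⟫_ℝ = ⟪a, rf n b⟫_ℝ := by
  unfold rf
  rw [inner_sub_left, inner_sub_right, inner_smul_left, inner_smul_right,
    real_inner_comm a n]
  simp only [conj_trivial]
  ring

theorem B1_ne (hz : z ∈ F.A) (k : ℕ) :
    ⟪F.n (k + 1) z, F.e (k + 1) z⟫_ℝ = -⟪F.n (k + 1) z, F.e k z⟫_ℝ := by
  rw [F.refl k z hz, rf, inner_sub_right, inner_smul_right, F.nn (k + 1) z hz]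
  ring

theorem B1_n_rf (hz : z ∈ F.A) (k : ℕ) (v : E) :
    ⟪F.n k z, rf (F.n k z) v⟫_ℝ = -⟪F.n k z, v⟫_ℝ := by
  rw [rf, inner_sub_right, inner_smul_right, F.nn k z hz]
  ring

theorem B1_dL (hz : z ∈ F.A) (k : ℕ) (ζ : Z) :
    fderiv ℝ (F.L k) z ζ = ⟪F.e k z, fderiv ℝ (F.x (k + 1)) z ζ⟫_ℝ -
      ⟪F.e k z, fderiv ℝ (F.x k) z ζ⟫_ℝ := by
  rw [F.stepjac k z hz ζ, inner_add_right, inner_add_right, inner_smul_right, inner_smul_right,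
    F.ee k z hz, F.ejac k z hz ζ]
  ring

theorem B1_ex (hz : z ∈ F.A) (k : ℕ) (ζ : Z) :
    ⟪F.e (k + 1) z, fderiv ℝ (F.x (k + 1)) z ζ⟫_ℝ =
      ⟪F.e k z, fderiv ℝ (F.x (k + 1)) z ζ⟫_ℝ := by
  rw [F.refl k z hz, rf, inner_sub_left, inner_smul_left, F.tan (k + 1) z hz ζ]
  simp

theorem B1_dP (hz : z ∈ F.A) (ζ : Z) : fderiv ℝ F.P z ζ = 0 := by
  have h0 := F.dL 0 z hz
  have h1 := F.dL 1 z hz
  have h2 := F.dL 2 z hz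
  have h3 := F.dL 3 z hz
  have e : fderiv ℝ F.P z ζ = fderiv ℝ (F.L 0) z ζ + fderiv ℝ (F.L 1) z ζ +
      fderiv ℝ (F.L 2) z ζ + fderiv ℝ (F.L 3) z ζ := by
    have h := (((h0.hasFDerivAt.add h1.hasFDerivAt).add h2.hasFDerivAt).add
      h3.hasFDerivAt).fderiv
    have h4 := congrArg (fun T : Z →L[ℝ] ℝ => T ζ) h
    exact h4
  rw [e, F.B1_dL hz 0, F.B1_dL hz 1, F.B1_dL hz 2, F.B1_dL hz 3]
  have a1 := F.B1_ex hz 0 ζ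
  have a2 := F.B1_ex hz 1 ζ
  have a3 := F.B1_ex hz 2 ζ
  have a4 := F.B1_ex hz 3 ζ
  rw [show 3 + 1 = 0 + 4 by omega, F.px 0, F.pe 0] at a4
  rw [show 3 + 1 = 0 + 4 by omega, F.px 0]
  simp only [zero_add] at a1 ⊢
  norm_num at a1 a2 a3 a4 ⊢
  linarith

/-- B1 -/
theorem exists_piv (hz : z ∈ F.A) {δ : E} (hδ : ⟪F.e 0 z, δ⟫_ℝ = 0) : ∃ ζ, F.Piv z ζ δ := by
  obtain ⟨ζ, hx1, he0⟩ := F.piv 0 z hz δ hδ
  rw [zero_add] at hx1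
  have hn1 : fderiv ℝ (F.n 1) z ζ = 0 := by rw [F.njac 1 z hz, hx1, map_zero, neg_zero]
  have hS1 : fderiv ℝ (F.S 1) z ζ = 0 := F.Sjac 1 z hz ζ hx1
  have he1 : fderiv ℝ (F.e 1) z ζ = rf (F.n 1 z) δ := by
    have h := F.refljac 0 z hz ζ
    rw [zero_add, hn1, he0, inner_zero_left, mul_zero, zero_smul, smul_zero, sub_zero,
      sub_zero] at h
    exact h
  have g0 := F.tr 0 z hz
  have g1 : ⟪F.n 1 z, F.e 0 z⟫_ℝ ≠ 0 := F.B1_tr' hz 0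
  have g2 : ⟪F.n 2 z, F.e 1 z⟫_ℝ ≠ 0 := F.B1_tr' hz 1
  have hs0 := F.stepjac 0 z hz ζ
  rw [zero_add, hx1, he0] at hs0
  have hs1 := F.stepjac 1 z hz ζ
  rw [show 1 + 1 = 2 by omega, hx1, he1, zero_add] at hs1
  have t0 := F.tan 0 z hz ζ
  have t2 := F.tan 2 z hz ζ
  have hmL : ⟪F.mL z, δ⟫_ℝ = (⟪F.n 0 z, F.e 0 z⟫_ℝ)⁻¹ * ⟪F.n 0 z, δ⟫_ℝ := by
    unfold mL mo
    rw [inner_smul_left]; simp
  have hmC : ⟪F.mC z, δ⟫_ℝ = (⟪F.n 1 z, F.e 0 z⟫_ℝ)⁻¹ * ⟪F.n 1 z, δ⟫_ℝ := by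
    unfold mC mi
    rw [inner_smul_left]; simp
  have hmi : ⟪F.mi 1 z, rf (F.n 1 z) δ⟫_ℝ =
      (⟪F.n 2 z, F.e 1 z⟫_ℝ)⁻¹ * ⟪F.n 2 z, rf (F.n 1 z) δ⟫_ℝ := by
    unfold mi
    rw [inner_smul_left]; simp
  have hmR : ⟪F.mR z, δ⟫_ℝ = (⟪F.n 2 z, F.e 1 z⟫_ℝ)⁻¹ * ⟪F.n 2 z, rf (F.n 1 z) δ⟫_ℝ := by
    unfold mR
    rw [B1_inner_rf, hmi]
  have hx0' : fderiv ℝ (F.x 0) z ζ = -(fderiv ℝ (F.L 0) z ζ • F.e 0 z + F.L 0 z • δ) := by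
    rw [add_assoc] at hs0
    exact eq_neg_of_add_eq_zero_left hs0.symm
  have hL0 : fderiv ℝ (F.L 0) z ζ = -(F.L 0 z * ⟪F.mL z, δ⟫_ℝ) := by
    rw [hx0', inner_neg_right, inner_add_right, inner_smul_right, inner_smul_right,
      neg_eq_zero] at t0
    rw [hmL]
    field_simp
    linarith
  have hx0 : fderiv ℝ (F.x 0) z ζ = -(F.L 0 z • (δ - ⟪F.mL z, δ⟫_ℝ • F.e 0 z)) := by
    rw [hx0', hL0, smul_sub, smul_smul, neg_smul]; abel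
  have hL1 : fderiv ℝ (F.L 1) z ζ = -(F.L 1 z * ⟪F.mR z, δ⟫_ℝ) := by
    rw [hs1, inner_add_right, inner_smul_right, inner_smul_right] at t2
    rw [hmR]
    field_simp
    linarith
  have hr1 : F.e 1 z = rf (F.n 1 z) (F.e 0 z) := F.refl 0 z hz
  have hx2 : fderiv ℝ (F.x 2) z ζ =
      F.L 1 z • rf (F.n 1 z) (δ - ⟪F.mR z, δ⟫_ℝ • F.e 0 z) := by
    rw [hs1, hL1, B1_rf_sub, B1_rf_smul, ← hr1, smul_sub, smul_smul, neg_smul]; abel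
  have hc1v : F.c 1 z = ⟪F.n 1 z, F.e 0 z⟫_ℝ := by
    unfold c
    rw [F.B1_ne hz 0, neg_neg]
  have hc2v : F.c 2 z = ⟪F.n 2 z, F.e 1 z⟫_ℝ := by
    unfold c
    rw [F.B1_ne hz 1, neg_neg]
  have hdn0 : fderiv ℝ (F.n 0) z ζ =
      F.L 0 z • F.S 0 z (δ - ⟪F.mL z, δ⟫_ℝ • F.e 0 z) := by
    rw [F.njac 0 z hz, hx0, map_neg, neg_neg, map_smul]
  have hdn2 : fderiv ℝ (F.n 2) z ζ =
      -(F.L 1 z • F.S 2 z (rf (F.n 1 z) δ - ⟪F.mi 1 z, rf (F.n 1 z) δ⟫_ℝ • F.e 1 z)) := by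
    rw [F.njac 2 z hz, hx2, map_smul, B1_rf_sub, B1_rf_smul, ← hr1, hmR, hmi]
  refine ⟨ζ, hx1, hn1, hS1, he0, he1, hx0, hx2, hL0, hL1, ?_, ?_, ?_, ?_, F.B1_dP hz ζ⟩
  · have h : fderiv ℝ (F.c 1) z ζ = -fderiv ℝ (fun z => ⟪F.n 1 z, F.e 1 z⟫_ℝ) z ζ := by
      have h := ((F.dn 1 z hz).inner ℝ (F.de 1 z hz)).hasFDerivAt.neg.fderiv
      have h4 := congrArg (fun T : Z →L[ℝ] ℝ => T ζ) h
      exact h4
    rw [h, fderiv_inner_apply ℝ (F.dn 1 z hz) (F.de 1 z hz), hn1, inner_zero_left, add_zero, he1,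
      F.B1_n_rf hz 1, neg_neg, hc1v, hmC]
    field_simp
  · have h : fderiv ℝ F.mC z ζ = fderiv ℝ (fun z => (⟪F.n 1 z, F.e 0 z⟫_ℝ)⁻¹ • F.n 1 z) z ζ := rfl
    rw [h, B1_fd_norm (F.dn 1 z hz) (F.de 0 z hz) g1, hn1, he0, smul_zero, inner_zero_left,
      zero_add, zero_sub, hmC]
    have h2 : F.mC z = (⟪F.n 1 z, F.e 0 z⟫_ℝ)⁻¹ • F.n 1 z := rfl
    rw [h2, smul_smul]
    congr 2
    ring
  · have h : fderiv ℝ F.mL z ζ = fderiv ℝ (fun z => (⟪F.n 0 z, F.e 0 z⟫_ℝ)⁻¹ • F.n 0 z) z ζ := rfl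
    have hgL : F.gL z δ = (2 / F.c 0 z) • (F.S 0 z (δ - ⟪F.mL z, δ⟫_ℝ • F.e 0 z) -
        ⟪F.e 0 z, F.S 0 z (δ - ⟪F.mL z, δ⟫_ℝ • F.e 0 z)⟫_ℝ • F.mL z) := rfl
    have hc0v : F.c 0 z = -⟪F.n 0 z, F.e 0 z⟫_ℝ := rfl
    have h2 : F.mL z = (⟪F.n 0 z, F.e 0 z⟫_ℝ)⁻¹ • F.n 0 z := rfl
    rw [h, B1_fd_norm (F.dn 0 z hz) (F.de 0 z hz) g0, hdn0, he0, hgL, hc0v]
    set s := F.S 0 z (δ - ⟪F.mL z, δ⟫_ℝ • F.e 0 z) with hs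
    rw [hmL, h2, inner_smul_left, real_inner_comm (F.e 0 z) s]
    simp only [smul_smul, smul_sub, conj_trivial]
    set g := ⟪F.n 0 z, F.e 0 z⟫_ℝ with hg
    have k1 : F.L 0 z / 2 * (2 / -g) = -(g⁻¹ * F.L 0 z) := by field_simp
    rw [k1]
    module
  · have h : fderiv ℝ F.mR z ζ = rf (F.n 1 z) (fderiv ℝ (F.mi 1) z ζ) := by
      have hm : DifferentiableAt ℝ (F.mi 1) z :=
        (((F.dn 2 z hz).inner ℝ (F.de 1 z hz)).inv g2).smul (F.dn 2 z hz)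
      have hi : DifferentiableAt ℝ (fun z => 2 * ⟪F.n 1 z, F.mi 1 z⟫_ℝ) z :=
        ((F.dn 1 z hz).inner ℝ hm).const_mul 2
      have h := (hm.hasFDerivAt.sub (hi.hasFDerivAt.smul (F.dn 1 z hz).hasFDerivAt)).fderiv
      have h4 := congrArg (fun T : Z →L[ℝ] E => T ζ) h
      have h5 : fderiv ℝ F.mR z ζ = fderiv ℝ (F.mi 1) z ζ -
          ((2 * ⟪F.n 1 z, F.mi 1 z⟫_ℝ) • fderiv ℝ (F.n 1) z ζ +
            (fderiv ℝ (fun z => 2 * ⟪F.n 1 z, F.mi 1 z⟫_ℝ) z ζ) • F.n 1 z) := h4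
      have h6 : fderiv ℝ (fun z => 2 * ⟪F.n 1 z, F.mi 1 z⟫_ℝ) z ζ =
          2 * ⟪F.n 1 z, fderiv ℝ (F.mi 1) z ζ⟫_ℝ := by
        have h7 := (((F.dn 1 z hz).inner ℝ hm).hasFDerivAt.const_mul 2).fderiv
        have h8 := congrArg (fun T : Z →L[ℝ] ℝ => T ζ) h7
        have h9 : fderiv ℝ (fun z => 2 * ⟪F.n 1 z, F.mi 1 z⟫_ℝ) z ζ =
          2 * fderiv ℝ (fun z => ⟪F.n 1 z, F.mi 1 z⟫_ℝ) z ζ := h8
        rw [h9, fderiv_inner_apply ℝ (F.dn 1 z hz) hm, hn1, inner_zero_left, add_zero]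
      rw [h5, h6, hn1, smul_zero, zero_add, rf]
    have h1 : fderiv ℝ (F.mi 1) z ζ =
        fderiv ℝ (fun z => (⟪F.n 2 z, F.e 1 z⟫_ℝ)⁻¹ • F.n 2 z) z ζ := rfl
    have h2 : F.mi 1 z = (⟪F.n 2 z, F.e 1 z⟫_ℝ)⁻¹ • F.n 2 z := rfl
    have hgR : F.gR z δ = rf (F.n 1 z) ((2 / F.c 2 z) •
        (F.S 2 z (rf (F.n 1 z) δ - ⟪F.mi 1 z, rf (F.n 1 z) δ⟫_ℝ • F.e 1 z) -
        ⟪F.e 1 z, F.S 2 z (rf (F.n 1 z) δ - ⟪F.mi 1 z, rf (F.n 1 z) δ⟫_ℝ • F.e 1 z)⟫_ℝ •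
          F.mi 1 z)) := rfl
    have hmRv : F.mR z = rf (F.n 1 z) (F.mi 1 z) := rfl
    have hmR' : ⟪F.mR z, δ⟫_ℝ = ⟪F.mi 1 z, rf (F.n 1 z) δ⟫_ℝ := by rw [hmR, hmi]
    rw [h, hgR, hmR', hmRv, ← B1_rf_smul, ← B1_rf_smul, ← B1_rf_neg, ← B1_rf_sub]
    congr 1
    rw [h1, B1_fd_norm (F.dn 2 z hz) (F.de 1 z hz) g2, hdn2, he1, hc2v]
    set s := F.S 2 z (rf (F.n 1 z) δ - ⟪F.mi 1 z, rf (F.n 1 z) δ⟫_ℝ • F.e 1 z) with hs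
    rw [hmi, h2, inner_neg_left, inner_smul_left, real_inner_comm (F.e 1 z) s]
    simp only [smul_smul, smul_sub, conj_trivial]
    set g := ⟪F.n 2 z, F.e 1 z⟫_ℝ with hg
    have k1 : F.L 1 z / 2 * (2 / g) = g⁻¹ * F.L 1 z := by field_simp
    rw [k1]
    module

end Fam

end Pool.Agent.H721R2.Quart
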