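import Pool.Agent.H721R2.Quart.B1

set_option autoImplicit false

open MeasureTheory Set Filter Topology
open scoped InnerProductSpace

namespace Pool.Agent.H721R2.Quart

namespace Fam

variable {E Z : Type*} [NormedAddCommGroup E] [InnerProductSpace ℝ E]
  [NormedAddCommGroup Z] [NormedSpace ℝ Z] (F : Fam E Z) {z : Z}

/-- derivative along a line -/
theorem B3_line {G : Type*} [NormedAddCommGroup G] [NormedSpace ℝ G] {g : Z → G} {z : Z}
    (hg : DifferentiableAt ℝ g z) (ζ : Z) :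
    HasDerivAt (fun t : ℝ => g (z + t • ζ)) (fderiv ℝ g z ζ) 0 := by
  have h1 : HasDerivAt (fun t : ℝ => z + t • ζ) ζ 0 := by
    have := ((hasDerivAt_id (0 : ℝ)).smul_const ζ).const_add z
    simpa using this
  have h2 : HasFDerivAt g (fderiv ℝ g z) (z + (0 : ℝ) • ζ) := by
    rw [zero_smul, add_zero]; exact hg.hasFDerivAt
  exact h2.comp_hasDerivAt 0 h1

/-- B3 -/
theorem H_false (hz : z ∈ F.A) (hnu : F.fnu z ≠ 0) (h0 : F.fH z = 0)
    (h1 : fderiv ℝ F.fH z = 0) : False := by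
  have hee := F.ee 0 z hz
  have hnn := F.nn 1 z hz
  have hr := F.refl 0 z hz
  rw [zero_add] at hr
  set u := F.e 0 z with hu
  set n := F.n 1 z with hn
  set c := F.c 1 z with hc
  set S := F.S 1 z with hS
  have hcu : ⟪n, u⟫_ℝ = c := by
    have h : F.c 1 z = -⟪F.n 1 z, F.e 1 z⟫_ℝ := rfl
    rw [hc, h, hr, rf, inner_sub_right, inner_smul_right, ← hn, hnn]; ring
  have hc0 : c ≠ 0 := by
    have h : F.c 1 z = -⟪F.n 1 z, F.e 1 z⟫_ℝ := rfl
    rw [hc, h]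
    exact neg_ne_zero.2 (F.tr 1 z hz)
  obtain ⟨ζ, hp⟩ := F.exists_piv hz (δ := n - c • u) (by
    rw [inner_sub_right, inner_smul_right, hee, real_inner_comm, hcu]; ring)
  have hdP : DifferentiableAt ℝ F.P z := by
    unfold P
    exact (((F.dL 0 z hz).add (F.dL 1 z hz)).add (F.dL 2 z hz)).add (F.dL 3 z hz)
  have hdc : DifferentiableAt ℝ (F.c 1) z := by
    unfold Fam.c
    exact ((F.dn 1 z hz).inner ℝ (F.de 1 z hz)).neg
  have hP := B3_line hdP ζ
  have hcd := B3_line hdc ζ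
  have hed := B3_line (F.de 0 z hz) ζ
  have hSd := B3_line (F.dS 1 z hz) ζ
  rw [hp.P] at hP
  rw [hp.c1] at hcd
  rw [hp.e0] at hed
  rw [hp.S1] at hSd
  have hdH : DifferentiableAt ℝ F.fH z := by
    unfold fH
    exact (hdP.mul ((((F.dS 1 z hz).clm_apply (F.de 0 z hz))).inner ℝ (F.de 0 z hz))).add
      (((hdc.pow 3).const_mul 2).mul ((hdc.pow 2).const_sub 1))
  have hH := B3_line hdH ζ
  rw [h1] at hH
  have hH2 := (hP.mul (((hSd.clm_apply hed)).inner ℝ hed)).add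
      (((hcd.pow 3).const_mul 2).mul ((hcd.pow 2).const_sub 1))
  have e := HasDerivAt.unique hH hH2
  simp only [zero_smul, add_zero, _root_.zero_apply] at e
  have hSn : S n = 0 := F.Sn 1 z hz
  have hsy : ∀ v w, ⟪S v, w⟫_ℝ = ⟪v, S w⟫_ℝ := F.sym 1 z hz
  have hun : ⟪u, n⟫_ℝ = c := by rw [real_inner_comm, hcu]
  have hSun : ⟪S u, n⟫_ℝ = 0 := by rw [hsy, hSn, inner_zero_right]
  have hmC : ⟪F.mC z, n - c • u⟫_ℝ = (1 - c ^ 2) / c := by
    have h : F.mC z = (⟪n, u⟫_ℝ)⁻¹ • n := rfl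
    rw [h, hcu, inner_smul_left, inner_sub_right, inner_smul_right, hnn, hcu]
    simp only [conj_trivial]
    field_simp
  have hcX : F.c 1 z * ⟪F.mC z, n - c • u⟫_ℝ = 1 - c ^ 2 := by
    rw [hmC, ← hc]; field_simp
  have e1 : ⟪S u, n - c • u⟫_ℝ = -(c * ⟪S u, u⟫_ℝ) := by
    rw [inner_sub_right, inner_smul_right, hSun]; ring
  have e2 : ⟪S (n - c • u), u⟫_ℝ = -(c * ⟪S u, u⟫_ℝ) := by
    rw [map_sub, map_smul, hSn, inner_sub_left, inner_smul_left, inner_zero_left]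
    simp
  have h0' : F.P z * ⟪S u, u⟫_ℝ + 2 * c ^ 3 * (1 - c ^ 2) = 0 := h0
  have e3 : (0 : ℝ) = F.P z * (⟪S u, n - c • u⟫_ℝ + ⟪S (n - c • u), u⟫_ℝ) +
      (2 * (3 * c ^ 2 * (1 - c ^ 2)) * (1 - c ^ 2) +
        2 * c ^ 3 * -(2 * c * (1 - c ^ 2))) := by
    rw [hcX] at e
    simp only [Pi.pow_apply, zero_smul, add_zero, zero_mul, zero_add] at e
    have e' : (0 : ℝ) = F.P z * (⟪S u, n - c • u⟫_ℝ + ⟪S (n - c • u), u⟫_ℝ) +
      (2 * ((3 : ℕ) * c ^ (3 - 1) * (1 - c ^ 2)) * (1 - c ^ 2) +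
        2 * c ^ 3 * -((2 : ℕ) * c ^ (2 - 1) * (1 - c ^ 2))) := e
    rw [e']
    push_cast
    ring
  rw [e1, e2] at e3
  have e4 : c ^ 2 * (1 - c ^ 2) ^ 2 = 0 := by
    linear_combination (-1 / 6) * e3 + (c / 3) * h0'
  have e5 : 1 - c ^ 2 = 0 := by
    rcases mul_eq_zero.1 e4 with h | h
    · exact absurd h (pow_ne_zero 2 hc0)
    · exact pow_eq_zero_iff (two_ne_zero) |>.1 h
  have e6 : n - c • u = 0 := by
    rw [← inner_self_eq_zero (𝕜 := ℝ)]
    rw [inner_sub_left, inner_sub_right, inner_sub_right, inner_smul_left, inner_smul_right,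
      inner_smul_left, inner_smul_right, hnn, hcu, hun, hee]
    simp only [conj_trivial]
    linear_combination e5
  apply hnu
  have h : F.fnu z = (⟪n, u⟫_ℝ)⁻¹ • n - u := rfl
  rw [h, hcu, sub_eq_zero.1 e6, smul_smul, inv_mul_cancel₀ hc0, one_smul, sub_self]

end Fam

end Pool.Agent.H721R2.Quart
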