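import Pool.Agent.H721R2.Quart.B1

set_option autoImplicit false

open MeasureTheory Set Filter Topology
open scoped InnerProductSpace

namespace Pool.Agent.H721R2.Quart

namespace Fam

variable {E Z : Type*} [NormedAddCommGroup E] [InnerProductSpace ℝ E]
  [NormedAddCommGroup Z] [NormedSpace ℝ Z] (F : Fam E Z) {z : Z}

/-- derivative along a line -/
theorem B4_line {G : Type*} [NormedAddCommGroup G] [NormedSpace ℝ G] {g : Z → G} {z : Z}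
    (hg : DifferentiableAt ℝ g z) (ζ : Z) :
    HasDerivAt (fun t : ℝ => g (z + t • ζ)) (fderiv ℝ g z ζ) 0 := by
  have h1 : HasDerivAt (fun t : ℝ => z + t • ζ) ζ 0 := by
    have := ((hasDerivAt_id (0 : ℝ)).smul_const ζ).const_add z
    simpa using this
  have h2 : HasFDerivAt g (fderiv ℝ g z) (z + (0 : ℝ) • ζ) := by
    rw [zero_smul, add_zero]; exact hg.hasFDerivAt
  exact h2.comp_hasDerivAt 0 h1

/-- B4 -/
theorem U_of_T (hz : z ∈ F.A) (h0 : F.fT z = 0) (h1 : fderiv ℝ F.fT z = 0) {δ : E}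
    (hδ : ⟪F.e 0 z, δ⟫_ℝ = 0) : (2 : ℝ) • F.gC z δ = F.gR z δ + F.gL z δ := by
  have hee := F.ee 0 z hz
  have hnn := F.nn 1 z hz
  have hr := F.refl 0 z hz
  rw [zero_add] at hr
  have hcu : ⟪F.n 1 z, F.e 0 z⟫_ℝ = F.c 1 z := by
    have h : F.c 1 z = -⟪F.n 1 z, F.e 1 z⟫_ℝ := rfl
    rw [h, hr, rf, inner_sub_right, inner_smul_right, hnn]; ring
  have hc0 : F.c 1 z ≠ 0 := by
    have h : F.c 1 z = -⟪F.n 1 z, F.e 1 z⟫_ℝ := rfl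
    rw [h]
    exact neg_ne_zero.2 (F.tr 1 z hz)
  have hn1 : ⟪F.n 1 z, F.e 0 z⟫_ℝ ≠ 0 := by rw [hcu]; exact hc0
  have hn2 : ⟪F.n 2 z, F.e 1 z⟫_ℝ ≠ 0 := by
    have h2 := F.refl 1 z hz
    have h3 := F.tr 2 z hz
    rw [show (1 + 1 : ℕ) = 2 from rfl] at h2
    intro h
    apply h3
    rw [h2, rf, inner_sub_right, inner_smul_right, F.nn 2 z hz, h]; ring
  obtain ⟨ζ, hp⟩ := F.exists_piv hz hδ
  have hdc : DifferentiableAt ℝ (F.c 1) z := by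
    unfold Fam.c
    exact ((F.dn 1 z hz).inner ℝ (F.de 1 z hz)).neg
  have hdmC : DifferentiableAt ℝ F.mC z := by
    unfold mC mi
    exact (((F.dn 1 z hz).inner ℝ (F.de 0 z hz)).inv hn1).smul (F.dn 1 z hz)
  have hdmL : DifferentiableAt ℝ F.mL z := by
    unfold mL mo
    exact (((F.dn 0 z hz).inner ℝ (F.de 0 z hz)).inv (F.tr 0 z hz)).smul (F.dn 0 z hz)
  have hdmi : DifferentiableAt ℝ (F.mi 1) z := by
    unfold mi
    exact (((F.dn 2 z hz).inner ℝ (F.de 1 z hz)).inv hn2).smul (F.dn 2 z hz)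
  have hdmR : DifferentiableAt ℝ F.mR z := by
    unfold mR rf
    exact hdmi.sub ((((F.dn 1 z hz).inner ℝ hdmi).const_mul 2).smul (F.dn 1 z hz))
  have hL0 := B4_line (F.dL 0 z hz) ζ
  have hL1 := B4_line (F.dL 1 z hz) ζ
  have hcd := B4_line hdc ζ
  have hed := B4_line (F.de 0 z hz) ζ
  have hSd := B4_line (F.dS 1 z hz) ζ
  have hmC := B4_line hdmC ζ
  have hmL := B4_line hdmL ζ
  have hmR := B4_line hdmR ζ
  rw [hp.L0] at hL0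
  rw [hp.L1] at hL1
  rw [hp.c1] at hcd
  rw [hp.e0] at hed
  rw [hp.S1] at hSd
  rw [hp.mC] at hmC
  rw [hp.mL] at hmL
  rw [hp.mR] at hmR
  have hdT : DifferentiableAt ℝ F.fT z := by
    unfold fT
    simp only [div_eq_mul_inv]
    refine ((DifferentiableAt.smul ((((F.dL 0 z hz).const_mul 2).mul (F.dL 1 z hz)).mul
      (hdc.inv hc0))
      (((F.dS 1 z hz).clm_apply (F.de 0 z hz)).sub
        (((F.de 0 z hz).inner ℝ ((F.dS 1 z hz).clm_apply (F.de 0 z hz))).smul hdmC))).add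
      ((F.dL 0 z hz).smul (hdmR.sub hdmC))).add ((F.dL 1 z hz).smul (hdmL.sub hdmC))
  have hT := B4_line hdT ζ
  rw [h1] at hT
  have hc0' : F.c 1 (z + (0 : ℝ) • ζ) ≠ 0 := by rwa [zero_smul, add_zero]
  have hT2 := ((HasDerivAt.smul (((hL0.const_mul 2).mul hL1).div hcd hc0')
      ((hSd.clm_apply hed).sub ((hed.inner ℝ (hSd.clm_apply hed)).smul hmC))).add
      (hL0.smul (hmR.sub hmC))).add (hL1.smul (hmL.sub hmC))
  have e := HasDerivAt.unique hT hT2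
  simp only [Pi.div_apply, Pi.mul_apply, Pi.sub_apply, Pi.smul_apply', zero_smul, add_zero,
    _root_.zero_apply] at e
  have hsy : ∀ v w, ⟪F.S 1 z v, w⟫_ℝ = ⟪v, F.S 1 z w⟫_ℝ := F.sym 1 z hz
  have hgC : F.gC z δ = (2 / F.c 1 z) • (F.S 1 z (δ - ⟪F.mC z, δ⟫_ℝ • F.e 0 z) -
      ⟪F.e 0 z, F.S 1 z (δ - ⟪F.mC z, δ⟫_ℝ • F.e 0 z)⟫_ℝ • F.mC z) := rfl
  have h0' : (2 * F.L 0 z * F.L 1 z / F.c 1 z) •
      (F.S 1 z (F.e 0 z) - ⟪F.e 0 z, F.S 1 z (F.e 0 z)⟫_ℝ • F.mC z) +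
      F.L 0 z • (F.mR z - F.mC z) + F.L 1 z • (F.mL z - F.mC z) = 0 := h0
  have e' : (0 : E) = (2 * F.L 0 z * F.L 1 z / F.c 1 z) • (0 + (F.S 1 z) δ -
              (⟪F.e 0 z, (F.S 1 z) (F.e 0 z)⟫_ℝ • -(⟪F.mC z, δ⟫_ℝ • F.mC z) +
                (⟪F.e 0 z, 0 + (F.S 1 z) δ⟫_ℝ + ⟪δ, (F.S 1 z) (F.e 0 z)⟫_ℝ) • F.mC z)) +
          (((2 * -(F.L 0 z * ⟪F.mL z, δ⟫_ℝ) * F.L 1 z +
            2 * F.L 0 z * -(F.L 1 z * ⟪F.mR z, δ⟫_ℝ)) * F.c 1 z -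
                2 * F.L 0 z * F.L 1 z * (F.c 1 z * ⟪F.mC z, δ⟫_ℝ)) / F.c 1 z ^ 2) •
            ((F.S 1 z) (F.e 0 z) - ⟪F.e 0 z, (F.S 1 z) (F.e 0 z)⟫_ℝ • F.mC z) +
        (F.L 0 z • (-(⟪F.mR z, δ⟫_ℝ • F.mR z) - (F.L 1 z / 2) • F.gR z δ -
            -(⟪F.mC z, δ⟫_ℝ • F.mC z)) +
          -(F.L 0 z * ⟪F.mL z, δ⟫_ℝ) • (F.mR z - F.mC z)) +
      (F.L 1 z • (-(⟪F.mL z, δ⟫_ℝ • F.mL z) - (F.L 0 z / 2) • F.gL z δ -
            -(⟪F.mC z, δ⟫_ℝ • F.mC z)) +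
        -(F.L 1 z * ⟪F.mR z, δ⟫_ℝ) • (F.mL z - F.mC z)) := e
  have ht : ⟪δ, F.S 1 z (F.e 0 z)⟫_ℝ = ⟪F.e 0 z, F.S 1 z δ⟫_ℝ := by
    rw [← hsy, real_inner_comm]
  have hpair : (2 * F.L 0 z * F.L 1 z / F.c 1 z) * (⟪F.e 0 z, F.S 1 z δ⟫_ℝ -
      ⟪F.e 0 z, F.S 1 z (F.e 0 z)⟫_ℝ * ⟪F.mC z, δ⟫_ℝ) +
      F.L 0 z * (⟪F.mR z, δ⟫_ℝ - ⟪F.mC z, δ⟫_ℝ) +
      F.L 1 z * (⟪F.mL z, δ⟫_ℝ - ⟪F.mC z, δ⟫_ℝ) = 0 := by
    have := congrArg (fun v => ⟪v, δ⟫_ℝ) h0'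
    simp only [inner_add_left, inner_smul_left, inner_sub_left, inner_zero_left,
      conj_trivial] at this
    rw [hsy] at this
    exact this
  have hS1 : F.S 1 z (δ - ⟪F.mC z, δ⟫_ℝ • F.e 0 z) = F.S 1 z δ -
      ⟪F.mC z, δ⟫_ℝ • F.S 1 z (F.e 0 z) := by rw [map_sub, map_smul]
  rw [hS1, inner_sub_right, inner_smul_right] at hgC
  rw [ht, zero_add] at e'
  have hL0p := F.Lpos 0 z hz
  have hL1p := F.Lpos 1 z hz
  generalize F.gC z δ = gC at hgC ⊢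
  generalize F.gR z δ = gR at e' ⊢
  generalize F.gL z δ = gL at e' ⊢
  generalize ⟪F.mR z, δ⟫_ℝ = lR at *
  generalize ⟪F.mC z, δ⟫_ℝ = lC at *
  generalize ⟪F.mL z, δ⟫_ℝ = lL at *
  generalize ⟪F.e 0 z, F.S 1 z δ⟫_ℝ = t at *
  generalize ⟪F.e 0 z, F.S 1 z (F.e 0 z)⟫_ℝ = s at *
  generalize F.S 1 z (F.e 0 z) = Su at *
  generalize F.S 1 z δ = Sd at *
  generalize F.L 0 z = b at *
  generalize F.L 1 z = a at *
  generalize F.c 1 z = c at *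
  generalize F.mC z = m at *
  generalize F.mL z = mL at *
  generalize F.mR z = mR at *
  have key : (a * b) • ((2 : ℝ) • gC - (gR + gL)) = 0 := by
    have e1 : ((2 * -(b * lL) * a + 2 * b * -(a * lR)) * c - 2 * b * a * (c * lC)) / c ^ 2 =
      (-2 * a * b * (lL + lR + lC)) * c⁻¹ := by
      field_simp; ring
    rw [e1] at e'
    rw [div_eq_mul_inv] at hgC e' h0' hpair
    generalize c⁻¹ = ci at *
    rw [hgC]
    linear_combination (norm := module) (-2 : ℝ) • e' + (2 * (lL + lR)) • h0' + (2 * hpair) • m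
  rcases smul_eq_zero.1 key with h | h
  · exact absurd h (mul_pos hL1p hL0p).ne'
  · exact sub_eq_zero.1 h

end Fam

end Pool.Agent.H721R2.Quart
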