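import Pool.Agent.H721R2.Quart.B1

set_option autoImplicit false

open MeasureTheory Set Filter Topology
open scoped InnerProductSpace

namespace Pool.Agent.H721R2.Quart

section B5aux
variable {E : Type*} [NormedAddCommGroup E] [InnerProductSpace ℝ E]

theorem B5_line {Z W : Type*} [NormedAddCommGroup Z] [NormedSpace ℝ Z] [NormedAddCommGroup W]
    [NormedSpace ℝ W] {g : Z → W} {z : Z} (h : DifferentiableAt ℝ g z) (ζ : Z) :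
    HasDerivAt (fun t : ℝ => g (z + t • ζ)) (fderiv ℝ g z ζ) 0 := by
  have h1 : HasDerivAt (fun t : ℝ => z + t • ζ) ζ 0 := by
    have := ((hasDerivAt_id (0:ℝ)).smul_const ζ).const_add z
    simpa using this
  have h2 : HasFDerivAt g (fderiv ℝ g z) (z + (0:ℝ) • ζ) := by
    simpa using h.hasFDerivAt
  exact h2.comp_hasDerivAt (0:ℝ) h1

theorem B5_fg {U V W : ℝ → E} {U' V' W' : E} (hU : HasDerivAt U U' 0) (hV : HasDerivAt V V' 0)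
    (hW : HasDerivAt W W' 0) :
    HasDerivAt (fun t => ⟪V t, W t⟫_ℝ - ⟪V t, U t⟫_ℝ * ⟪W t, U t⟫_ℝ)
      ((⟪V 0, W'⟫_ℝ + ⟪V', W 0⟫_ℝ) - ((⟪V 0, U'⟫_ℝ + ⟪V', U 0⟫_ℝ) * ⟪W 0, U 0⟫_ℝ +
        ⟪V 0, U 0⟫_ℝ * (⟪W 0, U'⟫_ℝ + ⟪W', U 0⟫_ℝ))) 0 :=
  (hV.inner ℝ hW).sub ((hV.inner ℝ hU).mul (hW.inner ℝ hU))

theorem B5_Pi {U V M : ℝ → E} {U' V' M' : E} (hU : HasDerivAt U U' 0) (hV : HasDerivAt V V' 0)
    (hM : HasDerivAt M M' 0) :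
    HasDerivAt (fun t => V t - ⟪M t, V t⟫_ℝ • U t)
      (V' - (⟪M 0, V 0⟫_ℝ • U' + (⟪M 0, V'⟫_ℝ + ⟪M', V 0⟫_ℝ) • U 0)) 0 :=
  hV.sub ((hM.inner ℝ hV).smul hU)

theorem B5_fS {S : ℝ → E →L[ℝ] E} {V W : ℝ → E} {V' W' : E} (hS : HasDerivAt S 0 0)
    (hV : HasDerivAt V V' 0) (hW : HasDerivAt W W' 0) :
    HasDerivAt (fun t => ⟪S t (V t), W t⟫_ℝ) (⟪S 0 (V 0), W'⟫_ℝ + ⟪S 0 V', W 0⟫_ℝ) 0 := by
  have h1 : HasDerivAt (fun t => S t (V t)) (S 0 V') 0 := by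
    have := hS.clm_apply hV
    simpa using this
  exact h1.inner ℝ hW

theorem B5_fB {S : ℝ → E →L[ℝ] E} {U V W M : ℝ → E} {U' V' W' M' : E} {l0 l1 c : ℝ → ℝ}
    {l0' l1' c' : ℝ} (hS : HasDerivAt S 0 0) (hU : HasDerivAt U U' 0) (hV : HasDerivAt V V' 0)
    (hW : HasDerivAt W W' 0) (hM : HasDerivAt M M' 0) (h0 : HasDerivAt l0 l0' 0)
    (h1 : HasDerivAt l1 l1' 0) (hc : HasDerivAt c c' 0) :
    HasDerivAt (fun t => l0 t * l1 t * (2 * c t) *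
        ⟪S t (V t - ⟪M t, V t⟫_ℝ • U t), W t - ⟪M t, W t⟫_ℝ • U t⟫_ℝ +
        (l0 t + l1 t) * (⟪V t, W t⟫_ℝ - ⟪V t, U t⟫_ℝ * ⟪W t, U t⟫_ℝ))
      ((((l0' * l1 0 + l0 0 * l1') * (2 * c 0) + l0 0 * l1 0 * (2 * c')) *
        ⟪S 0 (V 0 - ⟪M 0, V 0⟫_ℝ • U 0), W 0 - ⟪M 0, W 0⟫_ℝ • U 0⟫_ℝ +
        l0 0 * l1 0 * (2 * c 0) *
        (⟪S 0 (V 0 - ⟪M 0, V 0⟫_ℝ • U 0),
            W' - (⟪M 0, W 0⟫_ℝ • U' + (⟪M 0, W'⟫_ℝ + ⟪M', W 0⟫_ℝ) • U 0)⟫_ℝ +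
          ⟪S 0 (V' - (⟪M 0, V 0⟫_ℝ • U' + (⟪M 0, V'⟫_ℝ + ⟪M', V 0⟫_ℝ) • U 0)),
            W 0 - ⟪M 0, W 0⟫_ℝ • U 0⟫_ℝ)) +
        ((l0' + l1') * (⟪V 0, W 0⟫_ℝ - ⟪V 0, U 0⟫_ℝ * ⟪W 0, U 0⟫_ℝ) +
        (l0 0 + l1 0) * ((⟪V 0, W'⟫_ℝ + ⟪V', W 0⟫_ℝ) - ((⟪V 0, U'⟫_ℝ + ⟪V', U 0⟫_ℝ) * ⟪W 0, U 0⟫_ℝ +
        ⟪V 0, U 0⟫_ℝ * (⟪W 0, U'⟫_ℝ + ⟪W', U 0⟫_ℝ))))) 0 :=
  (((h0.mul h1).mul (hc.const_mul 2)).mul (B5_fS hS (B5_Pi hU hV hM) (B5_Pi hU hW hM))).add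
    ((h0.add h1).mul (B5_fg hU hV hW))

/-- coordinates of the projections -/
theorem B5_coordPi {u i j m v d m' v' : E} {a b v1 v2 v0' v1' v2' x y : ℝ}
    (uu : ⟪u, u⟫_ℝ = 1) (hi : ⟪i, i⟫_ℝ = 1) (hj : ⟪j, j⟫_ℝ = 1) (hij : ⟪i, j⟫_ℝ = 0)
    (hiu : ⟪i, u⟫_ℝ = 0) (hju : ⟪j, u⟫_ℝ = 0) (hm : m = u + a • i + b • j)
    (hv : v = u + v1 • i + v2 • j) (hd : d = x • i + y • j) (hm' : m' = -((a * x + b * y) • m))
    (hv' : v' = v0' • u + v1' • i + v2' • j) :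
    v - ⟪m, v⟫_ℝ • u = v1 • (i - a • u) + v2 • (j - b • u) ∧
    v' - (⟪m, v⟫_ℝ • d + (⟪m, v'⟫_ℝ + ⟪m', v⟫_ℝ) • u) =
      (v1' - (1 + a * v1 + b * v2) * x) • (i - a • u) +
      (v2' - (1 + a * v1 + b * v2) * y) • (j - b • u) := by
  have hji : ⟪j, i⟫_ℝ = 0 := by rw [real_inner_comm]; exact hij
  have hui : ⟪u, i⟫_ℝ = 0 := by rw [real_inner_comm]; exact hiu
  have huj : ⟪u, j⟫_ℝ = 0 := by rw [real_inner_comm]; exact hju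
  have e1 : ⟪m, v⟫_ℝ = 1 + a * v1 + b * v2 := by
    rw [hm, hv]
    simp only [inner_add_left, inner_add_right, inner_smul_left, inner_smul_right, uu, hi, hj, hij,
      hji, hui, huj, hiu, hju]
    simp
    ring
  have e2 : ⟪m, v'⟫_ℝ = v0' + a * v1' + b * v2' := by
    rw [hm, hv']
    simp only [inner_add_left, inner_add_right, inner_smul_left, inner_smul_right, uu, hi, hj, hij,
      hji, hui, huj, hiu, hju]
    simp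
    ring
  have e3 : ⟪m', v⟫_ℝ = -((a * x + b * y) * (1 + a * v1 + b * v2)) := by
    rw [hm', inner_neg_left, inner_smul_left, e1]
    simp
  constructor
  · rw [e1, hv]
    module
  · rw [e1, e2, e3, hv', hd]
    module

/-- values of the forms in coordinates -/
theorem B5_val {u i j v w : E} {v1 v2 w1 w2 : ℝ}
    (uu : ⟪u, u⟫_ℝ = 1) (hi : ⟪i, i⟫_ℝ = 1) (hj : ⟪j, j⟫_ℝ = 1) (hij : ⟪i, j⟫_ℝ = 0)
    (hiu : ⟪i, u⟫_ℝ = 0) (hju : ⟪j, u⟫_ℝ = 0)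
    (hv : v = u + v1 • i + v2 • j) (hw : w = u + w1 • i + w2 • j) :
    ⟪v, w⟫_ℝ - ⟪v, u⟫_ℝ * ⟪w, u⟫_ℝ = v1 * w1 + v2 * w2 := by
  have hji : ⟪j, i⟫_ℝ = 0 := by rw [real_inner_comm]; exact hij
  have hui : ⟪u, i⟫_ℝ = 0 := by rw [real_inner_comm]; exact hiu
  have huj : ⟪u, j⟫_ℝ = 0 := by rw [real_inner_comm]; exact hju
  rw [hv, hw]
  simp only [inner_add_left, inner_add_right, inner_smul_left, inner_smul_right, uu, hi, hj, hij,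
      hji, hui, huj, hiu, hju]
  simp
  ring

theorem B5_val' {u i j v w v' w' d : E} {v1 v2 w1 w2 v0' v1' v2' w0' w1' w2' x y : ℝ}
    (uu : ⟪u, u⟫_ℝ = 1) (hi : ⟪i, i⟫_ℝ = 1) (hj : ⟪j, j⟫_ℝ = 1) (hij : ⟪i, j⟫_ℝ = 0)
    (hiu : ⟪i, u⟫_ℝ = 0) (hju : ⟪j, u⟫_ℝ = 0)
    (hv : v = u + v1 • i + v2 • j) (hw : w = u + w1 • i + w2 • j) (hd : d = x • i + y • j)
    (hv' : v' = v0' • u + v1' • i + v2' • j) (hw' : w' = w0' • u + w1' • i + w2' • j) :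
    ((⟪v, w'⟫_ℝ + ⟪v', w⟫_ℝ) - ((⟪v, d⟫_ℝ + ⟪v', u⟫_ℝ) * ⟪w, u⟫_ℝ +
        ⟪v, u⟫_ℝ * (⟪w, d⟫_ℝ + ⟪w', u⟫_ℝ))) =
      (v1' - x) * w1 + (v2' - y) * w2 + v1 * (w1' - x) + v2 * (w2' - y) := by
  have hji : ⟪j, i⟫_ℝ = 0 := by rw [real_inner_comm]; exact hij
  have hui : ⟪u, i⟫_ℝ = 0 := by rw [real_inner_comm]; exact hiu
  have huj : ⟪u, j⟫_ℝ = 0 := by rw [real_inner_comm]; exact hju
  rw [hv, hw, hv', hw', hd]
  simp only [inner_add_left, inner_add_right, inner_smul_left, inner_smul_right, uu, hi, hj, hij,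
      hji, hui, huj, hiu, hju]
  simp
  ring

/-- the form `S` in coordinates -/
theorem B5_valS {S : E →L[ℝ] E} {I J : E} {t11 t12 t22 : ℝ} (h11 : ⟪S I, I⟫_ℝ = t11)
    (h12 : ⟪S I, J⟫_ℝ = t12) (h21 : ⟪S J, I⟫_ℝ = t12) (h22 : ⟪S J, J⟫_ℝ = t22) (v1 v2 w1 w2 : ℝ) :
    ⟪S (v1 • I + v2 • J), w1 • I + w2 • J⟫_ℝ =
      t11 * (v1 * w1) + t12 * (v1 * w2 + v2 * w1) + t22 * (v2 * w2) := by
  rw [map_add, map_smul, map_smul]
  simp only [inner_add_left, inner_add_right, inner_smul_left, inner_smul_right, h11, h12, h21, h22]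
  simp
  ring

end B5aux

namespace Fam

variable {E Z : Type*} [NormedAddCommGroup E] [InnerProductSpace ℝ E]
  [NormedAddCommGroup Z] [NormedSpace ℝ Z] (F : Fam E Z) {z : Z}

theorem B5_tri (hz : z ∈ F.A) (k : ℕ) : ⟪F.n (k + 1) z, F.e k z⟫_ℝ ≠ 0 := by
  have h1 := F.tr (k + 1) z hz
  rw [F.refl k z hz] at h1
  intro h
  apply h1
  unfold rf
  rw [inner_sub_right, inner_smul_right, h]
  ring

theorem B5_c (hz : z ∈ F.A) : F.c 1 z = ⟪F.n 1 z, F.e 0 z⟫_ℝ := by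
  unfold c
  rw [F.refl 0 z hz]
  unfold rf
  rw [inner_sub_right, inner_smul_right, F.nn 1 z hz]
  ring

theorem B5_dmo (hz : z ∈ F.A) (k : ℕ) : DifferentiableAt ℝ (F.mo k) z := by
  have h1 := F.dn k z hz
  have h2 := F.de k z hz
  exact ((h1.inner ℝ h2).inv (F.tr k z hz)).smul h1

theorem B5_dmi (hz : z ∈ F.A) (k : ℕ) : DifferentiableAt ℝ (F.mi k) z := by
  have h1 := F.dn (k + 1) z hz
  have h2 := F.de k z hz
  exact ((h1.inner ℝ h2).inv (F.B5_tri hz k)).smul h1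

theorem B5_dc (hz : z ∈ F.A) (k : ℕ) : DifferentiableAt ℝ (F.c k) z :=
  ((F.dn k z hz).inner ℝ (F.de k z hz)).neg

theorem B5_dtau (hz : z ∈ F.A) : DifferentiableAt ℝ F.ftau z := by
  have hU := F.de 0 z hz
  have hS := F.dS 1 z hz
  have h0 := F.dL 0 z hz
  have h1 := F.dL 1 z hz
  have hc := F.B5_dc hz 1
  have hM : DifferentiableAt ℝ F.mC z := F.B5_dmi hz 0
  have hg : ∀ V W : Z → E, DifferentiableAt ℝ V z → DifferentiableAt ℝ W z →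
      DifferentiableAt ℝ (fun z => F.fg z (V z) (W z)) z := fun V W hV hW =>
    (hV.inner ℝ hW).sub ((hV.inner ℝ hU).mul (hW.inner ℝ hU))
  have hB : ∀ V W : Z → E, DifferentiableAt ℝ V z → DifferentiableAt ℝ W z →
      DifferentiableAt ℝ (fun z => F.fB z (V z) (W z)) z := fun V W hV hW =>
    (((h0.mul h1).mul (hc.const_mul 2)).mul
      ((hS.clm_apply (hV.sub ((hM.inner ℝ hV).smul hU))).inner ℝ
        (hW.sub ((hM.inner ℝ hW).smul hU)))).add ((h0.add h1).mul (hg V W hV hW))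
  have hL : DifferentiableAt ℝ F.mL z := F.B5_dmo hz 0
  exact (((hB _ _ hM hM).mul (hg _ _ hL hL)).sub (((hB _ _ hM hL).const_mul 2).mul
    (hg _ _ hM hL))).add ((hB _ _ hL hL).mul (hg _ _ hM hM))

/-- the direction `x i + y j` -/
theorem B5_dir (hz : z ∈ F.A) (h1 : fderiv ℝ F.ftau z = 0) {i j : E}
    (hi : ⟪i, i⟫_ℝ = 1) (hj : ⟪j, j⟫_ℝ = 1) (hij : ⟪i, j⟫_ℝ = 0)
    (hiu : ⟪i, F.e 0 z⟫_ℝ = 0) (hju : ⟪j, F.e 0 z⟫_ℝ = 0) {a b a' b' : ℝ}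
    (hC : F.mC z - F.e 0 z = a • i + b • j) (hL : F.mL z - F.e 0 z = a' • i + b' • j)
    (hdet : a * b' - a' * b ≠ 0) (htr : F.fB z i i + F.fB z j j = 0) {x y γ1 γ2 : ℝ}
    (hgL : F.gL z (x • i + y • j) = γ1 • i + γ2 • j) {ζ : Z} (hp : F.Piv z ζ (x • i + y • j)) :
    ⟪F.fT z, x • i + y • j⟫_ℝ = 0 := by
  have uu := F.ee 0 z hz
  have hji : ⟪j, i⟫_ℝ = 0 := by rw [real_inner_comm]; exact hij
  have hui : ⟪F.e 0 z, i⟫_ℝ = 0 := by rw [real_inner_comm]; exact hiu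
  have huj : ⟪F.e 0 z, j⟫_ℝ = 0 := by rw [real_inner_comm]; exact hju
  have hC' : F.mC z = F.e 0 z + a • i + b • j := by
    rw [add_assoc, ← hC]; abel
  have hL' : F.mL z = F.e 0 z + a' • i + b' • j := by
    rw [add_assoc, ← hL]; abel
  have lamC : ⟪F.mC z, x • i + y • j⟫_ℝ = a * x + b * y := by
    rw [hC']
    simp only [inner_add_left, inner_add_right, inner_smul_left, inner_smul_right, hi, hj, hij,
      hji, hui, huj]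
    simp
    ring
  have lamL : ⟪F.mL z, x • i + y • j⟫_ℝ = a' * x + b' * y := by
    rw [hL']
    simp only [inner_add_left, inner_add_right, inner_smul_left, inner_smul_right, hi, hj, hij,
      hji, hui, huj]
    simp
    ring
  obtain ⟨r, hr⟩ : ∃ r, ⟪F.mR z, x • i + y • j⟫_ℝ = r := ⟨_, rfl⟩
  obtain ⟨d, hd⟩ : ∃ d, d = x • i + y • j := ⟨_, rfl⟩
  rw [← hd] at lamC lamL hr hp hgL ⊢
  -- the functions along the line
  have dU := B5_line (F.de 0 z hz) ζ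
  rw [hp.e0] at dU
  have dS := B5_line (F.dS 1 z hz) ζ
  rw [hp.S1] at dS
  have d0 := B5_line (F.dL 0 z hz) ζ
  rw [hp.L0, lamL] at d0
  have d1 := B5_line (F.dL 1 z hz) ζ
  rw [hp.L1, hr] at d1
  have dc := B5_line (F.B5_dc hz 1) ζ
  rw [hp.c1, lamC] at dc
  have dC : HasDerivAt (fun t : ℝ => F.mC (z + t • ζ)) _ 0 := B5_line (F.B5_dmi hz 0) ζ
  rw [show fderiv ℝ (F.mi 0) z ζ = _ from hp.mC, lamC] at dC
  have dL : HasDerivAt (fun t : ℝ => F.mL (z + t • ζ)) _ 0 := B5_line (F.B5_dmo hz 0) ζ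
  rw [show fderiv ℝ (F.mo 0) z ζ = _ from hp.mL, lamL, hgL] at dL
  have dtau := B5_line (F.B5_dtau hz) ζ
  have D := (((B5_fB dS dU dC dC dC d0 d1 dc).mul (B5_fg dU dL dL)).sub
    (((B5_fB dS dU dC dL dC d0 d1 dc).const_mul 2).mul (B5_fg dU dC dL))).add
    ((B5_fB dS dU dL dL dC d0 d1 dc).mul (B5_fg dU dC dC))
  have key := dtau.unique D
  rw [h1] at key
  simp only [zero_smul, add_zero] at key
  obtain ⟨p', hp'⟩ : ∃ p', p' = -((a * x + b * y) • F.mC z) := ⟨_, rfl⟩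
  obtain ⟨q', hq'⟩ : ∃ q', q' = -((a' * x + b' * y) • F.mL z) -
    (F.L 0 z / 2) • (γ1 • i + γ2 • j) := ⟨_, rfl⟩
  rw [← hp', ← hq'] at key
  have ep' : p' = (-(a * x + b * y)) • F.e 0 z + (-(a * x + b * y) * a) • i +
      (-(a * x + b * y) * b) • j := by
    rw [hp', hC']; module
  have eq' : q' = (-(a' * x + b' * y)) • F.e 0 z + (-(a' * x + b' * y) * a' - F.L 0 z / 2 * γ1) • i +
      (-(a' * x + b' * y) * b' - F.L 0 z / 2 * γ2) • j := by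
    rw [hq', hL']; module
  obtain ⟨cP1, cP2⟩ := B5_coordPi uu hi hj hij hiu hju hC' hC' hd hp' ep'
  obtain ⟨cQ1, cQ2⟩ := B5_coordPi uu hi hj hij hiu hju hC' hL' hd hp' eq'
  obtain ⟨t11, h11⟩ : ∃ t, ⟪F.S 1 z (i - a • F.e 0 z), i - a • F.e 0 z⟫_ℝ = t := ⟨_, rfl⟩
  obtain ⟨t12, h12⟩ : ∃ t, ⟪F.S 1 z (i - a • F.e 0 z), j - b • F.e 0 z⟫_ℝ = t := ⟨_, rfl⟩
  obtain ⟨t22, h22⟩ : ∃ t, ⟪F.S 1 z (j - b • F.e 0 z), j - b • F.e 0 z⟫_ℝ = t := ⟨_, rfl⟩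
  have h21 : ⟪F.S 1 z (j - b • F.e 0 z), i - a • F.e 0 z⟫_ℝ = t12 := by
    rw [F.sym 1 z hz, real_inner_comm]; exact h12
  have fS := B5_valS h11 h12 h21 h22
  rw [cP1, cQ1, cP2, cQ2] at key
  rw [B5_val uu hi hj hij hiu hju hC' hC', B5_val uu hi hj hij hiu hju hC' hL',
    B5_val uu hi hj hij hiu hju hL' hL', B5_val' uu hi hj hij hiu hju hC' hC' hd ep' ep',
    B5_val' uu hi hj hij hiu hju hC' hL' hd ep' eq', B5_val' uu hi hj hij hiu hju hL' hL' hd eq' eq']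
    at key
  simp only [fS] at key
  -- the trace
  have hCi : ⟪F.mC z, i⟫_ℝ = a := by
    rw [hC']
    simp only [inner_add_left, inner_smul_left, hi, hji, hui]
    simp
  have hCj : ⟪F.mC z, j⟫_ℝ = b := by
    rw [hC']
    simp only [inner_add_left, inner_smul_left, hj, hij, huj]
    simp
  have htr' : F.L 0 z * F.L 1 z * (2 * F.c 1 z) * (t11 + t22) + 2 * (F.L 0 z + F.L 1 z) = 0 := by
    unfold fB fg at htr
    rw [hCi, hCj, h11, h22, hi, hj, hiu, hju] at htr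
    linear_combination htr
  -- the form `S`
  have hnn := F.nn 1 z hz
  have hne := F.B5_tri hz 0
  have hSC : F.S 1 z (F.mC z) = 0 := by
    unfold mC mi
    rw [map_smul, F.Sn 1 z hz, smul_zero]
  have hCC : ⟪F.mC z, F.mC z⟫_ℝ = 1 + a ^ 2 + b ^ 2 := by
    rw [hC']
    simp only [inner_add_left, inner_add_right, inner_smul_left, inner_smul_right, uu, hi, hj, hij,
      hji, hui, huj, hiu, hju]
    simp
    ring
  have hc := F.B5_c hz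
  have hcne : F.c 1 z ≠ 0 := by rw [hc]; exact hne
  have hc0 : F.c 1 z ^ 2 * (1 + a ^ 2 + b ^ 2) = 1 := by
    rw [← hCC]
    unfold mC mi
    rw [inner_smul_left, inner_smul_right, hnn, ← hc]
    simp
    field_simp
  have hT : t11 * (x * a) + t12 * (x * b + y * a) + t22 * (y * b) =
      -((1 + a ^ 2 + b ^ 2) * (⟪F.S 1 z (F.e 0 z), d⟫_ℝ -
        (a * x + b * y) * ⟪F.e 0 z, F.S 1 z (F.e 0 z)⟫_ℝ)) := by
    rw [← fS x y a b]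
    have e1 : x • (i - a • F.e 0 z) + y • (j - b • F.e 0 z) = d - (a * x + b * y) • F.e 0 z := by
      rw [hd]; module
    have e2 : a • (i - a • F.e 0 z) + b • (j - b • F.e 0 z) =
        F.mC z - (1 + a ^ 2 + b ^ 2) • F.e 0 z := by
      rw [hC']; module
    rw [e1, e2, F.sym 1 z hz, map_sub, hSC, map_smul, inner_sub_right, inner_zero_right,
      inner_smul_right, inner_sub_left, inner_smul_left, real_inner_comm]
    simp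
  have hfT : ⟪F.fT z, d⟫_ℝ = 2 * F.L 0 z * F.L 1 z / F.c 1 z *
      (⟪F.S 1 z (F.e 0 z), d⟫_ℝ - ⟪F.e 0 z, F.S 1 z (F.e 0 z)⟫_ℝ * (a * x + b * y)) +
      F.L 0 z * (r - (a * x + b * y)) + F.L 1 z * ((a' * x + b' * y) - (a * x + b * y)) := by
    unfold fT
    rw [inner_add_left, inner_add_left, inner_smul_left, inner_smul_left, inner_smul_left,
      inner_sub_left, inner_sub_left, inner_sub_left, inner_smul_left, lamC, lamL, hr]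
    simp
  obtain ⟨X, hX⟩ : ∃ X, X = ⟪F.S 1 z (F.e 0 z), d⟫_ℝ -
        (a * x + b * y) * ⟪F.e 0 z, F.S 1 z (F.e 0 z)⟫_ℝ := ⟨_, rfl⟩
  rw [← hX] at hT
  have hfT2 : ⟪F.fT z, d⟫_ℝ = -(2 * F.L 0 z * F.L 1 z * F.c 1 z *
      (t11 * (x * a) + t12 * (x * b + y * a) + t22 * (y * b))) +
      F.L 0 z * (r - (a * x + b * y)) + F.L 1 z * ((a' * x + b' * y) - (a * x + b * y)) := by
    rw [hfT, hT, show ⟪F.S 1 z (F.e 0 z), d⟫_ℝ - ⟪F.e 0 z, F.S 1 z (F.e 0 z)⟫_ℝ * (a * x + b * y) =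
      X by rw [hX]; ring]
    field_simp
    linear_combination (-2 * F.L 0 z * F.L 1 z * X) * hc0
  have fin : (a * b' - a' * b) ^ 2 * ⟪F.fT z, d⟫_ℝ = 0 := by
    rw [hfT2]
    have key' : (0 : ℝ) = _ := key
    linear_combination (-1 / 2) * key' - (1 / 2) * (2 * (a * b' - a' * b) *
      ((-(a * x + b * y) * a - x) * b' + a * (-(a' * x + b' * y) * b' - F.L 0 z / 2 * γ2 - y)
        - (-(a' * x + b' * y) * a' - F.L 0 z / 2 * γ1 - x) * b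
        - a' * (-(a * x + b * y) * b - y)) +
      (a * b' - a' * b) ^ 2 * ((a * x + b * y) - (a' * x + b' * y) - r)) * htr'
  exact (mul_eq_zero.mp fin).resolve_left (pow_ne_zero 2 hdet)

/-- `gL` is orthogonal to `u` -/
theorem B5_gLu (hz : z ∈ F.A) (v : E) : ⟪F.gL z v, F.e 0 z⟫_ℝ = 0 := by
  have h : ⟪F.mo 0 z, F.e 0 z⟫_ℝ = 1 := by
    unfold mo
    rw [inner_smul_left]
    simp [F.tr 0 z hz]
  unfold gL go gam
  rw [inner_smul_left, inner_sub_left, inner_smul_left, h, real_inner_comm]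
  simp

theorem B5_span {v u i j : E} (hi : ⟪i, i⟫_ℝ = 1) (hj : ⟪j, j⟫_ℝ = 1) (hij : ⟪i, j⟫_ℝ = 0)
    (hiu : ⟪i, u⟫_ℝ = 0) (hju : ⟪j, u⟫_ℝ = 0) (hv : ⟪v, u⟫_ℝ = 0)
    (h : ∀ f, ⟪f, u⟫_ℝ = 0 → ⟪f, i⟫_ℝ = 0 → ⟪f, j⟫_ℝ = 0 → ⟪v, f⟫_ℝ = 0) :
    v = ⟪v, i⟫_ℝ • i + ⟪v, j⟫_ℝ • j := by
  have hji : ⟪j, i⟫_ℝ = 0 := by rw [real_inner_comm]; exact hij
  obtain ⟨f, hf⟩ : ∃ f, f = v - (⟪v, i⟫_ℝ • i + ⟪v, j⟫_ℝ • j) := ⟨_, rfl⟩
  have f1 : ⟪f, u⟫_ℝ = 0 := by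
    rw [hf, inner_sub_left, inner_add_left, inner_smul_left, inner_smul_left, hiu, hju, hv]
    simp
  have f2 : ⟪f, i⟫_ℝ = 0 := by
    rw [hf, inner_sub_left, inner_add_left, inner_smul_left, inner_smul_left, hi, hji]
    simp
  have f3 : ⟪f, j⟫_ℝ = 0 := by
    rw [hf, inner_sub_left, inner_add_left, inner_smul_left, inner_smul_left, hj, hij]
    simp
  have f4 := h f f1 f2 f3
  have f5 : ⟪f, f⟫_ℝ = 0 := by
    have e : ⟪f, f⟫_ℝ = ⟪v, f⟫_ℝ - (⟪v, i⟫_ℝ * ⟪f, i⟫_ℝ + ⟪v, j⟫_ℝ * ⟪f, j⟫_ℝ) := by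
      have e0 : ⟪f, f⟫_ℝ = ⟪v - (⟪v, i⟫_ℝ • i + ⟪v, j⟫_ℝ • j), f⟫_ℝ :=
        congrArg (fun w => ⟪w, f⟫_ℝ) hf
      rw [e0, inner_sub_left, inner_add_left, inner_smul_left, inner_smul_left,
        real_inner_comm f i, real_inner_comm f j]
      simp
    rw [e, f2, f3, f4]; ring
  rw [inner_self_eq_zero] at f5
  rw [f5] at hf
  exact (sub_eq_zero.mp hf.symm)

/-- B5 with B1 as a hypothesis -/
theorem B5_main (hpiv : ∀ δ : E, ⟪F.e 0 z, δ⟫_ℝ = 0 → ∃ ζ, F.Piv z ζ δ)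
    (hz : z ∈ F.A) (_h0 : F.ftau z = 0) (h1 : fderiv ℝ F.ftau z = 0) {i j : E}
    (hi : ⟪i, i⟫_ℝ = 1) (hj : ⟪j, j⟫_ℝ = 1) (hij : ⟪i, j⟫_ℝ = 0)
    (hiu : ⟪i, F.e 0 z⟫_ℝ = 0) (hju : ⟪j, F.e 0 z⟫_ℝ = 0) {a b a' b' : ℝ}
    (hC : F.mC z - F.e 0 z = a • i + b • j) (hL : F.mL z - F.e 0 z = a' • i + b' • j)
    (hdet : a * b' - a' * b ≠ 0) (htr : F.fB z i i + F.fB z j j = 0)
    (hinv : ∀ f, ⟪f, F.e 0 z⟫_ℝ = 0 → ⟪f, i⟫_ℝ = 0 → ⟪f, j⟫_ℝ = 0 →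
      ⟪F.gL z i, f⟫_ℝ = 0 ∧ ⟪F.gL z j, f⟫_ℝ = 0 ∧ F.fB z i f = 0 ∧ F.fB z j f = 0 ∧
      ⟪F.mR z, f⟫_ℝ = 0) : F.fT z = 0 := by
  have uu := F.ee 0 z hz
  have hji : ⟪j, i⟫_ℝ = 0 := by rw [real_inner_comm]; exact hij
  have hui : ⟪F.e 0 z, i⟫_ℝ = 0 := by rw [real_inner_comm]; exact hiu
  have huj : ⟪F.e 0 z, j⟫_ℝ = 0 := by rw [real_inner_comm]; exact hju
  have hC' : F.mC z = F.e 0 z + a • i + b • j := by
    rw [add_assoc, ← hC]; abel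
  have hL' : F.mL z = F.e 0 z + a' • i + b' • j := by
    rw [add_assoc, ← hL]; abel
  have Ti : ⟪F.fT z, i⟫_ℝ = 0 := by
    obtain ⟨ζ, hp⟩ := hpiv i hui
    have e : (1:ℝ) • i + (0:ℝ) • j = i := by simp
    have hg : F.gL z ((1:ℝ) • i + (0:ℝ) • j) = ⟪F.gL z i, i⟫_ℝ • i + ⟪F.gL z i, j⟫_ℝ • j := by
      rw [e]
      exact B5_span hi hj hij hiu hju (F.B5_gLu hz i) (fun f f1 f2 f3 => (hinv f f1 f2 f3).1)
    have := F.B5_dir hz h1 hi hj hij hiu hju hC hL hdet htr hg (by rw [e]; exact hp)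
    rwa [e] at this
  have Tj : ⟪F.fT z, j⟫_ℝ = 0 := by
    obtain ⟨ζ, hp⟩ := hpiv j huj
    have e : (0:ℝ) • i + (1:ℝ) • j = j := by simp
    have hg : F.gL z ((0:ℝ) • i + (1:ℝ) • j) = ⟪F.gL z j, i⟫_ℝ • i + ⟪F.gL z j, j⟫_ℝ • j := by
      rw [e]
      exact B5_span hi hj hij hiu hju (F.B5_gLu hz j) (fun f f1 f2 f3 => (hinv f f1 f2 f3).2.1)
    have := F.B5_dir hz h1 hi hj hij hiu hju hC hL hdet htr hg (by rw [e]; exact hp)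
    rwa [e] at this
  have hCu : ⟪F.mC z, F.e 0 z⟫_ℝ = 1 := by
    rw [hC', inner_add_left, inner_add_left, inner_smul_left, inner_smul_left, uu, hiu, hju]
    simp
  have hLu : ⟪F.mL z, F.e 0 z⟫_ℝ = 1 := by
    rw [hL', inner_add_left, inner_add_left, inner_smul_left, inner_smul_left, uu, hiu, hju]
    simp
  have hRu : ⟪F.mR z, F.e 0 z⟫_ℝ = 1 := by
    have h2 : ⟪rf (F.n 1 z) (F.mi 1 z), F.e 0 z⟫_ℝ = ⟪F.mi 1 z, rf (F.n 1 z) (F.e 0 z)⟫_ℝ := by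
      unfold rf
      rw [inner_sub_left, inner_sub_right, inner_smul_left, inner_smul_right,
        real_inner_comm (F.mi 1 z) (F.n 1 z)]
      simp
      ring
    unfold mR
    rw [h2]
    have h3 : rf (F.n 1 z) (F.e 0 z) = F.e 1 z := (F.refl 0 z hz).symm
    rw [h3]
    unfold mi
    rw [inner_smul_left]
    simp [F.B5_tri hz 1]
  have Tu : ⟪F.fT z, F.e 0 z⟫_ℝ = 0 := by
    unfold fT
    rw [inner_add_left, inner_add_left, inner_smul_left, inner_smul_left, inner_smul_left,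
      inner_sub_left, inner_sub_left, inner_sub_left, inner_smul_left, hCu, hLu, hRu,
      real_inner_comm]
    simp
  obtain ⟨f, hf⟩ : ∃ f, f = F.fT z := ⟨_, rfl⟩
  rw [← hf] at Ti Tj Tu ⊢
  obtain ⟨-, -, k3, k4, k5⟩ := hinv f Tu Ti Tj
  have huf : ⟪F.e 0 z, f⟫_ℝ = 0 := by rw [real_inner_comm]; exact Tu
  have hif : ⟪i, f⟫_ℝ = 0 := by rw [real_inner_comm]; exact Ti
  have hjf : ⟪j, f⟫_ℝ = 0 := by rw [real_inner_comm]; exact Tj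
  have hCf : ⟪F.mC z, f⟫_ℝ = 0 := by
    rw [hC', inner_add_left, inner_add_left, inner_smul_left, inner_smul_left, huf, hif, hjf]
    simp
  have hLf : ⟪F.mL z, f⟫_ℝ = 0 := by
    rw [hL', inner_add_left, inner_add_left, inner_smul_left, inner_smul_left, huf, hif, hjf]
    simp
  have hCi : ⟪F.mC z, i⟫_ℝ = a := by
    rw [hC']
    simp only [inner_add_left, inner_smul_left, hi, hji, hui]
    simp
  have hCj : ⟪F.mC z, j⟫_ℝ = b := by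
    rw [hC']
    simp only [inner_add_left, inner_smul_left, hj, hij, huj]
    simp
  have hne := F.B5_tri hz 0
  have hcne : F.c 1 z ≠ 0 := by rw [F.B5_c hz]; exact hne
  have hK : F.L 0 z * F.L 1 z * (2 * F.c 1 z) ≠ 0 :=
    mul_ne_zero (mul_ne_zero (F.Lpos 0 z hz).ne' (F.Lpos 1 z hz).ne')
      (mul_ne_zero two_ne_zero hcne)
  have hSC : F.S 1 z (F.mC z) = 0 := by
    unfold mC mi
    rw [map_smul, F.Sn 1 z hz, smul_zero]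
  unfold fB fg at k3 k4
  rw [hCi, hCf, hif, Tu, hiu] at k3
  rw [hCj, hCf, hjf, Tu, hju] at k4
  have m3 : ⟪F.S 1 z i, f⟫_ℝ = a * ⟪F.S 1 z (F.e 0 z), f⟫_ℝ := by
    have e3 : F.L 0 z * F.L 1 z * (2 * F.c 1 z) * (⟪F.S 1 z i, f⟫_ℝ -
        a * ⟪F.S 1 z (F.e 0 z), f⟫_ℝ) = 0 := by
      rw [← k3]
      simp only [zero_smul, sub_zero, map_sub, map_smul, inner_sub_left, inner_smul_left]
      simp
    have := (mul_eq_zero.mp e3).resolve_left hK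
    linarith
  have m4 : ⟪F.S 1 z j, f⟫_ℝ = b * ⟪F.S 1 z (F.e 0 z), f⟫_ℝ := by
    have e3 : F.L 0 z * F.L 1 z * (2 * F.c 1 z) * (⟪F.S 1 z j, f⟫_ℝ -
        b * ⟪F.S 1 z (F.e 0 z), f⟫_ℝ) = 0 := by
      rw [← k4]
      simp only [zero_smul, sub_zero, map_sub, map_smul, inner_sub_left, inner_smul_left]
      simp
    have := (mul_eq_zero.mp e3).resolve_left hK
    linarith
  have m5 : (1 + a ^ 2 + b ^ 2) * ⟪F.S 1 z (F.e 0 z), f⟫_ℝ = 0 := by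
    have e4 : ⟪F.S 1 z (F.mC z), f⟫_ℝ = 0 := by rw [hSC, inner_zero_left]
    rw [hC', map_add, map_add, map_smul, map_smul, inner_add_left, inner_add_left,
      inner_smul_left, inner_smul_left, m3, m4] at e4
    simp at e4
    linear_combination e4
  have m6 : ⟪F.S 1 z (F.e 0 z), f⟫_ℝ = 0 :=
    (mul_eq_zero.mp m5).resolve_left (by positivity)
  have Tf : ⟪f, f⟫_ℝ = 0 := by
    have e0 : ⟪f, f⟫_ℝ = ⟪F.fT z, f⟫_ℝ := congrArg (fun w => ⟪w, f⟫_ℝ) hf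
    rw [e0]
    unfold fT
    rw [inner_add_left, inner_add_left, inner_smul_left, inner_smul_left, inner_smul_left,
      inner_sub_left, inner_sub_left, inner_sub_left, inner_smul_left, hCf, hLf, k5, m6]
    simp
  exact inner_self_eq_zero.mp Tf

/-- B5 -/
theorem T_of_tau (hz : z ∈ F.A) (h0 : F.ftau z = 0) (h1 : fderiv ℝ F.ftau z = 0) {i j : E}
    (hi : ⟪i, i⟫_ℝ = 1) (hj : ⟪j, j⟫_ℝ = 1) (hij : ⟪i, j⟫_ℝ = 0)
    (hiu : ⟪i, F.e 0 z⟫_ℝ = 0) (hju : ⟪j, F.e 0 z⟫_ℝ = 0) {a b a' b' : ℝ}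
    (hC : F.mC z - F.e 0 z = a • i + b • j) (hL : F.mL z - F.e 0 z = a' • i + b' • j)
    (hdet : a * b' - a' * b ≠ 0) (htr : F.fB z i i + F.fB z j j = 0)
    (hinv : ∀ f, ⟪f, F.e 0 z⟫_ℝ = 0 → ⟪f, i⟫_ℝ = 0 → ⟪f, j⟫_ℝ = 0 →
      ⟪F.gL z i, f⟫_ℝ = 0 ∧ ⟪F.gL z j, f⟫_ℝ = 0 ∧ F.fB z i f = 0 ∧ F.fB z j f = 0 ∧
      ⟪F.mR z, f⟫_ℝ = 0) : F.fT z = 0 :=
  F.B5_main (fun _ hδ => F.exists_piv hz hδ) hz h0 h1 hi hj hij hiu hju hC hL hdet htr hinv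

end Fam

end Pool.Agent.H721R2.Quart
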