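import Pool.Agent.H721R2.Quart.B1

set_option autoImplicit false

open MeasureTheory Set Filter Topology
open scoped InnerProductSpace

namespace Pool.Agent.H721R2.Quart

namespace Fam

variable {E Z : Type*} [NormedAddCommGroup E] [InnerProductSpace ℝ E]
  [NormedAddCommGroup Z] [NormedSpace ℝ Z] (F : Fam E Z) {z : Z}

theorem B2_line {V : Type*} [NormedAddCommGroup V] [NormedSpace ℝ V] {g : Z → V}
    (hg : DifferentiableAt ℝ g z) (ζ : Z) :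
    HasDerivAt (fun t : ℝ => g (z + t • ζ)) (fderiv ℝ g z ζ) 0 := by
  have h1 : HasDerivAt (fun t : ℝ => z + t • ζ) ζ 0 := by
    simpa using ((hasDerivAt_id (0:ℝ)).smul_const ζ).const_add z
  have h2 : HasFDerivAt g (fderiv ℝ g z) (z + (0:ℝ) • ζ) := by simpa using hg.hasFDerivAt
  exact h2.comp_hasDerivAt 0 h1

theorem B2_ne01 (hz : z ∈ F.A) : ⟪F.n 1 z, F.e 0 z⟫_ℝ ≠ 0 := by
  have h1 := F.refl 0 z hz
  have h2 := F.tr 1 z hz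
  have h3 := F.nn 1 z hz
  have h4 : ⟪F.n 1 z, F.e 1 z⟫_ℝ = -⟪F.n 1 z, F.e 0 z⟫_ℝ := by
    have h1' : F.e 1 z = rf (F.n 1 z) (F.e 0 z) := by simpa using h1
    rw [h1', rf, inner_sub_right, inner_smul_right, h3]
    ring
  intro h
  rw [h4, h] at h2
  simp at h2

theorem B2_dmC (hz : z ∈ F.A) : DifferentiableAt ℝ F.mC z := by
  have h : DifferentiableAt ℝ (fun z => (⟪F.n (0+1) z, F.e 0 z⟫_ℝ)⁻¹ • F.n (0+1) z) z :=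
    (((F.dn 1 z hz).inner ℝ (F.de 0 z hz)).inv (F.B2_ne01 hz)).smul (F.dn 1 z hz)
  exact h

theorem B2_dmL (hz : z ∈ F.A) : DifferentiableAt ℝ F.mL z := by
  have h : DifferentiableAt ℝ (fun z => (⟪F.n 0 z, F.e 0 z⟫_ℝ)⁻¹ • F.n 0 z) z :=
    (((F.dn 0 z hz).inner ℝ (F.de 0 z hz)).inv (F.tr 0 z hz)).smul (F.dn 0 z hz)
  exact h

/-- B2 -/
theorem nu_ne (hz : z ∈ F.A) (hg : F.Good z) (hd : ∃ w : E, w ≠ 0 ∧ ⟪F.e 0 z, w⟫_ℝ = 0) :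
    F.fnu z ≠ 0 := by
  intro h0
  obtain ⟨w, hw0, hw⟩ := hd
  obtain ⟨ζ, hp⟩ := F.exists_piv hz hw
  have h1 := hg.nu h0
  have h2 : fderiv ℝ F.fnu z = fderiv ℝ F.mC z - fderiv ℝ (F.e 0) z :=
    fderiv_sub (F.B2_dmC hz) (F.de 0 z hz)
  have h3 : fderiv ℝ F.fnu z ζ = 0 := by rw [h1]; rfl
  have h4 : F.mC z = F.e 0 z := sub_eq_zero.mp h0
  rw [h2] at h3
  have h5 : fderiv ℝ F.mC z ζ - fderiv ℝ (F.e 0) z ζ = 0 := h3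
  rw [hp.mC, hp.e0, h4, hw] at h5
  simp at h5
  exact hw0 h5

/-- B6 -/
theorem plan_eigen (hz : z ∈ F.A) (hnu : F.fnu z ≠ 0) (h0 : F.fplan z = 0)
    (h1 : fderiv ℝ F.fplan z = 0) :
    ∃ σ : ℝ, ∀ w, ⟪F.e 0 z, w⟫_ℝ = 0 → ⟪F.n 1 z, w⟫_ℝ = 0 → F.S 0 z w = σ • w := by
  have hne := F.B2_ne01 hz
  have hne0 := F.tr 0 z hz
  have huu := F.ee 0 z hz
  have hLp := F.Lpos 0 z hz
  have hmCe : F.mC z = (⟪F.n 1 z, F.e 0 z⟫_ℝ)⁻¹ • F.n 1 z := rfl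
  have hmLe : F.mL z = (⟪F.n 0 z, F.e 0 z⟫_ℝ)⁻¹ • F.n 0 z := rfl
  have hmCu : ⟪F.e 0 z, F.mC z⟫_ℝ = 1 := by
    rw [hmCe, inner_smul_right, real_inner_comm (F.n 1 z), inv_mul_cancel₀ hne]
  have hmLu : ⟪F.e 0 z, F.mL z⟫_ℝ = 1 := by
    rw [hmLe, inner_smul_right, real_inner_comm (F.n 0 z), inv_mul_cancel₀ hne0]
  have hdC := F.B2_dmC hz
  have hdL := F.B2_dmL hz
  have hde := F.de 0 z hz
  set νC := F.mC z - F.e 0 z with hνC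
  set νL := F.mL z - F.e 0 z with hνL
  have hνC0 : νC ≠ 0 := hnu
  have hC2 : ⟪νC, νC⟫_ℝ ≠ 0 := fun h => hνC0 (inner_self_eq_zero.mp h)
  have hfp : ⟪νC, νC⟫_ℝ • νL - ⟪νL, νC⟫_ℝ • νC = 0 := h0
  have hνL' : νL = (⟪νL, νC⟫_ℝ / ⟪νC, νC⟫_ℝ) • νC := by
    have h2 : ⟪νC, νC⟫_ℝ • νL = ⟪νL, νC⟫_ℝ • νC := sub_eq_zero.mp hfp
    calc νL = (⟪νC, νC⟫_ℝ)⁻¹ • (⟪νC, νC⟫_ℝ • νL) := by
            rw [smul_smul, inv_mul_cancel₀ hC2, one_smul]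
      _ = _ := by rw [h2, smul_smul]; congr 1; field_simp
  have hνCu : ⟪F.e 0 z, νC⟫_ℝ = 0 := by
    rw [hνC, inner_sub_right, hmCu, huu, sub_self]
  have hdf : DifferentiableAt ℝ F.fplan z := by
    have : DifferentiableAt ℝ (fun z => ⟪F.mC z - F.e 0 z, F.mC z - F.e 0 z⟫_ℝ • (F.mL z - F.e 0 z)
      - ⟪F.mL z - F.e 0 z, F.mC z - F.e 0 z⟫_ℝ • (F.mC z - F.e 0 z)) z :=
      (((hdC.sub hde).inner ℝ (hdC.sub hde)).smul (hdL.sub hde)).sub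
        (((hdL.sub hde).inner ℝ (hdC.sub hde)).smul (hdC.sub hde))
    exact this
  -- the derivative of `fplan`
  have key : ∀ ζ : Z, (0 : E) =
      ⟪νC, νC⟫_ℝ • (fderiv ℝ F.mL z ζ - fderiv ℝ (F.e 0) z ζ) +
      (⟪νC, fderiv ℝ F.mC z ζ - fderiv ℝ (F.e 0) z ζ⟫_ℝ +
        ⟪fderiv ℝ F.mC z ζ - fderiv ℝ (F.e 0) z ζ, νC⟫_ℝ) • νL -
      (⟪νL, νC⟫_ℝ • (fderiv ℝ F.mC z ζ - fderiv ℝ (F.e 0) z ζ) +
       (⟪νL, fderiv ℝ F.mC z ζ - fderiv ℝ (F.e 0) z ζ⟫_ℝ +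
        ⟪fderiv ℝ F.mL z ζ - fderiv ℝ (F.e 0) z ζ, νC⟫_ℝ) • νC) := by
    intro ζ
    have lC := (B2_line hdC ζ).sub (B2_line hde ζ)
    have lL := (B2_line hdL ζ).sub (B2_line hde ζ)
    have hf := B2_line hdf ζ
    have hf2 := ((lC.inner ℝ lC).smul lL).sub ((lL.inner ℝ lC).smul lC)
    have hu := hf.unique hf2
    rw [h1] at hu
    simpa using hu
  have gLsym : ∀ v w, ⟪F.gL z v, w⟫_ℝ = ⟪v, F.gL z w⟫_ℝ := by
    intro v w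
    show ⟪gam (F.c 0 z) (F.S 0 z) (F.mo 0 z) (F.e 0 z) v, w⟫_ℝ =
      ⟪v, gam (F.c 0 z) (F.S 0 z) (F.mo 0 z) (F.e 0 z) w⟫_ℝ
    unfold gam
    have hs := F.sym 0 z hz
    have hm : ∀ a b : E, ⟪(2 / F.c 0 z) • (F.S 0 z (a - ⟪F.mo 0 z, a⟫_ℝ • F.e 0 z)
        - ⟪F.e 0 z, F.S 0 z (a - ⟪F.mo 0 z, a⟫_ℝ • F.e 0 z)⟫_ℝ • F.mo 0 z), b⟫_ℝ =
        (2 / F.c 0 z) * ⟪F.S 0 z (a - ⟪F.mo 0 z, a⟫_ℝ • F.e 0 z),
          b - ⟪F.mo 0 z, b⟫_ℝ • F.e 0 z⟫_ℝ := by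
      intro a b
      rw [inner_smul_left, inner_sub_left, inner_smul_left, inner_sub_right, inner_smul_right,
        real_inner_comm (F.e 0 z) (F.S 0 z (a - ⟪F.mo 0 z, a⟫_ℝ • F.e 0 z))]
      simp
      left
      ring
    rw [hm v w, real_inner_comm _ v, hm w v, hs, real_inner_comm]
  refine ⟨(F.c 0 z / 2) * ((2 / F.L 0 z) * (⟪νL, νC⟫_ℝ / ⟪νC, νC⟫_ℝ - 1)), fun w hwu hwn => ?_⟩
  have hwmC : ⟪F.mC z, w⟫_ℝ = 0 := by rw [hmCe, inner_smul_left, hwn, mul_zero]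
  have hwνC : ⟪νC, w⟫_ℝ = 0 := by rw [hνC, inner_sub_left, hwmC, hwu, sub_zero]
  have hwνL : ⟪νL, w⟫_ℝ = 0 := by rw [hνL', inner_smul_left, hwνC, mul_zero]
  have hwmL : ⟪F.mL z, w⟫_ℝ = 0 := by
    have : F.mL z = νL + F.e 0 z := by rw [hνL]; abel
    rw [this, inner_add_left, hwνL, hwu, add_zero]
  have hwn0 : ⟪F.n 0 z, w⟫_ℝ = 0 := by
    have h2 := hwmL
    rw [hmLe, inner_smul_left] at h2
    rcases mul_eq_zero.mp h2 with h3 | h3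
    · exfalso
      simp at h3
      exact hne0 h3
    · exact h3
  -- pivot in the direction `νC`
  have hortho : ⟪F.gL z w, νC⟫_ℝ = 0 := by
    obtain ⟨ζ, hp⟩ := F.exists_piv hz hνCu
    have hk := key ζ
    rw [hp.mC, hp.mL, hp.e0] at hk
    have hk2 := congrArg (fun v => ⟪v, w⟫_ℝ) hk
    simp only [inner_zero_left, inner_sub_left, inner_add_left, inner_smul_left, hwνC, hwνL,
      hwmL, hwmC, inner_neg_left, mul_zero, neg_zero, sub_zero, add_zero, zero_sub] at hk2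
    simp only [conj_trivial] at hk2
    have h3 : ⟪F.gL z νC, w⟫_ℝ = 0 := by
      have h4 : ⟪νC, νC⟫_ℝ * (F.L 0 z / 2 * ⟪F.gL z νC, w⟫_ℝ) = 0 := by linarith
      rcases mul_eq_zero.mp h4 with h5 | h5
      · exact absurd h5 hC2
      · rcases mul_eq_zero.mp h5 with h6 | h6
        · exfalso; linarith
        · exact h6
    rw [gLsym, real_inner_comm, h3]
  obtain ⟨ζ, hp⟩ := F.exists_piv hz hwu
  have hk : (0 : E) = ⟪νC, νC⟫_ℝ • (-((F.L 0 z / 2) • F.gL z w) - w) + ⟪νL, νC⟫_ℝ • w := by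
    have h2 := key ζ
    rw [hp.mC, hp.mL, hp.e0, hwmC, hwmL] at h2
    have i1 : ⟪νC, -((0:ℝ) • F.mC z) - w⟫_ℝ = 0 := by simp [hwνC]
    have i1' : ⟪-((0:ℝ) • F.mC z) - w, νC⟫_ℝ = 0 := by rw [real_inner_comm]; exact i1
    have i2 : ⟪νL, -((0:ℝ) • F.mC z) - w⟫_ℝ = 0 := by simp [hwνL]
    have i3 : ⟪-((0:ℝ) • F.mL z) - (F.L 0 z / 2) • F.gL z w - w, νC⟫_ℝ = 0 := by
      rw [inner_sub_left, inner_sub_left, inner_smul_left, hortho, real_inner_comm νC w, hwνC]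
      simp
    rw [i1, i1', i2, i3] at h2
    rw [h2]
    module
  have hgw : F.gL z w = ((2 / F.L 0 z) * (⟪νL, νC⟫_ℝ / ⟪νC, νC⟫_ℝ - 1)) • w := by
    have h2 : (⟪νC, νC⟫_ℝ * (F.L 0 z / 2)) • F.gL z w = (⟪νL, νC⟫_ℝ - ⟪νC, νC⟫_ℝ) • w := by
      have h3 : (⟪νC, νC⟫_ℝ * (F.L 0 z / 2)) • F.gL z w - (⟪νL, νC⟫_ℝ - ⟪νC, νC⟫_ℝ) • w =
        -(⟪νC, νC⟫_ℝ • (-((F.L 0 z / 2) • F.gL z w) - w) + ⟪νL, νC⟫_ℝ • w) := by module
      rw [← hk, neg_zero] at h3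
      exact sub_eq_zero.mp h3
    have h4 : ⟪νC, νC⟫_ℝ * (F.L 0 z / 2) ≠ 0 := mul_ne_zero hC2 (by positivity)
    calc F.gL z w = (⟪νC, νC⟫_ℝ * (F.L 0 z / 2))⁻¹ •
          ((⟪νC, νC⟫_ℝ * (F.L 0 z / 2)) • F.gL z w) := by
            rw [smul_smul, inv_mul_cancel₀ h4, one_smul]
      _ = _ := by
            rw [h2, smul_smul]
            congr 1
            field_simp
  have hgw2 : F.gL z w = (2 / F.c 0 z) • (F.S 0 z w - ⟪F.e 0 z, F.S 0 z w⟫_ℝ • F.mL z) := by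
    show (2 / F.c 0 z) • (F.S 0 z (w - ⟪F.mL z, w⟫_ℝ • F.e 0 z) -
      ⟪F.e 0 z, F.S 0 z (w - ⟪F.mL z, w⟫_ℝ • F.e 0 z)⟫_ℝ • F.mL z) = _
    rw [hwmL, zero_smul, sub_zero]
  have hc0 : F.c 0 z ≠ 0 := by
    show -⟪F.n 0 z, F.e 0 z⟫_ℝ ≠ 0
    exact neg_ne_zero.mpr hne0
  have hSwu : ⟪F.e 0 z, F.S 0 z w⟫_ℝ = 0 := by
    have h2 : ⟪F.gL z w, F.n 0 z⟫_ℝ = 0 := by
      rw [hgw, inner_smul_left, real_inner_comm (F.n 0 z) w, hwn0, mul_zero]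
    rw [hgw2, inner_smul_left, inner_sub_left, inner_smul_left, F.sym 0 z hz, F.Sn 0 z hz,
      inner_zero_right, hmLe, inner_smul_left, F.nn 0 z hz] at h2
    simp only [conj_trivial, mul_one, zero_sub] at h2
    rcases mul_eq_zero.mp h2 with h3 | h3
    · exfalso
      exact (div_ne_zero two_ne_zero hc0) h3
    · rw [neg_eq_zero] at h3
      rcases mul_eq_zero.mp h3 with h4 | h4
      · exact h4
      · exact absurd h4 (inv_ne_zero hne0)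
  rw [hSwu, zero_smul, sub_zero] at hgw2
  rw [hgw2] at hgw
  calc F.S 0 z w = (F.c 0 z / 2) • ((2 / F.c 0 z) • F.S 0 z w) := by
        rw [smul_smul]
        have : F.c 0 z / 2 * (2 / F.c 0 z) = 1 := by field_simp
        rw [this, one_smul]
    _ = _ := by rw [hgw, smul_smul]

end Fam

end Pool.Agent.H721R2.Quart
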