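import Pool.Agent.H721R2.Quart.B1

set_option autoImplicit false

open MeasureTheory Set Filter Topology
open scoped InnerProductSpace

namespace Pool.Agent.H721R2.Quart

namespace Fam

variable {E Z : Type*} [NormedAddCommGroup E] [InnerProductSpace ℝ E]
  [NormedAddCommGroup Z] [NormedSpace ℝ Z] (F : Fam E Z) {z : Z}

theorem B7_line {V : Type*} [NormedAddCommGroup V] [NormedSpace ℝ V] {g : Z → V}
    (hg : DifferentiableAt ℝ g z) (ζ : Z) :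
    HasDerivAt (fun t : ℝ => g (z + t • ζ)) (fderiv ℝ g z ζ) 0 := by
  have h1 : HasDerivAt (fun t : ℝ => z + t • ζ) ζ 0 := by
    simpa using ((hasDerivAt_id (0:ℝ)).smul_const ζ).const_add z
  have h2 : HasFDerivAt g (fderiv ℝ g z) (z + (0:ℝ) • ζ) := by simpa using hg.hasFDerivAt
  exact h2.comp_hasDerivAt 0 h1

theorem B7_ne01 (hz : z ∈ F.A) : ⟪F.n 1 z, F.e 0 z⟫_ℝ ≠ 0 ∧ F.c 1 z = ⟪F.n 1 z, F.e 0 z⟫_ℝ := by
  have h1 := F.refl 0 z hz
  have h2 := F.tr 1 z hz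
  have h3 := F.nn 1 z hz
  have h4 : ⟪F.n 1 z, F.e 1 z⟫_ℝ = -⟪F.n 1 z, F.e 0 z⟫_ℝ := by
    have h1' : F.e 1 z = rf (F.n 1 z) (F.e 0 z) := by simpa using h1
    rw [h1', rf, inner_sub_right, inner_smul_right, h3]
    ring
  constructor
  · intro h
    rw [h4, h] at h2
    simp at h2
  · rw [Fam.c, h4]
    ring

theorem B7_dc (hz : z ∈ F.A) (k : ℕ) : DifferentiableAt ℝ (F.c k) z := by
  unfold Fam.c
  exact ((F.dn k z hz).inner ℝ (F.de k z hz)).neg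

theorem B7_dmC (hz : z ∈ F.A) : DifferentiableAt ℝ F.mC z := by
  have h : DifferentiableAt ℝ (fun z => (⟪F.n (0+1) z, F.e 0 z⟫_ℝ)⁻¹ • F.n (0+1) z) z :=
    (((F.dn 1 z hz).inner ℝ (F.de 0 z hz)).inv (F.B7_ne01 hz).1).smul (F.dn 1 z hz)
  exact h

theorem B7_dmL (hz : z ∈ F.A) : DifferentiableAt ℝ F.mL z := by
  have h : DifferentiableAt ℝ (fun z => (⟪F.n 0 z, F.e 0 z⟫_ℝ)⁻¹ • F.n 0 z) z :=
    (((F.dn 0 z hz).inner ℝ (F.de 0 z hz)).inv (F.tr 0 z hz)).smul (F.dn 0 z hz)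
  exact h

/-- B7 -/
theorem umb_eigen (hz : z ∈ F.A) (h0 : F.fumb z = 0) (h1 : fderiv ℝ F.fumb z = 0) {σ : ℝ} {w : E}
    (hw : w ≠ 0) (hS : F.S 1 z w = σ • w) (hwe : ⟪F.e 0 z, w⟫_ℝ = 0)
    (hwn : ⟪F.n 1 z, w⟫_ℝ = 0) :
    ⟪F.S 1 z (F.e 0 z), F.e 0 z⟫_ℝ = σ * (1 - F.c 1 z ^ 2) := by
  obtain ⟨ζ, hp⟩ := F.exists_piv hz hwe
  have hc := B7_line (F.B7_dc hz 1) ζ
  have he := B7_line (F.de 0 z hz) ζ
  have hn := B7_line (F.dn 1 z hz) ζ
  have hSd := B7_line (F.dS 1 z hz) ζ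
  have hSe := hSd.clm_apply he
  have hmC : ⟪F.mC z, w⟫_ℝ = 0 := by
    show ⟪(⟪F.n (0+1) z, F.e 0 z⟫_ℝ)⁻¹ • F.n (0+1) z, w⟫_ℝ = 0
    rw [inner_smul_left]
    simp [hwn]
  have hdf : DifferentiableAt ℝ F.fumb z := by
    have : DifferentiableAt ℝ (fun z => (1 - F.c 1 z ^ 2) • F.S 1 z (F.e 0 z)
      - ⟪F.S 1 z (F.e 0 z), F.e 0 z⟫_ℝ • (F.e 0 z - F.c 1 z • F.n 1 z)) z := by
      have a1 := (F.dS 1 z hz).clm_apply (F.de 0 z hz)
      exact ((((F.B7_dc hz 1).pow 2).const_sub 1).smul a1).sub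
        ((a1.inner ℝ (F.de 0 z hz)).smul
          ((F.de 0 z hz).sub ((F.B7_dc hz 1).smul (F.dn 1 z hz))))
    exact this
  have hf := B7_line hdf ζ
  have hf2 := (((hc.pow 2).const_sub 1).smul hSe).sub
    ((hSe.inner ℝ he).smul (he.sub (hc.smul hn)))
  have hu := hf.unique hf2
  rw [h1] at hu
  have hsym : ⟪F.S 1 z (F.e 0 z), w⟫_ℝ = 0 := by
    rw [F.sym 1 z hz, hS, inner_smul_right, hwe, mul_zero]
  have hsym2 : ⟪F.S 1 z w, F.e 0 z⟫_ℝ = 0 := by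
    rw [hS, inner_smul_left, real_inner_comm, hwe, mul_zero]
  simp only [zero_smul, add_zero, hp.c1, hmC, hp.e0, hp.n1, hp.S1, mul_zero, smul_zero,
    ContinuousLinearMap.zero_apply, zero_add, neg_zero, sub_zero, hsym, hsym2] at hu
  rw [hS, smul_smul, ← sub_smul] at hu
  have := (smul_eq_zero.mp hu.symm).resolve_right hw
  simp only [Pi.pow_apply, zero_smul, add_zero] at this
  linarith

/-- B8 -/
theorem umb_zero (hz : z ∈ F.A) (hnu : F.fnu z ≠ 0) {σ : ℝ}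
    (h : ∀ w, ⟪F.e 0 z, w⟫_ℝ = 0 → ⟪F.n 1 z, w⟫_ℝ = 0 → F.S 1 z w = σ • w) :
    F.fumb z = 0 := by
  obtain ⟨hne, hc⟩ := F.B7_ne01 hz
  set c := F.c 1 z with hcdef
  set u := F.e 0 z with hu
  set n := F.n 1 z with hn
  set t := u - c • n with ht
  have hnn : ⟪n, n⟫_ℝ = 1 := F.nn 1 z hz
  have huu : ⟪u, u⟫_ℝ = 1 := F.ee 0 z hz
  have hSn : F.S 1 z n = 0 := F.Sn 1 z hz
  have htn : ⟪t, n⟫_ℝ = 0 := by
    rw [ht, inner_sub_left, inner_smul_left, hnn, real_inner_comm, ← hc]; simp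
  have htu : u = t + c • n := by rw [ht]; abel
  have htt : ⟪t, t⟫_ℝ = 1 - c ^ 2 := by
    have : ⟪u, u⟫_ℝ = ⟪t, t⟫_ℝ + c ^ 2 := by
      rw [htu, inner_add_left, inner_add_right, inner_add_right, inner_smul_left,
        inner_smul_left, inner_smul_right, inner_smul_right, hnn, htn, real_inner_comm t n, htn]
      simp
      ring
    linarith
  have hSt : F.S 1 z u = F.S 1 z t := by
    rw [htu, map_add, map_smul, hSn, smul_zero, add_zero]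
  have hne1 : 1 - c ^ 2 ≠ 0 := by
    intro h0
    rw [← htt] at h0
    have ht0 : t = 0 := inner_self_eq_zero.mp h0
    apply hnu
    show (⟪F.n (0+1) z, F.e 0 z⟫_ℝ)⁻¹ • F.n (0+1) z - F.e 0 z = 0
    show (⟪n, u⟫_ℝ)⁻¹ • n - u = 0
    rw [← hc]
    have hcne : c ≠ 0 := by rw [hc]; exact hne
    have h2 : u = c • n := by rw [htu, ht0, zero_add]
    have h3 : c * c = 1 := by
      have : ⟪t, t⟫_ℝ = 0 := h0
      rw [htt] at this
      nlinarith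
    rw [h2, ← sub_smul]
    have : c⁻¹ - c = 0 := by
      field_simp
      nlinarith
    rw [this, zero_smul]
  have hSun : ⟪F.S 1 z t, n⟫_ℝ = 0 := by
    rw [F.sym 1 z hz, hSn, inner_zero_right]
  set r := ⟪F.S 1 z t, t⟫_ℝ / (1 - c ^ 2) with hr
  set y := F.S 1 z t - r • t with hy
  have hyn : ⟪n, y⟫_ℝ = 0 := by
    rw [real_inner_comm, hy, inner_sub_left, inner_smul_left, hSun, htn]; simp
  have hyt : ⟪t, y⟫_ℝ = 0 := by
    rw [real_inner_comm, hy, inner_sub_left, inner_smul_left, htt, hr]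
    simp
    field_simp
    ring
  have hyu : ⟪u, y⟫_ℝ = 0 := by
    rw [htu, inner_add_left, inner_smul_left, hyt, hyn]; simp
  have hSy := h y hyu hyn
  have hyy : ⟪y, y⟫_ℝ = 0 := by
    have : ⟪y, y⟫_ℝ = ⟪F.S 1 z t, y⟫_ℝ - r * ⟪t, y⟫_ℝ := by
      conv_lhs => rw [hy, inner_sub_left, inner_smul_left]
      simp [hy]
    rw [this, hyt, F.sym 1 z hz, hSy, inner_smul_right, hyt]; ring
  have hy0 : y = 0 := inner_self_eq_zero.mp hyy
  have hSt2 : F.S 1 z t = r • t := by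
    have : F.S 1 z t - r • t = 0 := hy0
    exact sub_eq_zero.mp this
  show (1 - c ^ 2) • F.S 1 z u - ⟪F.S 1 z u, u⟫_ℝ • (u - c • n) = 0
  rw [hSt, ← ht]
  have : ⟪F.S 1 z t, u⟫_ℝ = ⟪F.S 1 z t, t⟫_ℝ := by
    rw [htu, inner_add_right, inner_smul_right, hSun]; ring
  rw [this, hSt2, inner_smul_left, htt, smul_smul, ← sub_smul]
  simp
  left
  ring

end Fam

end Pool.Agent.H721R2.Quart
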