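import Pool.Agent.H721R2.Quart.Def

set_option autoImplicit false

open MeasureTheory Set Filter Topology
open scoped InnerProductSpace

namespace Pool.Agent.H721R2.Quart

namespace Fam

variable {E Z : Type*} [NormedAddCommGroup E] [InnerProductSpace ℝ E]
  [NormedAddCommGroup Z] [NormedSpace ℝ Z] (F : Fam E Z) {z : Z}

theorem C1_cin (hz : z ∈ F.A) (k : ℕ) : ⟪F.n (k + 1) z, F.e k z⟫_ℝ = F.c (k + 1) z := by
  have hc : F.c (k + 1) z = -⟪F.n (k + 1) z, F.e (k + 1) z⟫_ℝ := rfl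
  rw [hc, F.refl k z hz]
  simp only [rf, inner_sub_right, inner_smul_right, F.nn (k + 1) z hz]
  ring

theorem C1_cne (hz : z ∈ F.A) (k : ℕ) : F.c k z ≠ 0 := by
  have hc : F.c k z = -⟪F.n k z, F.e k z⟫_ℝ := rfl
  rw [hc]; exact neg_ne_zero.2 (F.tr k z hz)

theorem C1_diff (hz : z ∈ F.A) (k : ℕ) :
    F.e (k + 1) z = F.e k z - (2 * F.c (k + 1) z) • F.n (k + 1) z := by
  rw [← F.C1_cin hz k]
  exact F.refl k z hz

theorem C1_ee (hz : z ∈ F.A) (k : ℕ) :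
    ⟪F.e k z, F.e (k + 1) z⟫_ℝ = 1 - 2 * F.c (k + 1) z ^ 2 := by
  rw [F.C1_diff hz k, inner_sub_right, inner_smul_right, F.ee k z hz,
    real_inner_comm, F.C1_cin hz k]
  ring

theorem C1_four (z : Z) :
    F.e 4 z = F.e 0 z ∧ F.n 4 z = F.n 0 z ∧ F.c 4 z = F.c 0 z ∧ F.x 4 z = F.x 0 z := by
  have he4 : F.e 4 = F.e 0 := by rw [show (4:ℕ) = 0 + 4 by rfl, F.pe]
  have hn4 : F.n 4 = F.n 0 := by rw [show (4:ℕ) = 0 + 4 by rfl, F.pn]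
  have hx4 : F.x 4 = F.x 0 := by rw [show (4:ℕ) = 0 + 4 by rfl, F.px]
  refine ⟨by rw [he4], by rw [hn4], ?_, by rw [hx4]⟩
  simp only [c, hn4, he4]

theorem C1_sum (hz : z ∈ F.A) :
    F.L 0 z • F.e 0 z + F.L 1 z • F.e 1 z + F.L 2 z • F.e 2 z + F.L 3 z • F.e 3 z = 0 := by
  have h0 : F.x 1 z = _ := F.step 0 z hz
  have h1 : F.x 2 z = _ := F.step 1 z hz
  have h2 : F.x 3 z = _ := F.step 2 z hz
  have h3 : F.x 4 z = _ := F.step 3 z hz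
  rw [(F.C1_four z).2.2.2, h2, h1, h0] at h3
  have h4 : F.x 0 z - F.x 0 z = F.L 0 z • F.e 0 z + F.L 1 z • F.e 1 z + F.L 2 z • F.e 2 z +
    F.L 3 z • F.e 3 z := by
    conv_lhs => lhs; rw [h3]
    abel
  rw [← h4, sub_self]

theorem C1_sq (hz : z ∈ F.A) (k : ℕ) :
    ⟪F.L k z • F.e k z + F.L (k + 1) z • F.e (k + 1) z,
      F.L k z • F.e k z + F.L (k + 1) z • F.e (k + 1) z⟫_ℝ =
      (F.L k z + F.L (k + 1) z) ^ 2 - 4 * F.L k z * F.L (k + 1) z * F.c (k + 1) z ^ 2 := by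
  simp only [inner_add_left, inner_add_right, inner_smul_left, inner_smul_right,
    RCLike.conj_to_real, F.ee k z hz, F.ee (k + 1) z hz]
  rw [real_inner_comm (F.e k z) (F.e (k + 1) z), F.C1_ee hz k]
  ring

/-- C1 -/
theorem A1_eq (hz : z ∈ F.A) :
    F.A1 z = (F.L 0 z + F.L 1 z) * F.P z - 4 * F.L 0 z * F.L 1 z * F.c 1 z ^ 2 ∧
    F.A1 z = (F.L 2 z + F.L 3 z) * F.P z - 4 * F.L 2 z * F.L 3 z * F.c 3 z ^ 2 ∧
    F.A2 z = (F.L 1 z + F.L 2 z) * F.P z - 4 * F.L 1 z * F.L 2 z * F.c 2 z ^ 2 ∧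
    F.A2 z = (F.L 3 z + F.L 0 z) * F.P z - 4 * F.L 3 z * F.L 0 z * F.c 0 z ^ 2 := by
  have h0 : F.x 1 z = _ := F.step 0 z hz
  have h1 : F.x 2 z = _ := F.step 1 z hz
  have h2 : F.x 3 z = _ := F.step 2 z hz
  have h3 : F.x 4 z = _ := F.step 3 z hz
  have q0 := F.C1_sq hz 0
  have q1 := F.C1_sq hz 1
  have q2 := F.C1_sq hz 2
  have q3 := F.C1_sq hz 3
  have hL4 : F.L 4 z = F.L 0 z := by rw [show (4:ℕ) = 0 + 4 by rfl, F.pL]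
  obtain ⟨f1, f2, f3, f4⟩ := F.C1_four z
  simp only [zero_add, show (1 + 1 : ℕ) = 2 by rfl, show (2 + 1 : ℕ) = 3 by rfl,
    show (3 + 1 : ℕ) = 4 by rfl, f1, f3, hL4] at q0 q1 q2 q3
  have hs := F.C1_sum hz
  have a1 : F.x 2 z - F.x 0 z = F.L 0 z • F.e 0 z + F.L 1 z • F.e 1 z := by
    rw [h1, h0]; abel
  have a2 : F.x 3 z - F.x 1 z = F.L 1 z • F.e 1 z + F.L 2 z • F.e 2 z := by
    rw [h2, h1]; abel
  have a3 : F.x 2 z - F.x 0 z = -(F.L 2 z • F.e 2 z + F.L 3 z • F.e 3 z) := by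
    rw [a1, eq_neg_iff_add_eq_zero, ← hs]; abel
  have a4 : F.x 3 z - F.x 1 z = -(F.L 3 z • F.e 3 z + F.L 0 z • F.e 0 z) := by
    rw [a2, eq_neg_iff_add_eq_zero, ← hs]; abel
  have b1 : ⟪F.x 2 z - F.x 0 z, F.x 2 z - F.x 0 z⟫_ℝ =
      (F.L 0 z + F.L 1 z) ^ 2 - 4 * F.L 0 z * F.L 1 z * F.c 1 z ^ 2 := by rw [a1, q0]
  have b2 : ⟪F.x 2 z - F.x 0 z, F.x 2 z - F.x 0 z⟫_ℝ =
      (F.L 2 z + F.L 3 z) ^ 2 - 4 * F.L 2 z * F.L 3 z * F.c 3 z ^ 2 := by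
    rw [a3, inner_neg_neg, q2]
  have b3 : ⟪F.x 3 z - F.x 1 z, F.x 3 z - F.x 1 z⟫_ℝ =
      (F.L 1 z + F.L 2 z) ^ 2 - 4 * F.L 1 z * F.L 2 z * F.c 2 z ^ 2 := by rw [a2, q1]
  have b4 : ⟪F.x 3 z - F.x 1 z, F.x 3 z - F.x 1 z⟫_ℝ =
      (F.L 3 z + F.L 0 z) ^ 2 - 4 * F.L 3 z * F.L 0 z * F.c 0 z ^ 2 := by
    rw [a4, inner_neg_neg, q3]
  refine ⟨?_, ?_, ?_, ?_⟩
  · unfold A1 P; rw [b1]; ring
  · unfold A1 P; rw [b2]; ring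
  · unfold A2 P; rw [b3]; ring
  · unfold A2 P; rw [b4]; ring

/-- C2 -/
theorem cl_phys (hz : z ∈ F.A) :
    (F.L 2 z * F.c 2 z ^ 2) • (F.mR z - F.e 0 z) +
      (F.A2 z / F.P z * F.c 1 z ^ 2) • (F.mC z - F.e 0 z) +
      (F.L 3 z * F.c 0 z ^ 2) • (F.mL z - F.e 0 z) =
    (-(F.fPhi z / (4 * F.P z * (F.L 0 z * F.L 1 z)))) • (F.mC z - F.e 0 z) := by
  obtain ⟨A1e, -, A2e, A2e'⟩ := F.A1_eq hz
  obtain ⟨f1, f2, f3, f4⟩ := F.C1_four z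
  have hs := F.C1_sum hz
  have hL0 := F.Lpos 0 z hz
  have hL1 := F.Lpos 1 z hz
  have hL2 := F.Lpos 2 z hz
  have hL3 := F.Lpos 3 z hz
  have hP : 0 < F.P z := by unfold P; linarith
  have hc0 := F.C1_cne hz 0
  have hc1 := F.C1_cne hz 1
  have hc2 := F.C1_cne hz 2
  have d0 : F.e 1 z = _ := F.C1_diff hz 0
  have d1 : F.e 2 z = _ := F.C1_diff hz 1
  have d3 : F.e 4 z = _ := F.C1_diff hz 3
  simp only [zero_add, show (1 + 1 : ℕ) = 2 by rfl, show (3 + 1 : ℕ) = 4 by rfl, f1, f2, f3] at d0 d1 d3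
  have e01 := F.C1_ee hz 0
  have e12 := F.C1_ee hz 1
  have e30 := F.C1_ee hz 3
  simp only [zero_add, show (1 + 1 : ℕ) = 2 by rfl, show (3 + 1 : ℕ) = 4 by rfl, f1, f3] at e01 e12 e30
  have i0 : ⟪F.n 1 z, F.e 0 z⟫_ℝ = F.c 1 z := F.C1_cin hz 0
  have i1 : ⟪F.n 2 z, F.e 1 z⟫_ℝ = F.c 2 z := F.C1_cin hz 1
  have i4 : ⟪F.n 0 z, F.e 0 z⟫_ℝ = -F.c 0 z := by unfold c; ring
  have ee0 := F.ee 0 z hz
  -- the three normals
  have mC : F.c 1 z ^ 2 • F.mC z = (1 / 2 : ℝ) • (F.e 0 z - F.e 1 z) := by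
    have : F.mC z = (F.c 1 z)⁻¹ • F.n 1 z := by
      show (⟪F.n 1 z, F.e 0 z⟫_ℝ)⁻¹ • F.n 1 z = _
      rw [i0]
    rw [this, d0, smul_smul, show F.c 1 z ^ 2 * (F.c 1 z)⁻¹ = F.c 1 z by field_simp]
    module
  have mL : F.c 0 z ^ 2 • F.mL z = (1 / 2 : ℝ) • (F.e 0 z - F.e 3 z) := by
    have : F.mL z = (-F.c 0 z)⁻¹ • F.n 0 z := by
      show (⟪F.n 0 z, F.e 0 z⟫_ℝ)⁻¹ • F.n 0 z = _
      rw [i4]
    rw [this, d3, smul_smul, show F.c 0 z ^ 2 * (-F.c 0 z)⁻¹ = -F.c 0 z by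
      rw [inv_neg]; field_simp]
    module
  have mR : F.c 2 z ^ 2 • F.mR z =
      (1 / 2 : ℝ) • (F.e 0 z - (F.e 2 z - (2 * ⟪F.n 1 z, F.e 2 z⟫_ℝ) • F.n 1 z)) := by
    have h1 : F.mR z = (F.c 2 z)⁻¹ • rf (F.n 1 z) (F.n 2 z) := by
      show rf (F.n 1 z) ((⟪F.n 2 z, F.e 1 z⟫_ℝ)⁻¹ • F.n 2 z) = _
      rw [i1]
      simp only [rf, inner_smul_right]; module
    have h2 : rf (F.n 1 z) (F.n 2 z) = (2 * F.c 2 z)⁻¹ •
        (F.e 0 z - (F.e 2 z - (2 * ⟪F.n 1 z, F.e 2 z⟫_ℝ) • F.n 1 z)) := by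
      have h3 : F.n 2 z = (2 * F.c 2 z)⁻¹ • (F.e 1 z - F.e 2 z) := by
        rw [d1]
        rw [show F.e 1 z - (F.e 1 z - (2 * F.c 2 z) • F.n 2 z) = (2 * F.c 2 z) • F.n 2 z by abel,
          smul_smul, inv_mul_cancel₀ (mul_ne_zero two_ne_zero hc2), one_smul]
      have h4 : ⟪F.n 1 z, F.e 1 z⟫_ℝ = -F.c 1 z := by unfold c; ring
      conv_lhs => rw [h3]
      simp only [rf, inner_smul_right, inner_sub_right, h4]
      rw [d0]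
      module
    rw [h1, h2, smul_smul, smul_smul]
    congr 1
    field_simp
  have kk : ∀ (a b : ℝ) (m : E), (a * b) • (m - F.e 0 z) = a • (b • m) - (a * b) • F.e 0 z := by
    intro a b m
    rw [smul_sub, smul_smul]
  rw [kk, kk, kk, mC, mL, mR]
  have hmC : F.mC z = (F.c 1 z)⁻¹ • F.n 1 z := by
    show (⟪F.n 1 z, F.e 0 z⟫_ℝ)⁻¹ • F.n 1 z = _
    rw [i0]
  rw [hmC]
  -- scalar identities
  set ρ : ℝ := F.fPhi z / (4 * F.P z * (F.L 0 z * F.L 1 z)) with hρ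
  have s1 : F.P z / 2 - F.L 2 z * F.c 2 z ^ 2 - F.A2 z / F.P z * F.c 1 z ^ 2 -
      F.L 3 z * F.c 0 z ^ 2 = ρ := by
    have hp := hP.ne'
    have h2 : F.L 2 z * F.c 2 z ^ 2 = ((F.L 1 z + F.L 2 z) * F.P z - F.A2 z) / (4 * F.L 1 z) := by
      rw [eq_div_iff (by positivity)]; linarith
    have h3 : F.L 3 z * F.c 0 z ^ 2 = ((F.L 3 z + F.L 0 z) * F.P z - F.A2 z) / (4 * F.L 0 z) := by
      rw [eq_div_iff (by positivity)]; linarith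
    have h4 : F.c 1 z ^ 2 = ((F.L 0 z + F.L 1 z) * F.P z - F.A1 z) / (4 * F.L 0 z * F.L 1 z) := by
      rw [eq_div_iff (by positivity)]; linarith
    rw [h2, h3, h4, hρ]
    unfold fPhi
    field_simp
    ring
  have s2 : F.c 1 z * (F.c 1 z * (F.A2 z / F.P z - F.L 1 z) + F.L 2 z * ⟪F.n 1 z, F.e 2 z⟫_ℝ) =
      -ρ := by
    have h1 : 2 * F.c 1 z * ⟪F.n 1 z, F.e 2 z⟫_ℝ = ⟪F.e 0 z, F.e 2 z⟫_ℝ - ⟪F.e 1 z, F.e 2 z⟫_ℝ := by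
      rw [← inner_sub_left, d0,
        show F.e 0 z - (F.e 0 z - (2 * F.c 1 z) • F.n 1 z) = (2 * F.c 1 z) • F.n 1 z by abel,
        inner_smul_left]
      simp
    have h2 : F.L 0 z + F.L 1 z * (1 - 2 * F.c 1 z ^ 2) + F.L 2 z * ⟪F.e 0 z, F.e 2 z⟫_ℝ +
        F.L 3 z * (1 - 2 * F.c 0 z ^ 2) = 0 := by
      have := congrArg (fun v => ⟪F.e 0 z, v⟫_ℝ) hs
      simp only [inner_add_right, inner_smul_right, inner_zero_right, ee0, e01] at this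
      rw [real_inner_comm (F.e 3 z) (F.e 0 z), e30] at this
      linarith
    rw [e12] at h1
    rw [← s1]
    have hPd : F.P z = F.L 0 z + F.L 1 z + F.L 2 z + F.L 3 z := rfl
    have h3 : F.P z / 2 = (F.L 0 z + F.L 1 z + F.L 2 z + F.L 3 z) / 2 := by rw [← hPd]
    rw [h3]
    linear_combination (F.L 2 z / 2) * h1 + (1 / 2) * h2
  have s3 : F.c 1 z * (F.A2 z / F.P z - F.L 1 z) + F.L 2 z * ⟪F.n 1 z, F.e 2 z⟫_ℝ =
      -ρ * (F.c 1 z)⁻¹ := by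
    rw [← s2]; field_simp
  -- the vector identity
  have hs' : F.L 3 z • F.e 3 z = -(F.L 0 z • F.e 0 z + F.L 1 z • F.e 1 z + F.L 2 z • F.e 2 z) := by
    rw [eq_neg_iff_add_eq_zero, ← hs]; abel
  have hv : F.L 3 z • ((1 / 2 : ℝ) • (F.e 0 z - F.e 3 z)) = (F.L 3 z / 2) • F.e 0 z +
      (1 / 2 : ℝ) • (F.L 0 z • F.e 0 z + F.L 1 z • F.e 1 z + F.L 2 z • F.e 2 z) := by
    rw [show F.L 3 z • ((1 / 2 : ℝ) • (F.e 0 z - F.e 3 z)) =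
      (F.L 3 z / 2) • F.e 0 z - (1 / 2 : ℝ) • (F.L 3 z • F.e 3 z) by module, hs']
    module
  rw [hv, d0]
  have hfin : (F.P z / 2 - F.L 2 z * F.c 2 z ^ 2 - F.A2 z / F.P z * F.c 1 z ^ 2 -
      F.L 3 z * F.c 0 z ^ 2) • F.e 0 z + (F.c 1 z * (F.A2 z / F.P z - F.L 1 z) +
      F.L 2 z * ⟪F.n 1 z, F.e 2 z⟫_ℝ) • F.n 1 z =
      (-ρ) • ((F.c 1 z)⁻¹ • F.n 1 z - F.e 0 z) := by
    rw [s1, s3]; module
  rw [← hfin]
  have hPd : F.P z = F.L 0 z + F.L 1 z + F.L 2 z + F.L 3 z := rfl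
  have h3 : F.P z / 2 = (F.L 0 z + F.L 1 z + F.L 2 z + F.L 3 z) / 2 := by rw [← hPd]
  rw [h3]
  module

/-- C3 -/
theorem tri (hz : z ∈ F.A) : F.L 3 z < F.L 0 z + F.L 1 z + F.L 2 z := by
  have hs := F.C1_sum hz
  have hL0 := F.Lpos 0 z hz
  have hL1 := F.Lpos 1 z hz
  have hL2 := F.Lpos 2 z hz
  have hL3 := F.Lpos 3 z hz
  have hn : ∀ k, ‖F.e k z‖ = 1 := by
    intro k
    have h1 := F.ee k z hz
    rw [real_inner_self_eq_norm_sq] at h1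
    have h2 := norm_nonneg (F.e k z)
    nlinarith
  have hs' : F.L 3 z • F.e 3 z = -((F.L 0 z • F.e 0 z + F.L 1 z • F.e 1 z) + F.L 2 z • F.e 2 z) := by
    rw [eq_neg_iff_add_eq_zero, ← hs]; abel
  have h1 : F.L 3 z = ‖(F.L 0 z • F.e 0 z + F.L 1 z • F.e 1 z) + F.L 2 z • F.e 2 z‖ := by
    rw [← norm_neg, ← hs', norm_smul, hn, mul_one, Real.norm_of_nonneg hL3.le]
  have h2 : ‖F.L 2 z • F.e 2 z‖ = F.L 2 z := by
    rw [norm_smul, hn, mul_one, Real.norm_of_nonneg hL2.le]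
  have h3 : ‖F.L 0 z • F.e 0 z + F.L 1 z • F.e 1 z‖ < F.L 0 z + F.L 1 z := by
    have h4 := F.C1_sq hz 0
    simp only [zero_add] at h4
    rw [real_inner_self_eq_norm_sq] at h4
    have hc := F.C1_cne hz 1
    have h5 : 0 < 4 * F.L 0 z * F.L 1 z * F.c 1 z ^ 2 := by positivity
    have h6 : ‖F.L 0 z • F.e 0 z + F.L 1 z • F.e 1 z‖ ^ 2 < (F.L 0 z + F.L 1 z) ^ 2 := by linarith
    exact lt_of_pow_lt_pow_left₀ 2 (by linarith) h6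
  calc F.L 3 z = _ := h1
    _ ≤ _ := norm_add_le _ _
    _ < _ := by rw [h2]; linarith

end Fam

end Pool.Agent.H721R2.Quart
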