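import Pool.Agent.H721R2.Quart.C1

set_option autoImplicit false

open MeasureTheory Set Filter Topology
open scoped InnerProductSpace

namespace Pool.Agent.H721R2.Quart

namespace Fam

variable {E Z : Type*} [NormedAddCommGroup E] [InnerProductSpace ℝ E]
  [NormedAddCommGroup Z] [NormedSpace ℝ Z] (F : Fam E Z) {z : Z}

/-- derivative along a line -/
theorem C4_line {G : Type*} [NormedAddCommGroup G] [NormedSpace ℝ G] {g : Z → G} {z : Z}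
    (hg : DifferentiableAt ℝ g z) (ζ : Z) :
    HasDerivAt (fun t : ℝ => g (z + t • ζ)) (fderiv ℝ g z ζ) 0 := by
  have h1 : HasDerivAt (fun t : ℝ => z + t • ζ) ζ 0 := by
    have := ((hasDerivAt_id (0 : ℝ)).smul_const ζ).const_add z
    simpa using this
  have h2 : HasFDerivAt g (fderiv ℝ g z) (z + (0 : ℝ) • ζ) := by
    rw [zero_smul, add_zero]; exact hg.hasFDerivAt
  exact h2.comp_hasDerivAt 0 h1

theorem C4_rf_inner {E : Type*} [NormedAddCommGroup E] [InnerProductSpace ℝ E] {n : E}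
    (v w : E) : ⟪rf n v, w⟫_ℝ = ⟪v, rf n w⟫_ℝ := by
  simp only [rf, inner_sub_left, inner_sub_right, inner_smul_left, inner_smul_right, conj_trivial]
  rw [real_inner_comm v n]; ring

theorem C4_rf_rf {E : Type*} [NormedAddCommGroup E] [InnerProductSpace ℝ E] {n : E}
    (hn : ⟪n, n⟫_ℝ = 1) (v : E) : rf n (rf n v) = v := by
  simp only [rf, inner_sub_right, inner_smul_right, hn]
  module

theorem C4_nk (hz : z ∈ F.A) (k : ℕ) : ⟪F.n (k + 1) z, F.e k z⟫_ℝ = F.c (k + 1) z := by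
  have h : F.c (k + 1) z = -⟪F.n (k + 1) z, F.e (k + 1) z⟫_ℝ := rfl
  rw [h, F.refl k z hz, rf, inner_sub_right, inner_smul_right, F.nn (k + 1) z hz]; ring

theorem C4_c0 (hz : z ∈ F.A) (k : ℕ) : F.c k z ≠ 0 := by
  have h : F.c k z = -⟪F.n k z, F.e k z⟫_ℝ := rfl
  rw [h]
  exact neg_ne_zero.2 (F.tr k z hz)

/-- the scalar identity -/
theorem C4_alg {L0 L1 L2 L3 c0 c1 c2 c3 P A1 A2 w ξ η lL lC lR : ℝ} (h0 : 0 < L0) (h1 : 0 < L1)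
    (h2 : 0 < L2) (hc1 : c1 ≠ 0)
    (a1 : A1 = (L0 + L1) * P - 4 * L0 * L1 * c1 ^ 2)
    (a3 : A1 = (L2 + L3) * P - 4 * L2 * L3 * c3 ^ 2)
    (a2 : A2 = (L1 + L2) * P - 4 * L1 * L2 * c2 ^ 2)
    (a0 : A2 = (L3 + L0) * P - 4 * L3 * L0 * c0 ^ 2)
    (φ : A1 * A2 - P ^ 2 * (L0 * L2 + L1 * L3) = 0)
    (E : A2 * (-P * (L0 * lL + L1 * lR) - 4 * c1 ^ 2 * L0 * L1 * (2 * lC - lL - lR)) +
      A1 * (P * ξ + 4 * L1 * c2 * η) - P ^ 2 * (ξ * (L0 - L1) + L0 * (L1 - L2) * lL +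
        L1 * (L0 - L3) * lR) = 0)
    (I' : P * L0 * c1 ^ 2 * w - ξ * (P * L3 * c3 ^ 2 + A1 * c2 ^ 2) - A1 * c2 * η = 0)
    (II' : P * L2 * c2 ^ 2 * lR + A2 * c1 ^ 2 * lC + P * L3 * c0 ^ 2 * lL = 0) :
    P * w = A2 * lC := by
  have key : (4 * L0 * L1 * L2 * c1 ^ 2) * (P * w - A2 * lC) = 0 := by
    linear_combination L2 * (E + 4 * L1 * I') - ξ * (φ - A1 * a2 - L1 * P * a3) -
      L2 * (-4 * L0 * L1 * II' + lL * (-φ + A2 * a1 + L1 * P * a0) +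
        lR * (-φ + A2 * a1 + L0 * P * a2))
  have hne : 4 * L0 * L1 * L2 * c1 ^ 2 ≠ 0 := by positivity
  exact sub_eq_zero.1 ((mul_eq_zero.1 key).resolve_left hne)

/-- C4 -/
theorem Q1 (hz : z ∈ F.A) (h0 : F.fPhi z = 0) (h1 : fderiv ℝ F.fPhi z = 0) {δ : E} {ζ : Z}
    (hδ : ⟪F.e 0 z, δ⟫_ℝ = 0) (hp : F.Piv z ζ δ) :
    F.P z * ⟪rf (F.n 2 z) (F.mo 1 z - F.e 1 z), fderiv ℝ (F.x 3) z ζ⟫_ℝ =
      F.A2 z * ⟪F.mC z - F.e 0 z, δ⟫_ℝ := by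
  obtain ⟨a1, a3, a2, a0⟩ := F.A1_eq hz
  have cl := F.cl_phys hz
  rw [h0] at cl
  have hz1 : z ∈ (F.shift 1).A := hz
  have cl1 := (F.shift 1).cl_phys hz1
  have hL4 : F.L (3 + 1) z = F.L 0 z := by rw [show F.L (3 + 1) = F.L 0 from F.pL 0]
  have hx4 : F.x (3 + 1) z = F.x 0 z := by rw [show F.x (3 + 1) = F.x 0 from F.px 0]
  have hA2' : (F.shift 1).A2 z = F.A1 z := by
    have h : (F.shift 1).A2 z = (F.L 2 z + F.L 3 z) * (F.L (3 + 1) z + F.L 1 z) +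
      ⟪F.x (3 + 1) z - F.x 2 z, F.x (3 + 1) z - F.x 2 z⟫_ℝ := rfl
    rw [h, hL4, hx4, Fam.A1, ← neg_sub (F.x 2 z) (F.x 0 z), inner_neg_neg]
    ring
  have hA1' : (F.shift 1).A1 z = F.A2 z := by
    have h : (F.shift 1).A1 z = (F.L 1 z + F.L 2 z) * (F.L 3 z + F.L (3 + 1) z) +
      ⟪F.x 3 z - F.x 1 z, F.x 3 z - F.x 1 z⟫_ℝ := rfl
    rw [h, hL4]
    rfl
  have hP' : (F.shift 1).P z = F.P z := by
    have h : (F.shift 1).P z = F.L 1 z + F.L 2 z + F.L 3 z + F.L (3 + 1) z := rfl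
    rw [h, hL4, Fam.P]; ring
  have hphi' : (F.shift 1).fPhi z = 0 := by
    have h : (F.shift 1).fPhi z = (F.shift 1).A1 z * (F.shift 1).A2 z - (F.shift 1).P z ^ 2 *
      (F.L 1 z * F.L 3 z + F.L 2 z * F.L (3 + 1) z) := rfl
    rw [h, hA1', hA2', hP', hL4, ← h0, Fam.fPhi]; ring
  rw [hphi', hA2', hP'] at cl1
  have c2' : ⟪F.n 2 z, F.e 1 z⟫_ℝ = F.c 2 z := F.C4_nk hz 1
  have c1' : ⟪F.n 1 z, F.e 0 z⟫_ℝ = F.c 1 z := F.C4_nk hz 0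
  have c3' : ⟪F.n 3 z, F.e 2 z⟫_ℝ = F.c 3 z := F.C4_nk hz 2
  have hn2 := F.nn 2 z hz
  have hn1 := F.nn 1 z hz
  have he2 : F.e 2 z = rf (F.n 2 z) (F.e 1 z) := F.refl 1 z hz
  have he1 : F.e 1 z = rf (F.n 1 z) (F.e 0 z) := F.refl 0 z hz
  have he3 : F.e 3 z = rf (F.n 3 z) (F.e 2 z) := F.refl 2 z hz
  set X3 := fderiv ℝ (F.x 3) z ζ with hX3
  have tan3 : ⟪F.n 3 z, X3⟫_ℝ = 0 := F.tan 3 z hz ζ
  set ξ := ⟪F.e 2 z, X3⟫_ℝ with hξ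
  set η := ⟪F.n 2 z, X3⟫_ℝ with hη
  set w := ⟪rf (F.n 2 z) (F.mo 1 z - F.e 1 z), X3⟫_ℝ with hw
  set lL := ⟪F.mL z, δ⟫_ℝ with hlL
  set lC := ⟪F.mC z, δ⟫_ℝ with hlC
  set lR := ⟪F.mR z, δ⟫_ℝ with hlR
  -- the closing relation at side 0
  have II : F.L 2 z * F.c 2 z ^ 2 * lR + F.A2 z / F.P z * F.c 1 z ^ 2 * lC +
      F.L 3 z * F.c 0 z ^ 2 * lL = 0 := by
    have := congrArg (fun v => ⟪v, δ⟫_ℝ) cl
    simp only [inner_add_left, inner_smul_left, inner_sub_left, conj_trivial, hδ, sub_zero,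
      zero_div, neg_zero, zero_mul] at this
    exact this
  -- the closing relation at side 1
  have hcl1 : (F.L 3 z * F.c 3 z ^ 2) • (rf (F.n 2 z) (F.mi 2 z) - F.e 1 z) +
      (F.A1 z / F.P z * F.c 2 z ^ 2) • (F.mi 1 z - F.e 1 z) +
      (F.L (3 + 1) z * F.c 1 z ^ 2) • (F.mo 1 z - F.e 1 z) =
      (-(0 / (4 * F.P z * (F.L 1 z * F.L 2 z)))) • (F.mi 1 z - F.e 1 z) := cl1
  rw [hL4, zero_div, neg_zero, zero_smul] at hcl1
  have I : F.L 0 z * F.c 1 z ^ 2 * w - ξ * (F.L 3 z * F.c 3 z ^ 2 + F.A1 z / F.P z * F.c 2 z ^ 2)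
      - F.A1 z / F.P z * F.c 2 z * η = 0 := by
    have h := congrArg (fun v => ⟪v, rf (F.n 2 z) X3⟫_ℝ) hcl1
    simp only [inner_add_left, inner_smul_left, conj_trivial, inner_zero_left] at h
    have w1 : ⟪F.mo 1 z - F.e 1 z, rf (F.n 2 z) X3⟫_ℝ = w := by rw [hw, C4_rf_inner]
    have w2 : ⟪rf (F.n 2 z) (F.mi 2 z) - F.e 1 z, rf (F.n 2 z) X3⟫_ℝ = -ξ := by
      rw [inner_sub_left, C4_rf_inner, C4_rf_rf hn2, ← C4_rf_inner, ← he2]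
      have : ⟪F.mi 2 z, X3⟫_ℝ = 0 := by
        have h : F.mi 2 z = (⟪F.n 3 z, F.e 2 z⟫_ℝ)⁻¹ • F.n 3 z := rfl
        rw [h, inner_smul_left, tan3, mul_zero]
      rw [this]; ring
    have w3 : ⟪F.mi 1 z - F.e 1 z, rf (F.n 2 z) X3⟫_ℝ = -(η / F.c 2 z) - ξ := by
      rw [inner_sub_left, ← C4_rf_inner (F.e 1 z), ← he2]
      have h : F.mi 1 z = (⟪F.n 2 z, F.e 1 z⟫_ℝ)⁻¹ • F.n 2 z := rfl
      rw [h, c2', inner_smul_left, rf, inner_sub_right, inner_smul_right, hn2]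
      simp only [conj_trivial]
      rw [← hη, ← hξ]
      ring
    rw [w1, w2, w3] at h
    have hc := F.C4_c0 hz 2
    have e : F.A1 z / F.P z * F.c 2 z ^ 2 * (-(η / F.c 2 z) - ξ) =
      -(F.A1 z / F.P z * F.c 2 z * η) - F.A1 z / F.P z * F.c 2 z ^ 2 * ξ := by
      field_simp
    rw [e] at h
    linarith
  -- the derivative equation
  have hP : 0 < F.P z := by
    have := F.Lpos 0 z hz; have := F.Lpos 1 z hz; have := F.Lpos 2 z hz; have := F.Lpos 3 z hz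
    unfold Fam.P; linarith
  have dL0 := F.dL 0 z hz
  have dL1 := F.dL 1 z hz
  have dL2 := F.dL 2 z hz
  have dL3 := F.dL 3 z hz
  have dx0 := F.dx 0 z hz
  have dx1 := F.dx 1 z hz
  have dx2 := F.dx 2 z hz
  have dx3 := F.dx 3 z hz
  have lL0 := C4_line dL0 ζ
  have lL1 := C4_line dL1 ζ
  have lL2 := C4_line dL2 ζ
  have lL3 := C4_line dL3 ζ
  have lx0 := C4_line dx0 ζ
  have lx1 := C4_line dx1 ζ
  have lx2 := C4_line dx2 ζ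
  have lx3 := C4_line dx3 ζ
  have dP : DifferentiableAt ℝ F.P z := ((dL0.add dL1).add dL2).add dL3
  have dA1 : DifferentiableAt ℝ F.A1 z :=
    ((dL0.add dL1).mul (dL2.add dL3)).add ((dx2.sub dx0).inner ℝ (dx2.sub dx0))
  have dA2 : DifferentiableAt ℝ F.A2 z :=
    ((dL1.add dL2).mul (dL3.add dL0)).add ((dx3.sub dx1).inner ℝ (dx3.sub dx1))
  have dPhi : DifferentiableAt ℝ F.fPhi z :=
    (dA1.mul dA2).sub ((dP.pow 2).mul ((dL0.mul dL2).add (dL1.mul dL3)))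
  have lP := C4_line dP ζ
  have lA1 := C4_line dA1 ζ
  have lA2 := C4_line dA2 ζ
  have lPhi := C4_line dPhi ζ
  rw [hp.P] at lP
  rw [h1] at lPhi
  have eP : fderiv ℝ (F.L 0) z ζ + fderiv ℝ (F.L 1) z ζ + fderiv ℝ (F.L 2) z ζ +
      fderiv ℝ (F.L 3) z ζ = 0 :=
    (((lL0.add lL1).add lL2).add lL3).unique lP
  have vA1 := lA1.unique (((lL0.add lL1).mul (lL2.add lL3)).add
    ((lx2.sub lx0).inner ℝ (lx2.sub lx0)))
  have vA2 := lA2.unique (((lL1.add lL2).mul (lL3.add lL0)).add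
    ((lx3.sub lx1).inner ℝ (lx3.sub lx1)))
  have vPhi := lPhi.unique ((lA1.mul lA2).sub ((lP.pow 2).mul ((lL0.mul lL2).add (lL1.mul lL3))))
  simp only [zero_smul, add_zero, Pi.add_apply, Pi.sub_apply] at vA1 vA2 vPhi
  rw [hp.L0, hp.L1] at eP vA1 vA2 vPhi
  -- the derivative of the length of the side 2
  have hlC' : ⟪F.n 1 z, δ⟫_ℝ = F.c 1 z * lC := by
    have h : F.mC z = (⟪F.n 1 z, F.e 0 z⟫_ℝ)⁻¹ • F.n 1 z := rfl
    rw [hlC, h, c1', inner_smul_left]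
    simp only [conj_trivial]
    have := F.C4_c0 hz 1
    field_simp
  have tan2 : ⟪F.n 2 z, fderiv ℝ (F.x 2) z ζ⟫_ℝ = 0 := F.tan 2 z hz ζ
  have ee0 := F.ee 0 z hz
  have ee1 := F.ee 1 z hz
  have ee2 := F.ee 2 z hz
  have e1X2 : ⟪F.e 1 z, fderiv ℝ (F.x 2) z ζ⟫_ℝ = -(F.L 1 z * lR) := by
    rw [hp.x2, inner_smul_right, ← C4_rf_inner, he1, C4_rf_rf hn1, inner_sub_right,
      inner_smul_right, hδ, ee0]
    ring
  have e2X2 : ⟪F.e 2 z, fderiv ℝ (F.x 2) z ζ⟫_ℝ = -(F.L 1 z * lR) := by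
    rw [he2, rf, inner_sub_left, inner_smul_left, tan2, e1X2]; ring
  have vL2 : fderiv ℝ (F.L 2) z ζ = ξ + F.L 1 z * lR := by
    have h := F.stepjac 2 z hz ζ
    have h' := congrArg (fun v => ⟪F.e 2 z, v⟫_ℝ) h
    simp only [inner_add_right, inner_smul_right, ee2, F.ejac 2 z hz ζ, e2X2] at h'
    have h'' : ⟪F.e 2 z, fderiv ℝ (F.x (2 + 1)) z ζ⟫_ℝ = ξ := rfl
    rw [h''] at h'
    linarith
  have vL3 : fderiv ℝ (F.L 3) z ζ = F.L 0 z * lL - ξ := by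
    rw [vL2] at eP
    linarith
  rw [vL2, vL3] at vA1 vA2 vPhi
  -- the derivative of the diagonals
  have s0 : F.x 2 z - F.x 0 z = F.L 0 z • F.e 0 z + F.L 1 z • F.e 1 z := by
    have h0' : F.x 1 z = F.x 0 z + F.L 0 z • F.e 0 z := F.step 0 z hz
    have h1' : F.x 2 z = F.x 1 z + F.L 1 z • F.e 1 z := F.step 1 z hz
    rw [h1', h0']; abel
  have s1 : F.x 3 z - F.x 1 z = F.L 1 z • F.e 1 z + F.L 2 z • F.e 2 z := by
    have h0' : F.x 2 z = F.x 1 z + F.L 1 z • F.e 1 z := F.step 1 z hz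
    have h1' : F.x 3 z = F.x 2 z + F.L 2 z • F.e 2 z := F.step 2 z hz
    rw [h1', h0']; abel
  have e01 : ⟪F.e 1 z, F.e 0 z⟫_ℝ = 1 - 2 * F.c 1 z ^ 2 := by
    rw [he1, rf, inner_sub_left, inner_smul_left, ee0, c1']
    simp only [conj_trivial]
    ring
  have e1δ : ⟪F.e 1 z, δ⟫_ℝ = -(2 * F.c 1 z ^ 2 * lC) := by
    rw [he1, rf, inner_sub_left, inner_smul_left, hδ, c1', hlC']
    simp only [conj_trivial]
    ring
  have e1X3 : ⟪F.e 1 z, X3⟫_ℝ = ξ + 2 * F.c 2 z * η := by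
    rw [hξ, he2, rf, inner_sub_left, inner_smul_left, c2', ← hη]
    simp only [conj_trivial]
    ring
  have e0X2 : ⟪F.e 0 z, fderiv ℝ (F.x 2) z ζ⟫_ℝ =
      F.L 1 z * (-(2 * F.c 1 z ^ 2 * lC) - lR * (1 - 2 * F.c 1 z ^ 2)) := by
    rw [hp.x2, inner_smul_right, ← C4_rf_inner, ← he1, inner_sub_right, inner_smul_right, e1δ,
      e01]
  have e0X0 : ⟪F.e 0 z, fderiv ℝ (F.x 0) z ζ⟫_ℝ = F.L 0 z * lL := by
    rw [hp.x0, inner_neg_right, inner_smul_right, inner_sub_right, inner_smul_right, ee0, hδ]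
    ring
  have e1X0 : ⟪F.e 1 z, fderiv ℝ (F.x 0) z ζ⟫_ℝ =
      F.L 0 z * (2 * F.c 1 z ^ 2 * lC + lL * (1 - 2 * F.c 1 z ^ 2)) := by
    rw [hp.x0, inner_neg_right, inner_smul_right, inner_sub_right, inner_smul_right, e1δ,
      e01]
    ring
  have q1 : ⟪F.x 2 z - F.x 0 z, fderiv ℝ (F.x 2) z ζ - fderiv ℝ (F.x 0) z ζ⟫_ℝ =
      F.L 0 z * (F.L 1 z * (-(2 * F.c 1 z ^ 2 * lC) - lR * (1 - 2 * F.c 1 z ^ 2))) +
      F.L 1 z * (-(F.L 1 z * lR)) - F.L 0 z * (F.L 0 z * lL) -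
      F.L 1 z * (F.L 0 z * (2 * F.c 1 z ^ 2 * lC + lL * (1 - 2 * F.c 1 z ^ 2))) := by
    rw [s0, inner_add_left, inner_smul_left, inner_smul_left, inner_sub_right, inner_sub_right,
      e0X2, e0X0, e1X2, e1X0]
    simp only [conj_trivial]
    ring
  have q1' : ⟪fderiv ℝ (F.x 2) z ζ - fderiv ℝ (F.x 0) z ζ, F.x 2 z - F.x 0 z⟫_ℝ =
      ⟪F.x 2 z - F.x 0 z, fderiv ℝ (F.x 2) z ζ - fderiv ℝ (F.x 0) z ζ⟫_ℝ := real_inner_comm _ _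
  have q2 : ⟪F.x 3 z - F.x 1 z, fderiv ℝ (F.x 3) z ζ - fderiv ℝ (F.x 1) z ζ⟫_ℝ =
      F.L 1 z * (ξ + 2 * F.c 2 z * η) + F.L 2 z * ξ := by
    rw [s1, hp.x1, sub_zero, inner_add_left, inner_smul_left, inner_smul_left, ← hX3, e1X3]
    simp only [conj_trivial]
    rfl
  have q2' : ⟪fderiv ℝ (F.x 3) z ζ - fderiv ℝ (F.x 1) z ζ, F.x 3 z - F.x 1 z⟫_ℝ =
      ⟪F.x 3 z - F.x 1 z, fderiv ℝ (F.x 3) z ζ - fderiv ℝ (F.x 1) z ζ⟫_ℝ := real_inner_comm _ _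
  rw [q1', q1] at vA1
  rw [q2', q2] at vA2
  have vP2 : ((fun t : ℝ => F.P (z + t • ζ)) ^ 2) 0 = F.P z ^ 2 := by
    simp
  have v0 : (0 : Z →L[ℝ] ℝ) ζ = 0 := rfl
  rw [vP2, v0, vA1, vA2] at vPhi
  have hPd : F.P z = F.L 0 z + F.L 1 z + F.L 2 z + F.L 3 z := rfl
  have hPhid : F.fPhi z = F.A1 z * F.A2 z - F.P z ^ 2 * (F.L 0 z * F.L 2 z + F.L 1 z * F.L 3 z) :=
    rfl
  rw [inner_sub_left, hδ, sub_zero, ← hlC]
  refine C4_alg (L2 := F.L 2 z) (L3 := F.L 3 z) (c0 := F.c 0 z) (c1 := F.c 1 z) (c2 := F.c 2 z)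
    (c3 := F.c 3 z) (A1 := F.A1 z) (ξ := ξ) (η := η) (lL := lL) (lR := lR)
    (F.Lpos 0 z hz) (F.Lpos 1 z hz) (F.Lpos 2 z hz) (F.C4_c0 hz 1) ?_ ?_ ?_ ?_
    (by rw [← hPhid]; exact h0) ?_ ?_ ?_
  · exact a1
  · exact a3
  · exact a2
  · exact a0
  · rw [← hlL, ← hlR] at vPhi
    have e1' : (F.L 0 z + F.L 1 z + F.L 2 z + F.L 3 z) = F.P z := rfl
    linear_combination -vPhi + (F.A2 z * (F.L 0 z * lL + F.L 1 z * lR) - F.A1 z * ξ) * e1'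
  · have h := congrArg (fun t => F.P z * t) I
    simp only [mul_zero] at h
    rw [← h]
    field_simp
  · have h := congrArg (fun t => F.P z * t) II
    simp only [mul_zero] at h
    rw [← h]
    field_simp

end Fam

end Pool.Agent.H721R2.Quart
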