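import Pool.Agent.H721R2.Quart.Def

set_option autoImplicit false

open MeasureTheory Set Filter Topology
open scoped InnerProductSpace

namespace Pool.Agent.H721R2.Quart

namespace Fam

variable {E Z : Type*} [NormedAddCommGroup E] [InnerProductSpace ℝ E]
  [NormedAddCommGroup Z] [NormedSpace ℝ Z] (F : Fam E Z) {z : Z}

theorem C5_aux1 {u v w a b : E} {u1 u2 v1 v2 w1 w2 : ℝ} (hu : u = u1 • a + u2 • b)
    (hv : v = v1 • a + v2 • b) (hw : w = w1 • a + w2 • b) (huu : ⟪u, u⟫_ℝ = 1)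
    (huv : ⟪u, v⟫_ℝ = 0) (huw : ⟪u, w⟫_ℝ = 0) :
    ⟪v, v⟫_ℝ • w - ⟪w, v⟫_ℝ • v = 0 := by
  obtain ⟨p, hp⟩ : ∃ p, p = ⟪v, v⟫_ℝ := ⟨_, rfl⟩
  obtain ⟨q, hq⟩ : ∃ q, q = ⟪w, v⟫_ℝ := ⟨_, rfl⟩
  rw [← hp, ← hq]
  obtain ⟨D, hD⟩ : ∃ D, D = p • w - q • v := ⟨_, rfl⟩
  rw [← hD]
  have hDu : ⟪D, u⟫_ℝ = 0 := by
    rw [hD, inner_sub_left, real_inner_smul_left, real_inner_smul_left, real_inner_comm u w,
      real_inner_comm u v, huw, huv]
    ring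
  have hDv : ⟪D, v⟫_ℝ = 0 := by
    rw [hD, inner_sub_left, real_inner_smul_left, real_inner_smul_left, hp, hq]
    ring
  have hDe : D = (p * w1 - q * v1) • a + (p * w2 - q * v2) • b := by
    rw [hD, hw, hv]
    module
  have hΔa : (u1 * v2 - u2 * v1) • a = v2 • u - u2 • v := by
    rw [hu, hv]
    module
  have hΔb : (u1 * v2 - u2 * v1) • b = u1 • v - v1 • u := by
    rw [hu, hv]
    module
  by_cases hΔ : u1 * v2 - u2 * v1 = 0
  · rw [hΔ, zero_smul] at hΔa hΔb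
    have h2 : v2 = 0 := by
      have h3 : ⟪u, v2 • u - u2 • v⟫_ℝ = 0 := by rw [← hΔa, inner_zero_right]
      rw [inner_sub_right, real_inner_smul_right, real_inner_smul_right, huu, huv] at h3
      linarith
    have h1 : v1 = 0 := by
      have h3 : ⟪u, u1 • v - v1 • u⟫_ℝ = 0 := by rw [← hΔb, inner_zero_right]
      rw [inner_sub_right, real_inner_smul_right, real_inner_smul_right, huu, huv] at h3
      linarith
    have hv0 : v = 0 := by rw [hv, h1, h2]; simp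
    have hp0 : p = 0 := by rw [hp, hv0]; simp
    rw [hD, hp0, hv0]
    simp
  · have ha : ⟪D, a⟫_ℝ = 0 := by
      have h3 : (u1 * v2 - u2 * v1) * ⟪D, a⟫_ℝ = 0 := by
        rw [← real_inner_smul_right, hΔa, inner_sub_right, real_inner_smul_right,
          real_inner_smul_right, hDu, hDv]
        ring
      exact (mul_eq_zero.1 h3).resolve_left hΔ
    have hb : ⟪D, b⟫_ℝ = 0 := by
      have h3 : (u1 * v2 - u2 * v1) * ⟪D, b⟫_ℝ = 0 := by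
        rw [← real_inner_smul_right, hΔb, inner_sub_right, real_inner_smul_right,
          real_inner_smul_right, hDu, hDv]
        ring
      exact (mul_eq_zero.1 h3).resolve_left hΔ
    have hDD : ⟪D, D⟫_ℝ = 0 := by
      have h3 : ⟪D, D⟫_ℝ = ⟪D, (p * w1 - q * v1) • a + (p * w2 - q * v2) • b⟫_ℝ := by
        rw [← hDe]
      rw [h3, inner_add_right, real_inner_smul_right, real_inner_smul_right, ha, hb]
      ring
    exact inner_self_eq_zero.1 hDD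

theorem C5_aux2 (hz : z ∈ F.A) : ⟪F.n 1 z, F.e 0 z⟫_ℝ ≠ 0 := by
  intro h
  apply F.tr 1 z hz
  have h1 := F.refl 0 z hz
  have h2 := F.nn 1 z hz
  simp only [zero_add] at h1
  rw [h1, rf, inner_sub_right, real_inner_smul_right, h2, h]
  ring

theorem C5_aux3 (hz : z ∈ F.A) {a b : E} {p q p' q' p'' q'' : ℝ}
    (he : F.e 0 z = p • a + q • b) (hn1 : F.n 1 z = p' • a + q' • b)
    (hn0 : F.n 0 z = p'' • a + q'' • b) : F.fplan z = 0 := by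
  have hne1 := F.C5_aux2 hz
  have hne0 := F.tr 0 z hz
  have hee := F.ee 0 z hz
  refine C5_aux1 (a := a) (b := b) he
    (v1 := (⟪F.n 1 z, F.e 0 z⟫_ℝ)⁻¹ * p' - p) (v2 := (⟪F.n 1 z, F.e 0 z⟫_ℝ)⁻¹ * q' - q)
    (w1 := (⟪F.n 0 z, F.e 0 z⟫_ℝ)⁻¹ * p'' - p) (w2 := (⟪F.n 0 z, F.e 0 z⟫_ℝ)⁻¹ * q'' - q)
    ?_ ?_ hee ?_ ?_
  · obtain ⟨r, hr⟩ : ∃ r, r = (⟪F.n 1 z, F.e 0 z⟫_ℝ)⁻¹ := ⟨_, rfl⟩
    show (⟪F.n 1 z, F.e 0 z⟫_ℝ)⁻¹ • F.n 1 z - F.e 0 z = _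
    rw [← hr, he, hn1]
    module
  · obtain ⟨r, hr⟩ : ∃ r, r = (⟪F.n 0 z, F.e 0 z⟫_ℝ)⁻¹ := ⟨_, rfl⟩
    show (⟪F.n 0 z, F.e 0 z⟫_ℝ)⁻¹ • F.n 0 z - F.e 0 z = _
    rw [← hr, he, hn0]
    module
  · show ⟪F.e 0 z, (⟪F.n 1 z, F.e 0 z⟫_ℝ)⁻¹ • F.n 1 z - F.e 0 z⟫_ℝ = 0
    rw [inner_sub_right, real_inner_smul_right, real_inner_comm (F.n 1 z) (F.e 0 z), hee,
      inv_mul_cancel₀ hne1]
    ring
  · show ⟪F.e 0 z, (⟪F.n 0 z, F.e 0 z⟫_ℝ)⁻¹ • F.n 0 z - F.e 0 z⟫_ℝ = 0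
    rw [inner_sub_right, real_inner_smul_right, real_inner_comm (F.n 0 z) (F.e 0 z), hee,
      inv_mul_cancel₀ hne0]
    ring

theorem C5_aux4 {n v : E} (hn : ⟪n, n⟫_ℝ = 1) : rf n (rf n v) = v := by
  unfold rf
  rw [inner_sub_right, real_inner_smul_right, hn]
  module

/-- The double orthogonal complement of a plane. -/
theorem C5_aux5 {a b c : E} (h : ∀ v, ⟪a, v⟫_ℝ = 0 → ⟪b, v⟫_ℝ = 0 → ⟪c, v⟫_ℝ = 0) :
    ∃ p q : ℝ, c = p • a + q • b := by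
  have : FiniteDimensional ℝ (Submodule.span ℝ ({a, b} : Set E)) :=
    FiniteDimensional.span_of_finite ℝ (Set.toFinite _)
  have hc : c ∈ (Submodule.span ℝ ({a, b} : Set E))ᗮᗮ := by
    rw [Submodule.mem_orthogonal']
    intro v hv
    rw [Submodule.mem_orthogonal] at hv
    exact h v (hv a (Submodule.subset_span (by simp))) (hv b (Submodule.subset_span (by simp)))
  rw [Submodule.orthogonal_orthogonal, Submodule.mem_span_pair] at hc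
  obtain ⟨p, q, hpq⟩ := hc
  exact ⟨p, q, hpq.symm⟩

/-- C5 -/
theorem plan_of_id (hz : z ∈ F.A) (h : ∀ v, F.uf z 4 v = v) : F.fplan z = 0 := by
  have hn1 := F.nn 1 z hz
  have hn2 := F.nn 2 z hz
  have hn3 := F.nn 3 z hz
  have hn0 := F.nn 0 z hz
  have p4 : F.n 4 z = F.n 0 z := congrFun (F.pn 0) z
  have hR : ∀ v, rf (F.n 1 z) (rf (F.n 2 z) (rf (F.n 3 z) (rf (F.n 0 z) v))) = v := by
    intro v
    have := h v
    simp only [uf] at this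
    rwa [p4] at this
  -- `R₁ R₂ = R₀ R₃`
  have hR' : ∀ v, rf (F.n 3 z) (rf (F.n 0 z) v) = rf (F.n 2 z) (rf (F.n 1 z) v) := by
    intro v
    have h1 := hR v
    have h2 := congrArg (fun w => rf (F.n 2 z) (rf (F.n 1 z) w)) h1
    simp only [C5_aux4 hn1, C5_aux4 hn2] at h2
    exact h2
  have hR'' : ∀ v, rf (F.n 0 z) (rf (F.n 3 z) v) = rf (F.n 1 z) (rf (F.n 2 z) v) := by
    intro v
    have h1 := hR' (rf (F.n 1 z) (rf (F.n 2 z) v))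
    rw [C5_aux4 hn1, C5_aux4 hn2] at h1
    have h2 := congrArg (fun w => rf (F.n 0 z) (rf (F.n 3 z) w)) h1
    simp only [C5_aux4 hn3, C5_aux4 hn0] at h2
    exact h2.symm
  -- the sides
  have hL0 := F.Lpos 0 z hz
  have hL1 := F.Lpos 1 z hz
  have hL2 := F.Lpos 2 z hz
  have hL3 := F.Lpos 3 z hz
  have he1 : F.e 1 z = rf (F.n 1 z) (F.e 0 z) := F.refl 0 z hz
  have he2 : F.e 2 z = rf (F.n 2 z) (F.e 1 z) := F.refl 1 z hz
  have he3 : F.e 3 z = rf (F.n 3 z) (F.e 2 z) := F.refl 2 z hz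
  have hcl : F.L 0 z • F.e 0 z + F.L 1 z • F.e 1 z + F.L 2 z • F.e 2 z + F.L 3 z • F.e 3 z = 0 := by
    have s0 : F.x 1 z = F.x 0 z + F.L 0 z • F.e 0 z := F.step 0 z hz
    have s1 : F.x 2 z = F.x 1 z + F.L 1 z • F.e 1 z := F.step 1 z hz
    have s2 : F.x 3 z = F.x 2 z + F.L 2 z • F.e 2 z := F.step 2 z hz
    have s3 : F.x 4 z = F.x 3 z + F.L 3 z • F.e 3 z := F.step 3 z hz
    have s4 : F.x 4 z = F.x 0 z := congrFun (F.px 0) z
    rw [s4, s2, s1, s0] at s3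
    have s5 : F.x 0 z + (F.L 0 z • F.e 0 z + F.L 1 z • F.e 1 z + F.L 2 z • F.e 2 z +
        F.L 3 z • F.e 3 z) = F.x 0 z + 0 := by
      rw [add_zero]
      nth_rewrite 2 [s3]
      abel
    exact add_left_cancel s5
  by_cases hcase : ∀ v, ⟪F.n 1 z, v⟫_ℝ = 0 → ⟪F.n 2 z, v⟫_ℝ = 0 → ⟪F.n 3 z, v⟫_ℝ = 0
  · -- everything lies in the span of `n 1` and `n 2`
    have hcase0 : ∀ v, ⟪F.n 1 z, v⟫_ℝ = 0 → ⟪F.n 2 z, v⟫_ℝ = 0 → ⟪F.n 0 z, v⟫_ℝ = 0 := by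
      intro v h1 h2
      have h3 := hcase v h1 h2
      have h4 := hR'' v
      have r1 : rf (F.n 2 z) v = v := by rw [rf, h2]; simp
      have r2 : rf (F.n 1 z) v = v := by rw [rf, h1]; simp
      have r3 : rf (F.n 3 z) v = v := by rw [rf, h3]; simp
      rw [r1, r2, r3] at h4
      have h5 : (2 * ⟪F.n 0 z, v⟫_ℝ) • F.n 0 z = 0 := by
        have h6 : v - (2 * ⟪F.n 0 z, v⟫_ℝ) • F.n 0 z = v - 0 := by rw [sub_zero]; exact h4
        exact sub_right_injective h6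
      have h7 : ⟪F.n 0 z, (2 * ⟪F.n 0 z, v⟫_ℝ) • F.n 0 z⟫_ℝ = 0 := by rw [h5, inner_zero_right]
      rw [real_inner_smul_right, hn0] at h7
      linarith
    have hcasee : ∀ v, ⟪F.n 1 z, v⟫_ℝ = 0 → ⟪F.n 2 z, v⟫_ℝ = 0 → ⟪F.e 0 z, v⟫_ℝ = 0 := by
      intro v h1 h2
      have h3 := hcase v h1 h2
      have g1 : ⟪F.e 1 z, v⟫_ℝ = ⟪F.e 0 z, v⟫_ℝ := by
        rw [he1, rf, inner_sub_left, real_inner_smul_left, h1]; ring
      have g2 : ⟪F.e 2 z, v⟫_ℝ = ⟪F.e 0 z, v⟫_ℝ := by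
        rw [he2, rf, inner_sub_left, real_inner_smul_left, h2, g1]; ring
      have g3 : ⟪F.e 3 z, v⟫_ℝ = ⟪F.e 0 z, v⟫_ℝ := by
        rw [he3, rf, inner_sub_left, real_inner_smul_left, h3, g2]; ring
      have g4 : ⟪F.L 0 z • F.e 0 z + F.L 1 z • F.e 1 z + F.L 2 z • F.e 2 z + F.L 3 z • F.e 3 z,
          v⟫_ℝ = 0 := by rw [hcl, inner_zero_left]
      simp only [inner_add_left, real_inner_smul_left, g1, g2, g3] at g4
      have g5 : (F.L 0 z + F.L 1 z + F.L 2 z + F.L 3 z) * ⟪F.e 0 z, v⟫_ℝ = 0 := by linarith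
      rcases mul_eq_zero.1 g5 with g6 | g6
      · linarith
      · exact g6
    obtain ⟨p, q, he⟩ := C5_aux5 hcasee
    obtain ⟨p'', q'', hn⟩ := C5_aux5 hcase0
    exact F.C5_aux3 hz (a := F.n 1 z) (b := F.n 2 z) he (p' := 1) (q' := 0) (by simp) hn
  · push Not at hcase
    obtain ⟨v, h1, h2, h3⟩ := hcase
    have h4 := hR'' v
    have r1 : rf (F.n 2 z) v = v := by rw [rf, h2]; simp
    have r2 : rf (F.n 1 z) v = v := by rw [rf, h1]; simp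
    rw [r1, r2] at h4
    have h5 : rf (F.n 3 z) v = rf (F.n 0 z) v := by
      rw [← h4, C5_aux4 hn0, h4]
    have h6 : ⟪F.n 3 z, v⟫_ℝ • F.n 3 z = ⟪F.n 0 z, v⟫_ℝ • F.n 0 z := by
      unfold rf at h5
      have h7 := sub_right_injective h5
      have h8 : (2 : ℝ) • (⟪F.n 3 z, v⟫_ℝ • F.n 3 z) = (2 : ℝ) • (⟪F.n 0 z, v⟫_ℝ • F.n 0 z) := by
        rw [smul_smul, smul_smul]; exact h7
      exact smul_right_injective E (two_ne_zero) h8
    -- `n 3 = r • n 0`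
    have h7 : ⟪F.n 0 z, v⟫_ℝ ≠ 0 := by
      intro h0
      rw [h0, zero_smul] at h6
      have h8 : ⟪F.n 3 z, ⟪F.n 3 z, v⟫_ℝ • F.n 3 z⟫_ℝ = 0 := by rw [h6, inner_zero_right]
      rw [real_inner_smul_right, hn3, mul_one] at h8
      exact h3 h8
    obtain ⟨r, hr⟩ : ∃ r : ℝ, F.n 0 z = r • F.n 3 z :=
      ⟨(⟪F.n 0 z, v⟫_ℝ)⁻¹ * ⟪F.n 3 z, v⟫_ℝ, by
        rw [← smul_smul, h6, smul_smul, inv_mul_cancel₀ h7, one_smul]⟩
    have hr2 : r * r = 1 := by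
      have := hn0
      rw [hr, real_inner_smul_left, real_inner_smul_right, hn3] at this
      linarith
    have hR03 : ∀ w, rf (F.n 0 z) w = rf (F.n 3 z) w := by
      intro w
      unfold rf
      rw [hr, real_inner_smul_left, smul_smul]
      congr 2
      linear_combination (2 * ⟪F.n 3 z, w⟫_ℝ) * hr2
    have hR12 : ∀ w, rf (F.n 2 z) w = rf (F.n 1 z) w := by
      intro w
      have g1 := hR'' w
      rw [hR03, C5_aux4 hn3] at g1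
      have g2 := congrArg (fun u => rf (F.n 1 z) u) g1
      simp only [C5_aux4 hn1] at g2
      exact g2.symm
    have he2' : F.e 2 z = F.e 0 z := by rw [he2, hR12, he1, C5_aux4 hn1]
    have hP : (F.L 0 z + F.L 1 z + F.L 2 z + F.L 3 z) • F.e 0 z =
        (2 * ⟪F.n 1 z, F.e 0 z⟫_ℝ * F.L 1 z) • F.n 1 z +
        (2 * ⟪F.n 3 z, F.e 0 z⟫_ℝ * F.L 3 z) • F.n 3 z := by
      rw [he3, he2', he1] at hcl
      unfold rf at hcl
      rw [← sub_eq_zero, ← hcl]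
      module
    have hP0 : F.L 0 z + F.L 1 z + F.L 2 z + F.L 3 z ≠ 0 := by positivity
    have he : F.e 0 z = ((F.L 0 z + F.L 1 z + F.L 2 z + F.L 3 z)⁻¹ *
        (2 * ⟪F.n 1 z, F.e 0 z⟫_ℝ * F.L 1 z)) • F.n 1 z +
        ((F.L 0 z + F.L 1 z + F.L 2 z + F.L 3 z)⁻¹ *
          (2 * ⟪F.n 3 z, F.e 0 z⟫_ℝ * F.L 3 z)) • F.n 3 z := by
      have g1 := congrArg (fun u => (F.L 0 z + F.L 1 z + F.L 2 z + F.L 3 z)⁻¹ • u) hP
      simp only [smul_add, smul_smul, inv_mul_cancel₀ hP0, one_smul] at g1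
      exact g1
    exact F.C5_aux3 hz (a := F.n 1 z) (b := F.n 3 z) he (p' := 1) (q' := 0) (by simp)
      (p'' := 0) (q'' := r) (by rw [hr]; simp)

end Fam

end Pool.Agent.H721R2.Quart
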