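import Pool.Agent.H721R2.Quart.Def

set_option autoImplicit false

open MeasureTheory Set Filter Topology
open scoped InnerProductSpace

namespace Pool.Agent.H721R2.Quart

section D1rf

variable {E : Type*} [NormedAddCommGroup E] [InnerProductSpace ℝ E]

theorem D1_rf_add (n v w : E) : rf n (v + w) = rf n v + rf n w := by
  unfold rf
  rw [inner_add_right, mul_add, add_smul]
  abel

theorem D1_rf_smul (n : E) (r : ℝ) (v : E) : rf n (r • v) = r • rf n v := by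
  unfold rf
  rw [inner_smul_right, smul_sub, smul_smul]
  congr 2
  ring

theorem D1_rf_sub (n v w : E) : rf n (v - w) = rf n v - rf n w := by
  unfold rf
  rw [inner_sub_right, mul_sub, sub_smul]
  abel

theorem D1_rf_rf {n : E} (hn : ⟪n, n⟫_ℝ = 1) (v : E) : rf n (rf n v) = v := by
  unfold rf
  rw [inner_sub_right, inner_smul_right, hn, sub_sub, ← add_smul]
  have h : 2 * ⟪n, v⟫_ℝ + 2 * (⟪n, v⟫_ℝ - 2 * ⟪n, v⟫_ℝ * 1) = 0 := by ring
  rw [h, zero_smul, sub_zero]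

theorem D1_inner_left (n v w : E) : ⟪rf n v, w⟫_ℝ = ⟪v, rf n w⟫_ℝ := by
  unfold rf
  rw [inner_sub_left, inner_sub_right, real_inner_smul_left, real_inner_smul_right,
    real_inner_comm n v]
  ring

theorem D1_inner_rf {n : E} (hn : ⟪n, n⟫_ℝ = 1) (v w : E) : ⟪rf n v, rf n w⟫_ℝ = ⟪v, w⟫_ℝ := by
  rw [D1_inner_left, D1_rf_rf hn]

theorem D1_rf_self {n : E} (hn : ⟪n, n⟫_ℝ = 1) : rf n n = -n := by
  unfold rf
  rw [hn, mul_one, two_smul]
  abel

theorem D1_inner_n {n : E} (hn : ⟪n, n⟫_ℝ = 1) (v : E) : ⟪n, rf n v⟫_ℝ = -⟪n, v⟫_ℝ := by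
  rw [← D1_inner_left, D1_rf_self hn, inner_neg_left]

/-- conjugation of `gam` by the reflection -/
theorem D1_gam {n : E} (hn : ⟪n, n⟫_ℝ = 1) (c : ℝ) (S : E →L[ℝ] E)
    (hsym : ∀ v w, ⟪S v, w⟫_ℝ = ⟪v, S w⟫_ℝ) (hSn : S n = 0) (m u v : E) :
    rf n (gam c S (rf n m) (rf n u) (rf n v)) = gam c S m u v := by
  have hS : ∀ x, S (rf n x) = S x := by
    intro x
    unfold rf
    rw [map_sub, map_smul, hSn, smul_zero, sub_zero]
  have hr : ∀ x, rf n (S x) = S x := by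
    intro x
    unfold rf
    rw [← hsym, hSn, inner_zero_left, mul_zero, zero_smul, sub_zero]
  have h1 : rf n v - ⟪rf n m, rf n v⟫_ℝ • rf n u = rf n (v - ⟪m, v⟫_ℝ • u) := by
    rw [D1_inner_rf hn, D1_rf_sub, D1_rf_smul]
  unfold gam
  rw [h1, hS, D1_rf_smul, D1_rf_sub, D1_rf_smul, hr, D1_rf_rf hn, D1_inner_left, hr]

end D1rf

/-! ### D. Unfolding -/

namespace Fam

variable {E Z : Type*} [NormedAddCommGroup E] [InnerProductSpace ℝ E]
  [NormedAddCommGroup Z] [NormedSpace ℝ Z] (F : Fam E Z) {z : Z}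

theorem D1_mo (hz : z ∈ F.A) (k : ℕ) : F.mo (k + 1) z = rf (F.n (k + 1) z) (F.mi k z) := by
  unfold Fam.mo Fam.mi
  rw [F.refl k z hz, D1_inner_n (F.nn (k + 1) z hz), D1_rf_smul, D1_rf_self (F.nn (k + 1) z hz),
    inv_neg, neg_smul, smul_neg]

/-- D1 -/
theorem uf_add (k : ℕ) (v w : E) : F.uf z k (v + w) = F.uf z k v + F.uf z k w := by
  induction k generalizing v w with
  | zero => rfl
  | succ k ih =>
    change F.uf z k (rf (F.n (k + 1) z) (v + w)) = F.uf z k (rf (F.n (k + 1) z) v) +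
      F.uf z k (rf (F.n (k + 1) z) w)
    rw [D1_rf_add, ih]

theorem uf_smul (k : ℕ) (r : ℝ) (v : E) : F.uf z k (r • v) = r • F.uf z k v := by
  induction k generalizing v with
  | zero => rfl
  | succ k ih =>
    change F.uf z k (rf (F.n (k + 1) z) (r • v)) = r • F.uf z k (rf (F.n (k + 1) z) v)
    rw [D1_rf_smul, ih]

theorem ufi_add (k : ℕ) (v w : E) : F.ufi z k (v + w) = F.ufi z k v + F.ufi z k w := by
  induction k generalizing v w with
  | zero => rfl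
  | succ k ih =>
    change rf (F.n (k + 1) z) (F.ufi z k (v + w)) = rf (F.n (k + 1) z) (F.ufi z k v) +
      rf (F.n (k + 1) z) (F.ufi z k w)
    rw [ih, D1_rf_add]

theorem ufi_smul (k : ℕ) (r : ℝ) (v : E) : F.ufi z k (r • v) = r • F.ufi z k v := by
  induction k generalizing v with
  | zero => rfl
  | succ k ih =>
    change rf (F.n (k + 1) z) (F.ufi z k (r • v)) = r • rf (F.n (k + 1) z) (F.ufi z k v)
    rw [ih, D1_rf_smul]

theorem inner_uf (hz : z ∈ F.A) (k : ℕ) (v w : E) :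
    ⟪F.uf z k v, F.uf z k w⟫_ℝ = ⟪v, w⟫_ℝ := by
  induction k generalizing v w with
  | zero => rfl
  | succ k ih =>
    change ⟪F.uf z k (rf (F.n (k + 1) z) v), F.uf z k (rf (F.n (k + 1) z) w)⟫_ℝ = ⟪v, w⟫_ℝ
    rw [ih, D1_inner_rf (F.nn (k + 1) z hz)]

theorem uf_ufi (hz : z ∈ F.A) (k : ℕ) (v : E) : F.uf z k (F.ufi z k v) = v := by
  induction k generalizing v with
  | zero => rfl
  | succ k ih =>
    change F.uf z k (rf (F.n (k + 1) z) (rf (F.n (k + 1) z) (F.ufi z k v))) = v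
    rw [D1_rf_rf (F.nn (k + 1) z hz), ih]

theorem ufi_uf (hz : z ∈ F.A) (k : ℕ) (v : E) : F.ufi z k (F.uf z k v) = v := by
  induction k generalizing v with
  | zero => rfl
  | succ k ih =>
    change rf (F.n (k + 1) z) (F.ufi z k (F.uf z k (rf (F.n (k + 1) z) v))) = v
    rw [ih, D1_rf_rf (F.nn (k + 1) z hz)]

theorem uf_period (k : ℕ) (v : E) : F.uf z (k + 4) v = F.uf z 4 (F.uf z k v) := by
  induction k generalizing v with
  | zero => rfl
  | succ k ih =>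
    have h1 : F.uf z (k + 1 + 4) v = F.uf z (k + 4) (rf (F.n (k + 1 + 4) z) v) := by
      rw [show k + 1 + 4 = (k + 4) + 1 by omega]
      rfl
    have h2 : F.uf z 4 (F.uf z (k + 1) v) = F.uf z 4 (F.uf z k (rf (F.n (k + 1) z) v)) := rfl
    rw [h1, h2, ih, F.pn]

theorem uf_e (hz : z ∈ F.A) (k : ℕ) : F.uf z k (F.e k z) = F.e 0 z := by
  induction k with
  | zero => rfl
  | succ k ih =>
    change F.uf z k (rf (F.n (k + 1) z) (F.e (k + 1) z)) = F.e 0 z
    rw [F.refl k z hz, D1_rf_rf (F.nn (k + 1) z hz), ih]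

theorem uf_mi (hz : z ∈ F.A) (k : ℕ) :
    F.uf z k (F.mi k z) = F.uf z (k + 1) (F.mo (k + 1) z) := by
  change F.uf z k (F.mi k z) = F.uf z k (rf (F.n (k + 1) z) (F.mo (k + 1) z))
  rw [F.D1_mo hz, D1_rf_rf (F.nn (k + 1) z hz)]

theorem uf_gi (hz : z ∈ F.A) (k : ℕ) (v : E) :
    F.uf z k (F.gi k z v) = F.uf z (k + 1) (F.go (k + 1) z (rf (F.n (k + 1) z) v)) := by
  change F.uf z k (F.gi k z v) =
    F.uf z k (rf (F.n (k + 1) z) (F.go (k + 1) z (rf (F.n (k + 1) z) v)))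
  unfold Fam.gi Fam.go
  rw [F.D1_mo hz, F.refl k z hz,
    D1_gam (F.nn (k + 1) z hz) (F.c (k + 1) z) (F.S (k + 1) z) (F.sym (k + 1) z hz)
      (F.Sn (k + 1) z hz)]

end Fam

end Pool.Agent.H721R2.Quart
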