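import Pool.Agent.H721R2.Quart.Def

set_option autoImplicit false

open MeasureTheory Set Filter Topology
open scoped InnerProductSpace

namespace Pool.Agent.H721R2.Quart

namespace Fam

variable {E Z : Type*} [NormedAddCommGroup E] [InnerProductSpace ℝ E]
  [NormedAddCommGroup Z] [NormedSpace ℝ Z] (F : Fam E Z) {z : Z}

theorem D2_rf_add (n v w : E) : rf n (v + w) = rf n v + rf n w := by
  simp only [rf, inner_add_right]; module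

theorem D2_rf_smul (n : E) (r : ℝ) (v : E) : rf n (r • v) = r • rf n v := by
  simp only [rf, inner_smul_right]; module

theorem D2_rf_rf {n : E} (hn : ⟪n, n⟫_ℝ = 1) (v : E) : rf n (rf n v) = v := by
  simp only [rf, inner_sub_right, inner_smul_right, hn]; module

theorem D2_inner_rf {n : E} (hn : ⟪n, n⟫_ℝ = 1) (v w : E) : ⟪rf n v, rf n w⟫_ℝ = ⟪v, w⟫_ℝ := by
  simp only [rf, inner_sub_right, inner_smul_right, inner_sub_left, inner_smul_left, hn,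
    RCLike.conj_to_real]
  rw [real_inner_comm v n]
  ring

theorem D2_inner_rf' {n : E} (v w : E) : ⟪rf n v, w⟫_ℝ = ⟪v, rf n w⟫_ℝ := by
  simp only [rf, inner_sub_right, inner_smul_right, inner_sub_left, inner_smul_left,
    RCLike.conj_to_real]
  rw [real_inner_comm v n]
  ring

theorem D2_uf_add (k : ℕ) (v w : E) : F.uf z k (v + w) = F.uf z k v + F.uf z k w := by
  induction k generalizing v w with
  | zero => rfl
  | succ k ih => simp only [uf, D2_rf_add, ih]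

theorem D2_uf_smul (k : ℕ) (r : ℝ) (v : E) : F.uf z k (r • v) = r • F.uf z k v := by
  induction k generalizing v with
  | zero => rfl
  | succ k ih => simp only [uf, D2_rf_smul, ih]

theorem D2_ufi_uf (hz : z ∈ F.A) (k : ℕ) (v : E) : F.ufi z k (F.uf z k v) = v := by
  induction k generalizing v with
  | zero => rfl
  | succ k ih => simp only [uf, ufi, ih, D2_rf_rf (F.nn _ z hz)]

theorem D2_uf_period (k : ℕ) (v : E) : F.uf z (k + 4) v = F.uf z 4 (F.uf z k v) := by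
  induction k generalizing v with
  | zero => rfl
  | succ k ih =>
    calc F.uf z (k + 1 + 4) v = F.uf z (k + 4) (rf (F.n (k + 1 + 4) z) v) := rfl
      _ = F.uf z (k + 4) (rf (F.n (k + 1) z) v) := by rw [F.pn]
      _ = F.uf z 4 (F.uf z k (rf (F.n (k + 1) z) v)) := ih _
      _ = F.uf z 4 (F.uf z (k + 1) v) := rfl

/-- the physical field -/
theorem D2_phys1 (hz : z ∈ F.A) (ζ : Z) (k : ℕ) :
    rf (F.n (k + 1) z) (fderiv ℝ (F.x (k + 1)) z ζ -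
        ⟪fderiv ℝ (F.x (k + 1)) z ζ, F.e (k + 1) z⟫_ℝ • F.e (k + 1) z) =
      (fderiv ℝ (F.x k) z ζ - ⟪fderiv ℝ (F.x k) z ζ, F.e k z⟫_ℝ • F.e k z) +
        F.L k z • fderiv ℝ (F.e k) z ζ := by
  have htan := F.tan (k + 1) z hz ζ
  have hstep := F.stepjac k z hz ζ
  have hej := F.ejac k z hz ζ
  have hee := F.ee k z hz
  have hnn := F.nn (k + 1) z hz
  have hrefl := F.refl k z hz
  set X := fderiv ℝ (F.x (k + 1)) z ζ with hX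
  have h1 : rf (F.n (k + 1) z) X = X := by
    simp only [rf, htan]; simp
  have h2 : rf (F.n (k + 1) z) (F.e (k + 1) z) = F.e k z := by
    rw [hrefl, D2_rf_rf hnn]
  have h3 : ⟪X, F.e (k + 1) z⟫_ℝ = ⟪X, F.e k z⟫_ℝ := by
    rw [hrefl, ← D2_inner_rf', h1]
  have h4 : ⟪X, F.e k z⟫_ℝ = ⟪fderiv ℝ (F.x k) z ζ, F.e k z⟫_ℝ + fderiv ℝ (F.L k) z ζ := by
    rw [hstep, inner_add_left, inner_add_left, inner_smul_left, inner_smul_left, hee,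
      real_inner_comm, real_inner_comm (F.e k z) (fderiv ℝ (F.e k) z ζ), hej]
    simp
  have h5 : rf (F.n (k + 1) z) (X - ⟪X, F.e (k + 1) z⟫_ℝ • F.e (k + 1) z) =
      X - ⟪X, F.e k z⟫_ℝ • F.e k z := by
    rw [sub_eq_add_neg, ← neg_smul, D2_rf_add, D2_rf_smul, h1, h2, h3]
    module
  rw [h5, h4, hstep]
  module

theorem D2_phys2 (hz : z ∈ F.A) (ζ : Z) (k : ℕ) :
    fderiv ℝ (F.e (k + 1)) z ζ = rf (F.n (k + 1) z) (fderiv ℝ (F.e k) z ζ) +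
      (F.c (k + 1) z ^ 2) • F.go (k + 1) z
        (fderiv ℝ (F.x (k + 1)) z ζ -
          ⟪fderiv ℝ (F.x (k + 1)) z ζ, F.e (k + 1) z⟫_ℝ • F.e (k + 1) z) := by
  have htan := F.tan (k + 1) z hz ζ
  have hrj := F.refljac k z hz ζ
  have hnj := F.njac (k + 1) z hz ζ
  have hnn := F.nn (k + 1) z hz
  have hrefl := F.refl k z hz
  have htr := F.tr (k + 1) z hz
  have hsn := F.Sn (k + 1) z hz
  have hsym := F.sym (k + 1) z hz
  set X := fderiv ℝ (F.x (k + 1)) z ζ with hX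
  set n := F.n (k + 1) z with hn
  set S := F.S (k + 1) z with hS
  set e := F.e k z with he
  set e' := F.e (k + 1) z with he'
  have hc : F.c (k + 1) z = -⟪n, e'⟫_ℝ := rfl
  have hc' : ⟪n, e'⟫_ℝ = -⟪n, e⟫_ℝ := by
    rw [hrefl]
    simp only [rf, inner_sub_right, inner_smul_right, hnn]; ring
  have hm : F.mo (k + 1) z = (⟪n, e'⟫_ℝ)⁻¹ • n := rfl
  have hnSX : ⟪n, S X⟫_ℝ = 0 := by
    rw [← hsym, hsn, inner_zero_left]
  have h1 : ⟪e', S X⟫_ℝ = ⟪e, S X⟫_ℝ := by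
    rw [hrefl]
    simp only [rf, inner_sub_left, inner_smul_left, hnSX]; simp
  have h2 : ⟪F.mo (k + 1) z, X - ⟪X, e'⟫_ℝ • e'⟫_ℝ = -⟪X, e'⟫_ℝ := by
    rw [hm, inner_smul_left, inner_sub_right, inner_smul_right, htan]
    simp only [RCLike.conj_to_real]
    field_simp
    ring
  have h3 : X - ⟪X, e'⟫_ℝ • e' - ⟪F.mo (k + 1) z, X - ⟪X, e'⟫_ℝ • e'⟫_ℝ • e' = X := by
    rw [h2]; module
  have h4 : F.go (k + 1) z (X - ⟪X, e'⟫_ℝ • e') =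
      (2 / F.c (k + 1) z) • (S X - ⟪e', S X⟫_ℝ • F.mo (k + 1) z) := by
    show gam (F.c (k + 1) z) S (F.mo (k + 1) z) e' (X - ⟪X, e'⟫_ℝ • e') = _
    unfold gam
    rw [h3]
  rw [h4, hrj, hnj, h1, hm, hc, hc']
  have hne : ⟪n, e⟫_ℝ ≠ 0 := by
    intro h; apply htr; rw [hc', h, neg_zero]
  rw [inner_neg_left, real_inner_comm e (S X)]
  rw [smul_smul, smul_sub, smul_smul, smul_smul]
  have e1 : (- -⟪n, e⟫_ℝ) ^ 2 * (2 / - -⟪n, e⟫_ℝ) = 2 * ⟪n, e⟫_ℝ := by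
    rw [neg_neg]; field_simp
  rw [e1]
  have e2 : 2 * ⟪n, e⟫_ℝ * ⟪e, S X⟫_ℝ * (-⟪n, e⟫_ℝ)⁻¹ = -(2 * ⟪e, S X⟫_ℝ) := by
    rw [inv_neg]; field_simp
  rw [e2]
  module

/-- D2: the unfolded fields -/
theorem field (hz : z ∈ F.A) (ζ : Z) (k : ℕ) :
    F.uf z (k + 1) (fderiv ℝ (F.x (k + 1)) z ζ -
        ⟪fderiv ℝ (F.x (k + 1)) z ζ, F.e (k + 1) z⟫_ℝ • F.e (k + 1) z) =
      F.uf z k (fderiv ℝ (F.x k) z ζ - ⟪fderiv ℝ (F.x k) z ζ, F.e k z⟫_ℝ • F.e k z) +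
        F.L k z • F.uf z k (fderiv ℝ (F.e k) z ζ) ∧
    F.uf z (k + 1) (fderiv ℝ (F.e (k + 1)) z ζ) = F.uf z k (fderiv ℝ (F.e k) z ζ) +
      (F.c (k + 1) z ^ 2) • F.uf z (k + 1) (F.go (k + 1) z
        (fderiv ℝ (F.x (k + 1)) z ζ -
          ⟪fderiv ℝ (F.x (k + 1)) z ζ, F.e (k + 1) z⟫_ℝ • F.e (k + 1) z)) := by
  constructor
  · rw [← D2_uf_smul, ← D2_uf_add, ← F.D2_phys1 hz ζ k]
    rfl
  · rw [← D2_uf_smul]
    conv_lhs => rw [F.D2_phys2 hz ζ k]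
    rw [D2_uf_add]
    congr 1
    show F.uf z k (rf _ (rf _ _)) = _
    rw [D2_rf_rf (F.nn (k + 1) z hz)]

/-- D3: closing of the unfolded fields -/
theorem closure (hz : z ∈ F.A) (Y d : ℕ → E) (hY : ⟪Y 0, F.e 0 z⟫_ℝ = 0)
    (hd : ⟪d 0, F.e 0 z⟫_ℝ = 0) (h1 : ∀ k, Y (k + 1) = Y k + F.L k z • d k)
    (h2 : ∀ k, d (k + 1) = d k +
      (F.c (k + 1) z ^ 2) • F.uf z (k + 1) (F.go (k + 1) z (F.ufi z (k + 1) (Y (k + 1))))) :
    ∀ k, Y (k + 4) = F.uf z 4 (Y k) ∧ d (k + 4) = F.uf z 4 (d k) := by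
  -- the field with the same initial values
  have hL : F.L 0 z ≠ 0 := (F.Lpos 0 z hz).ne'
  set δ₁ : E := -((F.L 0 z)⁻¹ • Y 0) with hδ₁
  have hd1 : ⟪F.e 0 z, δ₁⟫_ℝ = 0 := by
    rw [hδ₁, inner_neg_right, inner_smul_right, real_inner_comm, hY]; simp
  obtain ⟨ζ₁, g1, g2⟩ := F.piv 0 z hz δ₁ hd1
  have hd2 : ⟪F.e 0 z, d 0 - δ₁⟫_ℝ = 0 := by
    rw [inner_sub_right, hd1, real_inner_comm, hd, sub_zero]
  have he4 : F.e 4 z = F.e 0 z := by rw [show (4:ℕ) = 0 + 4 by rfl, F.pe]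
  have hn4 : F.n 4 = F.n 0 := by rw [show (4:ℕ) = 0 + 4 by rfl, F.pn]
  have hx4 : F.x 4 = F.x 0 := by rw [show (4:ℕ) = 0 + 4 by rfl, F.px]
  have hE4 : F.e 4 = F.e 0 := by rw [show (4:ℕ) = 0 + 4 by rfl, F.pe]
  have hd3 : ⟪F.e 3 z, rf (F.n 4 z) (d 0 - δ₁)⟫_ℝ = 0 := by
    rw [← D2_inner_rf', ← F.refl 3 z hz]
    show ⟪F.e 4 z, _⟫_ℝ = 0
    rw [he4, hd2]
  obtain ⟨ζ₂, g3, g4⟩ := F.piv 3 z hz _ hd3
  have g3' : fderiv ℝ (F.x 4) z ζ₂ = 0 := g3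
  have k1 : fderiv ℝ (F.x 0) z ζ₁ - ⟪fderiv ℝ (F.x 0) z ζ₁, F.e 0 z⟫_ℝ • F.e 0 z = Y 0 := by
    have hs := F.stepjac 0 z hz ζ₁
    rw [g1, g2] at hs
    have hx : fderiv ℝ (F.x 0) z ζ₁ = Y 0 - fderiv ℝ (F.L 0) z ζ₁ • F.e 0 z := by
      have : F.L 0 z • δ₁ = -Y 0 := by
        rw [hδ₁, smul_neg, smul_smul, mul_inv_cancel₀ hL, one_smul]
      rw [this] at hs
      have h0 : fderiv ℝ (F.x 0) z ζ₁ = 0 - (fderiv ℝ (F.L 0) z ζ₁ • F.e 0 z) - (-Y 0) := by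
        rw [hs]; abel
      rw [h0]; abel
    rw [hx, inner_sub_left, inner_smul_left, F.ee 0 z hz, hY]
    simp
  have k2 : fderiv ℝ (F.x 0) z ζ₂ = 0 := by rw [← hx4]; exact g3'
  have k3 : fderiv ℝ (F.e 0) z ζ₂ = d 0 - δ₁ := by
    have hr := F.refljac 3 z hz ζ₂
    have hnj := F.njac 4 z hz ζ₂
    rw [g3', map_zero, neg_zero] at hnj
    have hnj' : fderiv ℝ (F.n (3 + 1)) z ζ₂ = 0 := hnj
    rw [g4, hnj'] at hr
    have hr' : fderiv ℝ (F.e 4) z ζ₂ = rf (F.n 4 z) (rf (F.n 4 z) (d 0 - δ₁)) := by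
      have : fderiv ℝ (F.e 4) z ζ₂ = fderiv ℝ (F.e (3 + 1)) z ζ₂ := rfl
      rw [this, hr]
      simp
    rw [← hE4, hr', D2_rf_rf (F.nn 4 z hz)]
  set ζ := ζ₁ + ζ₂ with hζ
  have i1 : F.uf z 0 (fderiv ℝ (F.x 0) z ζ - ⟪fderiv ℝ (F.x 0) z ζ, F.e 0 z⟫_ℝ • F.e 0 z) =
      Y 0 := by
    show fderiv ℝ (F.x 0) z ζ - ⟪fderiv ℝ (F.x 0) z ζ, F.e 0 z⟫_ℝ • F.e 0 z = Y 0
    rw [hζ, map_add, k2, add_zero, k1]
  have i2 : F.uf z 0 (fderiv ℝ (F.e 0) z ζ) = d 0 := by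
    show fderiv ℝ (F.e 0) z ζ = d 0
    rw [hζ, map_add, g2, k3]; abel
  have key : ∀ k, F.uf z k (fderiv ℝ (F.x k) z ζ - ⟪fderiv ℝ (F.x k) z ζ, F.e k z⟫_ℝ • F.e k z) =
      Y k ∧ F.uf z k (fderiv ℝ (F.e k) z ζ) = d k := by
    intro k
    induction k with
    | zero => exact ⟨i1, i2⟩
    | succ k ih =>
      obtain ⟨f1, f2⟩ := F.field hz ζ k
      have f3 : F.uf z (k + 1) (fderiv ℝ (F.x (k + 1)) z ζ -
        ⟪fderiv ℝ (F.x (k + 1)) z ζ, F.e (k + 1) z⟫_ℝ • F.e (k + 1) z) = Y (k + 1) := by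
        rw [f1, ih.1, ih.2, h1]
      refine ⟨f3, ?_⟩
      rw [f2, ih.2, h2 k, ← f3, F.D2_ufi_uf hz]
  intro k
  obtain ⟨a1, a2⟩ := key k
  obtain ⟨b1, b2⟩ := key (k + 4)
  rw [← b1, ← b2, ← a1, ← a2, F.px, F.pe]
  exact ⟨F.D2_uf_period k _, F.D2_uf_period k _⟩

end Fam

end Pool.Agent.H721R2.Quart
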