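import Pool.Agent.H721R2.Quart.Def

set_option autoImplicit false

open MeasureTheory Set Filter Topology
open scoped InnerProductSpace

namespace Pool.Agent.H721R2.Quart

namespace Fam

variable {E Z : Type*} [NormedAddCommGroup E] [InnerProductSpace ℝ E]
  [NormedAddCommGroup Z] [NormedSpace ℝ Z] (F : Fam E Z) {z : Z}

/-- the reflection as a linear map -/
noncomputable def D4_rl {E : Type*} [NormedAddCommGroup E] [InnerProductSpace ℝ E] (n : E) :
    E →ₗ[ℝ] E where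
  toFun := rf n
  map_add' v w := by simp only [rf, inner_add_right]; module
  map_smul' r v := by simp only [rf, inner_smul_right, RingHom.id_apply]; module

theorem D4_det {E : Type*} [NormedAddCommGroup E] [InnerProductSpace ℝ E]
    [FiniteDimensional ℝ E] {n : E} (hn : ⟪n, n⟫_ℝ = 1) : LinearMap.det (D4_rl n) = -1 := by
  have hn1 : ‖n‖ = 1 := by
    have := real_inner_self_eq_norm_sq n
    rw [hn] at this
    nlinarith [norm_nonneg n]
  have hn0 : n ≠ 0 := by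
    intro h
    rw [h, norm_zero] at hn1
    exact zero_ne_one hn1
  have h : D4_rl n = (ℝ ∙ n)ᗮ.reflection.toLinearMap := by
    ext v
    change rf n v = (ℝ ∙ n)ᗮ.reflection v
    rw [Submodule.reflection_orthogonal_apply, Submodule.reflection_singleton_apply, hn1, rf]
    simp
    module
  rw [h, Submodule.det_reflection, Submodule.orthogonal_orthogonal, finrank_span_singleton hn0,
    pow_one]

/-- D4 -/
theorem det_uf [FiniteDimensional ℝ E] (hz : z ∈ F.A) (U : E →ₗ[ℝ] E)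
    (hU : ∀ v, U v = F.uf z 4 v) : LinearMap.det U = 1 := by
  have h : U = (D4_rl (F.n 1 z)) ∘ₗ (D4_rl (F.n 2 z)) ∘ₗ (D4_rl (F.n 3 z)) ∘ₗ
      (D4_rl (F.n 4 z)) := by
    ext v
    rw [hU]
    rfl
  rw [h, LinearMap.det_comp, LinearMap.det_comp, LinearMap.det_comp, D4_det (F.nn 1 z hz),
    D4_det (F.nn 2 z hz), D4_det (F.nn 3 z hz), D4_det (F.nn 4 z hz)]
  norm_num

theorem D4_rf_of {E : Type*} [NormedAddCommGroup E] [InnerProductSpace ℝ E] {n f : E}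
    (h : ⟪f, n⟫_ℝ = 0) : rf n f = f := by
  rw [rf, real_inner_comm, h]; simp

/-- D5 -/
theorem fix_uf (hz : z ∈ F.A) (f : E) (h0 : ⟪f, F.e 0 z⟫_ℝ = 0) (h1 : ⟪f, F.mL z⟫_ℝ = 0)
    (h2 : ⟪f, F.mC z⟫_ℝ = 0) : (∀ k, ⟪f, F.n k z⟫_ℝ = 0) ∧ (∀ k, ⟪f, F.e k z⟫_ℝ = 0) ∧
      F.uf z 4 f = f := by
  have tr0 := F.tr 0 z hz
  have tr' : ∀ k, ⟪F.n (k + 1) z, F.e k z⟫_ℝ ≠ 0 := by
    intro k h
    apply F.tr (k + 1) z hz
    rw [F.refl k z hz, rf, inner_sub_right, inner_smul_right, F.nn (k + 1) z hz, h]; ring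
  have n0 : ⟪f, F.n 0 z⟫_ℝ = 0 := by
    have h : ⟪f, (⟪F.n 0 z, F.e 0 z⟫_ℝ)⁻¹ • F.n 0 z⟫_ℝ = 0 := h1
    rw [inner_smul_right] at h
    exact (mul_eq_zero.1 h).resolve_left (inv_ne_zero tr0)
  have n1 : ⟪f, F.n 1 z⟫_ℝ = 0 := by
    have h : ⟪f, (⟪F.n 1 z, F.e 0 z⟫_ℝ)⁻¹ • F.n 1 z⟫_ℝ = 0 := h2
    rw [inner_smul_right] at h
    exact (mul_eq_zero.1 h).resolve_left (inv_ne_zero (tr' 0))
  have e1 : ⟪f, F.e 1 z⟫_ℝ = 0 := by
    have := F.refl 0 z hz
    rw [zero_add] at this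
    rw [this, rf, inner_sub_right, inner_smul_right, h0, n1]; ring
  have e3 : ⟪f, F.e 3 z⟫_ℝ = 0 := by
    have h := F.refl 3 z hz
    have h4 : F.n (3 + 1) = F.n 0 := F.pn 0
    have h5 : F.e (3 + 1) = F.e 0 := F.pe 0
    rw [h4, h5] at h
    have h6 := congrArg (fun v => ⟪f, v⟫_ℝ) h
    simp only [rf, inner_sub_right, inner_smul_right, h0, n0] at h6
    linarith
  have hsum : F.L 0 z • F.e 0 z + F.L 1 z • F.e 1 z + F.L 2 z • F.e 2 z + F.L 3 z • F.e 3 z = 0 := by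
    have s0 := F.step 0 z hz
    have s1 := F.step 1 z hz
    have s2 := F.step 2 z hz
    have s3 := F.step 3 z hz
    have p : F.x (3 + 1) = F.x 0 := F.px 0
    rw [p] at s3
    have q1 : F.x (0 + 1) = F.x 1 := rfl
    have q2 : F.x (1 + 1) = F.x 2 := rfl
    have q3 : F.x (2 + 1) = F.x 3 := rfl
    rw [q1] at s0
    rw [q2] at s1
    rw [q3] at s2
    rw [s2, s1, s0] at s3
    have : F.x 0 z + (F.L 0 z • F.e 0 z + F.L 1 z • F.e 1 z + F.L 2 z • F.e 2 z +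
      F.L 3 z • F.e 3 z) = F.x 0 z := by
      rw [← add_assoc, ← add_assoc, ← add_assoc]; exact s3.symm
    exact left_eq_add.1 this.symm
  have e2 : ⟪f, F.e 2 z⟫_ℝ = 0 := by
    have h6 := congrArg (fun v => ⟪f, v⟫_ℝ) hsum
    simp only [inner_add_right, inner_smul_right, h0, e1, e3, inner_zero_right, mul_zero,
      zero_add, add_zero] at h6
    exact (mul_eq_zero.1 h6).resolve_left (F.Lpos 2 z hz).ne'
  have nk : ∀ k, ⟪f, F.e k z⟫_ℝ = 0 → ⟪f, F.e (k + 1) z⟫_ℝ = 0 → ⟪f, F.n (k + 1) z⟫_ℝ = 0 := by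
    intro k a b
    rw [F.refl k z hz, rf, inner_sub_right, inner_smul_right, a] at b
    have : 2 * ⟪F.n (k + 1) z, F.e k z⟫_ℝ * ⟪f, F.n (k + 1) z⟫_ℝ = 0 := by linarith
    exact (mul_eq_zero.1 this).resolve_left (mul_ne_zero two_ne_zero (tr' k))
  have n2 : ⟪f, F.n 2 z⟫_ℝ = 0 := nk 1 e1 e2
  have n3 : ⟪f, F.n 3 z⟫_ℝ = 0 := nk 2 e2 e3
  have hn : ∀ k, ⟪f, F.n k z⟫_ℝ = 0 := by
    intro k
    induction k using Nat.strong_induction_on with
    | _ k ih =>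
      match k, ih with
      | 0, _ => exact n0
      | 1, _ => exact n1
      | 2, _ => exact n2
      | 3, _ => exact n3
      | m + 4, ih => rw [F.pn m]; exact ih m (by omega)
  have he : ∀ k, ⟪f, F.e k z⟫_ℝ = 0 := by
    intro k
    induction k using Nat.strong_induction_on with
    | _ k ih =>
      match k, ih with
      | 0, _ => exact h0
      | 1, _ => exact e1
      | 2, _ => exact e2
      | 3, _ => exact e3
      | m + 4, ih => rw [F.pe m]; exact ih m (by omega)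
  refine ⟨hn, he, ?_⟩
  show rf (F.n 1 z) (rf (F.n 2 z) (rf (F.n 3 z) (rf (F.n 4 z) f))) = f
  rw [D4_rf_of (hn 4), D4_rf_of (hn 3), D4_rf_of (hn 2), D4_rf_of (hn 1)]

end Fam

end Pool.Agent.H721R2.Quart
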