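import Mathlib

set_option autoImplicit false

open MeasureTheory Set Filter Topology
open scoped InnerProductSpace

noncomputable section

namespace Pool.Agent.H721R2.Quart

/-- Reflection in the hyperplane orthogonal to the unit vector `n`. -/
def rf {E : Type*} [NormedAddCommGroup E] [InnerProductSpace ℝ E] (n v : E) : E :=
  v - (2 * ⟪n, v⟫_ℝ) • n

/-- The operator `(2 / c) Π* S Π`, `Π v = v - ⟪m, v⟫ u`. -/
def gam {E : Type*} [NormedAddCommGroup E] [InnerProductSpace ℝ E]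
    (c : ℝ) (S : E →L[ℝ] E) (m u v : E) : E :=
  (2 / c) • (S (v - ⟪m, v⟫_ℝ • u) - ⟪u, S (v - ⟪m, v⟫_ℝ • u)⟫_ℝ • m)

/-- A measurable family of closed billiard trajectories with four bounces, with all first order
information. The vertices are `x k`, the side from `x k` to `x (k + 1)` has direction `e k` and
length `L k`, the unit normal at `x k` is `n k` and the shape operator is `S k`. -/
structure Fam (E Z : Type*) [NormedAddCommGroup E] [InnerProductSpace ℝ E]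
    [NormedAddCommGroup Z] [NormedSpace ℝ Z] where
  A : Set Z
  x : ℕ → Z → E
  e : ℕ → Z → E
  n : ℕ → Z → E
  L : ℕ → Z → ℝ
  S : ℕ → Z → E →L[ℝ] E
  px : ∀ k, x (k + 4) = x k
  pe : ∀ k, e (k + 4) = e k
  pn : ∀ k, n (k + 4) = n k
  pL : ∀ k, L (k + 4) = L k
  pS : ∀ k, S (k + 4) = S k
  dx : ∀ k, ∀ z ∈ A, DifferentiableAt ℝ (x k) z
  de : ∀ k, ∀ z ∈ A, DifferentiableAt ℝ (e k) z
  dn : ∀ k, ∀ z ∈ A, DifferentiableAt ℝ (n k) z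
  dL : ∀ k, ∀ z ∈ A, DifferentiableAt ℝ (L k) z
  dS : ∀ k, ∀ z ∈ A, DifferentiableAt ℝ (S k) z
  Lpos : ∀ k, ∀ z ∈ A, 0 < L k z
  ee : ∀ k, ∀ z ∈ A, ⟪e k z, e k z⟫_ℝ = 1
  nn : ∀ k, ∀ z ∈ A, ⟪n k z, n k z⟫_ℝ = 1
  step : ∀ k, ∀ z ∈ A, x (k + 1) z = x k z + L k z • e k z
  refl : ∀ k, ∀ z ∈ A, e (k + 1) z = rf (n (k + 1) z) (e k z)
  tr : ∀ k, ∀ z ∈ A, ⟪n k z, e k z⟫_ℝ ≠ 0
  sym : ∀ k, ∀ z ∈ A, ∀ v w, ⟪S k z v, w⟫_ℝ = ⟪v, S k z w⟫_ℝ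
  Sn : ∀ k, ∀ z ∈ A, S k z (n k z) = 0
  ejac : ∀ k, ∀ z ∈ A, ∀ ζ, ⟪e k z, fderiv ℝ (e k) z ζ⟫_ℝ = 0
  tan : ∀ k, ∀ z ∈ A, ∀ ζ, ⟪n k z, fderiv ℝ (x k) z ζ⟫_ℝ = 0
  njac : ∀ k, ∀ z ∈ A, ∀ ζ, fderiv ℝ (n k) z ζ = -S k z (fderiv ℝ (x k) z ζ)
  Sjac : ∀ k, ∀ z ∈ A, ∀ ζ, fderiv ℝ (x k) z ζ = 0 → fderiv ℝ (S k) z ζ = 0
  stepjac : ∀ k, ∀ z ∈ A, ∀ ζ, fderiv ℝ (x (k + 1)) z ζ =
    fderiv ℝ (x k) z ζ + fderiv ℝ (L k) z ζ • e k z + L k z • fderiv ℝ (e k) z ζ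
  refljac : ∀ k, ∀ z ∈ A, ∀ ζ, fderiv ℝ (e (k + 1)) z ζ = rf (n (k + 1) z) (fderiv ℝ (e k) z ζ)
    - (2 * ⟪fderiv ℝ (n (k + 1)) z ζ, e k z⟫_ℝ) • n (k + 1) z
    - (2 * ⟪n (k + 1) z, e k z⟫_ℝ) • fderiv ℝ (n (k + 1)) z ζ
  piv : ∀ k, ∀ z ∈ A, ∀ δ, ⟪e k z, δ⟫_ℝ = 0 →
    ∃ ζ, fderiv ℝ (x (k + 1)) z ζ = 0 ∧ fderiv ℝ (e k) z ζ = δ

namespace Fam

variable {E Z : Type*} [NormedAddCommGroup E] [InnerProductSpace ℝ E]
  [NormedAddCommGroup Z] [NormedSpace ℝ Z] (F : Fam E Z)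

/-- Renumbering the vertices. -/
def shift (j : ℕ) : Fam E Z where
  A := F.A
  x k := F.x (k + j)
  e k := F.e (k + j)
  n k := F.n (k + j)
  L k := F.L (k + j)
  S k := F.S (k + j)
  px k := by rw [← F.px (k + j)]; congr 1; omega
  pe k := by rw [← F.pe (k + j)]; congr 1; omega
  pn k := by rw [← F.pn (k + j)]; congr 1; omega
  pL k := by rw [← F.pL (k + j)]; congr 1; omega
  pS k := by rw [← F.pS (k + j)]; congr 1; omega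
  dx k := F.dx (k + j)
  de k := F.de (k + j)
  dn k := F.dn (k + j)
  dL k := F.dL (k + j)
  dS k := F.dS (k + j)
  Lpos k := F.Lpos (k + j)
  ee k := F.ee (k + j)
  nn k := F.nn (k + j)
  step k := by have := F.step (k + j); rwa [show k + j + 1 = k + 1 + j by omega] at this
  refl k := by have := F.refl (k + j); rwa [show k + j + 1 = k + 1 + j by omega] at this
  tr k := F.tr (k + j)
  sym k := F.sym (k + j)
  Sn k := F.Sn (k + j)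
  ejac k := F.ejac (k + j)
  tan k := F.tan (k + j)
  njac k := F.njac (k + j)
  Sjac k := F.Sjac (k + j)
  stepjac k := by have := F.stepjac (k + j); rwa [show k + j + 1 = k + 1 + j by omega] at this
  refljac k := by have := F.refljac (k + j); rwa [show k + j + 1 = k + 1 + j by omega] at this
  piv k := by have := F.piv (k + j); rwa [show k + j + 1 = k + 1 + j by omega] at this

/-- The restriction to a subset. -/
def restrict (B : Set Z) (hB : B ⊆ F.A) : Fam E Z where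
  A := B
  x := F.x
  e := F.e
  n := F.n
  L := F.L
  S := F.S
  px := F.px
  pe := F.pe
  pn := F.pn
  pL := F.pL
  pS := F.pS
  dx k z hz := F.dx k z (hB hz)
  de k z hz := F.de k z (hB hz)
  dn k z hz := F.dn k z (hB hz)
  dL k z hz := F.dL k z (hB hz)
  dS k z hz := F.dS k z (hB hz)
  Lpos k z hz := F.Lpos k z (hB hz)
  ee k z hz := F.ee k z (hB hz)
  nn k z hz := F.nn k z (hB hz)
  step k z hz := F.step k z (hB hz)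
  refl k z hz := F.refl k z (hB hz)
  tr k z hz := F.tr k z (hB hz)
  sym k z hz := F.sym k z (hB hz)
  Sn k z hz := F.Sn k z (hB hz)
  ejac k z hz := F.ejac k z (hB hz)
  tan k z hz := F.tan k z (hB hz)
  njac k z hz := F.njac k z (hB hz)
  Sjac k z hz := F.Sjac k z (hB hz)
  stepjac k z hz := F.stepjac k z (hB hz)
  refljac k z hz := F.refljac k z (hB hz)
  piv k z hz := F.piv k z (hB hz)

/-- The cosine of the angle with the normal. -/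
def c (k : ℕ) (z : Z) : ℝ := -⟪F.n k z, F.e k z⟫_ℝ

/-- The normalised normal at the vertex `k`, seen from the side `k`. -/
def mo (k : ℕ) (z : Z) : E := (⟪F.n k z, F.e k z⟫_ℝ)⁻¹ • F.n k z

/-- The normalised normal at the vertex `k + 1`, seen from the side `k`. -/
def mi (k : ℕ) (z : Z) : E := (⟪F.n (k + 1) z, F.e k z⟫_ℝ)⁻¹ • F.n (k + 1) z

/-- The curvature operator of the vertex `k`, seen from the side `k`. -/
def go (k : ℕ) (z : Z) (v : E) : E := gam (F.c k z) (F.S k z) (F.mo k z) (F.e k z) v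

/-- The curvature operator of the vertex `k + 1`, seen from the side `k`. -/
def gi (k : ℕ) (z : Z) (v : E) : E := gam (F.c (k + 1) z) (F.S (k + 1) z) (F.mi k z) (F.e k z) v

/-- The perimeter. -/
def P (z : Z) : ℝ := F.L 0 z + F.L 1 z + F.L 2 z + F.L 3 z

/-- The three normalised normals at the vertices `0, 1, 2` seen from the side `0` (the vertex `2`
being seen in the mirror `1`). -/
def mL (z : Z) : E := F.mo 0 z
def mC (z : Z) : E := F.mi 0 z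
def mR (z : Z) : E := rf (F.n 1 z) (F.mi 1 z)

/-- The curvature operators at the vertices `0, 1, 2` seen from the side `0`. -/
def gL (z : Z) (v : E) : E := F.go 0 z v
def gC (z : Z) (v : E) : E := F.gi 0 z v
def gR (z : Z) (v : E) : E := rf (F.n 1 z) (F.gi 1 z (rf (F.n 1 z) v))

/-- The function `ν`. -/
def fnu (z : Z) : E := F.mC z - F.e 0 z

/-- The planarity function. -/
def fplan (z : Z) : E :=
  ⟪F.mC z - F.e 0 z, F.mC z - F.e 0 z⟫_ℝ • (F.mL z - F.e 0 z)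
    - ⟪F.mL z - F.e 0 z, F.mC z - F.e 0 z⟫_ℝ • (F.mC z - F.e 0 z)

/-- The umbilicity function; `t` is the tangential part of `e 0` at the vertex `1`. -/
def fumb (z : Z) : E :=
  (1 - F.c 1 z ^ 2) • F.S 1 z (F.e 0 z)
    - ⟪F.S 1 z (F.e 0 z), F.e 0 z⟫_ℝ • (F.e 0 z - F.c 1 z • F.n 1 z)

/-- The forms `g` and `B` (the matrix `N 1`). -/
def fg (z : Z) (v w : E) : ℝ := ⟪v, w⟫_ℝ - ⟪v, F.e 0 z⟫_ℝ * ⟪w, F.e 0 z⟫_ℝ

def fB (z : Z) (v w : E) : ℝ :=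
  F.L 0 z * F.L 1 z * (2 * F.c 1 z) *
    ⟪F.S 1 z (v - ⟪F.mC z, v⟫_ℝ • F.e 0 z), w - ⟪F.mC z, w⟫_ℝ • F.e 0 z⟫_ℝ +
  (F.L 0 z + F.L 1 z) * F.fg z v w

/-- The Gram trace. -/
def ftau (z : Z) : ℝ :=
  F.fB z (F.mC z) (F.mC z) * F.fg z (F.mL z) (F.mL z)
  - 2 * F.fB z (F.mC z) (F.mL z) * F.fg z (F.mC z) (F.mL z)
  + F.fB z (F.mL z) (F.mL z) * F.fg z (F.mC z) (F.mC z)

/-- The function `T`. -/
def fT (z : Z) : E :=
  (2 * F.L 0 z * F.L 1 z / F.c 1 z) •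
    (F.S 1 z (F.e 0 z) - ⟪F.e 0 z, F.S 1 z (F.e 0 z)⟫_ℝ • F.mC z)
  + F.L 0 z • (F.mR z - F.mC z) + F.L 1 z • (F.mL z - F.mC z)

/-- `P` times the virtual curvatures. -/
def A1 (z : Z) : ℝ := (F.L 0 z + F.L 1 z) * (F.L 2 z + F.L 3 z) +
  ⟪F.x 2 z - F.x 0 z, F.x 2 z - F.x 0 z⟫_ℝ

def A2 (z : Z) : ℝ := (F.L 1 z + F.L 2 z) * (F.L 3 z + F.L 0 z) +
  ⟪F.x 3 z - F.x 1 z, F.x 3 z - F.x 1 z⟫_ℝ

/-- The function `Φ`; it vanishes if and only if the holonomy is a half turn. -/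
def fPhi (z : Z) : ℝ :=
  F.A1 z * F.A2 z - F.P z ^ 2 * (F.L 0 z * F.L 2 z + F.L 1 z * F.L 3 z)

/-- The second function of the half turn case. -/
def fH (z : Z) : ℝ :=
  F.P z * ⟪F.S 1 z (F.e 0 z), F.e 0 z⟫_ℝ + 2 * F.c 1 z ^ 3 * (1 - F.c 1 z ^ 2)

/-- The points at which the relevant functions have zero derivative if they vanish. -/
structure Good (z : Z) : Prop where
  nu : F.fnu z = 0 → fderiv ℝ F.fnu z = 0
  plan : F.fplan z = 0 → fderiv ℝ F.fplan z = 0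
  umb : F.fumb z = 0 → fderiv ℝ F.fumb z = 0
  tau : F.ftau z = 0 → fderiv ℝ F.ftau z = 0
  T : F.fT z = 0 → fderiv ℝ F.fT z = 0
  Phi : F.fPhi z = 0 → fderiv ℝ F.fPhi z = 0
  H : F.fH z = 0 → fderiv ℝ F.fH z = 0

/-- The unfolding maps and their inverses. -/
def uf (z : Z) : ℕ → E → E
  | 0, v => v
  | k + 1, v => uf z k (rf (F.n (k + 1) z) v)

def ufi (z : Z) : ℕ → E → E
  | 0, v => v
  | k + 1, v => rf (F.n (k + 1) z) (ufi z k v)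

/-- The derivatives in the direction `ζ` which keeps the vertex `1` fixed and turns the side `0`
with velocity `δ`. -/
structure Piv (z ζ : Z) (δ : E) : Prop where
  x1 : fderiv ℝ (F.x 1) z ζ = 0
  n1 : fderiv ℝ (F.n 1) z ζ = 0
  S1 : fderiv ℝ (F.S 1) z ζ = 0
  e0 : fderiv ℝ (F.e 0) z ζ = δ
  e1 : fderiv ℝ (F.e 1) z ζ = rf (F.n 1 z) δ
  x0 : fderiv ℝ (F.x 0) z ζ = -(F.L 0 z • (δ - ⟪F.mL z, δ⟫_ℝ • F.e 0 z))
  x2 : fderiv ℝ (F.x 2) z ζ = F.L 1 z • rf (F.n 1 z) (δ - ⟪F.mR z, δ⟫_ℝ • F.e 0 z)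
  L0 : fderiv ℝ (F.L 0) z ζ = -(F.L 0 z * ⟪F.mL z, δ⟫_ℝ)
  L1 : fderiv ℝ (F.L 1) z ζ = -(F.L 1 z * ⟪F.mR z, δ⟫_ℝ)
  c1 : fderiv ℝ (F.c 1) z ζ = F.c 1 z * ⟪F.mC z, δ⟫_ℝ
  mC : fderiv ℝ F.mC z ζ = -(⟪F.mC z, δ⟫_ℝ • F.mC z)
  mL : fderiv ℝ F.mL z ζ = -(⟪F.mL z, δ⟫_ℝ • F.mL z) - (F.L 0 z / 2) • F.gL z δ
  mR : fderiv ℝ F.mR z ζ = -(⟪F.mR z, δ⟫_ℝ • F.mR z) - (F.L 1 z / 2) • F.gR z δ
  P : fderiv ℝ F.P z ζ = 0

end Fam

/-- A family of quadrilaterals, depending on the position of the vertices `1` and `2`, for which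
the reflection law holds at the vertices `1` and `2`. -/
structure Raw (E Z : Type*) [NormedAddCommGroup E] [InnerProductSpace ℝ E]
    [NormedAddCommGroup Z] [NormedSpace ℝ Z] where
  U : Set Z
  hU : IsOpen U
  x : ℕ → Z → E
  e : ℕ → Z → E
  n : ℕ → Z → E
  L : ℕ → Z → ℝ
  S : ℕ → Z → E →L[ℝ] E
  px : ∀ k, x (k + 4) = x k
  pe : ∀ k, e (k + 4) = e k
  pn : ∀ k, n (k + 4) = n k
  pL : ∀ k, L (k + 4) = L k
  pS : ∀ k, S (k + 4) = S k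
  dx : ∀ k, ∀ z ∈ U, DifferentiableAt ℝ (x k) z
  de : ∀ k, ∀ z ∈ U, DifferentiableAt ℝ (e k) z
  dn : ∀ k, ∀ z ∈ U, DifferentiableAt ℝ (n k) z
  dL : ∀ k, ∀ z ∈ U, DifferentiableAt ℝ (L k) z
  dS : ∀ k, ∀ z ∈ U, DifferentiableAt ℝ (S k) z
  Lpos : ∀ k, ∀ z ∈ U, 0 < L k z
  ee : ∀ k, ∀ z ∈ U, ⟪e k z, e k z⟫_ℝ = 1
  nn : ∀ k, ∀ z ∈ U, ⟪n k z, n k z⟫_ℝ = 1
  step : ∀ k, ∀ z ∈ U, x (k + 1) z = x k z + L k z • e k z
  refl1 : ∀ z ∈ U, e 1 z = rf (n 1 z) (e 0 z)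
  refl2 : ∀ z ∈ U, e 2 z = rf (n 2 z) (e 1 z)
  tr : ∀ k, ∀ z ∈ U, ⟪n k z, e k z⟫_ℝ ≠ 0
  sym : ∀ k, ∀ z ∈ U, ∀ v w, ⟪S k z v, w⟫_ℝ = ⟪v, S k z w⟫_ℝ
  Sn : ∀ k, ∀ z ∈ U, S k z (n k z) = 0
  tan : ∀ k, ∀ z ∈ U, ∀ ζ, ⟪n k z, fderiv ℝ (x k) z ζ⟫_ℝ = 0
  njac : ∀ k, ∀ z ∈ U, ∀ ζ, fderiv ℝ (n k) z ζ = -S k z (fderiv ℝ (x k) z ζ)
  Sjac : ∀ k, ∀ z ∈ U, ∀ ζ, fderiv ℝ (x k) z ζ = 0 → fderiv ℝ (S k) z ζ = 0
  surj : ∀ z ∈ U, ∀ X Y, ⟪n 1 z, X⟫_ℝ = 0 → ⟪n 2 z, Y⟫_ℝ = 0 →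
    ∃ ζ, fderiv ℝ (x 1) z ζ = X ∧ fderiv ℝ (x 2) z ζ = Y

/-- The members of the family which are closed trajectories. -/
def Raw.A {E Z : Type*} [NormedAddCommGroup E] [InnerProductSpace ℝ E]
    [NormedAddCommGroup Z] [NormedSpace ℝ Z] (R : Raw E Z) : Set Z :=
  {z | z ∈ R.U ∧ R.e 3 z = rf (R.n 3 z) (R.e 2 z) ∧ R.e 0 z = rf (R.n 0 z) (R.e 3 z)}

/-- The periodic sequence of the vertices of a quadrilateral. -/
def quad {E : Type*} (w : E × E × E × E) (k : ℕ) : E :=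
  if k % 4 = 0 then w.1 else if k % 4 = 1 then w.2.1 else if k % 4 = 2 then w.2.2.1 else w.2.2.2

/-- The unit vector in the direction of `v`. -/
def dir {E : Type*} [NormedAddCommGroup E] [InnerProductSpace ℝ E] (v : E) : E := ‖v‖⁻¹ • v

/-- The quadrilateral `w` is a billiard trajectory for the mirrors `F k = 0`. -/
structure Rel4 {E : Type*} [NormedAddCommGroup E] [InnerProductSpace ℝ E] [CompleteSpace E]
    (F : ℕ → E → ℝ) (w : E × E × E × E) : Prop where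
  zero : ∀ k, F k (quad w k) = 0
  ne : ∀ k, quad w (k + 1) ≠ quad w k
  refl : ∀ k, dir (quad w (k + 2) - quad w (k + 1)) =
    rf (dir (gradient (F (k + 1)) (quad w (k + 1)))) (dir (quad w (k + 1) - quad w k))
  tr : ∀ k, ⟪gradient (F (k + 1)) (quad w (k + 1)), quad w (k + 1) - quad w k⟫_ℝ ≠ 0

/-- The unfolded first order information of a closed trajectory with four bounces, seen from the
side `0`. All operators act on the orthogonal complement of the direction `u` of the side `0`. -/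
structure CJ (E : Type*) [NormedAddCommGroup E] [InnerProductSpace ℝ E] where
  u : E
  L : ℕ → ℝ
  M : ℕ → E
  G : ℕ → E →ₗ[ℝ] E
  U : E →ₗ[ℝ] E
  uu : ⟪u, u⟫_ℝ = 1
  pL : ∀ k, L (k + 4) = L k
  Lpos : ∀ k, 0 < L k
  Mu : ∀ k, ⟪M k, u⟫_ℝ = 1
  pM : ∀ k, M (k + 4) = U (M k)
  Gsym : ∀ k v w, ⟪G k v, w⟫_ℝ = ⟪v, G k w⟫_ℝ
  Gu : ∀ k, G k u = 0
  pG : ∀ k v, G (k + 4) (U v) = U (G k v)
  Uiso : ∀ v w, ⟪U v, U w⟫_ℝ = ⟪v, w⟫_ℝ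
  Uu : U u = u
  detU : LinearMap.det U = 1
  fix : ∀ f, ⟪f, u⟫_ℝ = 0 → ⟪f, M 0⟫_ℝ = 0 → ⟪f, M 1⟫_ℝ = 0 → U f = f
  close : ∀ Y d : ℕ → E, ⟪Y 0, u⟫_ℝ = 0 → ⟪d 0, u⟫_ℝ = 0 →
    (∀ k, Y (k + 1) = Y k + L k • d k) →
    (∀ k, d (k + 1) = d k + (⟪M (k + 1), M (k + 1)⟫_ℝ)⁻¹ • G (k + 1) (Y (k + 1))) →
    ∀ k, Y (k + 4) = U (Y k) ∧ d (k + 4) = U (d k)
  tri : L 3 < L 0 + L 1 + L 2
  pv : ∀ k, L (k + 2) + L (k + 3) - 4 * L (k + 2) * L (k + 3) /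
      ((L 0 + L 1 + L 2 + L 3) * ⟪M (k + 3), M (k + 3)⟫_ℝ) =
    L k + L (k + 1) - 4 * L k * L (k + 1) /
      ((L 0 + L 1 + L 2 + L 3) * ⟪M (k + 1), M (k + 1)⟫_ℝ)
  cl : ∀ k, (L (k + 2) / ⟪M (k + 2), M (k + 2)⟫_ℝ) • (M (k + 2) - u) +
      ((L (k + 1) + L (k + 2) - 4 * L (k + 1) * L (k + 2) /
        ((L 0 + L 1 + L 2 + L 3) * ⟪M (k + 2), M (k + 2)⟫_ℝ)) / ⟪M (k + 1), M (k + 1)⟫_ℝ) •
        (M (k + 1) - u) +
      (L (k + 3) / ⟪M k, M k⟫_ℝ) • (M k - u) =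
    ((L 0 + L 1 + L 2 + L 3) / 4 * (L 0 * L 2 + L 1 * L 3 -
      (L 0 + L 1 - 4 * L 0 * L 1 / ((L 0 + L 1 + L 2 + L 3) * ⟪M 1, M 1⟫_ℝ)) *
      (L 1 + L 2 - 4 * L 1 * L 2 / ((L 0 + L 1 + L 2 + L 3) * ⟪M 2, M 2⟫_ℝ))) /
      (L k * L (k + 1))) • (M (k + 1) - u)

namespace CJ

variable {E : Type*} [NormedAddCommGroup E] [InnerProductSpace ℝ E] (J : CJ E)

/-- The perimeter. -/
def P : ℝ := J.L 0 + J.L 1 + J.L 2 + J.L 3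

/-- `κ = L 0 * L 2 + L 1 * L 3`. -/
def κ : ℝ := J.L 0 * J.L 2 + J.L 1 * J.L 3

/-- The virtual eigenvalue at the vertex `k + 1`. -/
def v (k : ℕ) : ℝ := J.L k + J.L (k + 1) -
  4 * J.L k * J.L (k + 1) / (J.P * ⟪J.M (k + 1), J.M (k + 1)⟫_ℝ)

/-- The operator of the vertex `k + 1`. -/
def N (k : ℕ) (w : E) : E := (J.L k + J.L (k + 1)) • w +
  (J.L k * J.L (k + 1) / ⟪J.M (k + 1), J.M (k + 1)⟫_ℝ) • J.G (k + 1) w

end CJ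

end Pool.Agent.H721R2.Quart

end
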