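import Pool.Agent.H721R2.Quart.Def

set_option autoImplicit false

open MeasureTheory Set Filter Topology
open scoped InnerProductSpace

namespace Pool.Agent.H721R2.Quart

namespace CJ

variable {E : Type*} [NormedAddCommGroup E] [InnerProductSpace ℝ E] (J : CJ E)

/-- the Jacobi recursion -/
def E1_Sol (Y d : ℕ → E) : Prop :=
  ⟪Y 0, J.u⟫_ℝ = 0 ∧ ⟪d 0, J.u⟫_ℝ = 0 ∧
    (∀ k, Y (k + 1) = Y k + J.L k • d k) ∧
    (∀ k, d (k + 1) = d k + (⟪J.M (k + 1), J.M (k + 1)⟫_ℝ)⁻¹ • J.G (k + 1) (Y (k + 1)))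

theorem E1_exists (k : ℕ) : ∀ a b : E, ⟪a, J.u⟫_ℝ = 0 → ⟪b, J.u⟫_ℝ = 0 →
    ∃ Y d : ℕ → E, J.E1_Sol Y d ∧ Y k = a ∧ d k = b := by
  induction k with
  | zero =>
      intro a b ha hb
      let s : ℕ → E × E := fun n => Nat.rec (a, b) (fun k p =>
        (p.1 + J.L k • p.2, p.2 + (⟪J.M (k + 1), J.M (k + 1)⟫_ℝ)⁻¹ •
          J.G (k + 1) (p.1 + J.L k • p.2))) n
      exact ⟨fun n => (s n).1, fun n => (s n).2, ⟨ha, hb, fun _ => rfl, fun _ => rfl⟩, rfl, rfl⟩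
  | succ k ih =>
      intro a b ha hb
      have hG : ∀ j v, ⟪J.G j v, J.u⟫_ℝ = 0 := fun j v => by
        rw [J.Gsym, J.Gu, inner_zero_right]
      have hb' : ⟪b - (⟪J.M (k + 1), J.M (k + 1)⟫_ℝ)⁻¹ • J.G (k + 1) a, J.u⟫_ℝ = 0 := by
        rw [inner_sub_left, inner_smul_left, hG, hb]; simp
      obtain ⟨Y, d, hs, h1, h2⟩ := ih
        (a - J.L k • (b - (⟪J.M (k + 1), J.M (k + 1)⟫_ℝ)⁻¹ • J.G (k + 1) a))
        (b - (⟪J.M (k + 1), J.M (k + 1)⟫_ℝ)⁻¹ • J.G (k + 1) a)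
        (by rw [inner_sub_left, inner_smul_left, hb', ha]; simp) hb'
      have h3 : Y (k + 1) = a := by
        rw [hs.2.2.1 k, h1, h2]; abel
      refine ⟨Y, d, hs, h3, ?_⟩
      rw [hs.2.2.2 k, h3, h2]; abel

/-- three term relation -/
theorem E1_three {Y d : ℕ → E} (h : J.E1_Sol Y d) (j : ℕ) :
    J.N j (Y (j + 1)) = J.L j • Y (j + 2) + J.L (j + 1) • Y j := by
  obtain ⟨_, _, h1, h2⟩ := h
  have e1 : Y (j + 2) = Y (j + 1) + J.L (j + 1) • d (j + 1) := h1 (j + 1)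
  have e2 := h2 j
  have e3 : J.L j • d j = Y (j + 1) - Y j := by rw [h1 j]; abel
  unfold N
  rw [e1, e2, smul_add (J.L (j + 1)), smul_add (J.L j), smul_add (J.L j), smul_comm (J.L j)
    (J.L (j + 1)) (d j), e3]
  simp only [smul_smul, smul_sub, add_smul]
  have e4 : J.L j * (J.L (j + 1) * (⟪J.M (j + 1), J.M (j + 1)⟫_ℝ)⁻¹) =
      J.L j * J.L (j + 1) / ⟪J.M (j + 1), J.M (j + 1)⟫_ℝ := by
    rw [div_eq_mul_inv]; ring
  rw [e4]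
  abel

theorem E1_wronsk {Y d Y' d' : ℕ → E} (h : J.E1_Sol Y d) (h' : J.E1_Sol Y' d') (j : ℕ) :
    ⟪Y (j + 1), d' (j + 1)⟫_ℝ - ⟪Y' (j + 1), d (j + 1)⟫_ℝ =
      ⟪Y j, d' j⟫_ℝ - ⟪Y' j, d j⟫_ℝ := by
  obtain ⟨_, _, h1, h2⟩ := h
  obtain ⟨_, _, h1', h2'⟩ := h'
  rw [h2' j, h2 j, inner_add_right, inner_add_right, inner_smul_right, inner_smul_right,
    ← J.Gsym, real_inner_comm (Y' (j + 1)) (J.G (j + 1) (Y (j + 1)))]
  have e : ∀ a b : ℝ, ⟪Y (j + 1), d' j⟫_ℝ + a * b - (⟪Y' (j + 1), d j⟫_ℝ + a * b) =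
      ⟪Y (j + 1), d' j⟫_ℝ - ⟪Y' (j + 1), d j⟫_ℝ := fun a b => by ring
  rw [e, h1 j, h1' j, inner_add_left, inner_add_left, inner_smul_left, inner_smul_left,
    real_inner_comm (d j) (d' j)]
  simp

/-- the data of the field which vanishes at the vertex `k` -/
theorem E1_field (k : ℕ) (v : E) (hv : ⟪v, J.u⟫_ℝ = 0) : ∃ Y d : ℕ → E, J.E1_Sol Y d ∧
    Y k = 0 ∧ d k = v ∧ Y (k + 1) = J.L k • v ∧ Y (k + 2) = J.N k v ∧
    Y (k + 3) = -(J.L (k + 3) • J.U v) ∧ Y (k + 4) = 0 ∧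
    J.L (k + 2) • d (k + 2) = -(J.L (k + 3) • J.U v) - J.N k v := by
  obtain ⟨Y, d, hs, h1, h2⟩ := J.E1_exists k 0 v (by simp) hv
  have h3 : Y (k + 1) = J.L k • v := by rw [hs.2.2.1 k, h1, h2, zero_add]
  have h4 : Y (k + 2) = J.N k v := by
    have e1 : Y (k + 2) = Y (k + 1) + J.L (k + 1) • d (k + 1) := hs.2.2.1 (k + 1)
    rw [e1, hs.2.2.2 k, h3, h2, map_smul]
    unfold N
    simp only [smul_add, smul_smul, add_smul]
    have e4 : J.L (k + 1) * ((⟪J.M (k + 1), J.M (k + 1)⟫_ℝ)⁻¹ * J.L k) =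
        J.L k * J.L (k + 1) / ⟪J.M (k + 1), J.M (k + 1)⟫_ℝ := by
      rw [div_eq_mul_inv]; ring
    rw [e4]
    abel
  obtain ⟨h5, h6⟩ := J.close Y d hs.1 hs.2.1 hs.2.2.1 hs.2.2.2 k
  rw [h1, map_zero] at h5
  rw [h2] at h6
  have h7 : d (k + 4) = d (k + 3) := by
    have e1 := hs.2.2.2 (k + 3)
    rw [show k + 3 + 1 = k + 4 by omega, h5, map_zero, smul_zero, add_zero] at e1
    exact e1
  have h8 : Y (k + 3) = -(J.L (k + 3) • J.U v) := by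
    have e1 := hs.2.2.1 (k + 3)
    rw [show k + 3 + 1 = k + 4 by omega, h5, ← h7, h6] at e1
    exact eq_neg_of_add_eq_zero_left e1.symm
  refine ⟨Y, d, hs, h1, h2, h3, h4, h8, h5, ?_⟩
  have e1 := hs.2.2.1 (k + 2)
  rw [show k + 2 + 1 = k + 3 by omega, h8, h4] at e1
  rw [e1]; abel

theorem E1_N_smul (k : ℕ) (r : ℝ) (v : E) : J.N k (r • v) = r • J.N k v := by
  unfold N
  rw [map_smul, smul_add, smul_comm r, smul_comm r]

theorem E1_N_neg (k : ℕ) (v : E) : J.N k (-v) = -J.N k v := by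
  have := J.E1_N_smul k (-1) v
  simpa using this

/-- E1 -/
theorem star (k : ℕ) (v w : E) (hv : ⟪v, J.u⟫_ℝ = 0) (hw : ⟪w, J.u⟫_ℝ = 0) :
    ⟪J.N k v, J.U w⟫_ℝ = ⟪J.N k w, J.U v⟫_ℝ := by
  obtain ⟨Y, d, hs, h1, h2, h3, h4, h5, h6, h7⟩ := J.E1_field k v hv
  obtain ⟨Y', d', hs', h1', h2', h3', h4', h5', h6', h7'⟩ := J.E1_field k w hw
  have e1 := J.E1_wronsk hs hs' k
  have e2 : ⟪Y (k + 2), d' (k + 2)⟫_ℝ - ⟪Y' (k + 2), d (k + 2)⟫_ℝ =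
      ⟪Y (k + 1), d' (k + 1)⟫_ℝ - ⟪Y' (k + 1), d (k + 1)⟫_ℝ := J.E1_wronsk hs hs' (k + 1)
  rw [e1, h1, h1', inner_zero_left, inner_zero_left, sub_zero] at e2
  have e3 : ⟪Y (k + 2), J.L (k + 2) • d' (k + 2)⟫_ℝ -
      ⟪Y' (k + 2), J.L (k + 2) • d (k + 2)⟫_ℝ = 0 := by
    rw [inner_smul_right, inner_smul_right, ← mul_sub, e2, mul_zero]
  rw [h7, h7', h4, h4', inner_sub_right, inner_sub_right, inner_neg_right, inner_neg_right,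
    inner_smul_right, inner_smul_right, real_inner_comm (J.N k w) (J.N k v)] at e3
  have h0 := J.Lpos (k + 3)
  have e4 : J.L (k + 3) * (⟪J.N k v, J.U w⟫_ℝ - ⟪J.N k w, J.U v⟫_ℝ) = 0 := by
    linarith
  have e5 := (mul_eq_zero.mp e4).resolve_left h0.ne'
  linarith

theorem N2 (k : ℕ) (v : E) (hv : ⟪v, J.u⟫_ℝ = 0) :
    J.N (k + 1) (J.N k v) = (J.L k * J.L (k + 2)) • v - (J.L (k + 1) * J.L (k + 3)) • J.U v := by
  obtain ⟨Y, d, hs, h1, h2, h3, h4, h5, h6, h7⟩ := J.E1_field k v hv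
  have e := J.E1_three hs (k + 1)
  rw [show k + 1 + 1 = k + 2 by omega, show k + 1 + 2 = k + 3 by omega, h3, h4, h5] at e
  rw [e, smul_neg, smul_smul, smul_smul, mul_comm (J.L k)]
  abel

theorem N3 (k : ℕ) (v : E) (hv : ⟪v, J.u⟫_ℝ = 0) : J.N (k + 2) (J.U v) = -J.N k v := by
  obtain ⟨Y, d, hs, h1, h2, h3, h4, h5, h6, h7⟩ := J.E1_field k v hv
  have e := J.E1_three hs (k + 2)
  rw [show k + 2 + 1 = k + 3 by omega, show k + 2 + 2 = k + 4 by omega, h4, h5, h6, smul_zero,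
    zero_add, J.E1_N_neg, J.E1_N_smul] at e
  have h0 := (J.Lpos (k + 3)).ne'
  have e2 : J.L (k + 3) • (J.N (k + 2) (J.U v) + J.N k v) = 0 := by
    rw [smul_add, ← e]; abel
  have e3 := (smul_eq_zero.mp e2).resolve_left h0
  exact eq_neg_of_add_eq_zero_left e3

end CJ

end Pool.Agent.H721R2.Quart
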