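import Pool.Agent.H721R2.Quart.Def

set_option autoImplicit false

open MeasureTheory Set Filter Topology
open scoped InnerProductSpace

namespace Pool.Agent.H721R2.Quart

namespace CJ

variable {E : Type*} [NormedAddCommGroup E] [InnerProductSpace ℝ E] (J : CJ E)

theorem E2_bound [FiniteDimensional ℝ E] (G : E →ₗ[ℝ] E) : ∃ C : ℝ, ∀ x, |⟪G x, x⟫_ℝ| ≤ C * ⟪x, x⟫_ℝ := by
  refine ⟨‖LinearMap.toContinuousLinearMap G‖, fun x => ?_⟩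
  have h1 := (LinearMap.toContinuousLinearMap G).le_opNorm x
  rw [LinearMap.coe_toContinuousLinearMap'] at h1
  calc |⟪G x, x⟫_ℝ| ≤ ‖G x‖ * ‖x‖ := abs_real_inner_le_norm _ _
    _ ≤ (‖LinearMap.toContinuousLinearMap G‖ * ‖x‖) * ‖x‖ := by gcongr
    _ = _ := by rw [real_inner_self_eq_norm_sq]; ring

theorem E2_U_perp {v : E} (hv : ⟪v, J.u⟫_ℝ = 0) : ⟪J.U v, J.u⟫_ℝ = 0 := by
  have := J.Uiso v J.u
  rw [J.Uu] at this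
  rw [this, hv]

theorem E2_ap (h : ∀ k, ∀ v, ⟪v, J.u⟫_ℝ = 0 →
    (2 : ℝ) • J.G (k + 1) v = J.G (k + 2) v + J.G k v) {v : E} (hv : ⟪v, J.u⟫_ℝ = 0) (k : ℕ) :
    J.G k v = J.G 0 v + (k : ℝ) • (J.G 1 v - J.G 0 v) ∧
    J.G (k + 1) v = J.G 0 v + ((k : ℝ) + 1) • (J.G 1 v - J.G 0 v) := by
  induction k with
  | zero =>
    constructor
    · simp
    · simp only [Nat.cast_zero, zero_add, one_smul]
      abel
  | succ k ih =>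
    refine ⟨?_, ?_⟩
    · rw [ih.2]
      push_cast
      rfl
    · have h1 := h k v hv
      have h2 : J.G (k + 1 + 1) v = (2 : ℝ) • J.G (k + 1) v - J.G k v := by
        rw [h1]
        show J.G (k + 2) v = _
        abel
      rw [h2, ih.1, ih.2]
      push_cast
      module

/-- iterates of the holonomy -/
theorem E2_iter {v : E} (hv : ⟪v, J.u⟫_ℝ = 0) (j : ℕ) :
    ⟪(J.U)^[j] v, J.u⟫_ℝ = 0 ∧ ⟪(J.U)^[j] v, (J.U)^[j] v⟫_ℝ = ⟪v, v⟫_ℝ := by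
  induction j with
  | zero => exact ⟨hv, rfl⟩
  | succ j ih =>
    rw [Function.iterate_succ_apply']
    exact ⟨J.E2_U_perp ih.1, by rw [J.Uiso, ih.2]⟩

theorem E2_B_zero [FiniteDimensional ℝ E] (h : ∀ k, ∀ v, ⟪v, J.u⟫_ℝ = 0 →
    (2 : ℝ) • J.G (k + 1) v = J.G (k + 2) v + J.G k v) {v : E} (hv : ⟪v, J.u⟫_ℝ = 0) :
    ⟪J.G 1 v - J.G 0 v, v⟫_ℝ = 0 := by
  have key : ∀ x : E, ⟪x, J.u⟫_ℝ = 0 →
      ⟪J.G 1 (J.U x) - J.G 0 (J.U x), J.U x⟫_ℝ = ⟪J.G 1 x - J.G 0 x, x⟫_ℝ ∧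
      ⟪J.G 0 (J.U x), J.U x⟫_ℝ = ⟪J.G 0 x, x⟫_ℝ - 4 * ⟪J.G 1 x - J.G 0 x, x⟫_ℝ := by
    intro x hx
    have hUx := J.E2_U_perp hx
    have e : ∀ k : ℕ, ⟪J.G (k + 4) (J.U x), J.U x⟫_ℝ = ⟪J.G k x, x⟫_ℝ := by
      intro k
      rw [J.pG, J.Uiso]
    have e0 := e 0
    have e1 := e 1
    rw [(J.E2_ap h hUx (0 + 4)).1, (J.E2_ap h hx 0).1] at e0
    rw [(J.E2_ap h hUx (1 + 4)).1, (J.E2_ap h hx 1).1] at e1
    simp only [inner_add_left, real_inner_smul_left] at e0 e1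
    push_cast at e0 e1
    constructor <;> linarith
  obtain ⟨C, hC⟩ := E2_bound (J.G 0)
  have hit : ∀ j : ℕ, ⟪J.G 1 ((J.U)^[j] v) - J.G 0 ((J.U)^[j] v), (J.U)^[j] v⟫_ℝ =
      ⟪J.G 1 v - J.G 0 v, v⟫_ℝ ∧
      ⟪J.G 0 ((J.U)^[j] v), (J.U)^[j] v⟫_ℝ = ⟪J.G 0 v, v⟫_ℝ - 4 * j * ⟪J.G 1 v - J.G 0 v, v⟫_ℝ := by
    intro j
    induction j with
    | zero => exact ⟨rfl, by simp⟩
    | succ j ih =>
      have hk := key _ (J.E2_iter hv j).1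
      rw [Function.iterate_succ_apply']
      refine ⟨hk.1.trans ih.1, ?_⟩
      rw [hk.2, ih.1, ih.2]
      push_cast
      ring
  set B := ⟪J.G 1 v - J.G 0 v, v⟫_ℝ with hB
  set A := ⟪J.G 0 v, v⟫_ℝ with hA
  by_contra hne
  have hbd : ∀ j : ℕ, |A - 4 * j * B| ≤ C * ⟪v, v⟫_ℝ := by
    intro j
    have := hC ((J.U)^[j] v)
    rw [(hit j).2, (J.E2_iter hv j).2] at this
    exact this
  have hB' : 0 < |B| := abs_pos.2 hne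
  obtain ⟨j, hj⟩ := exists_nat_gt ((C * ⟪v, v⟫_ℝ + |A|) / (4 * |B|))
  rw [div_lt_iff₀ (by positivity)] at hj
  have h1 := hbd j
  have h2 : |4 * (j : ℝ) * B| ≤ |A - 4 * j * B| + |A| := by
    calc |4 * (j : ℝ) * B| = |A - (A - 4 * j * B)| := by congr 1; ring
      _ ≤ |A| + |A - 4 * j * B| := abs_sub _ _
      _ = _ := by ring
  rw [abs_mul, abs_mul, abs_of_nonneg (by norm_num : (0 : ℝ) ≤ 4), abs_of_nonneg (Nat.cast_nonneg j)] at h2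
  nlinarith

theorem E2_const [FiniteDimensional ℝ E] (h : ∀ k, ∀ v, ⟪v, J.u⟫_ℝ = 0 →
    (2 : ℝ) • J.G (k + 1) v = J.G (k + 2) v + J.G k v) {v : E} (hv : ⟪v, J.u⟫_ℝ = 0) :
    J.G 1 v - J.G 0 v = 0 := by
  set w := J.G 1 v - J.G 0 v with hw
  have hwu : ⟪w, J.u⟫_ℝ = 0 := by
    rw [hw, inner_sub_left, J.Gsym, J.Gsym, J.Gu, J.Gu, inner_zero_right, sub_zero]
  have h1 := J.E2_B_zero h (v := v + w) (by rw [inner_add_left, hv, hwu, add_zero])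
  have h2 := J.E2_B_zero h hv
  have h3 := J.E2_B_zero h hwu
  have h4 : ⟪J.G 1 w - J.G 0 w, v⟫_ℝ = ⟪w, w⟫_ℝ := by
    rw [inner_sub_left, J.Gsym, J.Gsym, ← inner_sub_right, ← hw]
  have h5 : J.G 1 (v + w) - J.G 0 (v + w) = w + (J.G 1 w - J.G 0 w) := by
    rw [map_add, map_add, hw]
    abel
  rw [h5, inner_add_left, inner_add_right, inner_add_right, h4, h3] at h1
  rw [← hw] at h2
  have h6 : ⟪w, w⟫_ℝ = 0 := by linarith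
  exact inner_self_eq_zero.1 h6

theorem E2_G_eq [FiniteDimensional ℝ E] (h : ∀ k, ∀ v, ⟪v, J.u⟫_ℝ = 0 →
    (2 : ℝ) • J.G (k + 1) v = J.G (k + 2) v + J.G k v) (k : ℕ) (v : E) : J.G k v = J.G 0 v := by
  have h1 : v = ⟪v, J.u⟫_ℝ • J.u + (v - ⟪v, J.u⟫_ℝ • J.u) := by abel
  have h2 : ⟪v - ⟪v, J.u⟫_ℝ • J.u, J.u⟫_ℝ = 0 := by
    rw [inner_sub_left, real_inner_smul_left, J.uu]; ring
  rw [h1, map_add, map_add, map_smul, map_smul, J.Gu, J.Gu, (J.E2_ap h h2 k).1, J.E2_const h h2,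
    smul_zero ((k : ℕ) : ℝ), add_zero (J.G 0 _)]

/-- the fundamental solutions -/
noncomputable def E2_PQ (G : E →ₗ[ℝ] E) (L m : ℕ → ℝ) : ℕ → (E →ₗ[ℝ] E) × (E →ₗ[ℝ] E)
  | 0 => (0, LinearMap.id)
  | k + 1 => ((E2_PQ G L m k).1 + L k • (E2_PQ G L m k).2,
      (E2_PQ G L m k).2 + m (k + 1) • (G ∘ₗ ((E2_PQ G L m k).1 + L k • (E2_PQ G L m k).2)))

theorem E2_PQ_prop (G : E →ₗ[ℝ] E) (L m : ℕ → ℝ) (hG : ∀ v w, ⟪G v, w⟫_ℝ = ⟪v, G w⟫_ℝ) (k : ℕ) :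
    (∀ a b, ⟪(E2_PQ G L m k).1 a, b⟫_ℝ = ⟪a, (E2_PQ G L m k).1 b⟫_ℝ) ∧
    (∀ a b, ⟪(E2_PQ G L m k).2 a, b⟫_ℝ = ⟪a, (E2_PQ G L m k).2 b⟫_ℝ) ∧
    (∀ a, (E2_PQ G L m k).1 (G a) = G ((E2_PQ G L m k).1 a)) ∧
    (∀ a, (E2_PQ G L m k).2 (G a) = G ((E2_PQ G L m k).2 a)) := by
  induction k with
  | zero => simp [E2_PQ]
  | succ k ih =>
    obtain ⟨h1, h2, h3, h4⟩ := ih
    simp only [E2_PQ, LinearMap.add_apply, LinearMap.smul_apply, LinearMap.comp_apply, map_add,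
      map_smul, inner_add_left, inner_add_right, real_inner_smul_left, real_inner_smul_right]
    refine ⟨fun a b => ?_, fun a b => ?_, fun a => ?_, fun a => ?_⟩
    · rw [h1, h2]
    · rw [h2, hG, hG, h1, h2, h3, h4]
    · rw [h3, h4]
    · rw [h3, h4]

/-- E2 -/
theorem sym_of_ap [FiniteDimensional ℝ E] (h : ∀ k, ∀ v, ⟪v, J.u⟫_ℝ = 0 →
    (2 : ℝ) • J.G (k + 1) v = J.G (k + 2) v + J.G k v) (v w : E) :
    ⟪J.U v, w⟫_ℝ = ⟪v, J.U w⟫_ℝ := by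
  set PQ := E2_PQ (J.G 0) J.L (fun k => (⟪J.M k, J.M k⟫_ℝ)⁻¹) with hPQ
  have hprop := E2_PQ_prop (J.G 0) J.L (fun k => (⟪J.M k, J.M k⟫_ℝ)⁻¹) (J.Gsym 0) 4
  have hU : ∀ δ : E, ⟪δ, J.u⟫_ℝ = 0 → J.U δ = (PQ 4).2 δ := by
    intro δ hδ
    have hc := J.close (fun k => (PQ k).1 δ) (fun k => (PQ k).2 δ)
      (by simp [hPQ, E2_PQ]) (by simpa [hPQ, E2_PQ] using hδ)
      (by intro k; simp [hPQ, E2_PQ])
      (by
        intro k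
        rw [J.E2_G_eq h (k + 1)]
        simp [hPQ, E2_PQ]) 0
    have h2 := hc.2
    have h3 : (PQ 0).2 δ = δ := by simp [hPQ, E2_PQ]
    rw [h3] at h2
    exact h2.symm
  have hperp : ∀ a b : E, ⟪a, J.u⟫_ℝ = 0 → ⟪b, J.u⟫_ℝ = 0 → ⟪J.U a, b⟫_ℝ = ⟪a, J.U b⟫_ℝ := by
    intro a b ha hb
    rw [hU a ha, hU b hb]
    exact hprop.2.1 a b
  have hdec : ∀ x : E, x = ⟪x, J.u⟫_ℝ • J.u + (x - ⟪x, J.u⟫_ℝ • J.u) := fun x => by abel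
  have hdp : ∀ x : E, ⟪x - ⟪x, J.u⟫_ℝ • J.u, J.u⟫_ℝ = 0 := by
    intro x
    rw [inner_sub_left, real_inner_smul_left, J.uu]; ring
  have hv := hdp v
  have hw := hdp w
  have hUv := J.E2_U_perp hv
  have hUw := J.E2_U_perp hw
  have hmain := hperp _ _ hv hw
  have hv' : ⟪J.u, v - ⟪v, J.u⟫_ℝ • J.u⟫_ℝ = 0 := by rw [real_inner_comm]; exact hv
  have hUw' : ⟪J.u, J.U (w - ⟪w, J.u⟫_ℝ • J.u)⟫_ℝ = 0 := by rw [real_inner_comm]; exact hUw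
  have hw' : ⟪J.u, w - ⟪w, J.u⟫_ℝ • J.u⟫_ℝ = 0 := by rw [real_inner_comm]; exact hw
  calc ⟪J.U v, w⟫_ℝ = ⟪⟪v, J.u⟫_ℝ • J.u + J.U (v - ⟪v, J.u⟫_ℝ • J.u),
        ⟪w, J.u⟫_ℝ • J.u + (w - ⟪w, J.u⟫_ℝ • J.u)⟫_ℝ := by
        rw [← hdec w]
        conv_lhs => rw [hdec v, map_add, map_smul, J.Uu]
    _ = ⟪v, J.u⟫_ℝ * ⟪w, J.u⟫_ℝ + ⟪J.U (v - ⟪v, J.u⟫_ℝ • J.u), w - ⟪w, J.u⟫_ℝ • J.u⟫_ℝ := by
        rw [inner_add_left, inner_add_right, inner_add_right, real_inner_smul_left, real_inner_smul_left,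
          real_inner_smul_right, real_inner_smul_right, J.uu, hUv, hw']
        ring
    _ = ⟪v, J.u⟫_ℝ * ⟪w, J.u⟫_ℝ + ⟪v - ⟪v, J.u⟫_ℝ • J.u, J.U (w - ⟪w, J.u⟫_ℝ • J.u)⟫_ℝ := by
        rw [hmain]
    _ = ⟪⟪v, J.u⟫_ℝ • J.u + (v - ⟪v, J.u⟫_ℝ • J.u),
        ⟪w, J.u⟫_ℝ • J.u + J.U (w - ⟪w, J.u⟫_ℝ • J.u)⟫_ℝ := by
        rw [inner_add_left, inner_add_right, inner_add_right, real_inner_smul_left, real_inner_smul_left,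
          real_inner_smul_right, real_inner_smul_right, J.uu, hUw', hv]
        ring
    _ = ⟪v, J.U w⟫_ℝ := by
        rw [← hdec v]
        conv_rhs => rw [hdec w, map_add, map_smul, J.Uu]

end CJ

end Pool.Agent.H721R2.Quart
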