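import Pool.Agent.H721R2.Quart.E1

set_option autoImplicit false

open MeasureTheory Set Filter Topology
open scoped InnerProductSpace

namespace Pool.Agent.H721R2.Quart

namespace CJ

variable {E : Type*} [NormedAddCommGroup E] [InnerProductSpace ℝ E] (J : CJ E)

theorem E3_MM_pos (k : ℕ) : 0 < ⟪J.M k, J.M k⟫_ℝ := by
  rw [real_inner_self_eq_norm_sq]
  have h : J.M k ≠ 0 := by
    intro h0
    have h1 := J.Mu k
    rw [h0, inner_zero_left] at h1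
    norm_num at h1
  have := norm_pos_iff.mpr h
  positivity

theorem M_span {f : E} (hu : ⟪f, J.u⟫_ℝ = 0) (h0 : ⟪f, J.M 0⟫_ℝ = 0) (h1 : ⟪f, J.M 1⟫_ℝ = 0)
    (k : ℕ) : ⟪f, J.M k⟫_ℝ = 0 := by
  have key : ∀ k, ⟪f, J.M k⟫_ℝ = 0 ∧ ⟪f, J.M (k + 1)⟫_ℝ = 0 := by
    intro k
    induction k with
    | zero => exact ⟨h0, h1⟩
    | succ k ih =>
      refine ⟨ih.2, ?_⟩
      have hcl := congrArg (fun t => ⟪f, t⟫_ℝ) (J.cl k)
      simp only [inner_add_right, inner_smul_right, inner_sub_right, hu, ih.1, ih.2, sub_zero,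
        mul_zero, add_zero] at hcl
      have hpos : 0 < J.L (k + 2) / ⟪J.M (k + 2), J.M (k + 2)⟫_ℝ :=
        div_pos (J.Lpos _) (J.E3_MM_pos _)
      rcases mul_eq_zero.mp hcl with h | h
      · exact absurd h hpos.ne'
      · exact h
  exact (key k).1

/-- A vector orthogonal to everything fixed is determined by its components. -/
theorem E3_range {i : E} (hi : ⟪i, i⟫_ℝ = 1) (hiu : ⟪i, J.u⟫_ℝ = 0)
    (hf : ∀ f, ⟪f, J.u⟫_ℝ = 0 → ⟪f, i⟫_ℝ = 0 → J.U f = f) (v w : E) :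
    ⟪J.U v, w⟫_ℝ = ⟪v, J.U w⟫_ℝ := by
  have hui : ⟪J.u, i⟫_ℝ = 0 := by rw [real_inner_comm]; exact hiu
  have hdec : ∀ v, J.U v = v + ⟪v, i⟫_ℝ • (J.U i - i) := by
    intro v
    have h1 : J.U (v - ⟪v, J.u⟫_ℝ • J.u - ⟪v, i⟫_ℝ • i) = v - ⟪v, J.u⟫_ℝ • J.u - ⟪v, i⟫_ℝ • i := by
      apply hf
      · simp only [inner_sub_left, real_inner_smul_left, J.uu, hiu]; ring
      · simp only [inner_sub_left, real_inner_smul_left, hi, hui]; ring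
    rw [map_sub, map_sub, map_smul, map_smul, J.Uu] at h1
    have h2 : J.U v = v - ⟪v, J.u⟫_ℝ • J.u - ⟪v, i⟫_ℝ • i + ⟪v, J.u⟫_ℝ • J.u
        + ⟪v, i⟫_ℝ • J.U i := by
      rw [← h1]; abel
    rw [h2, smul_sub]; abel
  have hUi : J.U i = ⟪J.U i, i⟫_ℝ • i := by
    have hUiu : ⟪J.U i, J.u⟫_ℝ = 0 := by
      have := J.Uiso i J.u
      rw [J.Uu] at this
      rw [this]; exact hiu
    have h1 : J.U (J.U i - ⟪J.U i, i⟫_ℝ • i) = J.U i - ⟪J.U i, i⟫_ℝ • i := by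
      apply hf
      · simp only [inner_sub_left, real_inner_smul_left, hiu, hUiu]; ring
      · simp only [inner_sub_left, real_inner_smul_left, hi]; ring
    have h2 : ⟪J.U i, J.U i - ⟪J.U i, i⟫_ℝ • i⟫_ℝ = 0 := by
      rw [← h1, J.Uiso, inner_sub_right, real_inner_smul_right, hi, real_inner_comm]; ring
    have h3 : ⟪J.U i - ⟪J.U i, i⟫_ℝ • i, J.U i - ⟪J.U i, i⟫_ℝ • i⟫_ℝ = 0 := by
      rw [inner_sub_left, h2, real_inner_smul_left, inner_sub_right, real_inner_smul_right, hi,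
        real_inner_comm i (J.U i)]; ring
    exact sub_eq_zero.mp (inner_self_eq_zero.mp h3)
  rw [hdec v, hdec w, hUi]
  simp only [inner_add_left, inner_add_right, inner_sub_left, inner_sub_right,
    real_inner_smul_left, real_inner_smul_right]
  rw [real_inner_comm i w]
  ring

theorem E3_two {i j : E} (hi : ⟪i, i⟫_ℝ = 1) (hj : ⟪j, j⟫_ℝ = 1) (hij : ⟪i, j⟫_ℝ = 0)
    (hiu : ⟪i, J.u⟫_ℝ = 0) (hju : ⟪j, J.u⟫_ℝ = 0)
    (hf : ∀ f, ⟪f, J.u⟫_ℝ = 0 → ⟪f, i⟫_ℝ = 0 → ⟪f, j⟫_ℝ = 0 → J.U f = f)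
    (hU : ¬ ∀ v w, ⟪J.U v, w⟫_ℝ = ⟪v, J.U w⟫_ℝ) :
    ∃ α β : ℝ, β ≠ 0 ∧ J.U i = α • i + β • j ∧ J.U j = (-β) • i + α • j := by
  have hui : ⟪J.u, i⟫_ℝ = 0 := by rw [real_inner_comm]; exact hiu
  have huj : ⟪J.u, j⟫_ℝ = 0 := by rw [real_inner_comm]; exact hju
  have hji : ⟪j, i⟫_ℝ = 0 := by rw [real_inner_comm]; exact hij
  have hdec : ∀ v, J.U v = v + ⟪v, i⟫_ℝ • (J.U i - i) + ⟪v, j⟫_ℝ • (J.U j - j) := by
    intro v
    have h1 : J.U (v - ⟪v, J.u⟫_ℝ • J.u - ⟪v, i⟫_ℝ • i - ⟪v, j⟫_ℝ • j) =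
        v - ⟪v, J.u⟫_ℝ • J.u - ⟪v, i⟫_ℝ • i - ⟪v, j⟫_ℝ • j := by
      apply hf
      · simp only [inner_sub_left, real_inner_smul_left, J.uu, hiu, hju]; ring
      · simp only [inner_sub_left, real_inner_smul_left, hi, hui, hji]; ring
      · simp only [inner_sub_left, real_inner_smul_left, hj, huj, hij]; ring
    rw [map_sub, map_sub, map_sub, map_smul, map_smul, map_smul, J.Uu] at h1
    have h2 : J.U v = v - ⟪v, J.u⟫_ℝ • J.u - ⟪v, i⟫_ℝ • i - ⟪v, j⟫_ℝ • j + ⟪v, J.u⟫_ℝ • J.u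
        + ⟪v, i⟫_ℝ • J.U i + ⟪v, j⟫_ℝ • J.U j := by
      rw [← h1]; abel
    rw [h2, smul_sub, smul_sub]; abel
  have hrange : ∀ a : E, ⟪a, J.u⟫_ℝ = 0 → (∀ f, ⟪f, J.u⟫_ℝ = 0 → ⟪f, i⟫_ℝ = 0 → ⟪f, j⟫_ℝ = 0 →
      ⟪a, f⟫_ℝ = 0) → J.U a = ⟪J.U a, i⟫_ℝ • i + ⟪J.U a, j⟫_ℝ • j := by
    intro a ha hav
    have hUau : ⟪J.U a, J.u⟫_ℝ = 0 := by
      have := J.Uiso a J.u
      rw [J.Uu] at this
      rw [this]; exact ha
    set r : E := J.U a - ⟪J.U a, i⟫_ℝ • i - ⟪J.U a, j⟫_ℝ • j with hr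
    have hru : ⟪r, J.u⟫_ℝ = 0 := by
      rw [hr]; simp only [inner_sub_left, real_inner_smul_left, hiu, hju, hUau]; ring
    have hri : ⟪r, i⟫_ℝ = 0 := by
      rw [hr]; simp only [inner_sub_left, real_inner_smul_left, hi, hji]; ring
    have hrj : ⟪r, j⟫_ℝ = 0 := by
      rw [hr]; simp only [inner_sub_left, real_inner_smul_left, hj, hij]; ring
    have h1 : J.U r = r := hf r hru hri hrj
    have h2 : ⟪J.U a, r⟫_ℝ = 0 := by
      rw [← h1, J.Uiso]; exact hav r hru hri hrj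
    have h3 : ⟪r, r⟫_ℝ = 0 := by
      have h4 : ⟪r, r⟫_ℝ = ⟪J.U a, r⟫_ℝ - ⟪J.U a, i⟫_ℝ * ⟪i, r⟫_ℝ - ⟪J.U a, j⟫_ℝ * ⟪j, r⟫_ℝ := by
        nth_rewrite 1 [hr]
        simp only [inner_sub_left, real_inner_smul_left]
      rw [h4, h2, real_inner_comm r i, real_inner_comm r j, hri, hrj]; ring
    have h5 : r = 0 := inner_self_eq_zero.mp h3
    have h6 : J.U a = r + ⟪J.U a, i⟫_ℝ • i + ⟪J.U a, j⟫_ℝ • j := by rw [hr]; abel
    rw [h5, zero_add] at h6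
    exact h6
  have hUi := hrange i hiu (fun f _ h _ => by rw [real_inner_comm]; exact h)
  have hUj := hrange j hju (fun f _ _ h => by rw [real_inner_comm]; exact h)
  obtain ⟨α, hα⟩ : ∃ α, α = ⟪J.U i, i⟫_ℝ := ⟨_, rfl⟩
  obtain ⟨β, hβ⟩ : ∃ β, β = ⟪J.U i, j⟫_ℝ := ⟨_, rfl⟩
  obtain ⟨γ, hγ⟩ : ∃ γ, γ = ⟪J.U j, i⟫_ℝ := ⟨_, rfl⟩
  obtain ⟨δ, hδ⟩ : ∃ δ, δ = ⟪J.U j, j⟫_ℝ := ⟨_, rfl⟩
  rw [← hα, ← hβ] at hUi
  rw [← hγ, ← hδ] at hUj
  have e1 : α ^ 2 + β ^ 2 = 1 := by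
    have := J.Uiso i i
    rw [hUi, hi] at this
    simp only [inner_add_left, inner_add_right, real_inner_smul_left, real_inner_smul_right,
      hi, hj, hij, hji] at this
    linarith
  have e2 : γ ^ 2 + δ ^ 2 = 1 := by
    have := J.Uiso j j
    rw [hUj, hj] at this
    simp only [inner_add_left, inner_add_right, real_inner_smul_left, real_inner_smul_right,
      hi, hj, hij, hji] at this
    linarith
  have e3 : α * γ + β * δ = 0 := by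
    have := J.Uiso i j
    rw [hUi, hUj, hij] at this
    simp only [inner_add_left, inner_add_right, real_inner_smul_left, real_inner_smul_right,
      hi, hj, hij, hji] at this
    linarith
  have hne : γ ≠ β := by
    intro hgb
    apply hU
    intro v w
    rw [hdec v, hdec w, hUi, hUj, hgb]
    simp only [inner_add_left, inner_add_right, inner_sub_left, inner_sub_right,
      real_inner_smul_left, real_inner_smul_right]
    rw [real_inner_comm i w, real_inner_comm j w]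
    ring
  have hsq : γ ^ 2 = β ^ 2 := by
    have h1 : (α * γ) ^ 2 = (β * δ) ^ 2 := by
      have : α * γ = -(β * δ) := by linarith
      rw [this]; ring
    nlinarith
  have hgb : γ = -β := by
    rcases sq_eq_sq_iff_eq_or_eq_neg.mp hsq with h | h
    · exact absurd h hne
    · exact h
  have hβ0 : β ≠ 0 := by
    intro h
    apply hne
    rw [hgb, h, neg_zero]
  have hδα : δ = α := by
    have h1 : β * (δ - α) = 0 := by
      rw [hgb] at e3; linarith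
    rcases mul_eq_zero.mp h1 with h | h
    · exact absurd h hβ0
    · linarith
  refine ⟨α, β, hβ0, hUi, ?_⟩
  rw [hUj, hgb, hδα]

/-- E3 -/
theorem rot (hU : ¬ ∀ v w, ⟪J.U v, w⟫_ℝ = ⟪v, J.U w⟫_ℝ) :
    ∃ i j : E, ⟪i, i⟫_ℝ = 1 ∧ ⟪j, j⟫_ℝ = 1 ∧ ⟪i, j⟫_ℝ = 0 ∧ ⟪i, J.u⟫_ℝ = 0 ∧ ⟪j, J.u⟫_ℝ = 0 ∧
      (∃ a b a' b' : ℝ, J.M 1 - J.u = a • i + b • j ∧ J.M 0 - J.u = a' • i + b' • j ∧
        a * b' - a' * b ≠ 0) ∧
      (∀ f, ⟪f, J.u⟫_ℝ = 0 → ⟪f, i⟫_ℝ = 0 → ⟪f, j⟫_ℝ = 0 → J.U f = f) ∧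
      ∃ α β : ℝ, β ≠ 0 ∧ J.U i = α • i + β • j ∧ J.U j = (-β) • i + α • j := by
  obtain ⟨p, hp⟩ : ∃ p, p = J.M 1 - J.u := ⟨_, rfl⟩
  obtain ⟨q, hq⟩ : ∃ q, q = J.M 0 - J.u := ⟨_, rfl⟩
  have hpu : ⟪p, J.u⟫_ℝ = 0 := by rw [hp, inner_sub_left, J.Mu, J.uu]; ring
  have hqu : ⟪q, J.u⟫_ℝ = 0 := by rw [hq, inner_sub_left, J.Mu, J.uu]; ring
  have hfix : ∀ f, ⟪f, J.u⟫_ℝ = 0 → ⟪f, p⟫_ℝ = 0 → ⟪f, q⟫_ℝ = 0 → J.U f = f := by
    intro f hfu hfp hfq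
    apply J.fix f hfu
    · have : J.M 0 = q + J.u := by rw [hq]; abel
      rw [this, inner_add_right, hfu, hfq]; ring
    · have : J.M 1 = p + J.u := by rw [hp]; abel
      rw [this, inner_add_right, hfu, hfp]; ring
  -- the dependent case
  have hdep : ∀ (g : E) (a b : ℝ), ⟪g, J.u⟫_ℝ = 0 → p = a • g → q = b • g → False := by
    intro g a b hgu hpg hqg
    apply hU
    by_cases hg : g = 0
    · have hid : ∀ v, J.U v = v := by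
        intro v
        have h1 : J.U (v - ⟪v, J.u⟫_ℝ • J.u) = v - ⟪v, J.u⟫_ℝ • J.u := by
          apply hfix
          · rw [inner_sub_left, real_inner_smul_left, J.uu]; ring
          · rw [hpg, hg, smul_zero, inner_zero_right]
          · rw [hqg, hg, smul_zero, inner_zero_right]
        rw [map_sub, map_smul, J.Uu] at h1
        exact sub_left_injective h1
      intro v w
      rw [hid, hid]
    · have hng : ‖g‖ ≠ 0 := norm_ne_zero_iff.mpr hg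
      refine J.E3_range (i := ‖g‖⁻¹ • g) ?_ ?_ ?_
      · rw [real_inner_smul_left, real_inner_smul_right, real_inner_self_eq_norm_sq]
        field_simp
      · rw [real_inner_smul_left, hgu, mul_zero]
      · intro f hfu hfg
        have hfg' : ⟪f, g⟫_ℝ = 0 := by
          rw [real_inner_smul_right] at hfg
          rcases mul_eq_zero.mp hfg with h | h
          · exact absurd h (inv_ne_zero hng)
          · exact h
        apply hfix f hfu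
        · rw [hpg, real_inner_smul_right, hfg', mul_zero]
        · rw [hqg, real_inner_smul_right, hfg', mul_zero]
  have hp0 : p ≠ 0 := by
    intro h
    exact hdep q 0 1 hqu (by rw [h, zero_smul]) (by rw [one_smul])
  have hnp : ‖p‖ ≠ 0 := norm_ne_zero_iff.mpr hp0
  obtain ⟨i, hi⟩ : ∃ i, i = ‖p‖⁻¹ • p := ⟨_, rfl⟩
  have hii : ⟪i, i⟫_ℝ = 1 := by
    rw [hi, real_inner_smul_left, real_inner_smul_right, real_inner_self_eq_norm_sq]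
    field_simp
  have hiu : ⟪i, J.u⟫_ℝ = 0 := by rw [hi, real_inner_smul_left, hpu, mul_zero]
  have hpi : p = ‖p‖ • i := by
    rw [hi, smul_smul, mul_inv_cancel₀ hnp, one_smul]
  obtain ⟨r, hr⟩ : ∃ r, r = q - ⟪q, i⟫_ℝ • i := ⟨_, rfl⟩
  have hri : ⟪r, i⟫_ℝ = 0 := by
    rw [hr, inner_sub_left, real_inner_smul_left, hii]; ring
  have hru : ⟪r, J.u⟫_ℝ = 0 := by
    rw [hr, inner_sub_left, real_inner_smul_left, hqu, hiu]; ring
  have hr0 : r ≠ 0 := by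
    intro h
    refine hdep i ‖p‖ ⟪q, i⟫_ℝ hiu hpi ?_
    rw [h] at hr
    exact (sub_eq_zero.mp hr.symm)
  have hnr : ‖r‖ ≠ 0 := norm_ne_zero_iff.mpr hr0
  obtain ⟨j, hj⟩ : ∃ j, j = ‖r‖⁻¹ • r := ⟨_, rfl⟩
  have hjj : ⟪j, j⟫_ℝ = 1 := by
    rw [hj, real_inner_smul_left, real_inner_smul_right, real_inner_self_eq_norm_sq]
    field_simp
  have hju : ⟪j, J.u⟫_ℝ = 0 := by rw [hj, real_inner_smul_left, hru, mul_zero]
  have hij : ⟪i, j⟫_ℝ = 0 := by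
    rw [hj, real_inner_smul_right, real_inner_comm, hri, mul_zero]
  have hrj : r = ‖r‖ • j := by
    rw [hj, smul_smul, mul_inv_cancel₀ hnr, one_smul]
  have hqij : q = ⟪q, i⟫_ℝ • i + ‖r‖ • j := by
    rw [← hrj, hr]; abel
  have hf : ∀ f, ⟪f, J.u⟫_ℝ = 0 → ⟪f, i⟫_ℝ = 0 → ⟪f, j⟫_ℝ = 0 → J.U f = f := by
    intro f hfu hfi hfj
    apply hfix f hfu
    · rw [hpi, real_inner_smul_right, hfi, mul_zero]
    · rw [hqij, inner_add_right, real_inner_smul_right, real_inner_smul_right, hfi, hfj]; ring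
  refine ⟨i, j, hii, hjj, hij, hiu, hju, ⟨‖p‖, 0, ⟪q, i⟫_ℝ, ‖r‖, ?_, ?_, ?_⟩, hf,
    J.E3_two hii hjj hij hiu hju hf hU⟩
  · rw [← hp, zero_smul, add_zero]; exact hpi
  · rw [← hq]; exact hqij
  · rw [mul_zero, sub_zero]; exact mul_ne_zero hnp hnr

theorem E3_Nsym (k : ℕ) (v w : E) : ⟪J.N k v, w⟫_ℝ = ⟪J.N k w, v⟫_ℝ := by
  unfold N
  rw [inner_add_left, inner_add_left, real_inner_smul_left, real_inner_smul_left,
    real_inner_smul_left, real_inner_smul_left, J.Gsym, real_inner_comm v w,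
    real_inner_comm (J.G (k + 1) w) v]

/-- E4 with the relation of E1 as a hypothesis -/
theorem E3_trace (hstar : ∀ (k : ℕ) (v w : E), ⟪v, J.u⟫_ℝ = 0 → ⟪w, J.u⟫_ℝ = 0 →
      ⟪J.N k v, J.U w⟫_ℝ = ⟪J.N k w, J.U v⟫_ℝ) {i j : E}
    (_hi : ⟪i, i⟫_ℝ = 1) (_hj : ⟪j, j⟫_ℝ = 1) (_hij : ⟪i, j⟫_ℝ = 0)
    (hiu : ⟪i, J.u⟫_ℝ = 0) (hju : ⟪j, J.u⟫_ℝ = 0)
    (hf : ∀ f, ⟪f, J.u⟫_ℝ = 0 → ⟪f, i⟫_ℝ = 0 → ⟪f, j⟫_ℝ = 0 → J.U f = f) {α β : ℝ} (hβ : β ≠ 0)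
    (hUi : J.U i = α • i + β • j) (hUj : J.U j = (-β) • i + α • j) (k : ℕ) :
    ⟪J.N k i, i⟫_ℝ + ⟪J.N k j, j⟫_ℝ = 0 ∧
    ∀ f, ⟪f, J.u⟫_ℝ = 0 → ⟪f, i⟫_ℝ = 0 → ⟪f, j⟫_ℝ = 0 →
      ⟪J.N k i, f⟫_ℝ = 0 ∧ ⟪J.N k j, f⟫_ℝ = 0 ∧ ⟪J.G k i, f⟫_ℝ = 0 ∧ ⟪J.G k j, f⟫_ℝ = 0 := by
  have hN : ∀ (k : ℕ) (f : E), ⟪f, J.u⟫_ℝ = 0 → ⟪f, i⟫_ℝ = 0 → ⟪f, j⟫_ℝ = 0 →
      ⟪J.N k i, f⟫_ℝ = 0 ∧ ⟪J.N k j, f⟫_ℝ = 0 := by
    intro k f hfu hfi hfj
    have h1 := hstar k i f hiu hfu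
    have h2 := hstar k j f hju hfu
    rw [hf f hfu hfi hfj, hUi, inner_add_right, real_inner_smul_right, real_inner_smul_right,
      J.E3_Nsym k f i, J.E3_Nsym k f j] at h1
    rw [hf f hfu hfi hfj, hUj, inner_add_right, real_inner_smul_right, real_inner_smul_right,
      J.E3_Nsym k f i, J.E3_Nsym k f j] at h2
    obtain ⟨x, hx⟩ : ∃ x, x = ⟪J.N k i, f⟫_ℝ := ⟨_, rfl⟩
    obtain ⟨y, hy⟩ : ∃ y, y = ⟪J.N k j, f⟫_ℝ := ⟨_, rfl⟩
    rw [← hx, ← hy] at h1 h2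
    rw [← hx, ← hy]
    have hpos : 0 < (1 - α) ^ 2 + β ^ 2 := by positivity
    have h3 : ((1 - α) ^ 2 + β ^ 2) * x = 0 := by linear_combination (1 - α) * h1 + β * h2
    have h4 : ((1 - α) ^ 2 + β ^ 2) * y = 0 := by linear_combination (1 - α) * h2 - β * h1
    refine ⟨?_, ?_⟩
    · rcases mul_eq_zero.mp h3 with h | h
      · exact absurd h hpos.ne'
      · exact h
    · rcases mul_eq_zero.mp h4 with h | h
      · exact absurd h hpos.ne'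
      · exact h
  have hG : ∀ (k : ℕ) (f : E), ⟪f, J.u⟫_ℝ = 0 → ⟪f, i⟫_ℝ = 0 → ⟪f, j⟫_ℝ = 0 →
      ⟪J.G (k + 1) i, f⟫_ℝ = 0 ∧ ⟪J.G (k + 1) j, f⟫_ℝ = 0 := by
    intro k f hfu hfi hfj
    obtain ⟨h1, h2⟩ := hN k f hfu hfi hfj
    have hpos : 0 < J.L k * J.L (k + 1) / ⟪J.M (k + 1), J.M (k + 1)⟫_ℝ :=
      div_pos (mul_pos (J.Lpos _) (J.Lpos _)) (J.E3_MM_pos _)
    unfold N at h1 h2
    rw [inner_add_left, real_inner_smul_left, real_inner_smul_left, real_inner_comm f i, hfi,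
      mul_zero, zero_add] at h1
    rw [inner_add_left, real_inner_smul_left, real_inner_smul_left, real_inner_comm f j, hfj,
      mul_zero, zero_add] at h2
    refine ⟨?_, ?_⟩
    · rcases mul_eq_zero.mp h1 with h | h
      · exact absurd h hpos.ne'
      · exact h
    · rcases mul_eq_zero.mp h2 with h | h
      · exact absurd h hpos.ne'
      · exact h
  constructor
  · have h := hstar k i j hiu hju
    rw [hUi, hUj, inner_add_right, inner_add_right, real_inner_smul_right, real_inner_smul_right,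
      real_inner_smul_right, real_inner_smul_right, J.E3_Nsym k j i] at h
    have h1 : β * (⟪J.N k i, i⟫_ℝ + ⟪J.N k j, j⟫_ℝ) = 0 := by linarith
    rcases mul_eq_zero.mp h1 with h | h
    · exact absurd h hβ
    · exact h
  · intro f hfu hfi hfj
    refine ⟨(hN k f hfu hfi hfj).1, (hN k f hfu hfi hfj).2, ?_⟩
    cases k with
    | succ k => exact hG k f hfu hfi hfj
    | zero =>
      obtain ⟨g1, g2⟩ := hG 3 f hfu hfi hfj
      have hUf := hf f hfu hfi hfj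
      have key : ∀ v, ⟪J.G 0 v, f⟫_ℝ = ⟪J.G 4 (J.U v), f⟫_ℝ := by
        intro v
        have h1 := J.pG 0 v
        rw [zero_add] at h1
        rw [h1]
        nth_rewrite 2 [← hUf]
        rw [J.Uiso]
      refine ⟨?_, ?_⟩
      · rw [key, hUi, map_add, map_smul, map_smul, inner_add_left, real_inner_smul_left,
          real_inner_smul_left]
        have g1' : ⟪J.G 4 i, f⟫_ℝ = 0 := g1
        have g2' : ⟪J.G 4 j, f⟫_ℝ = 0 := g2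
        rw [g1', g2']; ring
      · rw [key, hUj, map_add, map_smul, map_smul, inner_add_left, real_inner_smul_left,
          real_inner_smul_left]
        have g1' : ⟪J.G 4 i, f⟫_ℝ = 0 := g1
        have g2' : ⟪J.G 4 j, f⟫_ℝ = 0 := g2
        rw [g1', g2']; ring

/-- E4 (uses E1) -/
theorem trace {i j : E} (hi : ⟪i, i⟫_ℝ = 1) (hj : ⟪j, j⟫_ℝ = 1) (hij : ⟪i, j⟫_ℝ = 0)
    (hiu : ⟪i, J.u⟫_ℝ = 0) (hju : ⟪j, J.u⟫_ℝ = 0)
    (hf : ∀ f, ⟪f, J.u⟫_ℝ = 0 → ⟪f, i⟫_ℝ = 0 → ⟪f, j⟫_ℝ = 0 → J.U f = f) {α β : ℝ} (hβ : β ≠ 0)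
    (hUi : J.U i = α • i + β • j) (hUj : J.U j = (-β) • i + α • j) (k : ℕ) :
    ⟪J.N k i, i⟫_ℝ + ⟪J.N k j, j⟫_ℝ = 0 ∧
    ∀ f, ⟪f, J.u⟫_ℝ = 0 → ⟪f, i⟫_ℝ = 0 → ⟪f, j⟫_ℝ = 0 →
      ⟪J.N k i, f⟫_ℝ = 0 ∧ ⟪J.N k j, f⟫_ℝ = 0 ∧ ⟪J.G k i, f⟫_ℝ = 0 ∧ ⟪J.G k j, f⟫_ℝ = 0 :=
  J.E3_trace J.star hi hj hij hiu hju hf hβ hUi hUj k

end CJ

end Pool.Agent.H721R2.Quart
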