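import Pool.Agent.H721R2.Quart.E1

/- NOTE for helper721: planar_false (last theorem) uses N2 and N3 of task E1: add the import of the E1 file here. phi and anti need Def only. Tested with the code of E1 in front. -/

set_option autoImplicit false

open MeasureTheory Set Filter Topology
open scoped InnerProductSpace

namespace Pool.Agent.H721R2.Quart

namespace CJ

variable {E : Type*} [NormedAddCommGroup E] [InnerProductSpace ℝ E] (J : CJ E)

theorem E5_MM (k : ℕ) : 0 < ⟪J.M k, J.M k⟫_ℝ := by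
  have h1 : 0 ≤ ⟪J.M k - J.u, J.M k - J.u⟫_ℝ := real_inner_self_nonneg
  have h2 : ⟪J.u, J.M k⟫_ℝ = 1 := by rw [real_inner_comm]; exact J.Mu k
  rw [inner_sub_left, inner_sub_right, inner_sub_right, J.uu, J.Mu, h2] at h1
  linarith

theorem E5_Ppos : 0 < J.P := by
  have h0 := J.Lpos 0
  have h1 := J.Lpos 1
  have h2 := J.Lpos 2
  have h3 := J.Lpos 3
  unfold P
  linarith

/-- normalised normals -/
noncomputable def E5_b (k : ℕ) : E := (⟪J.M k, J.M k⟫_ℝ)⁻¹ • (J.M k - J.u)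

theorem E5_b4 (k : ℕ) : J.E5_b (k + 4) = J.U (J.E5_b k) := by
  unfold E5_b
  rw [J.pM, J.Uiso, map_smul, map_sub, J.Uu]

theorem E5_v2 (k : ℕ) : J.v (k + 2) = J.v k := J.pv k

theorem E5_sv (k : ℕ) : 0 < J.L k + J.L (k + 1) - J.v k := by
  have h1 := J.E5_MM (k + 1)
  have h2 := J.E5_Ppos
  have h3 := J.Lpos k
  have h4 := J.Lpos (k + 1)
  unfold v
  have : 0 < 4 * J.L k * J.L (k + 1) / (J.P * ⟪J.M (k + 1), J.M (k + 1)⟫_ℝ) := by positivity
  linarith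

theorem E5_cl (k : ℕ) : J.L (k + 2) • J.E5_b (k + 2) + J.v (k + 1) • J.E5_b (k + 1) +
    J.L (k + 3) • J.E5_b k =
      ((J.κ - J.v 0 * J.v 1) / (J.L k + J.L (k + 1) - J.v k)) • J.E5_b (k + 1) := by
  have hcl := J.cl k
  have h1 := J.E5_MM (k + 1)
  have h2 := J.E5_Ppos
  have h3 := J.Lpos k
  have h4 := J.Lpos (k + 1)
  have e1 : ((J.κ - J.v 0 * J.v 1) / (J.L k + J.L (k + 1) - J.v k)) * (⟪J.M (k + 1), J.M (k + 1)⟫_ℝ)⁻¹ =
      J.P / 4 * (J.κ - J.v 0 * J.v 1) / (J.L k * J.L (k + 1)) := by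
    have h5 : J.L k + J.L (k + 1) - J.v k =
        4 * J.L k * J.L (k + 1) / (J.P * ⟪J.M (k + 1), J.M (k + 1)⟫_ℝ) := by
      unfold v
      ring
    rw [h5]
    field_simp
  unfold E5_b
  simp only [smul_smul]
  rw [e1]
  have e2 : J.P / 4 * (J.κ - J.v 0 * J.v 1) / (J.L k * J.L (k + 1)) =
    ((J.L 0 + J.L 1 + J.L 2 + J.L 3) / 4 * (J.L 0 * J.L 2 + J.L 1 * J.L 3 -
      (J.L 0 + J.L 1 - 4 * J.L 0 * J.L 1 / ((J.L 0 + J.L 1 + J.L 2 + J.L 3) * ⟪J.M 1, J.M 1⟫_ℝ)) *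
      (J.L 1 + J.L 2 - 4 * J.L 1 * J.L 2 / ((J.L 0 + J.L 1 + J.L 2 + J.L 3) * ⟪J.M 2, J.M 2⟫_ℝ))) /
      (J.L k * J.L (k + 1))) := rfl
  rw [e2, ← hcl]
  simp only [div_eq_mul_inv]
  rfl

/-- the algebraic core -/
theorem E5_core (hp : J.U (J.M 0 - J.u) = -(J.M 0 - J.u)) (hq : J.U (J.M 1 - J.u) = -(J.M 1 - J.u))
    (hind : ∀ x y : ℝ, x • (J.M 0 - J.u) + y • (J.M 1 - J.u) = 0 → y = 0) :
    J.v 0 * J.v 1 = J.κ := by
  have hb4 : J.E5_b 4 = -J.E5_b 0 := by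
    rw [J.E5_b4 0]
    unfold E5_b
    rw [map_smul, hp, smul_neg]
  have hb5 : J.E5_b 5 = -J.E5_b 1 := by
    rw [J.E5_b4 1]
    unfold E5_b
    rw [map_smul, hq, smul_neg]
  have c0 := J.E5_cl 0
  have c1 := J.E5_cl 1
  have c3 := J.E5_cl 3
  simp only [zero_add, Nat.reduceAdd] at c0 c1 c3
  have hL4 : J.L 4 = J.L 0 := J.pL 0
  have hL5 : J.L 5 = J.L 1 := J.pL 1
  have hL6 : J.L 6 = J.L 2 := J.pL 2
  have hv2 : J.v 2 = J.v 0 := J.E5_v2 0
  have hv4 : J.v 4 = J.v 0 := by rw [J.E5_v2 2, hv2]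
  rw [hb4, hb5, hL5, hL6, hv4] at c3
  rw [hL4, hv2] at c1
  set r0 := (J.κ - J.v 0 * J.v 1) / (J.L 0 + J.L 1 - J.v 0) with hr0
  set r1 := (J.κ - J.v 0 * J.v 1) / (J.L 1 + J.L 2 - J.v 1) with hr1
  obtain ⟨r3, hr3⟩ : ∃ r3, r3 = (J.κ - J.v 0 * J.v 1) / (J.L 3 + J.L 4 - J.v 3) := ⟨_, rfl⟩
  rw [← hr3] at c3
  have key : (J.L 3 * (J.v 0 - r3) - (J.v 0 - r1) * J.L 3) • J.E5_b 0 +
      (J.L 0 * J.L 2 + J.L 1 * J.L 3 - (J.v 0 - r1) * (J.v 1 - r0)) • J.E5_b 1 = 0 := by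
    linear_combination (norm := module) (J.L 2) • c1 - (J.L 3) • c3 - (J.v 0 - r1) • c0
  unfold E5_b at key
  rw [smul_smul, smul_smul] at key
  have h1 := hind _ _ key
  have hm1 := J.E5_MM 1
  have h2 : J.L 0 * J.L 2 + J.L 1 * J.L 3 - (J.v 0 - r1) * (J.v 1 - r0) = 0 := by
    rcases mul_eq_zero.1 h1 with h | h
    · exact h
    · exact absurd h (inv_ne_zero hm1.ne')
  have hs0 := J.E5_sv 0
  have hs1 := J.E5_sv 1
  simp only [zero_add, Nat.reduceAdd] at hs0 hs1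
  have e0 : r0 * (J.L 0 + J.L 1 - J.v 0) = J.κ - J.v 0 * J.v 1 := by
    rw [hr0]; field_simp
  have e1 : r1 * (J.L 1 + J.L 2 - J.v 1) = J.κ - J.v 0 * J.v 1 := by
    rw [hr1]; field_simp
  have hκ : J.κ = J.L 0 * J.L 2 + J.L 1 * J.L 3 := rfl
  have h3 : (J.v 0 * J.v 1 - J.κ) * ((J.L 0 + J.L 1) * (J.L 1 + J.L 2) - J.κ) = 0 := by
    have h4 : (J.v 0 * (J.L 1 + J.L 2 - J.v 1) - r1 * (J.L 1 + J.L 2 - J.v 1)) *
        (J.v 1 * (J.L 0 + J.L 1 - J.v 0) - r0 * (J.L 0 + J.L 1 - J.v 0)) =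
        J.κ * ((J.L 0 + J.L 1 - J.v 0) * (J.L 1 + J.L 2 - J.v 1)) := by
      rw [hκ]
      linear_combination (-(J.L 0 + J.L 1 - J.v 0) * (J.L 1 + J.L 2 - J.v 1)) * h2
    rw [e0, e1] at h4
    linear_combination h4
  have htri := J.tri
  have hL1 := J.Lpos 1
  have h5 : 0 < (J.L 0 + J.L 1) * (J.L 1 + J.L 2) - J.κ := by
    rw [hκ]
    have : (J.L 0 + J.L 1) * (J.L 1 + J.L 2) - (J.L 0 * J.L 2 + J.L 1 * J.L 3) =
        J.L 1 * (J.L 0 + J.L 1 + J.L 2 - J.L 3) := by ring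
    rw [this]
    exact mul_pos hL1 (by linarith)
  rcases mul_eq_zero.1 h3 with h | h
  · linarith
  · linarith

theorem E5_neg_perp {y : E} (hy : J.U y = -y) : ⟪y, J.u⟫_ℝ = 0 := by
  have h := J.Uiso y J.u
  rw [hy, J.Uu, inner_neg_left] at h
  linarith

theorem E5_span [FiniteDimensional ℝ E] {y : E} (hy : J.U y = -y) :
    ∃ α β : ℝ, y = α • (J.M 0 - J.u) + β • (J.M 1 - J.u) := by
  have hyu := J.E5_neg_perp hy
  obtain ⟨y1, hy1, y2, hy2, hsum⟩ :=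
    (Submodule.span ℝ ({J.M 0 - J.u, J.M 1 - J.u} : Set E)).exists_add_mem_mem_orthogonal y
  obtain ⟨α, β, hαβ⟩ := Submodule.mem_span_pair.1 hy1
  have hp2 : ⟪J.M 0 - J.u, y2⟫_ℝ = 0 :=
    (Submodule.mem_orthogonal _ _).1 hy2 _ (Submodule.subset_span (by simp))
  have hq2 : ⟪J.M 1 - J.u, y2⟫_ℝ = 0 :=
    (Submodule.mem_orthogonal _ _).1 hy2 _ (Submodule.subset_span (by simp))
  have hpu : ⟪J.M 0 - J.u, J.u⟫_ℝ = 0 := by rw [inner_sub_left, J.Mu, J.uu, sub_self]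
  have hqu : ⟪J.M 1 - J.u, J.u⟫_ℝ = 0 := by rw [inner_sub_left, J.Mu, J.uu, sub_self]
  have hy1u : ⟪y1, J.u⟫_ℝ = 0 := by
    rw [← hαβ, inner_add_left, real_inner_smul_left, real_inner_smul_left, hpu, hqu]; ring
  have hy2u : ⟪y2, J.u⟫_ℝ = 0 := by
    rw [hsum, inner_add_left, hy1u, zero_add] at hyu
    exact hyu
  have hM0 : ⟪y2, J.M 0⟫_ℝ = 0 := by
    have h1 : J.M 0 = (J.M 0 - J.u) + J.u := by abel
    rw [h1, inner_add_right, hy2u, real_inner_comm, hp2, add_zero]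
  have hM1 : ⟪y2, J.M 1⟫_ℝ = 0 := by
    have h1 : J.M 1 = (J.M 1 - J.u) + J.u := by abel
    rw [h1, inner_add_right, hy2u, real_inner_comm, hq2, add_zero]
  have hfix := J.fix y2 hy2u hM0 hM1
  have h1 : ⟪y, y2⟫_ℝ = 0 := by
    have h := J.Uiso y y2
    rw [hy, hfix, inner_neg_left] at h
    linarith
  have h2 : ⟪y1, y2⟫_ℝ = 0 := by
    rw [← hαβ, inner_add_left, real_inner_smul_left, real_inner_smul_left, hp2, hq2]; ring
  have h3 : ⟪y2, y2⟫_ℝ = 0 := by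
    rw [hsum, inner_add_left, h2, zero_add] at h1
    exact h1
  have h4 : y2 = 0 := inner_self_eq_zero.1 h3
  exact ⟨α, β, by rw [hsum, h4, add_zero, hαβ]⟩

theorem E5_det_rf [FiniteDimensional ℝ E] {a : E} (ha : ⟪a, a⟫_ℝ = 1) :
    ∃ R : E →ₗ[ℝ] E, LinearMap.det R = -1 ∧ ∀ x, R x = x - (2 * ⟪a, x⟫_ℝ) • a := by
  have ha0 : a ≠ 0 := by
    intro h
    rw [h, inner_zero_left] at ha
    exact zero_ne_one ha
  have hn : ‖a‖ = 1 := by
    have h1 := real_inner_self_eq_norm_sq a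
    rw [ha] at h1
    have h2 : 0 ≤ ‖a‖ := norm_nonneg a
    nlinarith
  refine ⟨((ℝ ∙ a)ᗮ.reflection).toLinearEquiv.toLinearMap, ?_, fun x => ?_⟩
  · have h1 := Submodule.det_reflection (𝕜 := ℝ) ((ℝ ∙ a)ᗮ)
    rw [Submodule.orthogonal_orthogonal, finrank_span_singleton ha0, pow_one] at h1
    exact h1
  · show (ℝ ∙ a)ᗮ.reflection x = _
    rw [Submodule.reflection_orthogonal_apply, Submodule.reflection_singleton_apply]
    rw [hn]
    simp only [RCLike.ofReal_real_eq_id, id_eq, one_pow, div_one]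
    module

/-- E5 -/
theorem phi [FiniteDimensional ℝ E] (hU : ∀ v w, ⟪J.U v, w⟫_ℝ = ⟪v, J.U w⟫_ℝ) :
    (∀ v, J.U v = v) ∨ J.v 0 * J.v 1 = J.κ := by
  by_cases hall : ∀ v, J.U v = v
  · exact Or.inl hall
  right
  push Not at hall
  obtain ⟨w, hw⟩ := hall
  have hUU : ∀ v, J.U (J.U v) = v := by
    intro v
    apply ext_inner_right ℝ
    intro x
    rw [hU, J.Uiso]
  -- first eigenvector
  obtain ⟨a0, ha0⟩ : ∃ a0, a0 = w - J.U w := ⟨_, rfl⟩
  have ha0ne : a0 ≠ 0 := by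
    intro h
    rw [ha0] at h
    exact hw (sub_eq_zero.1 h).symm
  have hUa0 : J.U a0 = -a0 := by
    rw [ha0, map_sub, hUU]
    abel
  obtain ⟨a, ha⟩ : ∃ a, a = ‖a0‖⁻¹ • a0 := ⟨_, rfl⟩
  have hn0 : ‖a0‖ ≠ 0 := norm_ne_zero_iff.2 ha0ne
  have haa : ⟪a, a⟫_ℝ = 1 := by
    rw [ha, real_inner_smul_left, real_inner_smul_right, real_inner_self_eq_norm_sq]
    field_simp
  have hUa : J.U a = -a := by
    rw [ha, map_smul, hUa0, smul_neg]
  -- second eigenvector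
  obtain ⟨R, hR, hRx⟩ := E5_det_rf haa
  have hdet : LinearMap.det (J.U ∘ₗ R) = -1 := by
    rw [LinearMap.det_comp, J.detU, hR, one_mul]
  have hne : J.U ∘ₗ R ≠ LinearMap.id := by
    intro h
    rw [h, LinearMap.det_id] at hdet
    norm_num at hdet
  obtain ⟨x, hx⟩ : ∃ x, (J.U ∘ₗ R) x ≠ x := by
    by_contra hc
    push Not at hc
    exact hne (LinearMap.ext hc)
  have hT : ∀ y, (J.U ∘ₗ R) y = J.U y + (2 * ⟪a, y⟫_ℝ) • a := by
    intro y
    rw [LinearMap.comp_apply, hRx, map_sub, map_smul, hUa]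
    module
  have haU : ∀ y, ⟪a, J.U y⟫_ℝ = -⟪a, y⟫_ℝ := by
    intro y
    rw [← hU, hUa, inner_neg_left]
  obtain ⟨b, hb⟩ : ∃ b, b = x - (J.U ∘ₗ R) x := ⟨_, rfl⟩
  have hbne : b ≠ 0 := by
    intro h
    rw [hb] at h
    exact hx (sub_eq_zero.1 h).symm
  have hab : ⟪a, b⟫_ℝ = 0 := by
    rw [hb, hT, inner_sub_right, inner_add_right, haU, real_inner_smul_right, haa]
    ring
  have hUb : J.U b = -b := by
    have h1 : J.U b = J.U x - (x - (2 * ⟪a, x⟫_ℝ) • a) := by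
      rw [hb, hT, map_sub, map_add, hUU, map_smul, hUa]
      module
    rw [h1, hb, hT]
    module
  obtain ⟨α, β, h1⟩ := J.E5_span hUa
  obtain ⟨γ, δ, h2⟩ := J.E5_span hUb
  have hbb : ⟪b, b⟫_ℝ ≠ 0 := by
    intro h
    exact hbne (inner_self_eq_zero.1 h)
  have hba : ⟪b, a⟫_ℝ = 0 := by rw [real_inner_comm]; exact hab
  have e1 : (α * δ - β * γ) • (J.M 0 - J.u) = δ • a - β • b := by
    rw [h1, h2]
    module
  have e2 : (α * δ - β * γ) • (J.M 1 - J.u) = α • b - γ • a := by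
    rw [h1, h2]
    module
  have hindab : ∀ s t : ℝ, s • a + t • b = 0 → s = 0 ∧ t = 0 := by
    intro s t hst
    have k1 : ⟪a, s • a + t • b⟫_ℝ = s := by
      rw [inner_add_right, real_inner_smul_right, real_inner_smul_right, haa, hab]; ring
    have k2 : ⟪b, s • a + t • b⟫_ℝ = t * ⟪b, b⟫_ℝ := by
      rw [inner_add_right, real_inner_smul_right, real_inner_smul_right, hba]; ring
    rw [hst, inner_zero_right] at k1 k2
    refine ⟨k1.symm, ?_⟩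
    rcases mul_eq_zero.1 k2.symm with h | h
    · exact h
    · exact absurd h hbb
  have hD : α * δ - β * γ ≠ 0 := by
    intro h
    rw [h, zero_smul] at e1 e2
    have k1 := hindab δ (-β) (by rw [neg_smul, ← sub_eq_add_neg]; exact e1.symm)
    have k2 := hindab (-γ) α (by rw [neg_smul, add_comm, ← sub_eq_add_neg]; exact e2.symm)
    have hβ : β = 0 := by linarith [k1.2]
    have hα : α = 0 := k2.2
    rw [hα, hβ, zero_smul, zero_smul, add_zero] at h1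
    rw [h1, inner_zero_left] at haa
    exact zero_ne_one haa
  have hp : J.U (J.M 0 - J.u) = -(J.M 0 - J.u) := by
    have k1 : (α * δ - β * γ) • J.U (J.M 0 - J.u) = (α * δ - β * γ) • (-(J.M 0 - J.u)) := by
      rw [← map_smul, smul_neg, e1, map_sub, map_smul, map_smul, hUa, hUb]
      module
    exact smul_right_injective _ hD k1
  have hq : J.U (J.M 1 - J.u) = -(J.M 1 - J.u) := by
    have k1 : (α * δ - β * γ) • J.U (J.M 1 - J.u) = (α * δ - β * γ) • (-(J.M 1 - J.u)) := by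
      rw [← map_smul, smul_neg, e2, map_sub, map_smul, map_smul, hUa, hUb]
      module
    exact smul_right_injective _ hD k1
  apply J.E5_core hp hq
  intro s t hst
  have k1 : (s * δ - t * γ) • a + (t * α - s * β) • b = 0 := by
    have : (s * δ - t * γ) • a + (t * α - s * β) • b = s • (δ • a - β • b) + t • (α • b - γ • a) := by
      module
    rw [this, ← e1, ← e2, smul_comm s, smul_comm t, ← smul_add, hst, smul_zero]
  obtain ⟨k2, k3⟩ := hindab _ _ k1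
  have k4 : t * (α * δ - β * γ) = 0 := by linear_combination β * k2 + δ * k3
  rcases mul_eq_zero.1 k4 with h | h
  · exact h
  · exact absurd h hD

/-- E6 -/
theorem anti (h : J.v 0 * J.v 1 = J.κ) : J.U (J.M 1 - J.u) = -(J.M 1 - J.u) := by
  have c1 := J.E5_cl 1
  have c2 := J.E5_cl 2
  have c3 := J.E5_cl 3
  simp only [zero_add, Nat.reduceAdd, h, sub_self, zero_div, zero_smul] at c1 c2 c3
  have hL4 : J.L 4 = J.L 0 := J.pL 0
  have hL5 : J.L 5 = J.L 1 := J.pL 1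
  have hL6 : J.L 6 = J.L 2 := J.pL 2
  have hv2 : J.v 2 = J.v 0 := J.E5_v2 0
  have hv3 : J.v 3 = J.v 1 := J.E5_v2 1
  have hv4 : J.v 4 = J.v 0 := by rw [J.E5_v2 2, hv2]
  have hb5 : J.E5_b 5 = J.U (J.E5_b 1) := J.E5_b4 1
  rw [hL4, hv2] at c1
  rw [hL4, hL5, hv3] at c2
  rw [hL5, hL6, hv4, hb5] at c3
  have hκ : J.v 0 * J.v 1 = J.L 0 * J.L 2 + J.L 1 * J.L 3 := h
  have hL0 := J.Lpos 0
  have hL1 := J.Lpos 1
  have key : (J.L 0 * J.L 1) • (J.U (J.E5_b 1) + J.E5_b 1) = 0 := by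
    have k1 : (J.L 0 * J.L 1) • (J.U (J.E5_b 1) + J.E5_b 1) =
        (J.v 0 * J.v 1 - (J.L 0 * J.L 2 + J.L 1 * J.L 3)) • J.E5_b 3 := by
      linear_combination (norm := module) (J.L 0) • c3 - (J.v 0) • c2 + (J.L 1) • c1
    rw [k1, hκ, sub_self, zero_smul]
  have h2 : J.U (J.E5_b 1) + J.E5_b 1 = 0 := by
    rcases smul_eq_zero.1 key with h3 | h3
    · exact absurd h3 (by positivity)
    · exact h3
  unfold E5_b at h2
  rw [map_smul, ← smul_add] at h2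
  rcases smul_eq_zero.1 h2 with h3 | h3
  · exact absurd h3 (inv_ne_zero (J.E5_MM 1).ne')
  · exact eq_neg_of_add_eq_zero_left h3

/-- E7 (uses E1) -/
theorem planar_false (hU : ∀ v, J.U v = v) {i w : E} (hi : ⟪i, i⟫_ℝ = 1) (hw : ⟪w, w⟫_ℝ = 1)
    (hiu : ⟪i, J.u⟫_ℝ = 0) (hwu : ⟪w, J.u⟫_ℝ = 0) (χ : ℕ → ℝ)
    (hM : ∀ k, 1 < ⟪J.M k, J.M k⟫_ℝ)
    (hGw : ∀ k, J.G k w = χ k • w)
    (hGi : ∀ k, J.G k i = (χ k * ⟪J.M k, J.M k⟫_ℝ) • i) : False := by
  have hi0 : i ≠ 0 := by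
    intro h
    rw [h, inner_zero_left] at hi
    exact zero_ne_one hi
  have hw0 : w ≠ 0 := by
    intro h
    rw [h, inner_zero_left] at hw
    exact zero_ne_one hw
  obtain ⟨a, ha⟩ : ∃ a : ℕ → ℝ, ∀ k, a k = J.L k + J.L (k + 1) +
      J.L k * J.L (k + 1) / ⟪J.M (k + 1), J.M (k + 1)⟫_ℝ * χ (k + 1) := ⟨_, fun _ => rfl⟩
  obtain ⟨b, hb⟩ : ∃ b : ℕ → ℝ, ∀ k, b k = J.L k + J.L (k + 1) +
      J.L k * J.L (k + 1) * χ (k + 1) := ⟨_, fun _ => rfl⟩
  have hNw : ∀ k, J.N k w = a k • w := by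
    intro k
    unfold N
    rw [hGw, ha]
    module
  have hMne : ∀ k, ⟪J.M k, J.M k⟫_ℝ ≠ 0 := fun k => by have := hM k; linarith
  have hNi : ∀ k, J.N k i = b k • i := by
    intro k
    have h1 := hMne (k + 1)
    have h2 : J.L k * J.L (k + 1) / ⟪J.M (k + 1), J.M (k + 1)⟫_ℝ *
        (χ (k + 1) * ⟪J.M (k + 1), J.M (k + 1)⟫_ℝ) = J.L k * J.L (k + 1) * χ (k + 1) := by
      field_simp
    unfold N
    rw [hGi, hb, smul_smul, h2, ← add_smul]
  have hNsmul : ∀ (k : ℕ) (r : ℝ) (v : E), J.N k (r • v) = r • J.N k v := by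
    intro k r v
    unfold N
    rw [map_smul]
    module
  -- products
  have cancel : ∀ (v : E), v ≠ 0 → ∀ r s : ℝ, r • v = s • v → r = s := fun v hv r s h =>
    smul_left_injective ℝ hv h
  have hpa : a 1 * a 0 = J.L 0 * J.L 2 - J.L 1 * J.L 3 := by
    apply cancel w hw0
    have h1 := J.N2 0 w hwu
    rw [hNw, hNsmul, hNw, hU, smul_smul] at h1
    rw [mul_comm]
    rw [h1]
    module
  have hpb : b 1 * b 0 = J.L 0 * J.L 2 - J.L 1 * J.L 3 := by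
    apply cancel i hi0
    have h1 := J.N2 0 i hiu
    rw [hNi, hNsmul, hNi, hU, smul_smul] at h1
    rw [mul_comm]
    rw [h1]
    module
  have hsa : ∀ k, a (k + 2) = -a k := by
    intro k
    apply cancel w hw0
    have h1 := J.N3 k w hwu
    rw [hU, hNw, hNw] at h1
    rw [h1, neg_smul]
  have hsb : ∀ k, b (k + 2) = -b k := by
    intro k
    apply cancel i hi0
    have h1 := J.N3 k i hiu
    rw [hU, hNi, hNi] at h1
    rw [h1, neg_smul]
  have hba : ∀ k, b k = a k + (⟪J.M (k + 1), J.M (k + 1)⟫_ℝ - 1) * (a k - (J.L k + J.L (k + 1))) := by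
    intro k
    have h1 := hMne (k + 1)
    rw [ha, hb]
    field_simp
    ring
  have hneg : ∀ k, a k ≤ 0 → b k < a k := by
    intro k hk
    rw [hba k]
    have h1 := hM (k + 1)
    have h2 := J.Lpos k
    have h3 := J.Lpos (k + 1)
    have h4 : (⟪J.M (k + 1), J.M (k + 1)⟫_ℝ - 1) * (a k - (J.L k + J.L (k + 1))) < 0 :=
      mul_neg_of_pos_of_neg (by linarith) (by linarith)
    linarith
  have habs : ∀ k, |a k| < |b k| := by
    intro k
    rcases le_or_gt (a k) 0 with hk | hk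
    · have h1 := hneg k hk
      rw [abs_of_nonpos hk, abs_of_neg (by linarith)]
      linarith
    · have h1 := hneg (k + 2) (by rw [hsa]; linarith)
      rw [hsa, hsb] at h1
      rw [abs_of_pos hk, abs_of_pos (by linarith)]
      linarith
  have h1 : |a 1 * a 0| < |b 1 * b 0| := by
    rw [abs_mul, abs_mul]
    exact mul_lt_mul'' (habs 1) (habs 0) (abs_nonneg _) (abs_nonneg _)
  rw [hpa, hpb] at h1
  exact lt_irrefl _ h1

end CJ

end Pool.Agent.H721R2.Quart
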