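import Pool.Agent.H721R2.Quart.FSym
import Pool.Agent.H721R2.Quart.B6
import Pool.Agent.H721R2.Quart.B7
import Pool.Agent.H721R2.Quart.C5
import Pool.Agent.H721R2.Quart.A1

set_option autoImplicit false

open MeasureTheory Set Filter Topology
open scoped InnerProductSpace

noncomputable section

namespace Pool.Agent.H721R2.Quart

theorem rf_of_inner {E : Type*} [NormedAddCommGroup E] [InnerProductSpace ℝ E] {n v : E}
    (h : ⟪n, v⟫_ℝ = 0) : rf n v = v := by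
  unfold rf; rw [h]; simp

theorem exists_perp {E : Type*} [NormedAddCommGroup E] [InnerProductSpace ℝ E]
    [FiniteDimensional ℝ E] (hd : 3 ≤ Module.finrank ℝ E) (a b : E) :
    ∃ w : E, ⟪w, w⟫_ℝ = 1 ∧ ⟪a, w⟫_ℝ = 0 ∧ ⟪b, w⟫_ℝ = 0 := by
  classical
  have h1 : Module.finrank ℝ (Submodule.span ℝ (({a, b} : Finset E) : Set E)) ≤ 2 := by
    refine (finrank_span_finset_le_card ({a, b} : Finset E)).trans ?_
    exact Finset.card_le_two
  set W := Submodule.span ℝ (({a, b} : Finset E) : Set E) with hW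
  have h2 := Submodule.finrank_add_finrank_orthogonal W
  have h3 : 0 < Module.finrank ℝ (Wᗮ : Submodule ℝ E) := by omega
  have h4 : (Wᗮ : Submodule ℝ E) ≠ ⊥ := by
    intro h
    rw [h, finrank_bot] at h3
    exact lt_irrefl _ h3
  obtain ⟨v, hv, hv0⟩ := Submodule.exists_mem_ne_zero_of_ne_bot h4
  have hn : ‖v‖ ≠ 0 := norm_ne_zero_iff.2 hv0
  have ha : ⟪a, v⟫_ℝ = 0 := by
    have := (Submodule.mem_orthogonal W v).1 hv a (Submodule.subset_span (by simp))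
    exact this
  have hb : ⟪b, v⟫_ℝ = 0 := by
    have := (Submodule.mem_orthogonal W v).1 hv b (Submodule.subset_span (by simp))
    exact this
  refine ⟨‖v‖⁻¹ • v, ?_, ?_, ?_⟩
  · rw [inner_smul_left, inner_smul_right, real_inner_self_eq_norm_sq]
    simp only [conj_trivial]
    field_simp
  · rw [inner_smul_right, ha, mul_zero]
  · rw [inner_smul_right, hb, mul_zero]

namespace Fam

variable {E Z : Type*} [NormedAddCommGroup E] [InnerProductSpace ℝ E]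
  [NormedAddCommGroup Z] [NormedSpace ℝ Z] (F : Fam E Z) {z : Z}

/-- In the planar case vectors orthogonal to the plane are orthogonal to everything. -/
theorem perp_all (hz : z ∈ F.A) (hnu : F.fnu z ≠ 0) (h0 : F.fplan z = 0) {w : E}
    (h1 : ⟪F.e 0 z, w⟫_ℝ = 0) (h2 : ⟪F.n 1 z, w⟫_ℝ = 0) :
    (∀ k, ⟪w, F.n k z⟫_ℝ = 0) ∧ (∀ k, ⟪w, F.e k z⟫_ℝ = 0) := by
  have hC : ⟪w, F.mC z⟫_ℝ = 0 := by
    rw [F.mC_eq hz, inner_smul_right, real_inner_comm, h2, mul_zero]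
  have hu : ⟪w, F.e 0 z⟫_ℝ = 0 := by rw [real_inner_comm, h1]
  have hL : ⟪w, F.mL z⟫_ℝ = 0 := by
    have h3 : ⟪w, F.fplan z⟫_ℝ = 0 := by rw [h0, inner_zero_right]
    unfold fplan at h3
    rw [inner_sub_right, inner_smul_right, inner_smul_right, inner_sub_right w (F.mL z),
      inner_sub_right w (F.mC z), hC, hu] at h3
    have h4 : ⟪F.mC z - F.e 0 z, F.mC z - F.e 0 z⟫_ℝ ≠ 0 := by
      rw [real_inner_self_eq_norm_sq]
      exact pow_ne_zero 2 (norm_ne_zero_iff.2 hnu)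
    have h5 : ⟪F.mC z - F.e 0 z, F.mC z - F.e 0 z⟫_ℝ * ⟪w, F.mL z⟫_ℝ = 0 := by linarith
    rcases mul_eq_zero.1 h5 with h6 | h6
    · exact absurd h6 h4
    · exact h6
  obtain ⟨h3, h4, -⟩ := F.fix_uf hz w hu hL hC
  exact ⟨h3, h4⟩

theorem c_sq_lt (hz : z ∈ F.A) (hnu : F.fnu z ≠ 0) : F.c 1 z ^ 2 < 1 := by
  have h1 := F.nu_sq hz
  have h2 : 0 < ⟪F.mC z - F.e 0 z, F.mC z - F.e 0 z⟫_ℝ := by
    rw [real_inner_self_eq_norm_sq]
    have : 0 < ‖F.mC z - F.e 0 z‖ := norm_pos_iff.2 hnu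
    positivity
  rw [h1] at h2
  have h3 : 0 < F.c 1 z ^ 2 := by have := F.c_ne hz 1; positivity
  by_contra h4
  have h5 : (1 - F.c 1 z ^ 2) / F.c 1 z ^ 2 ≤ 0 :=
    div_nonpos_of_nonpos_of_nonneg (by linarith) h3.le
  linarith

theorem hol_id_shift (hz : z ∈ F.A) (j : ℕ) (hU : ∀ v, F.uf z 4 v = v) (v : E) :
    (F.shift j).uf z 4 v = v := by
  have h1 := F.uf_four_shift (z := z) j v
  rw [hU] at h1
  have h2 := congrArg (F.ufi z j) h1
  rw [F.ufi_uf hz, F.ufi_uf hz] at h2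
  exact h2.symm

/-- F3: the planar case -/
theorem no_id' [FiniteDimensional ℝ E] (hd : 3 ≤ Module.finrank ℝ E) (hz : z ∈ F.A)
    (hg : ∀ j, (F.shift j).Good z)
    (hnu : ∀ j, (F.shift j).fnu z ≠ 0) (hU : ∀ v, F.uf z 4 v = v) : False := by
  obtain ⟨J, h⟩ := F.cj hz
  have hplan : ∀ j, (F.shift j).fplan z = 0 := fun j =>
    (F.shift j).plan_of_id hz (F.hol_id_shift hz j hU)
  have hperp0 : ∀ w, ⟪F.e 0 z, w⟫_ℝ = 0 → ⟪F.n 1 z, w⟫_ℝ = 0 →
      (∀ k, ⟪w, F.n k z⟫_ℝ = 0) ∧ (∀ k, ⟪w, F.e k z⟫_ℝ = 0) := by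
    intro w h1 h2
    exact F.perp_all hz (hnu 0) (hplan 0) h1 h2
  have hperp : ∀ j w, ⟪F.e j z, w⟫_ℝ = 0 → ⟪F.n (j + 1) z, w⟫_ℝ = 0 →
      (∀ k, ⟪w, F.n k z⟫_ℝ = 0) ∧ (∀ k, ⟪w, F.e k z⟫_ℝ = 0) := by
    intro j w h1 h2
    have h3 := (F.shift j).perp_all hz (hnu j) (hplan j) (w := w)
      (by change ⟪F.e (0 + j) z, w⟫_ℝ = 0; rwa [zero_add])
      (by change ⟪F.n (1 + j) z, w⟫_ℝ = 0; rwa [add_comm])
    have per : ∀ {P : ℕ → Prop}, (∀ k, P (k + 4) ↔ P k) → (∀ k, P (k + j)) → ∀ k, P k := by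
      intro P hp hk k
      have : ∀ m, P (k + 4 * m) ↔ P k := by
        intro m
        induction m with
        | zero => simp
        | succ m ih =>
          rw [show k + 4 * (m + 1) = k + 4 * m + 4 by ring, hp, ih]
      rw [← this j]
      have := hk (k + 3 * j)
      rwa [show k + 3 * j + j = k + 4 * j by ring] at this
    exact ⟨per (P := fun k => ⟪w, F.n k z⟫_ℝ = 0) (fun k => by rw [F.pn]) h3.1,
      per (P := fun k => ⟪w, F.e k z⟫_ℝ = 0) (fun k => by rw [F.pe]) h3.2⟩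
  -- eigenvalues
  have hσ : ∀ j, ∃ σ : ℝ, ∀ w, ⟪F.e 0 z, w⟫_ℝ = 0 → ⟪F.n 1 z, w⟫_ℝ = 0 → F.S j z w = σ • w := by
    intro j
    obtain ⟨σ, hσ⟩ := (F.shift j).plan_eigen hz (hnu j) (hplan j) ((hg j).plan (hplan j))
    refine ⟨σ, fun w h1 h2 => ?_⟩
    obtain ⟨h3, h4⟩ := hperp0 w h1 h2
    have h5 := hσ w (by
        change ⟪F.e (0 + j) z, w⟫_ℝ = 0; rw [real_inner_comm]; exact h4 _) (by
        change ⟪F.n (1 + j) z, w⟫_ℝ = 0; rw [real_inner_comm]; exact h3 _)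
    change F.S (0 + j) z w = σ • w at h5
    rwa [zero_add] at h5
  choose σ hσ using hσ
  obtain ⟨w, hw1, hwe, hwn⟩ := exists_perp hd (F.e 0 z) (F.n 1 z)
  have hw0 : w ≠ 0 := by rintro rfl; simp at hw1
  -- umbilicity
  have humb : ∀ j, ⟪F.S (j + 1) z (F.e j z), F.e j z⟫_ℝ = σ (j + 1) * (1 - F.c (j + 1) z ^ 2) := by
    intro j
    have e0 : (F.shift j).e 0 z = F.e j z := by change F.e (0 + j) z = _; rw [zero_add]
    have e1 : (F.shift j).n 1 z = F.n (j + 1) z := by change F.n (1 + j) z = _; rw [add_comm]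
    have e2 : (F.shift j).S 1 z = F.S (j + 1) z := by change F.S (1 + j) z = _; rw [add_comm]
    have e3 : (F.shift j).c 1 z = F.c (j + 1) z := by change F.c (1 + j) z = _; rw [add_comm]
    have h0 : (F.shift j).fumb z = 0 := by
      refine (F.shift j).umb_zero hz (hnu j) (σ := σ (j + 1)) ?_
      intro w h1 h2
      rw [e0] at h1
      rw [e1] at h2
      rw [e2]
      obtain ⟨h3, h4⟩ := hperp j w h1 h2
      exact hσ (j + 1) w (by rw [real_inner_comm]; exact h4 0) (by rw [real_inner_comm]; exact h3 1)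
    obtain ⟨h3, h4⟩ := hperp0 w hwe hwn
    have h5 := (F.shift j).umb_eigen hz h0 ((hg j).umb h0) (σ := σ (j + 1)) hw0
      (by rw [e2]; exact hσ (j + 1) w hwe hwn)
      (by rw [e0, real_inner_comm]; exact h4 j) (by rw [e1, real_inner_comm]; exact h3 (j + 1))
    rw [e0, e2, e3] at h5
    exact h5
  have hcs : ∀ j, F.c (j + 1) z ^ 2 < 1 := by
    intro j
    have h1 := (F.shift j).c_sq_lt hz (hnu j)
    change F.c (1 + j) z ^ 2 < 1 at h1
    rwa [add_comm] at h1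
  have hcs' : ∀ k, F.c k z ^ 2 < 1 := by
    intro k
    rw [← F.c_period k]
    exact hcs (k + 3)
  -- the action of the unfolding maps on vectors orthogonal to the plane
  have hufi : ∀ v, ⟪F.e 0 z, v⟫_ℝ = 0 → ⟪F.n 1 z, v⟫_ℝ = 0 → ∀ k, F.ufi z k v = v := by
    intro v h1 h2 k
    induction k with
    | zero => rfl
    | succ k ih =>
      change rf (F.n (k + 1) z) (F.ufi z k v) = v
      rw [ih]
      exact rf_of_inner (by rw [real_inner_comm]; exact (hperp0 v h1 h2).1 _)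
  have huf : ∀ v, ⟪F.e 0 z, v⟫_ℝ = 0 → ⟪F.n 1 z, v⟫_ℝ = 0 → ∀ k, F.uf z k v = v := by
    intro v h1 h2 k
    have := hufi v h1 h2 k
    conv_lhs => rw [← this]
    exact F.uf_ufi hz k v
  have hG : ∀ v, ⟪F.e 0 z, v⟫_ℝ = 0 → ⟪F.n 1 z, v⟫_ℝ = 0 → ∀ k,
      J.G k v = (2 * σ k / F.c k z) • v := by
    intro v h1 h2 k
    obtain ⟨h3, h4⟩ := hperp0 v h1 h2
    rw [h.G, hufi v h1 h2]
    have e1 : F.go k z v = (2 * σ k / F.c k z) • v := by
      unfold go gam mo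
      have e2 : ⟪(⟪F.n k z, F.e k z⟫_ℝ)⁻¹ • F.n k z, v⟫_ℝ = 0 := by
        rw [inner_smul_left, real_inner_comm v (F.n k z), h3]; simp
      rw [e2, zero_smul, sub_zero, hσ k v h1 h2, inner_smul_right, real_inner_comm v (F.e k z), h4]
      rw [mul_zero, zero_smul, sub_zero, smul_smul]
      congr 1
      ring
    rw [e1, F.uf_smul, huf v h1 h2]
  -- the direction `i`
  have hνu : ⟪F.fnu z, F.e 0 z⟫_ℝ = 0 := by
    unfold fnu; rw [inner_sub_left, F.inner_mC_e hz, F.ee 0 z hz, sub_self]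
  have hν0 : ‖F.fnu z‖ ≠ 0 := norm_ne_zero_iff.2 (hnu 0)
  obtain ⟨i, hi_def⟩ : ∃ i : E, i = ‖F.fnu z‖⁻¹ • F.fnu z := ⟨_, rfl⟩
  have hi : ⟪i, i⟫_ℝ = 1 := by
    rw [hi_def, inner_smul_left, inner_smul_right, real_inner_self_eq_norm_sq]
    simp only [conj_trivial]
    field_simp
  have hiu : ⟪i, J.u⟫_ℝ = 0 := by
    rw [h.u, hi_def, inner_smul_left, hνu, mul_zero]
  have hfi : F.fnu z = ‖F.fnu z‖ • i := by
    rw [hi_def, smul_smul, mul_inv_cancel₀ hν0, one_smul]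
  have hM1 : J.M 1 = J.u + ‖F.fnu z‖ • i := by
    rw [h.M1 hz, h.u, ← hfi]; unfold fnu; abel
  -- vectors orthogonal to `u` and `i`
  have hn1 : ∀ v, ⟪v, J.u⟫_ℝ = 0 → ⟪v, i⟫_ℝ = 0 → ⟪F.e 0 z, v⟫_ℝ = 0 ∧ ⟪F.n 1 z, v⟫_ℝ = 0 := by
    intro v h1 h2
    constructor
    · rw [real_inner_comm, ← h.u]; exact h1
    · rw [F.n1_eq hz, ← h.M1 hz, hM1, inner_smul_left, inner_add_left, inner_smul_left,
        real_inner_comm v J.u, h1, real_inner_comm v i, h2]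
      simp
  have hMk : ∀ k, ∃ β : ℝ, J.M k = J.u + β • i := by
    intro k
    have hM0 : ∀ v, ⟪v, J.u⟫_ℝ = 0 → ⟪v, i⟫_ℝ = 0 → ⟪v, J.M 0⟫_ℝ = 0 := by
      intro v h1 h2
      obtain ⟨h3, h4⟩ := hn1 v h1 h2
      rw [h.M0]
      change ⟪v, F.mo 0 z⟫_ℝ = 0
      unfold mo
      rw [inner_smul_right, (hperp0 v h3 h4).1 0, mul_zero]
    have hM1' : ∀ v, ⟪v, J.u⟫_ℝ = 0 → ⟪v, i⟫_ℝ = 0 → ⟪v, J.M 1⟫_ℝ = 0 := by
      intro v h1 h2
      rw [hM1, inner_add_right, inner_smul_right, h1, h2]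
      ring
    refine ⟨⟪J.M k, i⟫_ℝ, ?_⟩
    have h1 : ⟪J.M k - (J.u + ⟪J.M k, i⟫_ℝ • i), J.u⟫_ℝ = 0 := by
      rw [inner_sub_left, inner_add_left, inner_smul_left, J.Mu, J.uu, hiu]; simp
    have h2 : ⟪J.M k - (J.u + ⟪J.M k, i⟫_ℝ • i), i⟫_ℝ = 0 := by
      rw [inner_sub_left, inner_add_left, inner_smul_left, hi, real_inner_comm i J.u, hiu]; simp
    have h3 := J.M_span h1 (hM0 _ h1 h2) (hM1' _ h1 h2) k
    have h4 : ⟪J.M k - (J.u + ⟪J.M k, i⟫_ℝ • i), J.M k - (J.u + ⟪J.M k, i⟫_ℝ • i)⟫_ℝ = 0 := by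
      rw [inner_sub_right, h3, inner_add_right, inner_smul_right, h1, h2]
      ring
    exact sub_eq_zero.1 (inner_self_eq_zero.1 h4)
  have hGi0 : ∀ k, J.G k i = ⟪J.G k i, i⟫_ℝ • i := by
    intro k
    have h1 : ⟪J.G k i - ⟪J.G k i, i⟫_ℝ • i, J.u⟫_ℝ = 0 := by
      rw [inner_sub_left, inner_smul_left, hiu, J.Gsym, J.Gu, inner_zero_right]; simp
    have h2 : ⟪J.G k i - ⟪J.G k i, i⟫_ℝ • i, i⟫_ℝ = 0 := by
      rw [inner_sub_left, inner_smul_left, hi]; simp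
    obtain ⟨h3, h4⟩ := hn1 _ h1 h2
    have h5 := hG _ h3 h4 k
    have h6 : ⟪J.G k i, J.G k i - ⟪J.G k i, i⟫_ℝ • i⟫_ℝ = 0 := by
      rw [J.Gsym, h5, inner_smul_right, real_inner_comm, h2, mul_zero]
    have h2' : ⟪i, J.G k i - ⟪J.G k i, i⟫_ℝ • i⟫_ℝ = 0 := by rw [real_inner_comm]; exact h2
    have h7 : ⟪J.G k i - ⟪J.G k i, i⟫_ℝ • i, J.G k i - ⟪J.G k i, i⟫_ℝ • i⟫_ℝ = 0 := by
      conv_lhs => rw [inner_sub_left, h6, inner_smul_left, h2', mul_zero, sub_zero]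
    exact sub_eq_zero.1 (inner_self_eq_zero.1 h7)
  -- the eigenvalue in the plane
  have hGi : ∀ k, J.G (k + 1) i = (2 * σ (k + 1) / F.c (k + 1) z *
      ⟪J.M (k + 1), J.M (k + 1)⟫_ℝ) • i := by
    intro k
    obtain ⟨β, hβ⟩ := hMk (k + 1)
    have hMM := h.MM hz (k + 1)
    have hc := F.c_ne hz (k + 1)
    have hββ : β ^ 2 = (1 - F.c (k + 1) z ^ 2) / F.c (k + 1) z ^ 2 := by
      have h1 : ⟪J.M (k + 1), J.M (k + 1)⟫_ℝ = 1 + β ^ 2 := by
        rw [hβ]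
        simp only [inner_add_left, inner_add_right, inner_smul_left, inner_smul_right, J.uu, hi,
          hiu, real_inner_comm i J.u, conj_trivial]
        ring
      rw [hMM] at h1
      field_simp at h1 ⊢
      linarith
    -- the form on `M - u`
    have h1 := (F.shift k).inner_gC_nu hz
    have e0 : (F.shift k).e 0 z = F.e k z := by change F.e (0 + k) z = _; rw [zero_add]
    have eC : (F.shift k).mC z = F.mi k z := by
      change (⟪F.n (0 + 1 + k) z, F.e (0 + k) z⟫_ℝ)⁻¹ • F.n (0 + 1 + k) z = _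
      rw [show 0 + 1 + k = k + 1 by ring, zero_add]; rfl
    have eg : ∀ v, (F.shift k).gC z v = F.gi k z v := by
      intro v
      change gam (F.c (0 + 1 + k) z) (F.S (0 + 1 + k) z) ((⟪F.n (0 + 1 + k) z, F.e (0 + k) z⟫_ℝ)⁻¹ •
        F.n (0 + 1 + k) z) (F.e (0 + k) z) v = _
      rw [show 0 + 1 + k = k + 1 by ring, zero_add]; rfl
    have e2 : (F.shift k).S 1 z = F.S (k + 1) z := by change F.S (1 + k) z = _; rw [add_comm]
    have e3 : (F.shift k).c 1 z = F.c (k + 1) z := by change F.c (1 + k) z = _; rw [add_comm]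
    rw [e0, eC, eg, e2, e3, humb k] at h1
    have h2 : F.uf z k (F.mi k z - F.e k z) = J.M (k + 1) - J.u := by
      have hs := F.uf_add (z := z) k (F.mi k z - F.e k z) (F.e k z)
      rw [sub_add_cancel, F.uf_e hz, F.uf_mi hz, ← h.M, ← h.u] at hs
      rw [hs]; abel
    have h3 : F.uf z k (F.gi k z (F.mi k z - F.e k z)) = J.G (k + 1) (J.M (k + 1) - J.u) := by
      rw [F.uf_gi hz, h.G, ← h2]
      congr 2
      change _ = rf (F.n (k + 1) z) (F.ufi z k _)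
      rw [F.ufi_uf hz]
    rw [← F.inner_uf hz k, h2, h3, hβ] at h1
    have e4 : J.u + β • i - J.u = β • i := by abel
    rw [e4, map_smul, inner_smul_left, inner_smul_right] at h1
    simp only [conj_trivial] at h1
    have hβ0 : β ^ 2 ≠ 0 := by
      rw [hββ]
      have := hcs k
      have h5 : 0 < F.c (k + 1) z ^ 2 := by positivity
      have h6 : 0 < (1 - F.c (k + 1) z ^ 2) / F.c (k + 1) z ^ 2 := div_pos (by linarith) h5
      exact h6.ne'
    rw [hGi0 (k + 1)]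
    congr 1
    have h7 : β ^ 2 * ⟪J.G (k + 1) i, i⟫_ℝ = β ^ 2 * (2 * σ (k + 1) / F.c (k + 1) z *
        ⟪J.M (k + 1), J.M (k + 1)⟫_ℝ) := by
      have h8 : β ^ 2 * ⟪J.G (k + 1) i, i⟫_ℝ = 2 / F.c (k + 1) z ^ 5 *
        (σ (k + 1) * (1 - F.c (k + 1) z ^ 2)) := by rw [← h1]; ring
      rw [h8, hββ, hMM]
      field_simp
    exact mul_left_cancel₀ hβ0 h7
  have hwu : ⟪w, J.u⟫_ℝ = 0 := by rw [h.u, real_inner_comm]; exact hwe
  refine J.planar_false (by intro v; rw [h.U]; exact hU v) hi hw1 hiu hwu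
    (fun k => 2 * σ k / F.c k z) ?_ (fun k => hG w hwe hwn k) ?_
  · intro k
    rw [h.MM hz]
    have h1 := hcs' k
    have h2 : 0 < F.c k z ^ 2 := by have := F.c_ne hz k; positivity
    rw [← one_div, lt_div_iff₀ h2]
    linarith
  · intro k
    rcases k with _ | k
    · have hUv : ∀ v, J.U v = v := fun v => by rw [h.U]; exact hU v
      have h1 := hGi 3
      simp only [Nat.reduceAdd] at h1
      have h2 : J.G 4 i = J.G 0 i := by
        have := J.pG 0 i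
        rw [hUv, hUv] at this
        exact this
      have h3 : J.M 4 = J.M 0 := by
        have := J.pM 0
        rw [hUv] at this
        exact this
      have h4 : F.c 4 z = F.c 0 z := F.c_period 0
      have h5 : σ 4 = σ 0 := by
        have h6 := hσ 4 w hwe hwn
        have h7 : F.S 4 = F.S 0 := F.pS 0
        rw [h7, hσ 0 w hwe hwn] at h6
        exact (smul_left_injective ℝ hw0 h6).symm
      rw [h2, h3, h4, h5] at h1
      exact h1
    · exact hGi k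

/-- F4: conclusion -/
theorem no_good' [FiniteDimensional ℝ E] (hd : 3 ≤ Module.finrank ℝ E) (hz : z ∈ F.A)
    (hg : ∀ j, (F.shift j).Good z) : False := by
  have hnu : ∀ j, (F.shift j).fnu z ≠ 0 := by
    intro j
    refine (F.shift j).nu_ne hz (hg j) ?_
    obtain ⟨w, hw1, hwe, -⟩ := exists_perp hd ((F.shift j).e 0 z) 0
    exact ⟨w, by rintro rfl; simp at hw1, hwe⟩
  obtain ⟨J, h⟩ := F.cj hz
  have hsym : ∀ v w, ⟪J.U v, w⟫_ℝ = ⟪v, J.U w⟫_ℝ := by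
    intro v w
    rw [h.U, h.U]
    exact F.hol_sym' hz hg v w
  rcases J.phi hsym with h1 | h1
  · exact F.no_id' hd hz hg hnu fun v => by rw [← h.U]; exact h1 v
  · refine F.no_phi' hz (hg 0) (hnu 0) ?_
    rw [h.v0 hz, h.v1 hz, h.κ] at h1
    have hP := (F.P_pos hz).ne'
    unfold fPhi
    field_simp at h1
    linarith

/-- F5 -/
theorem null_A' [FiniteDimensional ℝ E] [FiniteDimensional ℝ Z] [MeasurableSpace Z]
    [BorelSpace Z] (μ : Measure Z) [μ.IsAddHaarMeasure] (hd : 3 ≤ Module.finrank ℝ E)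
    (hA : MeasurableSet F.A) : μ F.A = 0 := by
  obtain ⟨B, hBA, hBm, hB0, hB⟩ := exists_good μ F hA
  have h1 : B = ∅ := by
    rw [Set.eq_empty_iff_forall_notMem]
    intro z hz
    exact F.no_good' hd (hBA hz) (hB z hz)
  rw [h1, sdiff_empty] at hB0
  exact hB0

end Fam

end Pool.Agent.H721R2.Quart

end
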