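import Pool.Agent.H721R2.Quart.MkCJ
import Pool.Agent.H721R2.Quart.B1
import Pool.Agent.H721R2.Quart.B3
import Pool.Agent.H721R2.Quart.C4
import Pool.Agent.H721R2.Quart.E1
import Pool.Agent.H721R2.Quart.E5

set_option autoImplicit false

open MeasureTheory Set Filter Topology
open scoped InnerProductSpace

noncomputable section

namespace Pool.Agent.H721R2.Quart

theorem rf_rf {E : Type*} [NormedAddCommGroup E] [InnerProductSpace ℝ E] {n : E}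
    (hn : ⟪n, n⟫_ℝ = 1) (v : E) : rf n (rf n v) = v := by
  unfold rf
  rw [inner_sub_right, inner_smul_right, hn]
  module

theorem inner_rf_left {E : Type*} [NormedAddCommGroup E] [InnerProductSpace ℝ E] (n v w : E) :
    ⟪rf n v, w⟫_ℝ = ⟪v, rf n w⟫_ℝ := by
  unfold rf
  rw [inner_sub_left, inner_sub_right, inner_smul_left, inner_smul_right, real_inner_comm n v]
  simp only [conj_trivial]
  ring

namespace Fam

variable {E Z : Type*} [NormedAddCommGroup E] [InnerProductSpace ℝ E]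
  [NormedAddCommGroup Z] [NormedSpace ℝ Z] (F : Fam E Z) {z : Z}

/-- The relation between a closed jet and the family. -/
structure IsCJ (z : Z) (J : CJ E) : Prop where
  u : J.u = F.e 0 z
  L : ∀ k, J.L k = F.L k z
  M : ∀ k, J.M k = F.uf z k (F.mo k z)
  G : ∀ k v, J.G k v = F.uf z k (F.go k z (F.ufi z k v))
  U : ∀ v, J.U v = F.uf z 4 v

theorem cj [FiniteDimensional ℝ E] (hz : z ∈ F.A) : ∃ J : CJ E, F.IsCJ z J := by
  obtain ⟨J, h1, h2, h3, h4, h5⟩ := F.exists_cj' hz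
  exact ⟨J, ⟨h1, h2, h3, h4, h5⟩⟩

namespace IsCJ

variable {F} {J : CJ E}

theorem M0 (h : F.IsCJ z J) : J.M 0 = F.mL z := h.M 0

theorem M1 (h : F.IsCJ z J) (hz : z ∈ F.A) : J.M 1 = F.mC z := by
  rw [h.M]; exact (F.uf_mi hz 0).symm

theorem M2 (h : F.IsCJ z J) (hz : z ∈ F.A) : J.M 2 = F.mR z := by
  rw [h.M]
  have := (F.uf_mi hz 1).symm
  exact this

theorem G0 (h : F.IsCJ z J) (v : E) : J.G 0 v = F.gL z v := h.G 0 v

theorem G1 (h : F.IsCJ z J) (hz : z ∈ F.A) (v : E) : J.G 1 v = F.gC z v := by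
  rw [h.G]; exact (F.uf_gi hz 0 v).symm

theorem MM (h : F.IsCJ z J) (hz : z ∈ F.A) (k : ℕ) : ⟪J.M k, J.M k⟫_ℝ = (F.c k z ^ 2)⁻¹ := by
  rw [h.M, F.inner_uf hz, F.inner_mo_mo hz]

theorem P (h : F.IsCJ z J) : J.P = F.P z := by
  unfold CJ.P Fam.P
  rw [h.L, h.L, h.L, h.L]

theorem κ (h : F.IsCJ z J) : J.κ = F.L 0 z * F.L 2 z + F.L 1 z * F.L 3 z := by
  unfold CJ.κ
  rw [h.L, h.L, h.L, h.L]

theorem v0 (h : F.IsCJ z J) (hz : z ∈ F.A) : J.v 0 = F.A1 z / F.P z := by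
  unfold CJ.v
  rw [h.MM hz, h.L, h.L, h.P]
  exact F.vv hz 0

theorem v1 (h : F.IsCJ z J) (hz : z ∈ F.A) : J.v 1 = F.A2 z / F.P z := by
  unfold CJ.v
  rw [h.MM hz, h.L, h.L, h.P]
  have := F.vv hz 1
  rw [(F.A1_shift 0).1] at this
  exact this

/-- The operator `N 0` in terms of the family. -/
theorem N0 (h : F.IsCJ z J) (hz : z ∈ F.A) (v : E) : J.N 0 v = (F.L 0 z + F.L 1 z) • v +
    (F.L 0 z * F.L 1 z * F.c 1 z ^ 2) • F.gC z v := by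
  unfold CJ.N
  rw [h.MM hz, h.L, h.L, h.G1 hz, div_inv_eq_mul]

theorem fB_eq (h : F.IsCJ z J) (hz : z ∈ F.A) (v w : E) (hv : ⟪v, J.u⟫_ℝ = 0) :
    F.fB z v w = ⟪J.N 0 v, w⟫_ℝ := by
  rw [h.N0 hz, inner_add_left, inner_smul_left, inner_smul_left]
  simp only [conj_trivial]
  change _ = _ + _ * ⟪gam (F.c 1 z) (F.S 1 z) (F.mC z) (F.e 0 z) v, w⟫_ℝ
  rw [inner_gam]
  unfold Fam.fB Fam.fg
  rw [h.u] at hv
  rw [hv]
  have := F.c_ne hz 1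
  field_simp
  ring

end IsCJ

theorem inner_mC_e (hz : z ∈ F.A) : ⟪F.mC z, F.e 0 z⟫_ℝ = 1 := by
  obtain ⟨h1⟩ : Nonempty (z ∈ F.A) := ⟨hz⟩
  have h2 : F.n 1 z = F.n 1 z := rfl
  unfold mC mi
  rw [inner_smul_left]
  simp only [conj_trivial]
  refine inv_mul_cancel₀ ?_
  have h3 := F.refl 0 z hz
  have h4 := F.tr 1 z hz
  intro h0
  apply h4
  rw [show F.e 1 z = F.e (0 + 1) z from rfl, h3]
  unfold rf
  rw [inner_sub_right, inner_smul_right, F.nn 1 z hz, h0]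
  ring

theorem inner_n1_e0 (hz : z ∈ F.A) : ⟪F.n 1 z, F.e 0 z⟫_ℝ = F.c 1 z := by
  unfold c
  rw [show F.e 1 z = F.e (0 + 1) z from rfl, F.refl 0 z hz]
  unfold rf
  rw [inner_sub_right, inner_smul_right, F.nn 1 z hz]
  ring

theorem mC_eq (hz : z ∈ F.A) : F.mC z = (F.c 1 z)⁻¹ • F.n 1 z := by
  unfold mC mi
  rw [show F.n (0 + 1) z = F.n 1 z from rfl, F.inner_n1_e0 hz]

theorem n1_eq (hz : z ∈ F.A) : F.n 1 z = F.c 1 z • F.mC z := by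
  rw [F.mC_eq hz, smul_smul, mul_inv_cancel₀ (F.c_ne hz 1), one_smul]

theorem inner_mC_mC (hz : z ∈ F.A) : ⟪F.mC z, F.mC z⟫_ℝ = (F.c 1 z ^ 2)⁻¹ := by
  rw [F.mC_eq hz, inner_smul_left, inner_smul_right, F.nn 1 z hz]
  simp only [conj_trivial]
  have := F.c_ne hz 1
  field_simp

theorem S1_mC (hz : z ∈ F.A) : F.S 1 z (F.mC z) = 0 := by
  rw [F.mC_eq hz, map_smul, F.Sn 1 z hz, smul_zero]

theorem inner_gC_nu (hz : z ∈ F.A) : ⟪F.gC z (F.mC z - F.e 0 z), F.mC z - F.e 0 z⟫_ℝ =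
    2 / F.c 1 z ^ 5 * ⟪F.S 1 z (F.e 0 z), F.e 0 z⟫_ℝ := by
  change ⟪gam (F.c 1 z) (F.S 1 z) (F.mC z) (F.e 0 z) (F.mC z - F.e 0 z), F.mC z - F.e 0 z⟫_ℝ = _
  rw [inner_gam]
  have h1 : F.mC z - F.e 0 z - ⟪F.mC z, F.mC z - F.e 0 z⟫_ℝ • F.e 0 z =
      F.mC z - ((F.c 1 z ^ 2)⁻¹) • F.e 0 z := by
    rw [inner_sub_right, F.inner_mC_mC hz, F.inner_mC_e hz]
    module
  rw [h1, map_sub, map_smul, F.S1_mC hz, zero_sub, inner_neg_left, inner_sub_right,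
    inner_smul_left, inner_smul_left, inner_smul_right, F.sym 1 z hz (F.e 0 z) (F.mC z),
    F.S1_mC hz, inner_zero_right]
  simp only [conj_trivial]
  have := F.c_ne hz 1
  field_simp
  ring

theorem nu_sq (hz : z ∈ F.A) : ⟪F.mC z - F.e 0 z, F.mC z - F.e 0 z⟫_ℝ =
    (1 - F.c 1 z ^ 2) / F.c 1 z ^ 2 := by
  rw [inner_sub_left, inner_sub_right, inner_sub_right, F.inner_mC_mC hz, F.inner_mC_e hz,
    real_inner_comm, F.inner_mC_e hz, F.ee 0 z hz]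
  have := F.c_ne hz 1
  field_simp
  ring

theorem A2_pos (hz : z ∈ F.A) : 0 < F.A2 z := by
  unfold A2
  have h0 := F.Lpos 0 z hz
  have h1 := F.Lpos 1 z hz
  have h2 := F.Lpos 2 z hz
  have h3 := F.Lpos 3 z hz
  have h4 : 0 ≤ ⟪F.x 3 z - F.x 1 z, F.x 3 z - F.x 1 z⟫_ℝ := real_inner_self_nonneg
  positivity

theorem uf_zero (hz : z ∈ F.A) (k : ℕ) : F.uf z k 0 = 0 := by
  have := F.uf_smul (z := z) k 0 0
  simpa using this

theorem go_zero (k : ℕ) : F.go k z 0 = 0 := by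
  have := gam_smul (F.c k z) (F.S k z) (F.mo k z) (F.e k z) 0 0
  simpa [go] using this

/-- The third vertex along a pivot. -/
theorem pivot_third (hz : z ∈ F.A) {J : CJ E} (h : F.IsCJ z J) {δ : E} {ζ : Z}
    (hδ : ⟪F.e 0 z, δ⟫_ℝ = 0) (hp : F.Piv z ζ δ) :
    ⟪rf (F.n 2 z) (F.mo 1 z - F.e 1 z), fderiv ℝ (F.x 3) z ζ⟫_ℝ =
      ⟪F.mC z - F.e 0 z, J.N 1 δ⟫_ℝ := by
  -- the unfolded field
  obtain ⟨y0, d0⟩ := F.field hz ζ 0
  obtain ⟨y1, d1⟩ := F.field hz ζ 1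
  obtain ⟨y2, d2⟩ := F.field hz ζ 2
  simp only [Nat.reduceAdd] at y0 d0 y1 d1 y2 d2
  have e0 : fderiv ℝ (F.e 0) z ζ = δ := hp.e0
  have x1 : fderiv ℝ (F.x 1) z ζ = 0 := hp.x1
  rw [x1, inner_zero_left, zero_smul, sub_zero] at y1 d0
  rw [F.go_zero, F.uf_zero hz, smul_zero, add_zero, e0] at d0
  have d0' : F.uf z 1 (fderiv ℝ (F.e 1) z ζ) = δ := d0
  rw [F.uf_zero hz, zero_add, d0'] at y1
  rw [d0'] at d1
  rw [y1] at y2
  -- `G 2`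
  have hG : F.uf z 2 (F.go 2 z (fderiv ℝ (F.x 2) z ζ -
      ⟪fderiv ℝ (F.x 2) z ζ, F.e 2 z⟫_ℝ • F.e 2 z)) = F.L 1 z • J.G 2 δ := by
    have h1 : fderiv ℝ (F.x 2) z ζ - ⟪fderiv ℝ (F.x 2) z ζ, F.e 2 z⟫_ℝ • F.e 2 z =
        F.ufi z 2 (F.L 1 z • δ) := by
      rw [← y1, F.ufi_uf hz]
    rw [h1, ← h.G, map_smul]
  rw [hG] at d1
  rw [d1] at y2
  have hN : F.uf z 3 (fderiv ℝ (F.x 3) z ζ -
      ⟪fderiv ℝ (F.x 3) z ζ, F.e 3 z⟫_ℝ • F.e 3 z) = J.N 1 δ := by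
    rw [y2]
    unfold CJ.N
    rw [h.MM hz, h.L, h.L, div_inv_eq_mul]
    module
  have hq : F.uf z 2 (rf (F.n 2 z) (F.mo 1 z - F.e 1 z)) = F.mC z - F.e 0 z := by
    change F.uf z 1 (rf (F.n 2 z) (rf (F.n 2 z) (F.mo 1 z - F.e 1 z))) = _
    rw [rf_rf (F.nn 2 z hz)]
    have h2 := F.uf_add (z := z) 1 (F.mo 1 z - F.e 1 z) (F.e 1 z)
    rw [sub_add_cancel, F.uf_e hz 1] at h2
    have h3 : F.uf z 1 (F.mo 1 z) = F.mC z := (F.uf_mi hz 0).symm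
    rw [h3] at h2
    rw [h2]; abel
  have hX : F.uf z 3 (fderiv ℝ (F.x 3) z ζ -
      ⟪fderiv ℝ (F.x 3) z ζ, F.e 3 z⟫_ℝ • F.e 3 z) = F.uf z 2 (fderiv ℝ (F.x 3) z ζ -
        ⟪fderiv ℝ (F.x 3) z ζ, F.e 3 z⟫_ℝ • F.e 2 z) := by
    change F.uf z 2 (rf (F.n 3 z) _) = _
    congr 1
    have h4 : F.e 3 z = rf (F.n 3 z) (F.e 2 z) := F.refl 2 z hz
    have h5 : rf (F.n 3 z) (F.e 3 z) = F.e 2 z := by rw [h4, rf_rf (F.nn 3 z hz)]
    have h6 : rf (F.n 3 z) (fderiv ℝ (F.x 3) z ζ) = fderiv ℝ (F.x 3) z ζ := by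
      unfold rf; rw [F.tan 3 z hz]; simp
    have h7 : ∀ a b : E, ∀ r : ℝ, rf (F.n 3 z) (a - r • b) =
        rf (F.n 3 z) a - r • rf (F.n 3 z) b := by
      intro a b r; unfold rf; rw [inner_sub_right, inner_smul_right]; module
    rw [h7, h5, h6]
  rw [← hN, ← hq, hX, F.inner_uf hz, inner_sub_right, inner_smul_right]
  have h8 : ⟪rf (F.n 2 z) (F.mo 1 z - F.e 1 z), F.e 2 z⟫_ℝ = 0 := by
    have h9 : F.e 2 z = rf (F.n 2 z) (F.e 1 z) := F.refl 1 z hz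
    rw [inner_rf_left, h9, rf_rf (F.nn 2 z hz), inner_sub_left, F.inner_mo_e hz,
      F.ee 1 z hz, sub_self]
  rw [h8, mul_zero, sub_zero]

/-- F1: the case of a half turn -/
theorem no_phi' [FiniteDimensional ℝ E] (hz : z ∈ F.A) (hg : F.Good z) (hnu : F.fnu z ≠ 0)
    (h0 : F.fPhi z = 0) : False := by
  obtain ⟨J, h⟩ := F.cj hz
  have hP := F.P_pos hz
  have hv : J.v 0 * J.v 1 = J.κ := by
    rw [h.v0 hz, h.v1 hz, h.κ]
    have h1 : F.A1 z * F.A2 z = F.P z ^ 2 * (F.L 0 z * F.L 2 z + F.L 1 z * F.L 3 z) := by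
      have := h0; unfold fPhi at this; linarith
    field_simp
    linarith
  have hU := J.anti hv
  rw [h.M1 hz, h.u] at hU
  have hνu : ⟪F.mC z - F.e 0 z, J.u⟫_ℝ = 0 := by
    rw [h.u, inner_sub_left, F.inner_mC_e hz, F.ee 0 z hz, sub_self]
  have hδu : ⟪F.e 0 z, J.N 0 (F.mC z - F.e 0 z)⟫_ℝ = 0 := by
    unfold CJ.N
    rw [inner_add_right, inner_smul_right, inner_smul_right, ← h.u, ← J.Gsym, J.Gu,
      inner_zero_left, real_inner_comm]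
    rw [h.u]
    rw [h.u] at hνu
    rw [hνu]
    ring
  obtain ⟨ζ, hp⟩ := F.exists_piv hz hδu
  have h1 := F.Q1 hz h0 (hg.Phi h0) hδu hp
  rw [F.pivot_third hz h hδu hp, J.N2 0 _ hνu, hU, inner_sub_right, inner_smul_right,
    inner_smul_right, inner_neg_right, h.L, h.L, h.L, h.L] at h1
  simp only [Nat.reduceAdd] at h1
  have hA2 := F.A2_pos hz
  have hk : F.A1 z * F.A2 z = F.P z ^ 2 * (F.L 0 z * F.L 2 z + F.L 1 z * F.L 3 z) := by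
    have := h0; unfold fPhi at this; linarith
  set N := ⟪F.mC z - F.e 0 z, F.mC z - F.e 0 z⟫_ℝ with hN
  have h2 : F.P z * ⟪F.mC z - F.e 0 z, J.N 0 (F.mC z - F.e 0 z)⟫_ℝ = F.A1 z * N := by
    have h3 : F.A2 z * (F.P z * ⟪F.mC z - F.e 0 z, J.N 0 (F.mC z - F.e 0 z)⟫_ℝ) =
        F.A2 z * (F.A1 z * N) := by
      linear_combination (-F.P z) * h1 - N * hk
    exact mul_left_cancel₀ hA2.ne' h3
  rw [h.N0 hz, inner_add_right, inner_smul_right, inner_smul_right, real_inner_comm (F.gC z _),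
    F.inner_gC_nu hz, ← hN] at h2
  have hc := F.c_ne hz 1
  have hA1 := (F.A1_eq hz).1
  rw [hA1] at h2
  have hN' : N = (1 - F.c 1 z ^ 2) / F.c 1 z ^ 2 := F.nu_sq hz
  rw [hN'] at h2
  have hL0 := (F.Lpos 0 z hz).ne'
  have hL1 := (F.Lpos 1 z hz).ne'
  have h4 : F.fH z = 0 := by
    unfold fH
    field_simp at h2
    have h5 : F.L 0 z * F.L 1 z * (2 : ℝ) ≠ 0 := by positivity
    apply mul_left_cancel₀ h5
    nlinarith [h2]
  exact F.H_false hz hnu h4 (hg.H h4)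

end Fam

end Pool.Agent.H721R2.Quart

end
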