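import Pool.Agent.H721R2.Quart.FPhi
import Pool.Agent.H721R2.Quart.B4
import Pool.Agent.H721R2.Quart.B5
import Pool.Agent.H721R2.Quart.E2
import Pool.Agent.H721R2.Quart.E3

set_option autoImplicit false

open MeasureTheory Set Filter Topology
open scoped InnerProductSpace

noncomputable section

namespace Pool.Agent.H721R2.Quart

namespace Fam

variable {E Z : Type*} [NormedAddCommGroup E] [InnerProductSpace ℝ E]
  [NormedAddCommGroup Z] [NormedSpace ℝ Z] (F : Fam E Z) {z : Z}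

theorem uf_shift (j k : ℕ) (v : E) :
    F.uf z (j + k) v = F.uf z j ((F.shift j).uf z k v) := by
  induction k generalizing v with
  | zero => rfl
  | succ k ih =>
    change F.uf z (j + k) (rf (F.n (j + k + 1) z) v) =
      F.uf z j ((F.shift j).uf z k (rf (F.n (k + 1 + j) z) v))
    rw [ih, show j + k + 1 = k + 1 + j by ring]

theorem uf_four_shift (j : ℕ) (v : E) :
    F.uf z 4 (F.uf z j v) = F.uf z j ((F.shift j).uf z 4 v) := by
  rw [← F.uf_period, F.uf_shift]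

theorem sym_shift (hz : z ∈ F.A) (j : ℕ)
    (h : ∀ v w, ⟪(F.shift j).uf z 4 v, w⟫_ℝ = ⟪v, (F.shift j).uf z 4 w⟫_ℝ) (v w : E) :
    ⟪F.uf z 4 v, w⟫_ℝ = ⟪v, F.uf z 4 w⟫_ℝ := by
  have h1 := h (F.ufi z j v) (F.ufi z j w)
  rw [← F.inner_uf hz j, ← F.inner_uf hz j (F.ufi z j v), ← F.uf_four_shift, ← F.uf_four_shift,
    F.uf_ufi hz, F.uf_ufi hz] at h1
  exact h1

theorem fB_smul_left (v w : E) (r : ℝ) : F.fB z (r • v) w = r * F.fB z v w := by
  unfold fB fg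
  have : r • v - ⟪F.mC z, r • v⟫_ℝ • F.e 0 z = r • (v - ⟪F.mC z, v⟫_ℝ • F.e 0 z) := by
    rw [inner_smul_right]; module
  rw [this, map_smul, inner_smul_left, inner_smul_left, inner_smul_left]
  simp only [conj_trivial]
  ring

theorem fB_add_left (v v' w : E) : F.fB z (v + v') w = F.fB z v w + F.fB z v' w := by
  unfold fB fg
  have : v + v' - ⟪F.mC z, v + v'⟫_ℝ • F.e 0 z =
      (v - ⟪F.mC z, v⟫_ℝ • F.e 0 z) + (v' - ⟪F.mC z, v'⟫_ℝ • F.e 0 z) := by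
    rw [inner_add_right]; module
  rw [this, map_add, inner_add_left, inner_add_left, inner_add_left]
  ring

theorem fB_comm (hz : z ∈ F.A) (v w : E) : F.fB z v w = F.fB z w v := by
  unfold fB fg
  rw [F.sym 1 z hz, real_inner_comm, real_inner_comm v w]
  ring

theorem fB_u (hz : z ∈ F.A) (w : E) : F.fB z (F.e 0 z) w = 0 := by
  unfold fB fg
  rw [F.inner_mC_e hz, one_smul, sub_self, map_zero, inner_zero_left, F.ee 0 z hz,
    real_inner_comm]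
  ring

/-- The Gram trace vanishes. -/
theorem tau_zero (hz : z ∈ F.A) {i j : E}
    (hi : ⟪i, i⟫_ℝ = 1) (hj : ⟪j, j⟫_ℝ = 1) (hij : ⟪i, j⟫_ℝ = 0)
    (hiu : ⟪i, F.e 0 z⟫_ℝ = 0) (hju : ⟪j, F.e 0 z⟫_ℝ = 0) {a b a' b' : ℝ}
    (hC : F.mC z - F.e 0 z = a • i + b • j) (hL : F.mL z - F.e 0 z = a' • i + b' • j)
    (htr : F.fB z i i + F.fB z j j = 0) : F.ftau z = 0 := by
  have e1 : F.mC z = F.e 0 z + (a • i + b • j) := by rw [← hC]; abel
  have e2 : F.mL z = F.e 0 z + (a' • i + b' • j) := by rw [← hL]; abel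
  have hB : ∀ x y x' y' : ℝ, F.fB z (F.e 0 z + (x • i + y • j)) (F.e 0 z + (x' • i + y' • j)) =
      x * x' * F.fB z i i + (x * y' + y * x') * F.fB z i j + y * y' * F.fB z j j := by
    intro x y x' y'
    rw [F.fB_add_left, F.fB_u hz, F.fB_add_left, F.fB_smul_left, F.fB_smul_left,
      F.fB_comm hz i, F.fB_comm hz j, F.fB_add_left, F.fB_add_left, F.fB_u hz,
      F.fB_add_left, F.fB_add_left, F.fB_u hz, F.fB_smul_left, F.fB_smul_left, F.fB_smul_left,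
      F.fB_smul_left, F.fB_comm hz j i]
    ring
  have hg : ∀ x y x' y' : ℝ, F.fg z (F.e 0 z + (x • i + y • j)) (F.e 0 z + (x' • i + y' • j)) =
      x * x' + y * y' := by
    intro x y x' y'
    unfold fg
    simp only [inner_add_left, inner_add_right, inner_smul_left, inner_smul_right, conj_trivial,
      hi, hj, hij, hiu, hju, F.ee 0 z hz, real_inner_comm i (F.e 0 z), real_inner_comm j (F.e 0 z),
      real_inner_comm i j]
    ring
  unfold ftau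
  rw [e1, e2, hB, hB, hB, hg, hg, hg]
  linear_combination (a * b' - a' * b) ^ 2 * htr

/-- The relation `T` in the case of a general rotation. -/
theorem T_zero [FiniteDimensional ℝ E] (hz : z ∈ F.A) (hg : F.Good z)
    (hU : ¬ ∀ v w, ⟪F.uf z 4 v, w⟫_ℝ = ⟪v, F.uf z 4 w⟫_ℝ) : F.fT z = 0 := by
  obtain ⟨J, h⟩ := F.cj hz
  have hU' : ¬ ∀ v w, ⟪J.U v, w⟫_ℝ = ⟪v, J.U w⟫_ℝ := by
    simpa only [h.U] using hU
  obtain ⟨i, j, hi, hj, hij, hiu, hju, ⟨a, b, a', b', hC, hL, hdet⟩, hf, α, β, hβ, hUi, hUj⟩ :=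
    J.rot hU'
  have htr := J.trace hi hj hij hiu hju hf hβ hUi hUj
  have hM0 : ∀ f, ⟪f, J.u⟫_ℝ = 0 → ⟪f, i⟫_ℝ = 0 → ⟪f, j⟫_ℝ = 0 → ⟪f, J.M 0⟫_ℝ = 0 ∧
      ⟪f, J.M 1⟫_ℝ = 0 := by
    intro f h1 h2 h3
    have e0 : J.M 0 = J.u + (a' • i + b' • j) := by rw [← hL]; abel
    have e1 : J.M 1 = J.u + (a • i + b • j) := by rw [← hC]; abel
    rw [e0, e1]
    simp only [inner_add_right, inner_smul_right, h1, h2, h3]
    constructor <;> ring
  have htr0 : F.fB z i i + F.fB z j j = 0 := by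
    rw [h.fB_eq hz i i hiu, h.fB_eq hz j j hju]; exact (htr 0).1
  have hiu' := hiu
  have hju' := hju
  rw [h.u] at hiu' hju'
  rw [h.M1 hz, h.u] at hC
  rw [h.M0, h.u] at hL
  have h0 : F.ftau z = 0 := F.tau_zero hz hi hj hij hiu' hju' hC hL htr0
  refine F.T_of_tau hz h0 (hg.tau h0) hi hj hij hiu' hju' hC hL hdet htr0 ?_
  intro f h1 h2 h3
  rw [← h.u] at h1
  obtain ⟨p1, p2⟩ := hM0 f h1 h2 h3
  refine ⟨?_, ?_, ?_, ?_, ?_⟩
  · rw [← h.G0]; exact ((htr 0).2 f h1 h2 h3).2.2.1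
  · rw [← h.G0]; exact ((htr 0).2 f h1 h2 h3).2.2.2
  · rw [h.fB_eq hz i f hiu]; exact ((htr 0).2 f h1 h2 h3).1
  · rw [h.fB_eq hz j f hju]; exact ((htr 0).2 f h1 h2 h3).2.1
  · rw [← h.M2 hz, real_inner_comm]; exact J.M_span h1 p1 p2 2

/-- F2: the case of a general rotation -/
theorem hol_sym' [FiniteDimensional ℝ E] (hz : z ∈ F.A) (hg : ∀ j, (F.shift j).Good z) (v w : E) :
    ⟪F.uf z 4 v, w⟫_ℝ = ⟪v, F.uf z 4 w⟫_ℝ := by
  by_contra hne
  have hU : ¬ ∀ v w, ⟪F.uf z 4 v, w⟫_ℝ = ⟪v, F.uf z 4 w⟫_ℝ := fun h => hne (h v w)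
  have hT : ∀ j, (F.shift j).fT z = 0 := by
    intro j
    refine (F.shift j).T_zero hz (hg j) fun h => hU ?_
    exact F.sym_shift hz j h
  have hg2 : ∀ j δ, ⟪F.e j z, δ⟫_ℝ = 0 → (2 : ℝ) • F.gi j z δ =
      rf (F.n (j + 1) z) (F.gi (j + 1) z (rf (F.n (j + 1) z) δ)) + F.go j z δ := by
    intro j δ hδ
    have h1 : ⟪(F.shift j).e 0 z, δ⟫_ℝ = 0 := by
      change ⟪F.e (0 + j) z, δ⟫_ℝ = 0; rwa [zero_add]
    have h2 := (F.shift j).U_of_T hz (hT j) ((hg j).T (hT j)) h1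
    have e1 : (F.shift j).gC z δ = F.gi j z δ := by
      change gam (F.c (0 + 1 + j) z) (F.S (0 + 1 + j) z) ((⟪F.n (0 + 1 + j) z, F.e (0 + j) z⟫_ℝ)⁻¹ •
        F.n (0 + 1 + j) z) (F.e (0 + j) z) δ = _
      rw [show 0 + 1 + j = j + 1 by ring, zero_add]; rfl
    have e2 : (F.shift j).gL z δ = F.go j z δ := by
      change gam (F.c (0 + j) z) (F.S (0 + j) z) ((⟪F.n (0 + j) z, F.e (0 + j) z⟫_ℝ)⁻¹ •
        F.n (0 + j) z) (F.e (0 + j) z) δ = _
      rw [zero_add]; rfl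
    have e3 : (F.shift j).gR z δ = rf (F.n (j + 1) z) (F.gi (j + 1) z (rf (F.n (j + 1) z) δ)) := by
      change rf (F.n (1 + j) z) (gam (F.c (1 + 1 + j) z) (F.S (1 + 1 + j) z)
        ((⟪F.n (1 + 1 + j) z, F.e (1 + j) z⟫_ℝ)⁻¹ • F.n (1 + 1 + j) z) (F.e (1 + j) z)
        (rf (F.n (1 + j) z) δ)) = _
      rw [show 1 + 1 + j = j + 1 + 1 by ring, show 1 + j = j + 1 by ring]; rfl
    rw [e1, e2, e3] at h2
    exact h2
  obtain ⟨J, h⟩ := F.cj hz
  have key : ∀ k, ∀ v, ⟪v, J.u⟫_ℝ = 0 → (2 : ℝ) • J.G (k + 1) v = J.G (k + 2) v + J.G k v := by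
    intro k v hv
    have h1 : ⟪F.e k z, F.ufi z k v⟫_ℝ = 0 := by
      rw [← F.inner_uf hz k, F.uf_e hz, F.uf_ufi hz, ← h.u, real_inner_comm]; exact hv
    have h2 := congrArg (F.uf z k) (hg2 k _ h1)
    rw [F.uf_smul, F.uf_add, F.uf_gi hz] at h2
    have e1 : F.uf z k (rf (F.n (k + 1) z) (F.gi (k + 1) z (rf (F.n (k + 1) z) (F.ufi z k v)))) =
        F.uf z (k + 1) (F.gi (k + 1) z (F.ufi z (k + 1) v)) := rfl
    rw [e1, F.uf_gi hz (k + 1)] at h2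
    rw [h.G, h.G, h.G]
    exact h2
  have := J.sym_of_ap key v w
  rw [h.U, h.U] at this
  exact hne this

end Fam

end Pool.Agent.H721R2.Quart

end
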