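import Mathlib

set_option autoImplicit false

open MeasureTheory Set Filter Topology
open scoped InnerProductSpace

namespace Pool.Agent.H721R2.Quart

section G
variable {E : Type*} [NormedAddCommGroup E] [InnerProductSpace ℝ E] [FiniteDimensional ℝ E]

/-- G1 -/
theorem exists_hit {F : E → ℝ} {x0 v0 : E} {t0 : ℝ} (hF : ContDiffAt ℝ 3 F (x0 + t0 • v0))
    (h0 : F (x0 + t0 • v0) = 0) (ht : fderiv ℝ F (x0 + t0 • v0) v0 ≠ 0) :
    ∃ T : E × E → ℝ, ContDiffAt ℝ 3 T (x0, v0) ∧ T (x0, v0) = t0 ∧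
      (∀ᶠ p in 𝓝 (x0, v0), F (p.1 + T p • p.2) = 0) ∧
      (∀ᶠ q in 𝓝 ((x0, v0), t0), F (q.1.1 + q.2 • q.1.2) = 0 → q.2 = T q.1) := by
  have : CompleteSpace E := FiniteDimensional.complete ℝ E
  let g : (E × E) × ℝ → E := fun q => q.1.1 + q.2 • q.1.2
  let f : (E × E) × ℝ → ℝ := fun q => F (g q)
  let u : (E × E) × ℝ := ((x0, v0), t0)
  have hg : ContDiffAt ℝ 3 g u := by
    have h : ContDiff ℝ 3 g := by
      change ContDiff ℝ 3 (fun q : (E × E) × ℝ => q.1.1 + q.2 • q.1.2)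
      fun_prop
    exact h.contDiffAt
  have hgu : g u = x0 + t0 • v0 := rfl
  have cdf : ContDiffAt ℝ 3 f u := by
    have hF' : ContDiffAt ℝ 3 F (g u) := hF
    exact hF'.comp u hg
  have pn : (3 : WithTop ℕ∞) ≠ 0 := by norm_num
  have hd : ∀ s : ℝ, fderiv ℝ f u (0, s) = s * fderiv ℝ F (x0 + t0 • v0) v0 := by
    intro s
    have hFd : HasFDerivAt F (fderiv ℝ F (x0 + t0 • v0)) (x0 + t0 • v0) :=
      (hF.differentiableAt (by norm_num)).hasFDerivAt
    have hfd : HasFDerivAt f (fderiv ℝ f u) u := (cdf.differentiableAt (by norm_num)).hasFDerivAt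
    -- along the line `t ↦ ((x0, v0), t0 + t * s)`
    have hline : HasDerivAt (fun t : ℝ => (((x0, v0), t0 + t * s) : (E × E) × ℝ)) (0, s) 0 := by
      have h1 : HasDerivAt (fun t : ℝ => t0 + t * s) s 0 := by
        simpa using ((hasDerivAt_id (0 : ℝ)).mul_const s).const_add t0
      exact (hasDerivAt_const (0 : ℝ) ((x0, v0) : E × E)).prodMk h1
    have hu0 : (((x0, v0), t0 + 0 * s) : (E × E) × ℝ) = u := by simp [u]
    have h2 : HasDerivAt (fun t : ℝ => f ((x0, v0), t0 + t * s)) (fderiv ℝ f u (0, s)) 0 := by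
      have hfd' : HasFDerivAt f (fderiv ℝ f u) (((x0, v0), t0 + 0 * s) : (E × E) × ℝ) := by
        rw [hu0]; exact hfd
      exact hfd'.comp_hasDerivAt (0 : ℝ) hline
    have h3 : HasDerivAt (fun t : ℝ => F (x0 + (t0 + t * s) • v0))
        (fderiv ℝ F (x0 + t0 • v0) (s • v0)) 0 := by
      have h4 : HasDerivAt (fun t : ℝ => x0 + (t0 + t * s) • v0) (s • v0) 0 := by
        have h1 : HasDerivAt (fun t : ℝ => t0 + t * s) s 0 := by
          simpa using ((hasDerivAt_id (0 : ℝ)).mul_const s).const_add t0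
        exact (h1.smul_const v0).const_add x0
      have hFd' : HasFDerivAt F (fderiv ℝ F (x0 + t0 • v0)) (x0 + (t0 + 0 * s) • v0) := by
        rw [zero_mul, add_zero]; exact hFd
      exact hFd'.comp_hasDerivAt (0 : ℝ) h4
    have h5 := h2.unique h3
    rw [h5, map_smul, smul_eq_mul]
  have if₂ : (fderiv ℝ f u ∘L .inr ℝ (E × E) ℝ).IsInvertible := by
    refine ⟨ContinuousLinearEquiv.unitsEquivAut ℝ (Units.mk0 _ ht), ?_⟩
    ext
    simp [hd]
  refine ⟨cdf.implicitFunction pn if₂, cdf.contDiffAt_implicitFunction pn if₂,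
    cdf.implicitFunction_apply_self pn if₂, ?_, ?_⟩
  · filter_upwards [cdf.eventually_apply_implicitFunction pn if₂] with p hp
    have : f u = 0 := h0
    rw [this] at hp
    exact hp
  · filter_upwards [cdf.eventually_apply_eq_iff_implicitFunction pn if₂] with q hq hq0
    have hfu : f u = 0 := h0
    have h1 : f q = f u := by rw [hfu]; exact hq0
    exact (hq.1 h1).symm

end G

end Pool.Agent.H721R2.Quart
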