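import Pool.Agent.H721R2.Quart.Def

set_option autoImplicit false

open MeasureTheory Set Filter Topology
open scoped InnerProductSpace

namespace Pool.Agent.H721R2.Quart

section G
variable {E : Type*} [NormedAddCommGroup E] [InnerProductSpace ℝ E] [FiniteDimensional ℝ E]

/-- orthogonal projection along `n` -/
noncomputable def G2_P (n : E) : E →L[ℝ] E :=
  ContinuousLinearMap.id ℝ E - (innerSL ℝ n).smulRight n

theorem G2_P_apply (n v : E) : G2_P n v = v - ⟪n, v⟫_ℝ • n := by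
  simp [G2_P]

theorem G2_P_symm (n v w : E) : ⟪G2_P n v, w⟫_ℝ = ⟪v, G2_P n w⟫_ℝ := by
  rw [G2_P_apply, G2_P_apply, inner_sub_left, inner_sub_right, inner_smul_left, inner_smul_right,
    real_inner_comm v n]
  simp only [conj_trivial]
  ring

theorem G2_dir_inner {v : E} (hv : v ≠ 0) : ⟪dir v, dir v⟫_ℝ = 1 := by
  have h : ‖v‖ ≠ 0 := norm_ne_zero_iff.2 hv
  unfold dir
  rw [inner_smul_left, inner_smul_right, real_inner_self_eq_norm_sq]
  simp only [conj_trivial]
  field_simp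

theorem G2_grad_eq (F : E → ℝ) : gradient F = fun x => (InnerProductSpace.toDual ℝ E).symm (fderiv ℝ F x) :=
  rfl

theorem G2_contDiff_grad {F : E → ℝ} {q : E} (hF : ContDiffAt ℝ 3 F q) :
    ContDiffAt ℝ 2 (gradient F) q := by
  rw [G2_grad_eq]
  have h1 : ContDiffAt ℝ 2 (fderiv ℝ F) q := hF.fderiv_right (by norm_num)
  exact ((InnerProductSpace.toDual ℝ E).symm.contDiff.contDiffAt).comp q h1

theorem G2_contDiff_nu {F : E → ℝ} {q : E} (hF : ContDiffAt ℝ 3 F q) (hg : gradient F q ≠ 0) :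
    ContDiffAt ℝ 2 (fun x => dir (gradient F x)) q := by
  have h1 := G2_contDiff_grad hF
  unfold dir
  exact ((h1.norm ℝ hg).inv (norm_ne_zero_iff.2 hg)).smul h1

/-- the basic formula -/
theorem G2_key {F : E → ℝ} {x : E} (hF : ContDiffAt ℝ 3 F x) (hg : gradient F x ≠ 0) {b : E}
    (hb : ⟪dir (gradient F x), b⟫_ℝ = 0) (a : E) :
    ⟪fderiv ℝ (fun y => dir (gradient F y)) x a, b⟫_ℝ =
      ‖gradient F x‖⁻¹ * fderiv ℝ (fderiv ℝ F) x a b := by
  have hn : ‖gradient F x‖ ≠ 0 := norm_ne_zero_iff.2 hg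
  have hb' : fderiv ℝ F x b = 0 := by
    unfold dir at hb
    rw [inner_smul_left, inner_gradient_left] at hb
    simp only [conj_trivial] at hb
    rcases mul_eq_zero.1 hb with h | h
    · exact absurd h (inv_ne_zero hn)
    · exact h
  have hνd : DifferentiableAt ℝ (fun y => dir (gradient F y)) x :=
    (G2_contDiff_nu hF hg).differentiableAt (by norm_num)
  have hfd : DifferentiableAt ℝ (fderiv ℝ F) x :=
    (hF.fderiv_right (m := 2) (by norm_num)).differentiableAt (by norm_num)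
  have hgd : DifferentiableAt ℝ (fun y => ‖gradient F y‖⁻¹) x :=
    (((G2_contDiff_grad hF).norm ℝ hg).inv hn).differentiableAt (by norm_num)
  have h1 : HasFDerivAt (fun y => ⟪dir (gradient F y), b⟫_ℝ)
      ((innerSL ℝ b).comp (fderiv ℝ (fun y => dir (gradient F y)) x)) x := by
    have h2 := ((innerSL ℝ b).hasFDerivAt (x := dir (gradient F x))).comp x hνd.hasFDerivAt
    refine h2.congr_of_eventuallyEq (Eventually.of_forall fun y => ?_)
    simp only [Function.comp_apply, innerSL_apply_apply]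
    exact real_inner_comm _ _
  have h3 : HasFDerivAt (fun y => ‖gradient F y‖⁻¹ * fderiv ℝ F y b)
      (‖gradient F x‖⁻¹ • ((fderiv ℝ (fderiv ℝ F) x).flip b) +
        (fderiv ℝ F x b) • fderiv ℝ (fun y => ‖gradient F y‖⁻¹) x) x := by
    have h4 : HasFDerivAt (fun y => fderiv ℝ F y b) ((fderiv ℝ (fderiv ℝ F) x).flip b) x := by
      have := hfd.hasFDerivAt.clm_apply (hasFDerivAt_const b x)
      simpa using this
    exact hgd.hasFDerivAt.mul h4
  have h5 : (fun y => ⟪dir (gradient F y), b⟫_ℝ) =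
      fun y => ‖gradient F y‖⁻¹ * fderiv ℝ F y b := by
    funext y
    unfold dir
    rw [inner_smul_left, inner_gradient_left]
    simp
  rw [h5] at h1
  have h6 := congrArg (fun T : E →L[ℝ] ℝ => T a) (h1.unique h3)
  simp only [ContinuousLinearMap.comp_apply, innerSL_apply_apply, ContinuousLinearMap.add_apply,
    ContinuousLinearMap.smul_apply, ContinuousLinearMap.flip_apply, hb', zero_smul, add_zero,
    smul_eq_mul] at h6
  rw [real_inner_comm]
  simpa using h6

/-- G2 -/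
theorem exists_mirror {F : E → ℝ} {q : E} (hF : ContDiffAt ℝ 3 F q) (hg : gradient F q ≠ 0) :
    ∃ (ν : E → E) (σ : E → E →L[ℝ] E), ContDiffAt ℝ 2 ν q ∧ ContDiffAt ℝ 1 σ q ∧
      ∀ᶠ x in 𝓝 q, gradient F x ≠ 0 ∧ ν x = dir (gradient F x) ∧ ⟪ν x, ν x⟫_ℝ = 1 ∧
        (∀ v w, ⟪σ x v, w⟫_ℝ = ⟪v, σ x w⟫_ℝ) ∧ σ x (ν x) = 0 ∧
        (∀ X, ⟪ν x, X⟫_ℝ = 0 → fderiv ℝ ν x X = -σ x X) := by
  let ν : E → E := fun x => dir (gradient F x)
  have hν : ContDiffAt ℝ 2 ν q := G2_contDiff_nu hF hg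
  have hP : ContDiffAt ℝ 2 (fun x => G2_P (ν x)) q := by
    unfold G2_P
    exact contDiffAt_const.sub (((innerSL ℝ).contDiff.contDiffAt.comp q hν).smulRight hν)
  have hP1 : ContDiffAt ℝ 1 (fun x => G2_P (ν x)) q := hP.of_le (by norm_num)
  have hd : ContDiffAt ℝ 1 (fderiv ℝ ν) q := hν.fderiv_right (by norm_num)
  refine ⟨ν, fun x => -((G2_P (ν x)).comp ((fderiv ℝ ν x).comp (G2_P (ν x)))), hν,
    (hP1.clm_comp (hd.clm_comp hP1)).neg, ?_⟩
  have hgc : ContinuousAt (gradient F) q := (G2_contDiff_grad hF).continuousAt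
  filter_upwards [hF.eventually (by simp), hgc.eventually_ne hg] with x hFx hgx
  have hνx : ν x = dir (gradient F x) := rfl
  have h1 : ⟪ν x, ν x⟫_ℝ = 1 := G2_dir_inner hgx
  have hPperp : ∀ v, ⟪ν x, G2_P (ν x) v⟫_ℝ = 0 := by
    intro v
    rw [G2_P_apply, inner_sub_right, inner_smul_right, h1]
    ring
  have hνd : DifferentiableAt ℝ ν x := (G2_contDiff_nu hFx hgx).differentiableAt (by norm_num)
  refine ⟨hgx, rfl, h1, ?_, ?_, ?_⟩
  · intro v w
    simp only [ContinuousLinearMap.neg_apply, ContinuousLinearMap.comp_apply, inner_neg_left,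
      inner_neg_right]
    rw [G2_P_symm, ← G2_P_symm (ν x) v]
    rw [G2_key hFx hgx (hPperp w), real_inner_comm, G2_key hFx hgx (hPperp v)]
    have hsymm := hFx.isSymmSndFDerivAt (by simp; norm_num)
    rw [hsymm.eq]
  · have h2 : G2_P (ν x) (ν x) = 0 := by
      rw [G2_P_apply, h1, one_smul, sub_self]
    simp [h2]
  · intro X hX
    have h2 : G2_P (ν x) X = X := by
      rw [G2_P_apply, hX, zero_smul, sub_zero]
    have h3 : ⟪ν x, fderiv ℝ ν x X⟫_ℝ = 0 := by
      have h4 : ∀ᶠ y in 𝓝 x, ⟪ν y, ν y⟫_ℝ = 1 := by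
        have hgcx : ContinuousAt (gradient F) x := (G2_contDiff_grad hFx).continuousAt
        filter_upwards [hgcx.eventually_ne hgx] with y hy
        exact G2_dir_inner hy
      have h5 : HasFDerivAt (fun y => ⟪ν y, ν y⟫_ℝ) (0 : E →L[ℝ] ℝ) x :=
        (hasFDerivAt_const (1 : ℝ) x).congr_of_eventuallyEq h4
      have h6 := hνd.hasFDerivAt.inner ℝ hνd.hasFDerivAt
      have h7 := congrArg (fun T : E →L[ℝ] ℝ => T X) (h6.unique h5)
      simp only [ContinuousLinearMap.comp_apply, ContinuousLinearMap.prod_apply,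
        fderivInnerCLM_apply, ContinuousLinearMap.zero_apply] at h7
      rw [real_inner_comm (ν x)] at h7
      linarith
    simp only [ContinuousLinearMap.neg_apply, ContinuousLinearMap.comp_apply, neg_neg]
    rw [h2, G2_P_apply, h3, zero_smul, sub_zero]

end G

end Pool.Agent.H721R2.Quart
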