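import Pool.Agent.H721R2.Quart.A1

set_option autoImplicit false

open MeasureTheory Set Filter Topology
open scoped InnerProductSpace

namespace Pool.Agent.H721R2.Quart

section G3
variable {E : Type*} [NormedAddCommGroup E] [InnerProductSpace ℝ E]

theorem G3_per {P : ℕ → Prop} (h0 : P 0) (h1 : P 1) (h2 : P 2) (h3 : P 3)
    (hs : ∀ k, P k → P (k + 4)) : ∀ k, P k := by
  intro k
  induction k using Nat.strong_induction_on with
  | _ k ih =>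
    rcases lt_or_ge k 4 with h | h
    · interval_cases k <;> assumption
    · obtain ⟨j, rfl⟩ : ∃ j, k = j + 4 := ⟨k - 4, by omega⟩
      exact hs j (ih j (by omega))

theorem G3_rf_add (n v w : E) : rf n (v + w) = rf n v + rf n w := by
  unfold rf
  rw [inner_add_right]
  module

theorem G3_rf_sub (n v w : E) : rf n (v - w) = rf n v - rf n w := by
  unfold rf
  rw [inner_sub_right]
  module

theorem G3_rf_smul (n : E) (a : ℝ) (v : E) : rf n (a • v) = a • rf n v := by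
  unfold rf
  rw [inner_smul_right]
  module

theorem G3_rf_invol {n : E} (hn : ⟪n, n⟫_ℝ = 1) (v : E) : rf n (rf n v) = v := by
  unfold rf
  rw [inner_sub_right, inner_smul_right, hn]
  module

theorem G3_rf_inner {n : E} (hn : ⟪n, n⟫_ℝ = 1) (v w : E) :
    ⟪rf n v, rf n w⟫_ℝ = ⟪v, w⟫_ℝ := by
  unfold rf
  simp only [inner_sub_left, inner_sub_right, inner_smul_left, inner_smul_right, hn,
    real_inner_comm n v]
  simp only [conj_trivial]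
  ring

theorem G3_rf_sym (n v w : E) : ⟪rf n v, w⟫_ℝ = ⟪v, rf n w⟫_ℝ := by
  unfold rf
  simp only [inner_sub_left, inner_sub_right, inner_smul_left, inner_smul_right,
    conj_trivial]
  rw [real_inner_comm n v]
  ring

theorem G3_rf_tan {n v : E} (h : ⟪n, v⟫_ℝ = 0) : rf n v = v := by
  unfold rf
  rw [h]; simp

/-- the linear algebra of the pivots -/
theorem G3_piv {Z : Type*} (e n : ℕ → E) (L : ℕ → ℝ) (S : ℕ → E → E) (X D : ℕ → Z → E)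
    (ℓ : ℕ → Z → ℝ) (he : ∀ k, ⟪e k, e k⟫_ℝ = 1) (hn : ∀ k, ⟪n k, n k⟫_ℝ = 1)
    (hL : ∀ k, 0 < L k) (hrefl : ∀ k, e (k + 1) = rf (n (k + 1)) (e k))
    (htr : ∀ k, ⟪n k, e k⟫_ℝ ≠ 0) (hsym : ∀ k v w, ⟪S k v, w⟫_ℝ = ⟪v, S k w⟫_ℝ)
    (hSn : ∀ k, S k (n k) = 0) (hD : ∀ k ζ, ⟪e k, D k ζ⟫_ℝ = 0) (hX : ∀ k ζ, ⟪n k, X k ζ⟫_ℝ = 0)
    (hstep : ∀ k ζ, X (k + 1) ζ = X k ζ + ℓ k ζ • e k + L k • D k ζ)
    (hrj : ∀ k ζ, D (k + 1) ζ = rf (n (k + 1)) (D k ζ)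
      - (2 * ⟪-S (k + 1) (X (k + 1) ζ), e k⟫_ℝ) • n (k + 1)
      - (2 * ⟪n (k + 1), e k⟫_ℝ) • (-S (k + 1) (X (k + 1) ζ)))
    (hsurj : ∀ A B, ⟪n 1, A⟫_ℝ = 0 → ⟪n 2, B⟫_ℝ = 0 → ∃ ζ, X 1 ζ = A ∧ X 2 ζ = B)
    (pe : ∀ k, e (k + 4) = e k) (pX : ∀ k, X (k + 4) = X k) (pD : ∀ k, D (k + 4) = D k) :
    ∀ k δ, ⟪e k, δ⟫_ℝ = 0 → ∃ ζ, X (k + 1) ζ = 0 ∧ D k ζ = δ := by
  have htr' : ∀ k, ⟪n (k + 1), e k⟫_ℝ ≠ 0 := by
    intro k h
    apply htr (k + 1)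
    rw [hrefl k]
    unfold rf
    rw [inner_sub_right, inner_smul_right, h]
    simp
  -- completion and uniqueness
  have comp : ∀ (n e Y : E), ⟪n, e⟫_ℝ ≠ 0 → ⟪e, e⟫_ℝ = 1 → ⟪e, Y⟫_ℝ = 0 →
      ∃ X : E, ⟪n, X⟫_ℝ = 0 ∧ X - ⟪e, X⟫_ℝ • e = Y := by
    intro n e Y h1 h2 h3
    refine ⟨Y - (⟪n, Y⟫_ℝ / ⟪n, e⟫_ℝ) • e, ?_, ?_⟩
    · rw [inner_sub_right, inner_smul_right, div_mul_cancel₀ _ h1, sub_self]
    · rw [inner_sub_right, inner_smul_right, h2, h3]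
      module
  have uniq : ∀ (n e X X' : E), ⟪n, e⟫_ℝ ≠ 0 → ⟪n, X⟫_ℝ = 0 → ⟪n, X'⟫_ℝ = 0 →
      X - ⟪e, X⟫_ℝ • e = X' - ⟪e, X'⟫_ℝ • e → X = X' := by
    intro n e X X' h1 h2 h3 h4
    have h5 : X - X' = (⟪e, X⟫_ℝ - ⟪e, X'⟫_ℝ) • e := by
      rw [sub_smul]
      have := congrArg (fun v => v - X' + ⟪e, X⟫_ℝ • e) h4
      have e1 : X - ⟪e, X⟫_ℝ • e - X' + ⟪e, X⟫_ℝ • e = X - X' := by abel
      have e2 : X' - ⟪e, X'⟫_ℝ • e - X' + ⟪e, X⟫_ℝ • e = ⟪e, X⟫_ℝ • e - ⟪e, X'⟫_ℝ • e := by abel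
      rw [← e1, this, e2]
    have h6 : ⟪n, X - X'⟫_ℝ = 0 := by rw [inner_sub_right, h2, h3, sub_self]
    rw [h5, inner_smul_right] at h6
    have h7 : ⟪e, X⟫_ℝ - ⟪e, X'⟫_ℝ = 0 := by
      rcases mul_eq_zero.1 h6 with h | h
      · exact h
      · exact absurd h h1
    rw [h7, zero_smul] at h5
    exact sub_eq_zero.1 h5
  -- the component orthogonal to the side
  have hperp : ∀ k ζ, X (k + 1) ζ - ⟪e k, X (k + 1) ζ⟫_ℝ • e k =
      (X k ζ - ⟪e k, X k ζ⟫_ℝ • e k) + L k • D k ζ := by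
    intro k ζ
    rw [hstep k ζ]
    simp only [inner_add_right, inner_smul_right, he, hD]
    module
  have hnext : ∀ k ζ, X (k + 1) ζ - ⟪e (k + 1), X (k + 1) ζ⟫_ℝ • e (k + 1) =
      rf (n (k + 1)) (X (k + 1) ζ - ⟪e k, X (k + 1) ζ⟫_ℝ • e k) := by
    intro k ζ
    have h1 : ⟪e (k + 1), X (k + 1) ζ⟫_ℝ = ⟪e k, X (k + 1) ζ⟫_ℝ := by
      rw [hrefl k, G3_rf_sym, G3_rf_tan (hX _ _)]
    rw [h1, G3_rf_sub, G3_rf_smul, G3_rf_tan (hX _ _), ← hrefl k]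
  -- surjectivity on the sides
  have base : ∀ Y Dd, ⟪e 1, Y⟫_ℝ = 0 → ⟪e 1, Dd⟫_ℝ = 0 →
      ∃ ζ, X 1 ζ - ⟪e 1, X 1 ζ⟫_ℝ • e 1 = Y ∧ D 1 ζ = Dd := by
    intro Y Dd hY hDd
    obtain ⟨A, hA1, hA2⟩ := comp (n 1) (e 1) Y (htr 1) (he 1) hY
    obtain ⟨B, hB1, hB2⟩ := comp (n 2) (e 1) (Y + L 1 • Dd) (htr' 1) (he 1) (by
      rw [inner_add_right, inner_smul_right, hY, hDd]; simp)
    obtain ⟨ζ, hζ1, hζ2⟩ := hsurj A B hA1 hB1
    refine ⟨ζ, by rw [hζ1, hA2], ?_⟩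
    have h1 := hperp 1 ζ
    rw [hζ1, hA2] at h1
    have h2 : X (1 + 1) ζ = B := hζ2
    rw [h2, hB2] at h1
    have h3 := add_left_cancel h1
    exact (smul_right_injective E (hL 1).ne' h3).symm
  have ind : ∀ k, (∀ Y Dd, ⟪e k, Y⟫_ℝ = 0 → ⟪e k, Dd⟫_ℝ = 0 →
      ∃ ζ, X k ζ - ⟪e k, X k ζ⟫_ℝ • e k = Y ∧ D k ζ = Dd) →
      (∀ Y Dd, ⟪e (k + 1), Y⟫_ℝ = 0 → ⟪e (k + 1), Dd⟫_ℝ = 0 →
      ∃ ζ, X (k + 1) ζ - ⟪e (k + 1), X (k + 1) ζ⟫_ℝ • e (k + 1) = Y ∧ D (k + 1) ζ = Dd) := by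
    intro k hk Y' D' hY' hD'
    have hYm : ⟪e k, rf (n (k + 1)) Y'⟫_ℝ = 0 := by
      rw [← G3_rf_sym, ← hrefl k]; exact hY'
    obtain ⟨A, hA1, hA2⟩ := comp (n (k + 1)) (e k) (rf (n (k + 1)) Y') (htr' k) (he k) hYm
    have hNn : ⟪-S (k + 1) A, n (k + 1)⟫_ℝ = 0 := by
      rw [inner_neg_left, hsym, hSn, inner_zero_right, neg_zero]
    set N := -S (k + 1) A with hN
    set DD := rf (n (k + 1)) (D' + (2 * ⟪N, e k⟫_ℝ) • n (k + 1) + (2 * ⟪n (k + 1), e k⟫_ℝ) • N)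
      with hDD
    have hDDe : ⟪e k, DD⟫_ℝ = 0 := by
      rw [hDD, ← G3_rf_sym, ← hrefl k, inner_add_right, inner_add_right, hD', inner_smul_right,
        inner_smul_right]
      have h1 : ⟪e (k + 1), n (k + 1)⟫_ℝ = -⟪n (k + 1), e k⟫_ℝ := by
        rw [hrefl k, real_inner_comm]
        unfold rf
        rw [inner_sub_right, inner_smul_right, hn]
        ring
      have h2 : ⟪e (k + 1), N⟫_ℝ = ⟪N, e k⟫_ℝ := by
        rw [hrefl k, real_inner_comm]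
        unfold rf
        rw [inner_sub_right, inner_smul_right, hNn]
        ring
      rw [h1, h2]
      ring
    obtain ⟨ζ, hζ1, hζ2⟩ := hk (rf (n (k + 1)) Y' - L k • DD) DD (by
      rw [inner_sub_right, inner_smul_right, hYm, hDDe]; simp) hDDe
    have hp := hperp k ζ
    rw [hζ1, hζ2, sub_add_cancel] at hp
    have hXA : X (k + 1) ζ = A := uniq (n (k + 1)) (e k) _ _ (htr' k) (hX _ _) hA1 (by
      rw [hp, hA2])
    refine ⟨ζ, ?_, ?_⟩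
    · rw [hnext, hp, G3_rf_invol (hn _)]
    · rw [hrj k ζ, hXA, hζ2, ← hN, hDD, G3_rf_invol (hn _)]
      abel
  have all : ∀ k, 1 ≤ k → ∀ Y Dd, ⟪e k, Y⟫_ℝ = 0 → ⟪e k, Dd⟫_ℝ = 0 →
      ∃ ζ, X k ζ - ⟪e k, X k ζ⟫_ℝ • e k = Y ∧ D k ζ = Dd := by
    intro k hk
    induction k, hk using Nat.le_induction with
    | base => exact base
    | succ k _ ih => exact ind k ih
  have all' : ∀ k, ∀ Y Dd, ⟪e k, Y⟫_ℝ = 0 → ⟪e k, Dd⟫_ℝ = 0 →
      ∃ ζ, X k ζ - ⟪e k, X k ζ⟫_ℝ • e k = Y ∧ D k ζ = Dd := by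
    intro k
    have := all (k + 4) (by omega)
    rw [pe, pX, pD] at this
    exact this
  intro k δ hδ
  obtain ⟨ζ, h1, h2⟩ := all' k (-(L k • δ)) δ (by
    rw [inner_neg_right, inner_smul_right, hδ]; simp) hδ
  refine ⟨ζ, ?_, h2⟩
  have hp := hperp k ζ
  rw [h1, h2, neg_add_cancel] at hp
  apply uniq (n (k + 1)) (e k) _ _ (htr' k) (hX _ _) (inner_zero_right _)
  rw [hp]; simp

variable {Z : Type*} [NormedAddCommGroup Z] [NormedSpace ℝ Z]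

theorem G3_rf_diff {n v : Z → E} {z : Z} (hn : DifferentiableAt ℝ n z)
    (hv : DifferentiableAt ℝ v z) : DifferentiableAt ℝ (fun z => rf (n z) (v z)) z := by
  unfold rf
  exact hv.sub (((hn.inner ℝ hv).const_mul 2).smul hn)

theorem G3_rf_fderiv {n v : Z → E} {z : Z} (hn : DifferentiableAt ℝ n z)
    (hv : DifferentiableAt ℝ v z) (ζ : Z) : fderiv ℝ (fun z => rf (n z) (v z)) z ζ =
      rf (n z) (fderiv ℝ v z ζ) - (2 * ⟪fderiv ℝ n z ζ, v z⟫_ℝ) • n z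
        - (2 * ⟪n z, v z⟫_ℝ) • fderiv ℝ n z ζ := by
  have h1 := (hn.hasFDerivAt.inner ℝ hv.hasFDerivAt)
  have h2 := hv.hasFDerivAt.sub ((h1.const_mul 2).smul hn.hasFDerivAt)
  have h3 : (fun z => rf (n z) (v z)) = (v - (fun z => 2 * ⟪n z, v z⟫_ℝ) • n) := by
    funext z; rfl
  rw [h3, h2.fderiv]
  simp only [sub_apply, add_apply,
    smul_apply, ContinuousLinearMap.smulRight_apply,
    ContinuousLinearMap.comp_apply, ContinuousLinearMap.prod_apply, fderivInnerCLM_apply, rf,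
    smul_eq_mul]
  module

/-- the value of the derivative of `⟪e, e⟫ = 1` -/
theorem G3_unit {e : Z → E} {z : Z} {U : Set Z} (hU : IsOpen U) (hz : z ∈ U)
    (he : DifferentiableAt ℝ e z) (h1 : ∀ z ∈ U, ⟪e z, e z⟫_ℝ = 1) (ζ : Z) :
    ⟪e z, fderiv ℝ e z ζ⟫_ℝ = 0 := by
  have h2 := he.hasFDerivAt.inner ℝ he.hasFDerivAt
  have h3 : (fun z => ⟪e z, e z⟫_ℝ) =ᶠ[𝓝 z] fun _ => (1 : ℝ) := by
    filter_upwards [hU.mem_nhds hz] with y hy using h1 y hy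
  have h4 : fderiv ℝ (fun z => ⟪e z, e z⟫_ℝ) z = 0 := by
    rw [h3.fderiv_eq]; simp
  rw [h2.fderiv] at h4
  have h5 := congrArg (fun f => f ζ) h4
  simp only [ContinuousLinearMap.comp_apply, ContinuousLinearMap.prod_apply, fderivInnerCLM_apply,
    zero_apply] at h5
  rw [real_inner_comm (e z) (fderiv ℝ e z ζ)] at h5
  linarith

theorem G3_step {x x' e : Z → E} {L : Z → ℝ} {z : Z} {U : Set Z} (hU : IsOpen U) (hz : z ∈ U)
    (hx : DifferentiableAt ℝ x z) (he : DifferentiableAt ℝ e z) (hL : DifferentiableAt ℝ L z)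
    (h1 : ∀ z ∈ U, x' z = x z + L z • e z) (ζ : Z) :
    fderiv ℝ x' z ζ = fderiv ℝ x z ζ + fderiv ℝ L z ζ • e z + L z • fderiv ℝ e z ζ := by
  have h2 := hx.hasFDerivAt.add (hL.hasFDerivAt.smul he.hasFDerivAt)
  have h3 : x' =ᶠ[𝓝 z] (x + L • e) := by
    filter_upwards [hU.mem_nhds hz] with y hy using h1 y hy
  rw [h3.fderiv_eq, h2.fderiv]
  simp only [add_apply, smul_apply,
    ContinuousLinearMap.smulRight_apply]
  abel

end G3

section G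
variable {E : Type*} [NormedAddCommGroup E] [InnerProductSpace ℝ E] [FiniteDimensional ℝ E]

/-- G3 -/
theorem Raw.exists_fam {Z : Type*} [NormedAddCommGroup Z] [NormedSpace ℝ Z]
    [FiniteDimensional ℝ Z] [MeasurableSpace Z] [BorelSpace Z] (R : Raw E Z) (μ : Measure Z)
    [μ.IsAddHaarMeasure] :
    ∃ F : Fam E Z, F.A ⊆ R.A ∧ MeasurableSet F.A ∧ μ (R.A \ F.A) = 0 := by
  obtain ⟨f3, hf3d⟩ : ∃ f3 : Z → E, f3 = fun z => R.e 3 z - rf (R.n 3 z) (R.e 2 z) := ⟨_, rfl⟩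
  obtain ⟨f0, hf0d⟩ : ∃ f0 : Z → E, f0 = fun z => R.e 0 z - rf (R.n 0 z) (R.e 3 z) := ⟨_, rfl⟩
  have hf3 : ∀ z ∈ R.U, DifferentiableAt ℝ f3 z := by
    intro z hz
    rw [hf3d]
    exact (R.de 3 z hz).sub (G3_rf_diff (R.dn 3 z hz) (R.de 2 z hz))
  have hf0 : ∀ z ∈ R.U, DifferentiableAt ℝ f0 z := by
    intro z hz
    rw [hf0d]
    exact (R.de 0 z hz).sub (G3_rf_diff (R.dn 0 z hz) (R.de 3 z hz))
  have hmeas : ∀ f : Z → E, (∀ z ∈ R.U, DifferentiableAt ℝ f z) →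
      MeasurableSet (R.U ∩ f ⁻¹' {0}) := by
    intro f hf
    have hc : ContinuousOn f R.U := fun z hz => (hf z hz).continuousAt.continuousWithinAt
    have ho := hc.isOpen_inter_preimage R.hU (isOpen_compl_singleton (x := (0 : E)))
    have he : R.U ∩ f ⁻¹' {0} = R.U \ (R.U ∩ f ⁻¹' {0}ᶜ) := by
      ext z; simp only [mem_inter_iff, mem_preimage, mem_singleton_iff, Set.mem_sdiff, mem_compl_iff]
      tauto
    rw [he]
    exact R.hU.measurableSet.diff ho.measurableSet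
  have hAmeas : MeasurableSet R.A := by
    have hA : R.A = (R.U ∩ f3 ⁻¹' {0}) ∩ (R.U ∩ f0 ⁻¹' {0}) := by
      ext z
      simp only [Raw.A, mem_ofPred_eq, mem_inter_iff, mem_preimage, mem_singleton_iff, hf3d, hf0d,
        sub_eq_zero]
      tauto
    rw [hA]
    exact (hmeas f3 hf3).inter (hmeas f0 hf0)
  obtain ⟨B1, hB1, hB1m, hB1z, hB1d⟩ := ae_zero μ hAmeas (f := f3) (fun z hz => hf3 z hz.1)
  obtain ⟨B2, hB2, hB2m, hB2z, hB2d⟩ := ae_zero μ hB1m (f := f0) (fun z hz => hf0 z (hB1 hz).1)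
  have hsub : B2 ⊆ R.A := hB2.trans hB1
  have hU : ∀ z ∈ B2, z ∈ R.U := fun z hz => (hsub hz).1
  have hrefl : ∀ k, ∀ z ∈ B2, R.e (k + 1) z = rf (R.n (k + 1) z) (R.e k z) := by
    apply G3_per
    · exact fun z hz => R.refl1 z (hU z hz)
    · exact fun z hz => R.refl2 z (hU z hz)
    · exact fun z hz => (hsub hz).2.1
    · intro z hz
      have h1 : R.e 4 = R.e 0 := R.pe 0
      have h2 : R.n 4 = R.n 0 := R.pn 0
      show R.e 4 z = rf (R.n 4 z) (R.e 3 z)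
      rw [h1, h2]
      exact (hsub hz).2.2
    · intro k hk z hz
      have := hk z hz
      rw [show k + 4 + 1 = k + 1 + 4 by omega, R.pe, R.pn, R.pe]
      exact this
  have hrj : ∀ k, ∀ z ∈ B2, ∀ ζ, fderiv ℝ (R.e (k + 1)) z ζ =
      rf (R.n (k + 1) z) (fderiv ℝ (R.e k) z ζ)
      - (2 * ⟪fderiv ℝ (R.n (k + 1)) z ζ, R.e k z⟫_ℝ) • R.n (k + 1) z
      - (2 * ⟪R.n (k + 1) z, R.e k z⟫_ℝ) • fderiv ℝ (R.n (k + 1)) z ζ := by
    apply G3_per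
    · intro z hz ζ
      have h1 : R.e 1 =ᶠ[𝓝 z] fun z => rf (R.n 1 z) (R.e 0 z) := by
        filter_upwards [R.hU.mem_nhds (hU z hz)] with y hy using R.refl1 y hy
      show fderiv ℝ (R.e 1) z ζ = _
      rw [h1.fderiv_eq]
      exact G3_rf_fderiv (R.dn 1 z (hU z hz)) (R.de 0 z (hU z hz)) ζ
    · intro z hz ζ
      have h1 : R.e 2 =ᶠ[𝓝 z] fun z => rf (R.n 2 z) (R.e 1 z) := by
        filter_upwards [R.hU.mem_nhds (hU z hz)] with y hy using R.refl2 y hy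
      show fderiv ℝ (R.e 2) z ζ = _
      rw [h1.fderiv_eq]
      exact G3_rf_fderiv (R.dn 2 z (hU z hz)) (R.de 1 z (hU z hz)) ζ
    · intro z hz ζ
      have h0 : fderiv ℝ f3 z = 0 := hB1d z (hB2 hz) (by
        rw [hf3d]; exact sub_eq_zero.2 (hsub hz).2.1)
      have h1 : HasFDerivAt f3 (fderiv ℝ (R.e 3) z -
          fderiv ℝ (fun z => rf (R.n 3 z) (R.e 2 z)) z) z := by
        rw [hf3d]
        exact (R.de 3 z (hU z hz)).hasFDerivAt.sub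
          (G3_rf_diff (R.dn 3 z (hU z hz)) (R.de 2 z (hU z hz))).hasFDerivAt
      rw [h1.fderiv, sub_eq_zero] at h0
      show fderiv ℝ (R.e 3) z ζ = _
      rw [h0]
      exact G3_rf_fderiv (R.dn 3 z (hU z hz)) (R.de 2 z (hU z hz)) ζ
    · intro z hz ζ
      have h0 : fderiv ℝ f0 z = 0 := hB2d z hz (by
        rw [hf0d]; exact sub_eq_zero.2 (hsub hz).2.2)
      have h1 : HasFDerivAt f0 (fderiv ℝ (R.e 0) z -
          fderiv ℝ (fun z => rf (R.n 0 z) (R.e 3 z)) z) z := by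
        rw [hf0d]
        exact (R.de 0 z (hU z hz)).hasFDerivAt.sub
          (G3_rf_diff (R.dn 0 z (hU z hz)) (R.de 3 z (hU z hz))).hasFDerivAt
      rw [h1.fderiv, sub_eq_zero] at h0
      have e4 : R.e 4 = R.e 0 := R.pe 0
      have n4 : R.n 4 = R.n 0 := R.pn 0
      show fderiv ℝ (R.e 4) z ζ = rf (R.n 4 z) (fderiv ℝ (R.e 3) z ζ)
        - (2 * ⟪fderiv ℝ (R.n 4) z ζ, R.e 3 z⟫_ℝ) • R.n 4 z
        - (2 * ⟪R.n 4 z, R.e 3 z⟫_ℝ) • fderiv ℝ (R.n 4) z ζ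
      rw [e4, n4, h0]
      exact G3_rf_fderiv (R.dn 0 z (hU z hz)) (R.de 3 z (hU z hz)) ζ
    · intro k hk z hz ζ
      have := hk z hz ζ
      rw [show k + 4 + 1 = k + 1 + 4 by omega, R.pe, R.pn, R.pe]
      exact this
  have hej : ∀ k, ∀ z ∈ B2, ∀ ζ, ⟪R.e k z, fderiv ℝ (R.e k) z ζ⟫_ℝ = 0 := fun k z hz ζ =>
    G3_unit R.hU (hU z hz) (R.de k z (hU z hz)) (R.ee k) ζ
  have hsj : ∀ k, ∀ z ∈ B2, ∀ ζ, fderiv ℝ (R.x (k + 1)) z ζ =
      fderiv ℝ (R.x k) z ζ + fderiv ℝ (R.L k) z ζ • R.e k z + R.L k z • fderiv ℝ (R.e k) z ζ :=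
    fun k z hz ζ => G3_step R.hU (hU z hz) (R.dx k z (hU z hz)) (R.de k z (hU z hz))
      (R.dL k z (hU z hz)) (R.step k) ζ
  refine ⟨{ A := B2, x := R.x, e := R.e, n := R.n, L := R.L, S := R.S
            px := R.px, pe := R.pe, pn := R.pn, pL := R.pL, pS := R.pS
            dx := fun k z hz => R.dx k z (hU z hz)
            de := fun k z hz => R.de k z (hU z hz)
            dn := fun k z hz => R.dn k z (hU z hz)
            dL := fun k z hz => R.dL k z (hU z hz)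
            dS := fun k z hz => R.dS k z (hU z hz)
            Lpos := fun k z hz => R.Lpos k z (hU z hz)
            ee := fun k z hz => R.ee k z (hU z hz)
            nn := fun k z hz => R.nn k z (hU z hz)
            step := fun k z hz => R.step k z (hU z hz)
            refl := hrefl
            tr := fun k z hz => R.tr k z (hU z hz)
            sym := fun k z hz => R.sym k z (hU z hz)
            Sn := fun k z hz => R.Sn k z (hU z hz)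
            ejac := hej
            tan := fun k z hz => R.tan k z (hU z hz)
            njac := fun k z hz => R.njac k z (hU z hz)
            Sjac := fun k z hz => R.Sjac k z (hU z hz)
            stepjac := hsj
            refljac := hrj
            piv := ?_ }, hsub, hB2m, ?_⟩
  · intro k z hz
    exact G3_piv (fun k => R.e k z) (fun k => R.n k z) (fun k => R.L k z)
      (fun k v => R.S k z v) (fun k ζ => fderiv ℝ (R.x k) z ζ) (fun k ζ => fderiv ℝ (R.e k) z ζ)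
      (fun k ζ => fderiv ℝ (R.L k) z ζ) (fun k => R.ee k z (hU z hz)) (fun k => R.nn k z (hU z hz))
      (fun k => R.Lpos k z (hU z hz)) (fun k => hrefl k z hz) (fun k => R.tr k z (hU z hz))
      (fun k => R.sym k z (hU z hz)) (fun k => R.Sn k z (hU z hz)) (fun k => hej k z hz)
      (fun k => R.tan k z (hU z hz)) (fun k => hsj k z hz)
      (fun k ζ => by
        have := hrj k z hz ζ
        rw [R.njac (k + 1) z (hU z hz) ζ] at this
        exact this)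
      (fun X Y hX hY => R.surj z (hU z hz) X Y hX hY)
      (fun k => by simp only [R.pe k]) (fun k => by simp only [R.px k])
      (fun k => by simp only [R.pe k]) k
  · have h1 : R.A \ B2 ⊆ (R.A \ B1) ∪ (B1 \ B2) := by
      intro z hz
      by_cases h : z ∈ B1
      · exact Or.inr ⟨h, hz.2⟩
      · exact Or.inl ⟨hz.1, h⟩
    refine measure_mono_null h1 ?_
    exact (measure_union_null hB1z hB2z)

end G

end Pool.Agent.H721R2.Quart
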