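import Pool.Agent.H721R2.Quart.G4Vertex

set_option autoImplicit false

open MeasureTheory Set Filter Topology
open scoped InnerProductSpace

namespace Pool.Agent.H721R2.Quart

section G
variable {E : Type*} [NormedAddCommGroup E] [InnerProductSpace ℝ E]

theorem G4_quad_per {α : Type*} (w : α × α × α × α) (k : ℕ) : quad w (k + 4) = quad w k := by
  unfold quad
  rw [Nat.add_mod_right]

theorem G4_quad_cont {α : Type*} [TopologicalSpace α] (k : ℕ) :
    Continuous fun w : α × α × α × α => quad w k := by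
  unfold quad
  split_ifs
  · exact continuous_fst
  · exact continuous_fst.comp continuous_snd
  · exact continuous_fst.comp (continuous_snd.comp continuous_snd)
  · exact continuous_snd.comp (continuous_snd.comp continuous_snd)

theorem G4_dir_eq (q q' : E) : q + ‖q' - q‖ • dir (q' - q) = q' := by
  unfold dir
  rcases eq_or_ne (q' - q) 0 with h | h
  · rw [h]; simp; exact (sub_eq_zero.1 h).symm
  · rw [smul_smul, mul_inv_cancel₀ (norm_ne_zero_iff.2 h), one_smul]; abel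

theorem G4_dir_eq' (q q' : E) : q' + ‖q' - q‖ • (-dir (q' - q)) = q := by
  have := G4_dir_eq q q'
  rw [smul_neg]
  nth_rewrite 1 [← this]
  abel

theorem G4_rf_unit {n v : E} (hn : ⟪n, n⟫_ℝ = 1) (hv : ⟪v, v⟫_ℝ = 1) : ⟪rf n v, rf n v⟫_ℝ = 1 := by
  rw [G3_rf_inner hn, hv]

variable [FiniteDimensional ℝ E]

/-- The first order facts about a trajectory. -/
theorem G4_tr {F : ℕ → E → ℝ} (hp : ∀ k, F (k + 4) = F k) {w0 : E × E × E × E}
    (hg : ∀ k, gradient (F k) (quad w0 k) ≠ 0) (hR : Rel4 F w0) (k : ℕ) :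
    ⟪dir (gradient (F k) (quad w0 k)), dir (quad w0 (k + 1) - quad w0 k)⟫_ℝ ≠ 0 ∧
    ⟪dir (gradient (F (k + 1)) (quad w0 (k + 1))), dir (quad w0 (k + 1) - quad w0 k)⟫_ℝ ≠ 0 := by
  have hin : ∀ k, ⟪dir (gradient (F (k + 1)) (quad w0 (k + 1))),
      dir (quad w0 (k + 1) - quad w0 k)⟫_ℝ ≠ 0 := by
    intro k
    have h1 := hR.tr k
    have h2 := hR.ne k
    unfold dir
    rw [inner_smul_left, inner_smul_right]
    simp only [conj_trivial]
    exact mul_ne_zero (inv_ne_zero (norm_ne_zero_iff.2 (hg _)))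
      (mul_ne_zero (inv_ne_zero (norm_ne_zero_iff.2 (sub_ne_zero.2 h2))) h1)
  have hout : ∀ k, ⟪dir (gradient (F (k + 1)) (quad w0 (k + 1))),
      dir (quad w0 (k + 2) - quad w0 (k + 1))⟫_ℝ ≠ 0 := by
    intro k
    rw [hR.refl k]
    have h1 := G2_dir_inner (hg (k + 1))
    have h2 := hin k
    unfold rf
    rw [inner_sub_right, inner_smul_right, h1]
    intro h3
    apply h2
    linarith
  refine ⟨?_, hin k⟩
  have h1 := hout (k + 3)
  rw [show k + 3 + 1 = k + 4 by ring, show k + 3 + 2 = k + 1 + 4 by ring, hp, G4_quad_per,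
    G4_quad_per] at h1
  exact h1

theorem G4_step_unit {v : E} (h : v ≠ 0) : ⟪dir v, dir v⟫_ℝ = 1 := G2_dir_inner h

/-- G4: the family of quadrilaterals near a given one -/
theorem exists_raw (F : ℕ → E → ℝ) (hp : ∀ k, F (k + 4) = F k) (w0 : E × E × E × E)
    (hF : ∀ k, ContDiffAt ℝ 3 (F k) (quad w0 k)) (hg : ∀ k, gradient (F k) (quad w0 k) ≠ 0)
    (hR : Rel4 F w0) :
    ∃ R : Raw E ((ℝ ∙ gradient (F 1) (quad w0 1))ᗮ × (ℝ ∙ gradient (F 2) (quad w0 2))ᗮ),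
      (∃ K : NNReal, LipschitzOnWith K (fun z => (R.x 1 z, R.e 1 z)) R.U) ∧
      ∀ᶠ w in 𝓝 w0, Rel4 F w → ∃ z ∈ R.A, R.x 1 z = quad w 1 ∧
        R.e 1 z = dir (quad w 2 - quad w 1) := by
  obtain ⟨ν0, σ0, hν0, hσ0, hm0⟩ := exists_mirror (hF 0) (hg 0)
  obtain ⟨ν1, σ1, hν1, hσ1, hm1⟩ := exists_mirror (hF 1) (hg 1)
  obtain ⟨ν2, σ2, hν2, hσ2, hm2⟩ := exists_mirror (hF 2) (hg 2)
  obtain ⟨ν3, σ3, hν3, hσ3, hm3⟩ := exists_mirror (hF 3) (hg 3)
  obtain ⟨X1, cX1, X10, X1z, ⟨P1, P1c, P10, P1u⟩, X1s⟩ := G4_chart (hF 1) (hR.zero 1) (hg 1)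
  obtain ⟨X2, cX2, X20, X2z, ⟨P2, P2c, P20, P2u⟩, X2s⟩ := G4_chart (hF 2) (hR.zero 2) (hg 2)
  have htr := G4_tr hp hg hR
  have q4 : quad w0 4 = quad w0 0 := G4_quad_per w0 0
  -- the vertices 1 and 2 and the direction of the side 1
  obtain ⟨x1, hx1⟩ : ∃ x1 : (ℝ ∙ gradient (F 1) (quad w0 1))ᗮ ×
    (ℝ ∙ gradient (F 2) (quad w0 2))ᗮ → E, x1 = fun z => X1 z.1 := ⟨_, rfl⟩
  obtain ⟨x2, hx2⟩ : ∃ x2 : (ℝ ∙ gradient (F 1) (quad w0 1))ᗮ ×
    (ℝ ∙ gradient (F 2) (quad w0 2))ᗮ → E, x2 = fun z => X2 z.2 := ⟨_, rfl⟩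
  have x10 : x1 0 = quad w0 1 := by rw [hx1]; exact X10
  have x20 : x2 0 = quad w0 2 := by rw [hx2]; exact X20
  have cx1 : ContDiffAt ℝ 2 x1 0 := by
    rw [hx1]
    exact ContDiffAt.comp (g := X1) (f := fun z : (ℝ ∙ gradient (F 1) (quad w0 1))ᗮ ×
      (ℝ ∙ gradient (F 2) (quad w0 2))ᗮ => z.1) 0 cX1 contDiffAt_fst
  have cx2 : ContDiffAt ℝ 2 x2 0 := by
    rw [hx2]
    exact ContDiffAt.comp (g := X2) (f := fun z : (ℝ ∙ gradient (F 1) (quad w0 1))ᗮ ×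
      (ℝ ∙ gradient (F 2) (quad w0 2))ᗮ => z.2) 0 cX2 contDiffAt_snd
  have hne1 : x2 0 - x1 0 ≠ 0 := by rw [x10, x20]; exact sub_ne_zero.2 (hR.ne 1)
  obtain ⟨e1, he1⟩ : ∃ e1 : (ℝ ∙ gradient (F 1) (quad w0 1))ᗮ ×
    (ℝ ∙ gradient (F 2) (quad w0 2))ᗮ → E, e1 = fun z => dir (x2 z - x1 z) := ⟨_, rfl⟩
  have ce1 : ContDiffAt ℝ 2 e1 0 := by rw [he1]; exact G4_dir_cd (cx2.sub cx1) hne1
  have e10 : e1 0 = dir (quad w0 2 - quad w0 1) := by rw [he1]; simp only [x10, x20]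
  -- the normals at 1 and 2
  have cn1 : ContDiffAt ℝ 2 (fun z => ν1 (x1 z)) 0 := by
    refine ContDiffAt.comp (g := ν1) (f := x1) 0 ?_ cx1
    rw [x10]; exact hν1
  have cn2 : ContDiffAt ℝ 2 (fun z => ν2 (x2 z)) 0 := by
    refine ContDiffAt.comp (g := ν2) (f := x2) 0 ?_ cx2
    rw [x20]; exact hν2
  obtain ⟨e2, he2⟩ : ∃ e2 : (ℝ ∙ gradient (F 1) (quad w0 1))ᗮ ×
    (ℝ ∙ gradient (F 2) (quad w0 2))ᗮ → E, e2 = fun z => rf (ν2 (x2 z)) (e1 z) := ⟨_, rfl⟩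
  obtain ⟨e0, he0⟩ : ∃ e0 : (ℝ ∙ gradient (F 1) (quad w0 1))ᗮ ×
    (ℝ ∙ gradient (F 2) (quad w0 2))ᗮ → E, e0 = fun z => rf (ν1 (x1 z)) (e1 z) := ⟨_, rfl⟩
  have ce2 : ContDiffAt ℝ 2 e2 0 := by rw [he2]; exact G4_rf_cd cn2 ce1
  have ce0 : ContDiffAt ℝ 2 e0 0 := by rw [he0]; exact G4_rf_cd cn1 ce1
  have e20 : e2 0 = dir (quad w0 3 - quad w0 2) := by
    rw [he2]
    simp only [x20, e10]
    rw [hm2.self_of_nhds.2.1]
    exact (hR.refl 1).symm
  have e00 : e0 0 = dir (quad w0 1 - quad w0 0) := by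
    rw [he0]
    simp only [x10, e10]
    rw [hm1.self_of_nhds.2.1, hR.refl 0]
    exact G3_rf_invol (G2_dir_inner (hg 1)) _
  -- the hits
  have hd3 := G4_dir_eq (quad w0 2) (quad w0 3)
  have hd0 := G4_dir_eq' (quad w0 0) (quad w0 1)
  obtain ⟨L2, cL2, L20, L2z, L2u⟩ := G4_hit (F := F 3) (x := x2) (e := e2) (z0 := 0)
    (q := quad w0 2) (v := dir (quad w0 3 - quad w0 2)) (t0 := ‖quad w0 3 - quad w0 2‖)
    (by rw [hd3]; exact hF 3) (by rw [hd3]; exact hR.zero 3)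
    (by
      rw [hd3, G4_fderiv_eq]
      intro h
      apply (htr 2).2
      unfold dir at h ⊢
      rw [inner_smul_left, h, mul_zero])
    cx2 ce2 x20 e20
  obtain ⟨L0, cL0, L00, L0z, L0u⟩ := G4_hit (F := F 0) (x := x1) (e := fun z => -e0 z) (z0 := 0)
    (q := quad w0 1) (v := -dir (quad w0 1 - quad w0 0)) (t0 := ‖quad w0 1 - quad w0 0‖)
    (by rw [hd0]; exact hF 0) (by rw [hd0]; exact hR.zero 0)
    (by
      rw [hd0, G4_fderiv_eq]
      intro h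
      apply (htr 0).1
      rw [inner_neg_right, neg_eq_zero] at h
      unfold dir at h ⊢
      rw [inner_smul_left]
      simp only [zero_add]
      rw [h, mul_zero])
    cx1 ce0.neg x10 (by rw [e00])
  obtain ⟨x3, hx3⟩ : ∃ x3 : (ℝ ∙ gradient (F 1) (quad w0 1))ᗮ ×
    (ℝ ∙ gradient (F 2) (quad w0 2))ᗮ → E, x3 = fun z => x2 z + L2 z • e2 z := ⟨_, rfl⟩
  obtain ⟨x0, hx0⟩ : ∃ x0 : (ℝ ∙ gradient (F 1) (quad w0 1))ᗮ ×
    (ℝ ∙ gradient (F 2) (quad w0 2))ᗮ → E, x0 = fun z => x1 z + L0 z • (-e0 z) := ⟨_, rfl⟩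
  have cx3 : ContDiffAt ℝ 2 x3 0 := by rw [hx3]; exact cx2.add (cL2.smul ce2)
  have cx0 : ContDiffAt ℝ 2 x0 0 := by rw [hx0]; exact cx1.add (cL0.smul ce0.neg)
  have x30 : x3 0 = quad w0 3 := by rw [hx3]; simp only [x20, L20, e20]; exact hd3
  have x00 : x0 0 = quad w0 0 := by rw [hx0]; simp only [x10, L00, e00]; exact hd0
  have hne3 : x0 0 - x3 0 ≠ 0 := by
    rw [x30, x00, ← q4]; exact sub_ne_zero.2 (hR.ne 3)
  obtain ⟨e3, he3⟩ : ∃ e3 : (ℝ ∙ gradient (F 1) (quad w0 1))ᗮ ×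
    (ℝ ∙ gradient (F 2) (quad w0 2))ᗮ → E, e3 = fun z => dir (x0 z - x3 z) := ⟨_, rfl⟩
  have ce3 : ContDiffAt ℝ 2 e3 0 := by rw [he3]; exact G4_dir_cd (cx0.sub cx3) hne3
  have e30 : e3 0 = dir (quad w0 4 - quad w0 3) := by rw [he3]; simp only [x30, x00, q4]
  obtain ⟨L1, hL1⟩ : ∃ L1 : (ℝ ∙ gradient (F 1) (quad w0 1))ᗮ ×
    (ℝ ∙ gradient (F 2) (quad w0 2))ᗮ → ℝ, L1 = fun z => ‖x2 z - x1 z‖ := ⟨_, rfl⟩
  obtain ⟨L3, hL3⟩ : ∃ L3 : (ℝ ∙ gradient (F 1) (quad w0 1))ᗮ ×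
    (ℝ ∙ gradient (F 2) (quad w0 2))ᗮ → ℝ, L3 = fun z => ‖x0 z - x3 z‖ := ⟨_, rfl⟩
  have cL1 : ContDiffAt ℝ 2 L1 0 := by rw [hL1]; exact (cx2.sub cx1).norm ℝ hne1
  have cL3 : ContDiffAt ℝ 2 L3 0 := by rw [hL3]; exact (cx0.sub cx3).norm ℝ hne3
  -- the vertices
  have hV0 : ∀ᶠ z in 𝓝 0, G4_V ν0 σ0 (F 0) x0 z :=
    G4_vertex (hF 0) hν0 hσ0 hm0 cx0 x00 (by rw [hx0]; exact L0z)
  have hV1 : ∀ᶠ z in 𝓝 0, G4_V ν1 σ1 (F 1) x1 z :=
    G4_vertex (hF 1) hν1 hσ1 hm1 cx1 x10 (by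
      rw [hx1]
      exact (continuous_fst.tendsto (0 : (ℝ ∙ gradient (F 1) (quad w0 1))ᗮ ×
        (ℝ ∙ gradient (F 2) (quad w0 2))ᗮ)).eventually X1z)
  have hV2 : ∀ᶠ z in 𝓝 0, G4_V ν2 σ2 (F 2) x2 z :=
    G4_vertex (hF 2) hν2 hσ2 hm2 cx2 x20 (by
      rw [hx2]
      exact (continuous_snd.tendsto (0 : (ℝ ∙ gradient (F 1) (quad w0 1))ᗮ ×
        (ℝ ∙ gradient (F 2) (quad w0 2))ᗮ)).eventually X2z)
  have hV3 : ∀ᶠ z in 𝓝 0, G4_V ν3 σ3 (F 3) x3 z :=
    G4_vertex (hF 3) hν3 hσ3 hm3 cx3 x30 (by rw [hx3]; exact L2z)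
  -- differentiability
  have hde : ∀ᶠ z in 𝓝 0, DifferentiableAt ℝ e0 z ∧ DifferentiableAt ℝ e1 z ∧
      DifferentiableAt ℝ e2 z ∧ DifferentiableAt ℝ e3 z := by
    filter_upwards [ce0.eventually (by norm_num), ce1.eventually (by norm_num),
      ce2.eventually (by norm_num), ce3.eventually (by norm_num)] with z h0 h1 h2 h3
    exact ⟨h0.differentiableAt (by norm_num), h1.differentiableAt (by norm_num),
      h2.differentiableAt (by norm_num), h3.differentiableAt (by norm_num)⟩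
  have hdL : ∀ᶠ z in 𝓝 0, DifferentiableAt ℝ L0 z ∧ DifferentiableAt ℝ L1 z ∧
      DifferentiableAt ℝ L2 z ∧ DifferentiableAt ℝ L3 z := by
    filter_upwards [cL0.eventually (by norm_num), cL1.eventually (by norm_num),
      cL2.eventually (by norm_num), cL3.eventually (by norm_num)] with z h0 h1 h2 h3
    exact ⟨h0.differentiableAt (by norm_num), h1.differentiableAt (by norm_num),
      h2.differentiableAt (by norm_num), h3.differentiableAt (by norm_num)⟩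
  -- positivity
  have hpos : ∀ᶠ z in 𝓝 0, 0 < L0 z ∧ 0 < L2 z ∧ x2 z - x1 z ≠ 0 ∧ x0 z - x3 z ≠ 0 := by
    have p0 : ∀ᶠ z in 𝓝 0, 0 < L0 z := by
      have h1 := cL0.continuousAt.tendsto
      refine h1.eventually_const_lt ?_
      rw [L00]; exact norm_pos_iff.2 (sub_ne_zero.2 (hR.ne 0))
    have p2 : ∀ᶠ z in 𝓝 0, 0 < L2 z := by
      have h1 := cL2.continuousAt.tendsto
      refine h1.eventually_const_lt ?_
      rw [L20]; exact norm_pos_iff.2 (sub_ne_zero.2 (hR.ne 2))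
    have p1 : ∀ᶠ z in 𝓝 0, x2 z - x1 z ≠ 0 :=
      (cx2.sub cx1).continuousAt.tendsto.eventually_ne hne1
    have p3 : ∀ᶠ z in 𝓝 0, x0 z - x3 z ≠ 0 :=
      (cx0.sub cx3).continuousAt.tendsto.eventually_ne hne3
    filter_upwards [p0, p1, p2, p3] with z h0 h1 h2 h3
    exact ⟨h0, h2, h1, h3⟩
  -- transversality
  have htrz : ∀ᶠ z in 𝓝 0, ⟪ν0 (x0 z), e0 z⟫_ℝ ≠ 0 ∧ ⟪ν1 (x1 z), e1 z⟫_ℝ ≠ 0 ∧
      ⟪ν2 (x2 z), e2 z⟫_ℝ ≠ 0 ∧ ⟪ν3 (x3 z), e3 z⟫_ℝ ≠ 0 := by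
    have cn0 : ContinuousAt (fun z => ν0 (x0 z)) 0 := by
      refine ContinuousAt.comp (g := ν0) (f := x0) ?_ cx0.continuousAt
      rw [x00]; exact hν0.continuousAt
    have cn3 : ContinuousAt (fun z => ν3 (x3 z)) 0 := by
      refine ContinuousAt.comp (g := ν3) (f := x3) ?_ cx3.continuousAt
      rw [x30]; exact hν3.continuousAt
    have t0 : ∀ᶠ z in 𝓝 0, ⟪ν0 (x0 z), e0 z⟫_ℝ ≠ 0 := by
      refine (cn0.inner ce0.continuousAt).tendsto.eventually_ne ?_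
      rw [x00, e00, hm0.self_of_nhds.2.1]; exact (htr 0).1
    have t1 : ∀ᶠ z in 𝓝 0, ⟪ν1 (x1 z), e1 z⟫_ℝ ≠ 0 := by
      refine (cn1.continuousAt.inner ce1.continuousAt).tendsto.eventually_ne ?_
      rw [x10, e10, hm1.self_of_nhds.2.1]; exact (htr 1).1
    have t2 : ∀ᶠ z in 𝓝 0, ⟪ν2 (x2 z), e2 z⟫_ℝ ≠ 0 := by
      refine (cn2.continuousAt.inner ce2.continuousAt).tendsto.eventually_ne ?_
      rw [x20, e20, hm2.self_of_nhds.2.1]; exact (htr 2).1
    have t3 : ∀ᶠ z in 𝓝 0, ⟪ν3 (x3 z), e3 z⟫_ℝ ≠ 0 := by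
      refine (cn3.inner ce3.continuousAt).tendsto.eventually_ne ?_
      rw [x30, e30, hm3.self_of_nhds.2.1]; exact (htr 3).1
    filter_upwards [t0, t1, t2, t3] with z h0 h1 h2 h3
    exact ⟨h0, h1, h2, h3⟩
  -- surjectivity
  have hsurj : ∀ᶠ z : (ℝ ∙ gradient (F 1) (quad w0 1))ᗮ × (ℝ ∙ gradient (F 2) (quad w0 2))ᗮ in 𝓝 0,
      ((∀ Y, ⟪gradient (F 1) (X1 z.1), Y⟫_ℝ = 0 → ∃ ζ, fderiv ℝ X1 z.1 ζ = Y) ∧
      ContDiffAt ℝ 2 X1 z.1) ∧
      ((∀ Y, ⟪gradient (F 2) (X2 z.2), Y⟫_ℝ = 0 → ∃ ζ, fderiv ℝ X2 z.2 ζ = Y) ∧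
      ContDiffAt ℝ 2 X2 z.2) := by
    have h1 := (continuous_fst.tendsto (0 : (ℝ ∙ gradient (F 1) (quad w0 1))ᗮ ×
        (ℝ ∙ gradient (F 2) (quad w0 2))ᗮ)).eventually (X1s.and (cX1.eventually (by norm_num)))
    have h2 := (continuous_snd.tendsto (0 : (ℝ ∙ gradient (F 1) (quad w0 1))ᗮ ×
        (ℝ ∙ gradient (F 2) (quad w0 2))ᗮ)).eventually (X2s.and (cX2.eventually (by norm_num)))
    exact h1.and h2
  obtain ⟨K, t, ht, hK⟩ := ((cx1.prodMk ce1).of_le (by norm_num)).exists_lipschitzOnWith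
  have hev := hV0.and (hV1.and (hV2.and (hV3.and (hde.and (hdL.and (hpos.and
    (htrz.and (hsurj.and (show ∀ᶠ z in 𝓝 0, z ∈ t from ht)))))))))
  obtain ⟨U, hU, hUo, hU0⟩ := eventually_nhds_iff.1 hev
  have V0 : ∀ z ∈ U, G4_V ν0 σ0 (F 0) x0 z := fun z hz => (hU z hz).1
  have V1 : ∀ z ∈ U, G4_V ν1 σ1 (F 1) x1 z := fun z hz => (hU z hz).2.1
  have V2 : ∀ z ∈ U, G4_V ν2 σ2 (F 2) x2 z := fun z hz => (hU z hz).2.2.1
  have V3 : ∀ z ∈ U, G4_V ν3 σ3 (F 3) x3 z := fun z hz => (hU z hz).2.2.2.1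
  have hde' := fun z (hz : z ∈ U) => (hU z hz).2.2.2.2.1
  have hdL' := fun z (hz : z ∈ U) => (hU z hz).2.2.2.2.2.1
  have hpos' := fun z (hz : z ∈ U) => (hU z hz).2.2.2.2.2.2.1
  have htr' := fun z (hz : z ∈ U) => (hU z hz).2.2.2.2.2.2.2.1
  have hsurj' := fun z (hz : z ∈ U) => (hU z hz).2.2.2.2.2.2.2.2.1
  have hUt : U ⊆ t := fun z hz => (hU z hz).2.2.2.2.2.2.2.2.2
  have ee1 : ∀ z ∈ U, ⟪e1 z, e1 z⟫_ℝ = 1 := by
    intro z hz; rw [he1]; exact G2_dir_inner (hpos' z hz).2.2.1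
  have ee3 : ∀ z ∈ U, ⟪e3 z, e3 z⟫_ℝ = 1 := by
    intro z hz; rw [he3]; exact G2_dir_inner (hpos' z hz).2.2.2
  have ee2 : ∀ z ∈ U, ⟪e2 z, e2 z⟫_ℝ = 1 := by
    intro z hz; rw [he2]; exact G4_rf_unit (V2 z hz).nn (ee1 z hz)
  have ee0 : ∀ z ∈ U, ⟪e0 z, e0 z⟫_ℝ = 1 := by
    intro z hz; rw [he0]; exact G4_rf_unit (V1 z hz).nn (ee1 z hz)
  obtain ⟨R, hRU, hRx, hRe, hRn⟩ : ∃ R : Raw E ((ℝ ∙ gradient (F 1) (quad w0 1))ᗮ ×
      (ℝ ∙ gradient (F 2) (quad w0 2))ᗮ), R.U = U ∧ R.x = quad (x0, x1, x2, x3) ∧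
      R.e = quad (e0, e1, e2, e3) ∧ R.n = quad (fun z => ν0 (x0 z), fun z => ν1 (x1 z),
        fun z => ν2 (x2 z), fun z => ν3 (x3 z)) := by
    refine ⟨{
      U := U
      hU := hUo
      x := quad (x0, x1, x2, x3)
      e := quad (e0, e1, e2, e3)
      n := quad (fun z => ν0 (x0 z), fun z => ν1 (x1 z), fun z => ν2 (x2 z), fun z => ν3 (x3 z))
      L := quad (L0, L1, L2, L3)
      S := quad (fun z => σ0 (x0 z), fun z => σ1 (x1 z), fun z => σ2 (x2 z), fun z => σ3 (x3 z))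
      px := G4_quad_per _
      pe := G4_quad_per _
      pn := G4_quad_per _
      pL := G4_quad_per _
      pS := G4_quad_per _
      dx := ?_
      de := ?_
      dn := ?_
      dL := ?_
      dS := ?_
      Lpos := ?_
      ee := ?_
      nn := ?_
      step := ?_
      refl1 := ?_
      refl2 := ?_
      tr := ?_
      sym := ?_
      Sn := ?_
      tan := ?_
      njac := ?_
      Sjac := ?_
      surj := ?_ }, rfl, rfl, rfl, rfl⟩
    · exact G3_per (fun z hz => (V0 z hz).dx) (fun z hz => (V1 z hz).dx) (fun z hz => (V2 z hz).dx)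
        (fun z hz => (V3 z hz).dx) (fun k h => by simp only [G4_quad_per]; exact h)
    · exact G3_per (fun z hz => (hde' z hz).1) (fun z hz => (hde' z hz).2.1)
        (fun z hz => (hde' z hz).2.2.1) (fun z hz => (hde' z hz).2.2.2)
        (fun k h => by simp only [G4_quad_per]; exact h)
    · exact G3_per (fun z hz => (V0 z hz).dn) (fun z hz => (V1 z hz).dn) (fun z hz => (V2 z hz).dn)
        (fun z hz => (V3 z hz).dn) (fun k h => by simp only [G4_quad_per]; exact h)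
    · exact G3_per (fun z hz => (hdL' z hz).1) (fun z hz => (hdL' z hz).2.1)
        (fun z hz => (hdL' z hz).2.2.1) (fun z hz => (hdL' z hz).2.2.2)
        (fun k h => by simp only [G4_quad_per]; exact h)
    · exact G3_per (fun z hz => (V0 z hz).dS) (fun z hz => (V1 z hz).dS) (fun z hz => (V2 z hz).dS)
        (fun z hz => (V3 z hz).dS) (fun k h => by simp only [G4_quad_per]; exact h)
    · refine G3_per (fun z hz => (hpos' z hz).1) (fun z hz => ?_)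
        (fun z hz => (hpos' z hz).2.1) (fun z hz => ?_)
        (fun k h => by simp only [G4_quad_per]; exact h)
      · change 0 < L1 z
        rw [hL1]; exact norm_pos_iff.2 (hpos' z hz).2.2.1
      · change 0 < L3 z
        rw [hL3]; exact norm_pos_iff.2 (hpos' z hz).2.2.2
    · exact G3_per ee0 ee1 ee2 ee3 (fun k h => by simp only [G4_quad_per]; exact h)
    · exact G3_per (fun z hz => (V0 z hz).nn) (fun z hz => (V1 z hz).nn) (fun z hz => (V2 z hz).nn)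
        (fun z hz => (V3 z hz).nn) (fun k h => by simp only [G4_quad_per]; exact h)
    · refine G3_per (fun z hz => ?_) (fun z hz => ?_) (fun z hz => ?_) (fun z hz => ?_)
        (fun k h => ?_)
      · change x1 z = x0 z + L0 z • e0 z
        rw [hx0]; module
      · change x2 z = x1 z + L1 z • e1 z
        rw [hL1, he1]; exact (G4_dir_eq _ _).symm
      · change x3 z = x2 z + L2 z • e2 z
        rw [hx3]
      · change x0 z = x3 z + L3 z • e3 z
        rw [hL3, he3]; exact (G4_dir_eq _ _).symm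
      · rw [show k + 4 + 1 = k + 1 + 4 by ring]
        simp only [G4_quad_per]; exact h
    · intro z hz
      change e1 z = rf (ν1 (x1 z)) (e0 z)
      rw [he0]; exact (G3_rf_invol (V1 z hz).nn _).symm
    · intro z hz
      change e2 z = rf (ν2 (x2 z)) (e1 z)
      rw [he2]
    · exact G3_per (fun z hz => (htr' z hz).1) (fun z hz => (htr' z hz).2.1)
        (fun z hz => (htr' z hz).2.2.1) (fun z hz => (htr' z hz).2.2.2)
        (fun k h => by simp only [G4_quad_per]; exact h)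
    · exact G3_per (fun z hz => (V0 z hz).sym) (fun z hz => (V1 z hz).sym)
        (fun z hz => (V2 z hz).sym) (fun z hz => (V3 z hz).sym)
        (fun k h => by simp only [G4_quad_per]; exact h)
    · exact G3_per (fun z hz => (V0 z hz).Sn) (fun z hz => (V1 z hz).Sn)
        (fun z hz => (V2 z hz).Sn) (fun z hz => (V3 z hz).Sn)
        (fun k h => by simp only [G4_quad_per]; exact h)
    · exact G3_per (fun z hz => (V0 z hz).tan) (fun z hz => (V1 z hz).tan)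
        (fun z hz => (V2 z hz).tan) (fun z hz => (V3 z hz).tan)
        (fun k h => by simp only [G4_quad_per]; exact h)
    · exact G3_per (fun z hz => (V0 z hz).njac) (fun z hz => (V1 z hz).njac)
        (fun z hz => (V2 z hz).njac) (fun z hz => (V3 z hz).njac)
        (fun k h => by simp only [G4_quad_per]; exact h)
    · exact G3_per (fun z hz => (V0 z hz).Sjac) (fun z hz => (V1 z hz).Sjac)
        (fun z hz => (V2 z hz).Sjac) (fun z hz => (V3 z hz).Sjac)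
        (fun k h => by simp only [G4_quad_per]; exact h)
    · intro z hz X Y hX hY
      change ⟪ν1 (x1 z), X⟫_ℝ = 0 at hX
      change ⟪ν2 (x2 z), Y⟫_ℝ = 0 at hY
      have hX' : ⟪gradient (F 1) (X1 z.1), X⟫_ℝ = 0 := by
        have h1 := (V1 z hz).nu
        have h2 := (V1 z hz).g0
        rw [h1] at hX
        unfold dir at hX
        rw [inner_smul_left] at hX
        simp only [conj_trivial] at hX
        rcases mul_eq_zero.1 hX with h | h
        · exact absurd h (inv_ne_zero (norm_ne_zero_iff.2 h2))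
        · rw [hx1] at h; exact h
      have hY' : ⟪gradient (F 2) (X2 z.2), Y⟫_ℝ = 0 := by
        have h1 := (V2 z hz).nu
        have h2 := (V2 z hz).g0
        rw [h1] at hY
        unfold dir at hY
        rw [inner_smul_left] at hY
        simp only [conj_trivial] at hY
        rcases mul_eq_zero.1 hY with h | h
        · exact absurd h (inv_ne_zero (norm_ne_zero_iff.2 h2))
        · rw [hx2] at h; exact h
      obtain ⟨⟨s1, c1⟩, ⟨s2, c2⟩⟩ := hsurj' z hz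
      obtain ⟨ζ1, hζ1⟩ := s1 X hX'
      obtain ⟨ζ2, hζ2⟩ := s2 Y hY'
      refine ⟨(ζ1, ζ2), ?_, ?_⟩
      · change fderiv ℝ x1 z (ζ1, ζ2) = X
        have h1 : HasFDerivAt x1 ((fderiv ℝ X1 z.1).comp (ContinuousLinearMap.fst ℝ _ _)) z := by
          rw [hx1]
          exact (c1.differentiableAt (by norm_num)).hasFDerivAt.comp z hasFDerivAt_fst
        rw [h1.fderiv]
        exact hζ1
      · change fderiv ℝ x2 z (ζ1, ζ2) = Y
        have h1 : HasFDerivAt x2 ((fderiv ℝ X2 z.2).comp (ContinuousLinearMap.snd ℝ _ _)) z := by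
          rw [hx2]
          exact (c2.differentiableAt (by norm_num)).hasFDerivAt.comp z hasFDerivAt_snd
        rw [h1.fderiv]
        exact hζ2
  have Rx1 : R.x 1 = x1 := by rw [hRx]; rfl
  have Re1 : R.e 1 = e1 := by rw [hRe]; rfl
  refine ⟨R, ⟨K, ?_⟩, ?_⟩
  · rw [Rx1, Re1, hRU]
    exact hK.mono hUt
  · -- uniqueness
    obtain ⟨ζ, hζ⟩ : ∃ ζ : E × E × E × E → (ℝ ∙ gradient (F 1) (quad w0 1))ᗮ ×
        (ℝ ∙ gradient (F 2) (quad w0 2))ᗮ, ζ = fun w => (P1 (quad w 1 - quad w0 1),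
          P2 (quad w 2 - quad w0 2)) := ⟨_, rfl⟩
    have cζ : Continuous ζ := by
      rw [hζ]
      exact (P1c.comp ((G4_quad_cont 1).sub continuous_const)).prodMk
        (P2c.comp ((G4_quad_cont 2).sub continuous_const))
    have ζ0 : ζ w0 = 0 := by
      rw [hζ]; simp only [sub_self, P10, P20]; rfl
    have tζ : Tendsto ζ (𝓝 w0) (𝓝 0) := by
      have := cζ.tendsto w0
      rwa [ζ0] at this
    have t3 : Tendsto (fun w : E × E × E × E => (ζ w, ‖quad w 3 - quad w 2‖)) (𝓝 w0)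
        (𝓝 (0, ‖quad w0 3 - quad w0 2‖)) := by
      have h1 : Continuous (fun w : E × E × E × E => (ζ w, ‖quad w 3 - quad w 2‖)) :=
        cζ.prodMk ((G4_quad_cont 3).sub (G4_quad_cont 2)).norm
      have := h1.tendsto w0
      rwa [ζ0] at this
    have t0 : Tendsto (fun w : E × E × E × E => (ζ w, ‖quad w 1 - quad w 0‖)) (𝓝 w0)
        (𝓝 (0, ‖quad w0 1 - quad w0 0‖)) := by
      have h1 : Continuous (fun w : E × E × E × E => (ζ w, ‖quad w 1 - quad w 0‖)) :=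
        cζ.prodMk ((G4_quad_cont 1).sub (G4_quad_cont 0)).norm
      have := h1.tendsto w0
      rwa [ζ0] at this
    filter_upwards [tζ.eventually (hUo.mem_nhds hU0), ((G4_quad_cont 1).tendsto w0).eventually P1u,
      ((G4_quad_cont 2).tendsto w0).eventually P2u, t3.eventually L2u, t0.eventually L0u]
      with w hwU hw1 hw2 hw3 hw0 hw
    have k1 : x1 (ζ w) = quad w 1 := by
      rw [hx1, hζ]; exact (hw1 (hw.zero 1)).symm
    have k2 : x2 (ζ w) = quad w 2 := by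
      rw [hx2, hζ]; exact (hw2 (hw.zero 2)).symm
    have l1 : e1 (ζ w) = dir (quad w 2 - quad w 1) := by
      rw [he1]; simp only [k1, k2]
    have l2 : e2 (ζ w) = dir (quad w 3 - quad w 2) := by
      rw [he2]
      simp only [l1]
      rw [(V2 _ hwU).nu, k2]
      exact (hw.refl 1).symm
    have l0 : e0 (ζ w) = dir (quad w 1 - quad w 0) := by
      rw [he0]
      simp only [l1]
      have h1 := (V1 _ hwU).g0
      rw [(V1 _ hwU).nu, k1, hw.refl 0]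
      rw [k1] at h1
      exact G3_rf_invol (G2_dir_inner h1) _
    have m3 : x3 (ζ w) = quad w 3 := by
      have h1 := hw3 (by
        simp only [k2, l2]
        rw [G4_dir_eq]; exact hw.zero 3)
      rw [hx3]
      simp only [k2, l2]
      rw [← h1]
      exact G4_dir_eq _ _
    have m0 : x0 (ζ w) = quad w 0 := by
      have h1 := hw0 (by
        simp only [k1, l0]
        rw [G4_dir_eq']; exact hw.zero 0)
      rw [hx0]
      simp only [k1, l0]
      rw [← h1]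
      exact G4_dir_eq' _ _
    have q4' : quad w 4 = quad w 0 := G4_quad_per w 0
    have q5' : quad w 5 = quad w 1 := G4_quad_per w 1
    have l3 : e3 (ζ w) = dir (quad w 4 - quad w 3) := by
      rw [he3]; simp only [m3, m0, q4']
    refine ⟨ζ w, ⟨by rw [hRU]; exact hwU, ?_, ?_⟩, ?_, ?_⟩
    · rw [hRe, hRn]
      change e3 (ζ w) = rf (ν3 (x3 (ζ w))) (e2 (ζ w))
      rw [l3, l2, (V3 _ hwU).nu, m3]
      exact hw.refl 2
    · rw [hRe, hRn]
      change e0 (ζ w) = rf (ν0 (x0 (ζ w))) (e3 (ζ w))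
      rw [l3, l0, (V0 _ hwU).nu, m0]
      have h1 := hw.refl 3
      have h2 : F 4 = F 0 := hp 0
      rw [show 3 + 2 = 5 from rfl, show 3 + 1 = 4 from rfl, q5', h2, q4'] at h1
      rw [q4']
      exact h1
    · rw [Rx1, k1]
    · rw [Re1, l1]

end G

end Pool.Agent.H721R2.Quart
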