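import Pool.Agent.H721R2.Quart.G1
import Pool.Agent.H721R2.Quart.G2

set_option autoImplicit false

open MeasureTheory Set Filter Topology
open scoped InnerProductSpace

namespace Pool.Agent.H721R2.Quart

section G
variable {E : Type*} [NormedAddCommGroup E] [InnerProductSpace ℝ E] [FiniteDimensional ℝ E]

theorem G4_fderiv_eq (F : E → ℝ) (x v : E) : fderiv ℝ F x v = ⟪gradient F x, v⟫_ℝ := by
  unfold gradient
  rw [InnerProductSpace.toDual_symm_apply]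

/-- a local parametrisation of `F = 0` over the tangent space -/
theorem G4_chart {F : E → ℝ} {q : E} (hF : ContDiffAt ℝ 3 F q) (h0 : F q = 0)
    (hg : gradient F q ≠ 0) :
    ∃ X : (ℝ ∙ gradient F q)ᗮ → E, ContDiffAt ℝ 2 X 0 ∧ X 0 = q ∧
      (∀ᶠ z in 𝓝 0, F (X z) = 0) ∧
      (∃ P : E → (ℝ ∙ gradient F q)ᗮ, Continuous P ∧ P 0 = 0 ∧
        ∀ᶠ y in 𝓝 q, F y = 0 → y = X (P (y - q))) ∧
      (∀ᶠ z in 𝓝 0, ∀ Y, ⟪gradient F (X z), Y⟫_ℝ = 0 → ∃ ζ, fderiv ℝ X z ζ = Y) := by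
  obtain ⟨g, hgd⟩ : ∃ g, g = gradient F q := ⟨_, rfl⟩
  rw [← hgd] at hg ⊢
  have hgg : ⟪g, g⟫_ℝ ≠ 0 := by
    rw [real_inner_self_eq_norm_sq]; exact pow_ne_zero 2 (norm_ne_zero_iff.2 hg)
  obtain ⟨T, hT, hT0, hT1, hT2⟩ := exists_hit (F := F) (x0 := q) (v0 := g) (t0 := 0)
    (by rw [zero_smul, add_zero]; exact hF) (by rw [zero_smul, add_zero]; exact h0)
    (by rw [zero_smul, add_zero, G4_fderiv_eq, ← hgd]; exact hgg)
  have hc : ContDiffAt ℝ 3 (fun z : (ℝ ∙ g)ᗮ => (q + (z : E), g)) 0 := by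
    have h1 : ContDiff ℝ 3 (fun z : (ℝ ∙ g)ᗮ => (q + (z : E), g)) := by
      have h2 : ContDiff ℝ 3 (fun z : (ℝ ∙ g)ᗮ => (z : E)) :=
        ((ℝ ∙ g)ᗮ).subtypeL.contDiff
      exact (contDiff_const.add h2).prodMk contDiff_const
    exact h1.contDiffAt
  have hcc : Tendsto (fun z : (ℝ ∙ g)ᗮ => (q + (z : E), g)) (𝓝 0) (𝓝 (q, g)) := by
    have := hc.continuousAt.tendsto
    simpa using this
  have hTc : ContDiffAt ℝ 3 (fun z : (ℝ ∙ g)ᗮ => T (q + (z : E), g)) 0 := by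
    refine ContDiffAt.comp (g := T) (f := fun z : (ℝ ∙ g)ᗮ => (q + (z : E), g)) 0 ?_ hc
    simpa using hT
  have hX : ContDiffAt ℝ 3 (fun z : (ℝ ∙ g)ᗮ => q + (z : E) + T (q + (z : E), g) • g) 0 := by
    have h2 : ContDiffAt ℝ 3 (fun z : (ℝ ∙ g)ᗮ => (z : E)) 0 :=
      ((ℝ ∙ g)ᗮ).subtypeL.contDiff.contDiffAt
    exact (contDiffAt_const.add h2).add (hTc.smul contDiffAt_const)
  have hzero : ∀ᶠ z : (ℝ ∙ g)ᗮ in 𝓝 0, F (q + (z : E) + T (q + (z : E), g) • g) = 0 :=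
    hcc.eventually hT1
  refine ⟨fun z => q + (z : E) + T (q + (z : E), g) • g, hX.of_le (by norm_num), ?_, hzero, ?_, ?_⟩
  · simp [hT0]
  · refine ⟨fun y => (ℝ ∙ g)ᗮ.orthogonalProjectionOnto y, ?_, ?_, ?_⟩
    · exact ((ℝ ∙ g)ᗮ.orthogonalProjectionOnto).continuous
    · simp
    · -- uniqueness
      have hdec : ∀ y : E, ((ℝ ∙ g)ᗮ.orthogonalProjectionOnto (y - q) : E) +
          (⟪g, y - q⟫_ℝ / ⟪g, g⟫_ℝ) • g = y - q := by
        intro y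
        have h1 := Submodule.starProjection_add_starProjection_orthogonal (K := (ℝ ∙ g)) (y - q)
        have h2 := Submodule.starProjection_singleton ℝ (v := g) (y - q)
        rw [h2] at h1
        have h3 : ((ℝ ∙ g)ᗮ.orthogonalProjectionOnto (y - q) : E) =
            (ℝ ∙ g)ᗮ.starProjection (y - q) := rfl
        rw [h3]
        have h4 : ((⟪g, y - q⟫_ℝ / ((‖g‖ : ℝ) ^ 2 : ℝ) : ℝ)) = ⟪g, y - q⟫_ℝ / ⟪g, g⟫_ℝ := by
          rw [real_inner_self_eq_norm_sq]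
        rw [← h4, add_comm]
        exact h1
      have htend : Tendsto (fun y : E => ((q + ((ℝ ∙ g)ᗮ.orthogonalProjectionOnto (y - q) : E), g),
          ⟪g, y - q⟫_ℝ / ⟪g, g⟫_ℝ)) (𝓝 q) (𝓝 ((q, g), 0)) := by
        have h1 : Continuous (fun y : E => ((q + ((ℝ ∙ g)ᗮ.orthogonalProjectionOnto (y - q) : E), g),
          ⟪g, y - q⟫_ℝ / ⟪g, g⟫_ℝ)) := by
          fun_prop
        have h2 := h1.tendsto q
        simpa using h2
      filter_upwards [htend.eventually hT2] with y hy hFy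
      have h1 : q + ((ℝ ∙ g)ᗮ.orthogonalProjectionOnto (y - q) : E) +
          (⟪g, y - q⟫_ℝ / ⟪g, g⟫_ℝ) • g = y := by
        rw [add_assoc, hdec]; abel
      have h2 := hy (by rw [h1]; exact hFy)
      rw [← h2, h1]
  · -- surjectivity
    have hXe : ∀ᶠ z : (ℝ ∙ g)ᗮ in 𝓝 0, ContDiffAt ℝ 3
        (fun z : (ℝ ∙ g)ᗮ => q + (z : E) + T (q + (z : E), g) • g) z :=
      hX.eventually (by norm_num)
    have hTe : ∀ᶠ z : (ℝ ∙ g)ᗮ in 𝓝 0, ContDiffAt ℝ 3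
        (fun z : (ℝ ∙ g)ᗮ => T (q + (z : E), g)) z := hTc.eventually (by norm_num)
    have hXt : Tendsto (fun z : (ℝ ∙ g)ᗮ => q + (z : E) + T (q + (z : E), g) • g) (𝓝 0) (𝓝 q) := by
      have := hX.continuousAt.tendsto
      simpa [hT0] using this
    have hFe : ∀ᶠ z : (ℝ ∙ g)ᗮ in 𝓝 0,
        ContDiffAt ℝ 3 F (q + (z : E) + T (q + (z : E), g) • g) :=
      hXt.eventually (hF.eventually (by norm_num))
    have hgrad : ∀ᶠ z : (ℝ ∙ g)ᗮ in 𝓝 0,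
        ⟪gradient F (q + (z : E) + T (q + (z : E), g) • g), g⟫_ℝ ≠ 0 := by
      have h1 : ContinuousAt (fun y => ⟪gradient F y, g⟫_ℝ) q :=
        (G2_contDiff_grad hF).continuousAt.inner continuousAt_const
      have h2 : Tendsto (fun y => ⟪gradient F y, g⟫_ℝ) (𝓝 q) (𝓝 ⟪g, g⟫_ℝ) := by
        have := h1.tendsto
        rwa [← hgd] at this
      exact (h2.comp hXt).eventually_ne hgg
    filter_upwards [hXe, hTe, hFe, hgrad, hzero.eventually_nhds] with z h1 h2 h3 h4 h5 Y hY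
    obtain ⟨X, hXdef⟩ : ∃ X, X = (fun z : (ℝ ∙ g)ᗮ => q + (z : E) + T (q + (z : E), g) • g) :=
      ⟨_, rfl⟩
    rw [← hXdef] at h1 ⊢
    have h3' : DifferentiableAt ℝ F (X z) := by
      rw [hXdef]; exact h3.differentiableAt (by norm_num)
    have h4' : ⟪gradient F (X z), g⟫_ℝ ≠ 0 := by rw [hXdef]; exact h4
    have hY' : ⟪gradient F (X z), Y⟫_ℝ = 0 := by rw [hXdef]; exact hY
    have htan : ∀ ζ, ⟪gradient F (X z), fderiv ℝ X z ζ⟫_ℝ = 0 := by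
      intro ζ
      have h6 : fderiv ℝ (F ∘ X) z = 0 := by
        have : (F ∘ X) =ᶠ[𝓝 z] fun _ => (0 : ℝ) := by
          filter_upwards [h5] with y hy
          rw [hXdef]; exact hy
        rw [this.fderiv_eq]; simp
      rw [fderiv_comp z h3' (h1.differentiableAt (by norm_num))] at h6
      have h7 := congrArg (fun L : (ℝ ∙ g)ᗮ →L[ℝ] ℝ => L ζ) h6
      simp only [ContinuousLinearMap.comp_apply] at h7
      rw [← G4_fderiv_eq]
      exact h7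
    have hform : ∀ ζ, ∃ s : ℝ, fderiv ℝ X z ζ = (ζ : E) + s • g := by
      intro ζ
      refine ⟨fderiv ℝ (fun z : (ℝ ∙ g)ᗮ => T (q + (z : E), g)) z ζ, ?_⟩
      have h6 : HasFDerivAt (fun z : (ℝ ∙ g)ᗮ => q + (z : E) + T (q + (z : E), g) • g)
          (((ℝ ∙ g)ᗮ).subtypeL + (fderiv ℝ (fun z : (ℝ ∙ g)ᗮ => T (q + (z : E), g)) z).smulRight g) z := by
        have h7 : HasFDerivAt (fun z : (ℝ ∙ g)ᗮ => q + (z : E)) (((ℝ ∙ g)ᗮ).subtypeL) z :=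
          ((ℝ ∙ g)ᗮ).subtypeL.hasFDerivAt.const_add q
        have h8 := (h2.differentiableAt (by norm_num)).hasFDerivAt.smul_const g
        exact h7.add h8
      rw [← hXdef] at h6
      rw [h6.fderiv]
      rfl
    obtain ⟨s, hs⟩ := hform ((ℝ ∙ g)ᗮ.orthogonalProjectionOnto Y)
    refine ⟨(ℝ ∙ g)ᗮ.orthogonalProjectionOnto Y, ?_⟩
    have h6 : ((ℝ ∙ g)ᗮ.orthogonalProjectionOnto Y : E) + (⟪g, Y⟫_ℝ / ⟪g, g⟫_ℝ) • g = Y := by
      have h1 := Submodule.starProjection_add_starProjection_orthogonal (K := (ℝ ∙ g)) Y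
      have h2 := Submodule.starProjection_singleton ℝ (v := g) Y
      rw [h2] at h1
      have h3 : ((ℝ ∙ g)ᗮ.orthogonalProjectionOnto Y : E) =
          (ℝ ∙ g)ᗮ.starProjection Y := rfl
      rw [h3]
      have h4 : ((⟪g, Y⟫_ℝ / ((‖g‖ : ℝ) ^ 2 : ℝ) : ℝ)) = ⟪g, Y⟫_ℝ / ⟪g, g⟫_ℝ := by
        rw [real_inner_self_eq_norm_sq]
      rw [← h4, add_comm]
      exact h1
    have h7 := htan ((ℝ ∙ g)ᗮ.orthogonalProjectionOnto Y)
    have h8 : fderiv ℝ X z ((ℝ ∙ g)ᗮ.orthogonalProjectionOnto Y) = Y +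
        (s - ⟪g, Y⟫_ℝ / ⟪g, g⟫_ℝ) • g := by
      rw [hs]
      conv_rhs => rw [← h6]
      have : ⟪g, ((ℝ ∙ g)ᗮ.orthogonalProjectionOnto Y : E) + (⟪g, Y⟫_ℝ / ⟪g, g⟫_ℝ) • g⟫_ℝ = ⟪g, Y⟫_ℝ := by
        rw [h6]
      rw [this]
      module
    rw [h8, inner_add_right, hY', inner_smul_right, zero_add] at h7
    rcases mul_eq_zero.1 h7 with h9 | h9
    · rw [h8, h9, zero_smul, add_zero]
    · exact absurd h9 h4'

end G

end Pool.Agent.H721R2.Quart
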