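import Pool.Agent.H721R2.Quart.G4Chart
import Pool.Agent.H721R2.Quart.G3

set_option autoImplicit false

open MeasureTheory Set Filter Topology
open scoped InnerProductSpace

namespace Pool.Agent.H721R2.Quart

section G4
variable {E : Type*} [NormedAddCommGroup E] [InnerProductSpace ℝ E]

theorem G4_dir_cd {Z : Type*} [NormedAddCommGroup Z] [NormedSpace ℝ Z] {f : Z → E} {z : Z}
    {m : WithTop ℕ∞} (hf : ContDiffAt ℝ m f z) (h : f z ≠ 0) :
    ContDiffAt ℝ m (fun z => dir (f z)) z := by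
  unfold dir
  exact ((hf.norm ℝ h).inv (norm_ne_zero_iff.2 h)).smul hf

theorem G4_rf_cd {Z : Type*} [NormedAddCommGroup Z] [NormedSpace ℝ Z] {n v : Z → E} {z : Z}
    {m : WithTop ℕ∞} (hn : ContDiffAt ℝ m n z) (hv : ContDiffAt ℝ m v z) :
    ContDiffAt ℝ m (fun z => rf (n z) (v z)) z := by
  unfold rf
  exact hv.sub ((contDiffAt_const.mul (hn.inner ℝ hv)).smul hn)

variable [FiniteDimensional ℝ E]

/-- The properties of a vertex. -/
structure G4_V {Z : Type*} [NormedAddCommGroup Z] [NormedSpace ℝ Z] (ν : E → E)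
    (σ : E → E →L[ℝ] E) (F : E → ℝ) (x : Z → E) (z : Z) : Prop where
  dx : DifferentiableAt ℝ x z
  dn : DifferentiableAt ℝ (fun z => ν (x z)) z
  dS : DifferentiableAt ℝ (fun z => σ (x z)) z
  F0 : F (x z) = 0
  nu : ν (x z) = dir (gradient F (x z))
  g0 : gradient F (x z) ≠ 0
  nn : ⟪ν (x z), ν (x z)⟫_ℝ = 1
  sym : ∀ v w, ⟪σ (x z) v, w⟫_ℝ = ⟪v, σ (x z) w⟫_ℝ
  Sn : σ (x z) (ν (x z)) = 0
  tan : ∀ ζ, ⟪ν (x z), fderiv ℝ x z ζ⟫_ℝ = 0
  njac : ∀ ζ, fderiv ℝ (fun z => ν (x z)) z ζ = -σ (x z) (fderiv ℝ x z ζ)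
  Sjac : ∀ ζ, fderiv ℝ x z ζ = 0 → fderiv ℝ (fun z => σ (x z)) z ζ = 0

theorem G4_vertex {Z : Type*} [NormedAddCommGroup Z] [NormedSpace ℝ Z] {ν : E → E}
    {σ : E → E →L[ℝ] E} {F : E → ℝ} {x : Z → E} {z0 : Z} {q : E}
    (hF : ContDiffAt ℝ 3 F q) (hν : ContDiffAt ℝ 2 ν q) (hσ : ContDiffAt ℝ 1 σ q)
    (h : ∀ᶠ x in 𝓝 q, gradient F x ≠ 0 ∧ ν x = dir (gradient F x) ∧ ⟪ν x, ν x⟫_ℝ = 1 ∧
        (∀ v w, ⟪σ x v, w⟫_ℝ = ⟪v, σ x w⟫_ℝ) ∧ σ x (ν x) = 0 ∧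
        (∀ X, ⟪ν x, X⟫_ℝ = 0 → fderiv ℝ ν x X = -σ x X))
    (hx : ContDiffAt ℝ 2 x z0) (hx0 : x z0 = q) (hFx : ∀ᶠ z in 𝓝 z0, F (x z) = 0) :
    ∀ᶠ z in 𝓝 z0, G4_V ν σ F x z := by
  have hxt : Tendsto x (𝓝 z0) (𝓝 q) := by
    have := hx.continuousAt.tendsto
    rwa [hx0] at this
  filter_upwards [hx.eventually (by norm_num), hxt.eventually (hF.eventually (by norm_num)),
    hxt.eventually (hν.eventually (by norm_num)), hxt.eventually (hσ.eventually (by norm_num)),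
    hxt.eventually h, hFx.eventually_nhds] with z h1 h2 h3 h4 h5 h6
  obtain ⟨k0, k1, k2, k3, k4, k5⟩ := h5
  have dx := h1.differentiableAt (by norm_num)
  have dν := h3.differentiableAt (by norm_num)
  have dσ := h4.differentiableAt (by norm_num)
  have dF := h2.differentiableAt (by norm_num)
  have tan : ∀ ζ, ⟪ν (x z), fderiv ℝ x z ζ⟫_ℝ = 0 := by
    intro ζ
    have h7 : fderiv ℝ (F ∘ x) z = 0 := by
      have : (F ∘ x) =ᶠ[𝓝 z] fun _ => (0 : ℝ) := by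
        filter_upwards [h6] with y hy
        exact hy
      rw [this.fderiv_eq]; simp
    rw [fderiv_comp z dF dx] at h7
    have h8 := congrArg (fun L : Z →L[ℝ] ℝ => L ζ) h7
    simp only [ContinuousLinearMap.comp_apply] at h8
    rw [G4_fderiv_eq] at h8
    rw [k1]
    unfold dir
    rw [inner_smul_left, h8]
    simp
  refine ⟨dx, ?_, ?_, h6.self_of_nhds, k1, k0, k2, k3, k4, tan, ?_, ?_⟩
  · exact dν.comp z dx
  · exact dσ.comp z dx
  · intro ζ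
    have h7 : fderiv ℝ (fun z => ν (x z)) z = (fderiv ℝ ν (x z)).comp (fderiv ℝ x z) :=
      fderiv_comp z dν dx
    rw [h7]
    exact k5 _ (tan ζ)
  · intro ζ hζ
    have h7 : fderiv ℝ (fun z => σ (x z)) z = (fderiv ℝ σ (x z)).comp (fderiv ℝ x z) :=
      fderiv_comp z dσ dx
    rw [h7, ContinuousLinearMap.comp_apply, hζ, map_zero]

/-- The point where a ray hits a mirror. -/
theorem G4_hit {Z : Type*} [NormedAddCommGroup Z] [NormedSpace ℝ Z] {F : E → ℝ} {x e : Z → E}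
    {z0 : Z} {q v : E} {t0 : ℝ} (hF : ContDiffAt ℝ 3 F (q + t0 • v)) (h0 : F (q + t0 • v) = 0)
    (ht : fderiv ℝ F (q + t0 • v) v ≠ 0) (hx : ContDiffAt ℝ 2 x z0) (he : ContDiffAt ℝ 2 e z0)
    (hx0 : x z0 = q) (he0 : e z0 = v) :
    ∃ L : Z → ℝ, ContDiffAt ℝ 2 L z0 ∧ L z0 = t0 ∧
      (∀ᶠ z in 𝓝 z0, F (x z + L z • e z) = 0) ∧
      (∀ᶠ p in 𝓝 (z0, t0), F (x p.1 + p.2 • e p.1) = 0 → p.2 = L p.1) := by
  obtain ⟨T, hT, hT0, hT1, hT2⟩ := exists_hit hF h0 ht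
  have hxe : ContDiffAt ℝ 2 (fun z => (x z, e z)) z0 := hx.prodMk he
  have hxt : Tendsto (fun z => (x z, e z)) (𝓝 z0) (𝓝 (q, v)) := by
    have := hxe.continuousAt.tendsto
    simp only [hx0, he0] at this
    exact this
  refine ⟨fun z => T (x z, e z), ?_, ?_, hxt.eventually hT1, ?_⟩
  · refine ContDiffAt.comp (g := T) (f := fun z => (x z, e z)) z0 ?_ hxe
    simp only [hx0, he0]
    exact hT.of_le (by norm_num)
  · simp only [hx0, he0, hT0]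
  · have h1 : Tendsto (fun p : Z × ℝ => ((x p.1, e p.1), p.2)) (𝓝 (z0, t0)) (𝓝 ((q, v), t0)) := by
      have h2 : Tendsto (fun p : Z × ℝ => (x p.1, e p.1)) (𝓝 (z0, t0)) (𝓝 (q, v)) := by
        have h3 : Tendsto (fun p : Z × ℝ => p.1) (𝓝 (z0, t0)) (𝓝 z0) :=
          continuous_fst.tendsto (z0, t0)
        exact hxt.comp h3
      have h3 : Tendsto (fun p : Z × ℝ => p.2) (𝓝 (z0, t0)) (𝓝 t0) :=
        continuous_snd.tendsto (z0, t0)
      rw [nhds_prod_eq (x := (q, v)) (y := t0)]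
      exact h2.prodMk h3
    exact h1.eventually hT2

end G4

end Pool.Agent.H721R2.Quart
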