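import Pool.Agent.H721R2.Ivrii.Def

set_option autoImplicit false

namespace Pool.Agent.H721R2.Quart

/-- The phase points `(q, v)` (`q` on the boundary, `v` a unit vector pointing into the table)
whose billiard trajectory is closed after four bounces. -/
def PerFour {E : Type*} [NormedAddCommGroup E] [InnerProductSpace ℝ E] [CompleteSpace E]
    (Ω : Set E) : Set (E × E) :=
  {z | ∃ p u : ℕ → E, Ivrii.Orbit Ω 4 p u ∧ (p 0, u 0) = z}

end Pool.Agent.H721R2.Quart
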