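import Pool.Agent.H721R2.Quart.FMain
import Pool.Agent.H721R2.Quart.G3
import Pool.Agent.H721R2.Quart.G4
import Pool.Agent.H721R2.Ivrii.Normal
import Pool.Agent.H721R2.Quart.Per

set_option autoImplicit false

open MeasureTheory Set Filter Topology
open scoped InnerProductSpace

namespace Pool.Agent.H721R2.Quart

section G
variable {E : Type*} [NormedAddCommGroup E] [InnerProductSpace ℝ E] [FiniteDimensional ℝ E]

/-- G5 -/
theorem local_null [MeasurableSpace E] [BorelSpace E] (hd : 3 ≤ Module.finrank ℝ E)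
    (F : ℕ → E → ℝ) (hp : ∀ k, F (k + 4) = F k)
    (w0 : E × E × E × E) (hF : ∀ k, ContDiffAt ℝ 3 (F k) (quad w0 k))
    (hg : ∀ k, gradient (F k) (quad w0 k) ≠ 0) (hR : Rel4 F w0) :
    ∃ N : Set (E × E), μH[(2 * Module.finrank ℝ E - 2 : ℕ)] N = 0 ∧
      ∀ᶠ w in 𝓝 w0, Rel4 F w → (quad w 1, dir (quad w 2 - quad w 1)) ∈ N := by
  obtain ⟨R, ⟨K, hK⟩, hev⟩ := exists_raw F hp w0 hF hg hR
  have hfr : Module.finrank ℝ ((ℝ ∙ gradient (F 1) (quad w0 1))ᗮ ×
      (ℝ ∙ gradient (F 2) (quad w0 2))ᗮ) = 2 * Module.finrank ℝ E - 2 := by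
    have h1 := Submodule.finrank_add_finrank_orthogonal (ℝ ∙ gradient (F 1) (quad w0 1))
    have h2 := Submodule.finrank_add_finrank_orthogonal (ℝ ∙ gradient (F 2) (quad w0 2))
    rw [finrank_span_singleton (hg 1)] at h1
    rw [finrank_span_singleton (hg 2)] at h2
    rw [Module.finrank_prod]
    omega
  obtain ⟨Fm, hFA, hFm, hFn⟩ := R.exists_fam
    (μH[Module.finrank ℝ ((ℝ ∙ gradient (F 1) (quad w0 1))ᗮ ×
      (ℝ ∙ gradient (F 2) (quad w0 2))ᗮ)])
  have h0 := Fm.null_A' (μH[Module.finrank ℝ ((ℝ ∙ gradient (F 1) (quad w0 1))ᗮ ×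
      (ℝ ∙ gradient (F 2) (quad w0 2))ᗮ)]) hd hFm
  rw [hfr] at h0 hFn
  have hRA : μH[(2 * Module.finrank ℝ E - 2 : ℕ)] R.A = 0 := by
    refine measure_mono_null (t := Fm.A ∪ (R.A \ Fm.A)) ?_ (measure_union_null h0 hFn)
    intro z hz
    by_cases h : z ∈ Fm.A
    · exact Or.inl h
    · exact Or.inr ⟨hz, h⟩
  refine ⟨(fun z => (R.x 1 z, R.e 1 z)) '' R.A, ?_, ?_⟩
  · have hK' : LipschitzOnWith K (fun z => (R.x 1 z, R.e 1 z)) R.A :=
      hK.mono fun z hz => hz.1
    have h1 := hK'.hausdorffMeasure_image_le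
      (d := ((2 * Module.finrank ℝ E - 2 : ℕ) : ℝ)) (Nat.cast_nonneg _)
    rw [hRA, mul_zero] at h1
    exact nonpos_iff_eq_zero.mp h1
  · filter_upwards [hev] with w hw hRw
    obtain ⟨z, hz, h1, h2⟩ := hw hRw
    exact ⟨z, hz, by rw [Prod.mk.injEq]; exact ⟨h1, h2⟩⟩

end G

/-- A set all of whose points have a neighbourhood with negligible projection has a negligible
projection. -/
theorem G6_null_of_locally_null {X Y : Type*} [TopologicalSpace X] [SecondCountableTopology X]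
    [MeasurableSpace Y] (μ : Measure Y) (π : X → Y) (W : Set X)
    (h : ∀ w ∈ W, ∃ Z : Set Y, μ Z = 0 ∧ ∀ᶠ w' in 𝓝 w, w' ∈ W → π w' ∈ Z) : μ (π '' W) = 0 := by
  classical
  choose! Z hZ hZ' using h
  obtain ⟨t, htW, htc, hcov⟩ := TopologicalSpace.countable_cover_nhdsWithin
    (f := fun w => {w' | w' ∈ W → π w' ∈ Z w}) (s := W)
    (fun w hw => mem_nhdsWithin_of_mem_nhds (hZ' w hw))
  refine measure_mono_null (t := ⋃ w ∈ t, Z w) ?_ ?_
  · rintro _ ⟨w, hw, rfl⟩
    obtain ⟨w0, hw0, h1⟩ := mem_iUnion₂.1 (hcov hw)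
    exact mem_iUnion₂.2 ⟨w0, hw0, h1 hw⟩
  · exact (measure_biUnion_null_iff htc).2 fun w hw => hZ w (htW hw)

section H
variable {E : Type*} [NormedAddCommGroup E] [InnerProductSpace ℝ E]

theorem G6_quad_mod {E : Type*} (w : E × E × E × E) (k : ℕ) : quad w (k % 4) = quad w k := by
  unfold quad
  rw [Nat.mod_mod]

theorem G6_quad_per {E : Type*} (w : E × E × E × E) (k : ℕ) : quad w (k + 4) = quad w k := by
  rw [← G6_quad_mod w (k + 4), ← G6_quad_mod w k, Nat.add_mod_right]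

theorem G6_per_mod {α : Type*} (f : ℕ → α) (h : ∀ k, f (k + 4) = f k) (k : ℕ) :
    f (k % 4) = f k := by
  have h1 : ∀ m r, f (r + 4 * m) = f r := by
    intro m
    induction m with
    | zero => intro r; rfl
    | succ m ih =>
      intro r
      rw [show r + 4 * (m + 1) = (r + 4 * m) + 4 by ring, h, ih]
  conv_rhs => rw [← Nat.mod_add_div k 4]
  exact (h1 _ _).symm

theorem G6_quad_cont {E : Type*} [TopologicalSpace E] (k : ℕ) :
    Continuous fun w : E × E × E × E => quad w k := by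
  unfold quad
  split_ifs
  · exact continuous_fst
  · exact continuous_fst.comp continuous_snd
  · exact continuous_fst.comp (continuous_snd.comp continuous_snd)
  · exact continuous_snd.comp (continuous_snd.comp continuous_snd)

theorem G6_rf_dir (g v : E) : rf (dir g) v = v - (2 * ⟪v, g⟫_ℝ / ‖g‖ ^ 2) • g := by
  unfold rf dir
  rw [real_inner_smul_left, smul_smul, real_inner_comm v g]
  congr 2
  rcases eq_or_ne ‖g‖ 0 with h | h
  · rw [h]; simp
  · field_simp

theorem G6_rf_dir_smul (l : ℝ) (hl : l ≠ 0) (g v : E) : rf (dir (l • g)) v = rf (dir g) v := by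
  rw [G6_rf_dir, G6_rf_dir, inner_smul_right, norm_smul, smul_smul]
  congr 2
  rcases eq_or_ne ‖g‖ 0 with h | h
  · rw [h]; simp
  · rw [mul_pow, Real.norm_eq_abs, sq_abs]
    field_simp

theorem G6_dir_smul (t : ℝ) (ht : 0 < t) (u : E) (hu : ‖u‖ = 1) : dir (t • u) = u := by
  unfold dir
  rw [norm_smul, hu, mul_one, Real.norm_eq_abs, abs_of_pos ht, smul_smul,
    inv_mul_cancel₀ ht.ne', one_smul]

variable [CompleteSpace E]

theorem G6_change {F F' : ℕ → E → ℝ} {w : E × E × E × E} (h : Rel4 F' w)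
    (hz : ∀ k, F k (quad w k) = 0)
    (hg : ∀ k, ∃ l : ℝ, l ≠ 0 ∧ gradient (F k) (quad w k) = l • gradient (F' k) (quad w k)) :
    Rel4 F w where
  zero := hz
  ne := h.ne
  refl k := by
    obtain ⟨l, hl, e⟩ := hg (k + 1)
    rw [e, G6_rf_dir_smul l hl]
    exact h.refl k
  tr k := by
    obtain ⟨l, hl, e⟩ := hg (k + 1)
    rw [e, real_inner_smul_left]
    exact mul_ne_zero hl (h.tr k)

omit [CompleteSpace E] in
theorem G6_norm_refl (u g : E) (hg : g ≠ 0) :
    ‖u - (2 * ⟪u, g⟫_ℝ / ‖g‖ ^ 2) • g‖ = ‖u‖ := by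
  have h1 : ‖u - (2 * ⟪u, g⟫_ℝ / ‖g‖ ^ 2) • g‖ ^ 2 = ‖u‖ ^ 2 := by
    rw [← real_inner_self_eq_norm_sq, ← real_inner_self_eq_norm_sq u]
    simp only [inner_sub_left, inner_sub_right, real_inner_smul_left, real_inner_smul_right]
    have hg' : ‖g‖ ≠ 0 := norm_ne_zero_iff.mpr hg
    rw [real_inner_comm u g, real_inner_self_eq_norm_sq g]
    field_simp
    ring
  exact (pow_left_inj₀ (norm_nonneg _) (norm_nonneg _) (by norm_num)).mp h1

/-- The orbit gives a quadrilateral. -/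
theorem G6_orbit {Ω : Set E} {p u : ℕ → E} (h : Ivrii.Orbit Ω 4 p u) :
    ∃ F : ℕ → E → ℝ, (∀ k, F (k + 4) = F k) ∧
      (∀ k, Ivrii.LocalDef Ω (quad (p 3, p 0, p 1, p 2) k) (F k)) ∧
      Rel4 F (p 3, p 0, p 1, p 2) ∧
      dir (quad (p 3, p 0, p 1, p 2) 2 - quad (p 3, p 0, p 1, p 2) 1) = u 0 := by
  have hstep := h.step
  unfold Ivrii.Step at hstep
  choose t ht hpt _ f hf htr hu using hstep
  have hunit : ∀ k, ‖u k‖ = 1 := by
    intro k
    induction k with
    | zero => exact h.unit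
    | succ k ih => rw [hu k, G6_norm_refl _ _ (hf k).grad, ih]
  have hq : ∀ k, quad (p 3, p 0, p 1, p 2) k = p (k + 3) := by
    intro k
    rw [← G6_quad_mod]
    have h1 : p (k + 3) = p ((k % 4 + 3) % 4) := by
      rw [← G6_per_mod p h.perp (k + 3)]
      congr 1
      omega
    rw [h1]
    have h4 : k % 4 < 4 := Nat.mod_lt _ (by norm_num)
    generalize k % 4 = i at h4
    interval_cases i <;> simp [quad]
  have hF0 : ∀ k, Ivrii.LocalDef Ω (p (k + 3)) (f ((k + 2) % 4)) := by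
    intro k
    have h1 := hf ((k + 2) % 4)
    have h2 : p ((k + 2) % 4 + 1) = p (k + 3) := by
      rw [← G6_per_mod p h.perp ((k + 2) % 4 + 1), ← G6_per_mod p h.perp (k + 3)]
      congr 1
      omega
    rwa [h2] at h1
  have hstepd : ∀ k, p (k + 1) - p k = t k • u k := by
    intro k
    rw [hpt k]
    abel
  have hdir : ∀ k, dir (p (k + 1) - p k) = u k := by
    intro k
    rw [hstepd k, G6_dir_smul _ (ht k) _ (hunit k)]
  refine ⟨fun k => f ((k + 2) % 4), ?_, ?_, ?_, ?_⟩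
  · intro k
    simp only
    congr 1
    omega
  · intro k
    rw [hq k]
    exact hF0 k
  · refine ⟨?_, ?_, ?_, ?_⟩
    · intro k
      rw [hq k]
      exact (hF0 k).zero
    · intro k
      rw [hq, hq]
      intro he
      have h1 : t (k + 3) • u (k + 3) = 0 := by
        rw [← hstepd, sub_eq_zero]
        exact he
      rcases smul_eq_zero.mp h1 with h2 | h2
      · exact (ht (k + 3)).ne' h2
      · have := hunit (k + 3)
        rw [h2, norm_zero] at this
        exact zero_ne_one this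
    · intro k
      rw [hq, hq, hq, show k + 2 + 3 = (k + 4) + 1 by ring, show k + 1 + 3 = k + 4 by ring, hdir,
        G6_rf_dir, show k + 4 = (k + 3) + 1 by ring, hdir]
      have h2 : f ((k + 1 + 2) % 4) = f ((k + 3) % 4) := by congr 1
      rw [h2]
      have h3 := hu ((k + 3) % 4)
      have e1 : u ((k + 3) % 4 + 1) = u (k + 3 + 1) := by
        rw [← G6_per_mod u h.peru ((k + 3) % 4 + 1), ← G6_per_mod u h.peru (k + 3 + 1)]
        congr 1
        omega
      have e2 : u ((k + 3) % 4) = u (k + 3) := G6_per_mod u h.peru (k + 3)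
      have e3 : p ((k + 3) % 4 + 1) = p (k + 3 + 1) := by
        rw [← G6_per_mod p h.perp ((k + 3) % 4 + 1), ← G6_per_mod p h.perp (k + 3 + 1)]
        congr 1
        omega
      rw [e1, e2, e3] at h3
      exact h3
    · intro k
      have h3 := htr ((k + 3) % 4)
      have e2 : u ((k + 3) % 4) = u (k + 3) := G6_per_mod u h.peru (k + 3)
      have e3 : p ((k + 3) % 4 + 1) = p (k + 3 + 1) := by
        rw [← G6_per_mod p h.perp ((k + 3) % 4 + 1), ← G6_per_mod p h.perp (k + 3 + 1)]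
        congr 1
        omega
      rw [e2, e3] at h3
      rw [hq, hq, show k + 1 + 3 = (k + 3) + 1 by ring, hstepd, inner_smul_right]
      apply mul_ne_zero (ht _).ne'
      rw [real_inner_comm]
      exact h3
  · exact hdir 0

end H

/-- G6 -/
theorem perFour_null {E : Type*} [NormedAddCommGroup E] [InnerProductSpace ℝ E]
    [FiniteDimensional ℝ E] [MeasurableSpace E] [BorelSpace E] (hd : 3 ≤ Module.finrank ℝ E)
    (Ω : Set E) : μH[(2 * Module.finrank ℝ E - 2 : ℕ)] (PerFour Ω) = 0 := by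
  obtain ⟨W, hW⟩ : ∃ W : Set (E × E × E × E), W = {w | ∃ F : ℕ → E → ℝ,
      (∀ k, F (k + 4) = F k) ∧ (∀ k, Ivrii.LocalDef Ω (quad w k) (F k)) ∧ Rel4 F w} := ⟨_, rfl⟩
  have hsub : PerFour Ω ⊆ (fun w : E × E × E × E => (quad w 1, dir (quad w 2 - quad w 1))) '' W := by
    rintro z ⟨p, u, ho, rfl⟩
    obtain ⟨F, h1, h2, h3, h4⟩ := G6_orbit ho
    refine ⟨(p 3, p 0, p 1, p 2), ?_, ?_⟩
    · rw [hW]
      exact ⟨F, h1, h2, h3⟩
    · simp only
      rw [h4]
      rfl
  refine measure_mono_null hsub ?_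
  apply G6_null_of_locally_null
  intro w hw
  rw [hW] at hw
  obtain ⟨F, h1, h2, h3⟩ := hw
  obtain ⟨N, hN, hN'⟩ := local_null hd F h1 w (fun k => (h2 k).smooth) (fun k => (h2 k).grad) h3
  refine ⟨N, hN, ?_⟩
  have hnear : ∀ᶠ w' in 𝓝 w, ∀ k ∈ Finset.range 4, ∀ F' : E → ℝ,
      Ivrii.LocalDef Ω (quad w' k) F' → Ivrii.LocalDef Ω (quad w' k) (F k) := by
    rw [Filter.eventually_all_finset]
    intro k _
    exact ((G6_quad_cont k).tendsto w).eventually (Ivrii.localDef_near (h2 k))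
  filter_upwards [hN', hnear] with w' z0 z1 hw'
  rw [hW] at hw'
  obtain ⟨F', h1', h2', h3'⟩ := hw'
  have key : ∀ k, Ivrii.LocalDef Ω (quad w' k) (F k) := by
    intro k
    have h4 := z1 (k % 4) (Finset.mem_range.mpr (Nat.mod_lt _ (by norm_num))) (F' (k % 4))
      (h2' (k % 4))
    rw [G6_quad_mod, G6_per_mod F h1 k] at h4
    exact h4
  exact z0 (G6_change h3' (fun k => (key k).zero) fun k => Ivrii.grad_parallel (h2' k) (key k))

end Pool.Agent.H721R2.Quart
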