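import Pool.Agent.H721R2.Quart.C1
import Pool.Agent.H721R2.Quart.D1
import Pool.Agent.H721R2.Quart.D2
import Pool.Agent.H721R2.Quart.D4

set_option autoImplicit false

open MeasureTheory Set Filter Topology
open scoped InnerProductSpace

noncomputable section

namespace Pool.Agent.H721R2.Quart

section gamma
variable {E : Type*} [NormedAddCommGroup E] [InnerProductSpace ℝ E]

theorem gam_add (c : ℝ) (S : E →L[ℝ] E) (m u v w : E) :
    gam c S m u (v + w) = gam c S m u v + gam c S m u w := by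
  unfold gam
  have : v + w - ⟪m, v + w⟫_ℝ • u = (v - ⟪m, v⟫_ℝ • u) + (w - ⟪m, w⟫_ℝ • u) := by
    rw [inner_add_right]; module
  rw [this, map_add, inner_add_right]
  module

theorem gam_smul (c : ℝ) (S : E →L[ℝ] E) (m u : E) (r : ℝ) (v : E) :
    gam c S m u (r • v) = r • gam c S m u v := by
  unfold gam
  have : r • v - ⟪m, r • v⟫_ℝ • u = r • (v - ⟪m, v⟫_ℝ • u) := by
    rw [inner_smul_right]; module
  rw [this, map_smul, inner_smul_right]
  module

theorem inner_gam (c : ℝ) (S : E →L[ℝ] E) (m u v w : E) :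
    ⟪gam c S m u v, w⟫_ℝ =
      2 / c * ⟪S (v - ⟪m, v⟫_ℝ • u), w - ⟪m, w⟫_ℝ • u⟫_ℝ := by
  unfold gam
  rw [inner_smul_left, inner_sub_left, inner_sub_right, inner_smul_left, inner_smul_right,
    real_inner_comm (S (v - ⟪m, v⟫_ℝ • u)) u]
  simp only [conj_trivial]
  ring

theorem gam_sym {c : ℝ} {S : E →L[ℝ] E} {m u : E} (hS : ∀ v w, ⟪S v, w⟫_ℝ = ⟪v, S w⟫_ℝ) (v w : E) :
    ⟪gam c S m u v, w⟫_ℝ = ⟪v, gam c S m u w⟫_ℝ := by
  rw [inner_gam, real_inner_comm (gam c S m u w) v, inner_gam, hS,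
    real_inner_comm (S (w - ⟪m, w⟫_ℝ • u))]

theorem gam_self {c : ℝ} {S : E →L[ℝ] E} {m u : E} (h : ⟪m, u⟫_ℝ = 1) : gam c S m u u = 0 := by
  unfold gam
  rw [h, one_smul, sub_self, map_zero]
  simp

end gamma

namespace Fam

variable {E Z : Type*} [NormedAddCommGroup E] [InnerProductSpace ℝ E]
  [NormedAddCommGroup Z] [NormedSpace ℝ Z] (F : Fam E Z) {z : Z}

theorem mo_period (k : ℕ) : F.mo (k + 4) z = F.mo k z := by
  unfold mo; rw [F.pn, F.pe]

theorem c_period (k : ℕ) : F.c (k + 4) z = F.c k z := by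
  unfold c; rw [F.pn, F.pe]

theorem go_period (k : ℕ) (v : E) : F.go (k + 4) z v = F.go k z v := by
  unfold go; rw [F.pS, F.pe, F.mo_period, F.c_period]

theorem inner_mo_e (hz : z ∈ F.A) (k : ℕ) : ⟪F.mo k z, F.e k z⟫_ℝ = 1 := by
  unfold mo
  rw [inner_smul_left]
  simp only [conj_trivial]
  exact inv_mul_cancel₀ (F.tr k z hz)

theorem inner_mo_mo (hz : z ∈ F.A) (k : ℕ) : ⟪F.mo k z, F.mo k z⟫_ℝ = (F.c k z ^ 2)⁻¹ := by
  unfold mo c
  rw [inner_smul_left, inner_smul_right, F.nn k z hz]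
  simp only [conj_trivial]
  have := F.tr k z hz
  field_simp

theorem c_ne (hz : z ∈ F.A) (k : ℕ) : F.c k z ≠ 0 := by
  unfold c; exact neg_ne_zero.2 (F.tr k z hz)

theorem P_shift (k : ℕ) : (F.shift k).P z = F.P z := by
  induction k with
  | zero => rfl
  | succ k ih =>
    rw [← ih]
    change F.L (0 + (k + 1)) z + F.L (1 + (k + 1)) z + F.L (2 + (k + 1)) z + F.L (3 + (k + 1)) z =
      F.L (0 + k) z + F.L (1 + k) z + F.L (2 + k) z + F.L (3 + k) z
    rw [show 0 + (k + 1) = 1 + k by ring, show 1 + (k + 1) = 2 + k by ring,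
      show 2 + (k + 1) = 3 + k by ring, show 3 + (k + 1) = 0 + k + 4 by ring, F.pL]
    ring

theorem A1_shift (k : ℕ) : (F.shift (k + 1)).A1 z = (F.shift k).A2 z ∧
    (F.shift (k + 1)).A2 z = (F.shift k).A1 z := by
  constructor
  · change (F.L (0 + (k + 1)) z + F.L (1 + (k + 1)) z) * (F.L (2 + (k + 1)) z + F.L (3 + (k + 1)) z)
      + ⟪F.x (2 + (k + 1)) z - F.x (0 + (k + 1)) z, F.x (2 + (k + 1)) z - F.x (0 + (k + 1)) z⟫_ℝ =
      (F.L (1 + k) z + F.L (2 + k) z) * (F.L (3 + k) z + F.L (0 + k) z) +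
      ⟪F.x (3 + k) z - F.x (1 + k) z, F.x (3 + k) z - F.x (1 + k) z⟫_ℝ
    rw [show 0 + (k + 1) = 1 + k by ring, show 1 + (k + 1) = 2 + k by ring,
      show 2 + (k + 1) = 3 + k by ring, show 3 + (k + 1) = 0 + k + 4 by ring, F.pL]
  · change (F.L (1 + (k + 1)) z + F.L (2 + (k + 1)) z) * (F.L (3 + (k + 1)) z + F.L (0 + (k + 1)) z)
      + ⟪F.x (3 + (k + 1)) z - F.x (1 + (k + 1)) z, F.x (3 + (k + 1)) z - F.x (1 + (k + 1)) z⟫_ℝ =
      (F.L (0 + k) z + F.L (1 + k) z) * (F.L (2 + k) z + F.L (3 + k) z) +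
      ⟪F.x (2 + k) z - F.x (0 + k) z, F.x (2 + k) z - F.x (0 + k) z⟫_ℝ
    rw [show 0 + (k + 1) = 1 + k by ring, show 1 + (k + 1) = 2 + k by ring,
      show 2 + (k + 1) = 3 + k by ring, show 3 + (k + 1) = 0 + k + 4 by ring, F.pL, F.px]
    have : F.x (0 + k) z - F.x (2 + k) z = -(F.x (2 + k) z - F.x (0 + k) z) := by abel
    rw [this, inner_neg_neg]
    ring

theorem kappa_shift (k : ℕ) : (F.shift k).L 0 z * (F.shift k).L 2 z +
    (F.shift k).L 1 z * (F.shift k).L 3 z = F.L 0 z * F.L 2 z + F.L 1 z * F.L 3 z := by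
  induction k with
  | zero => rfl
  | succ k ih =>
    rw [← ih]
    change F.L (0 + (k + 1)) z * F.L (2 + (k + 1)) z + F.L (1 + (k + 1)) z * F.L (3 + (k + 1)) z =
      F.L (0 + k) z * F.L (2 + k) z + F.L (1 + k) z * F.L (3 + k) z
    rw [show 0 + (k + 1) = 1 + k by ring, show 1 + (k + 1) = 2 + k by ring,
      show 2 + (k + 1) = 3 + k by ring, show 3 + (k + 1) = 0 + k + 4 by ring, F.pL]
    ring

theorem fPhi_shift (k : ℕ) : (F.shift k).fPhi z = F.fPhi z := by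
  induction k with
  | zero => rfl
  | succ k ih =>
    rw [← ih]
    unfold fPhi
    rw [(F.A1_shift k).1, (F.A1_shift k).2, F.P_shift, F.P_shift, F.kappa_shift, F.kappa_shift]
    ring

theorem P_pos (hz : z ∈ F.A) : 0 < F.P z := by
  have h0 := F.Lpos 0 z hz
  have h1 := F.Lpos 1 z hz
  have h2 := F.Lpos 2 z hz
  have h3 := F.Lpos 3 z hz
  unfold P
  linarith

/-- The virtual eigenvalue. -/
theorem vv (hz : z ∈ F.A) (k : ℕ) : F.L k z + F.L (k + 1) z -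
    4 * F.L k z * F.L (k + 1) z / (F.P z * (F.c (k + 1) z ^ 2)⁻¹) = (F.shift k).A1 z / F.P z := by
  have h := ((F.shift k).A1_eq hz).1
  rw [F.P_shift] at h
  change _ = (F.L (0 + k) z + F.L (1 + k) z) * F.P z -
    4 * F.L (0 + k) z * F.L (1 + k) z * F.c (1 + k) z ^ 2 at h
  rw [h, show 0 + k = k by ring, show 1 + k = k + 1 by ring]
  have hP := (F.P_pos hz).ne'
  have hc := F.c_ne hz (k + 1)
  field_simp

/-- D6 (assembly of C and D) -/
theorem exists_cj' [FiniteDimensional ℝ E] (hz : z ∈ F.A) : ∃ J : CJ E, J.u = F.e 0 z ∧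
    (∀ k, J.L k = F.L k z) ∧ (∀ k, J.M k = F.uf z k (F.mo k z)) ∧
    (∀ k v, J.G k v = F.uf z k (F.go k z (F.ufi z k v))) ∧ ∀ v, J.U v = F.uf z 4 v := by
  have hM0 : F.uf z 0 (F.mo 0 z) = F.mL z := rfl
  have hM1 : F.uf z 1 (F.mo 1 z) = F.mC z := (F.uf_mi hz 0).symm
  have hMM : ∀ k, ⟪F.uf z k (F.mo k z), F.uf z k (F.mo k z)⟫_ℝ = (F.c k z ^ 2)⁻¹ := by
    intro k; rw [F.inner_uf hz, F.inner_mo_mo hz]
  have hufi : ∀ k v, F.ufi z (k + 4) (F.uf z 4 v) = F.ufi z k v := by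
    intro k v
    have h1 : F.uf z (k + 4) (F.ufi z k v) = F.uf z 4 v := by
      rw [F.uf_period, F.uf_ufi hz]
    rw [← h1, F.ufi_uf hz]
  refine ⟨{
    u := F.e 0 z
    L := fun k => F.L k z
    M := fun k => F.uf z k (F.mo k z)
    G := fun k => ⟨⟨fun v => F.uf z k (F.go k z (F.ufi z k v)), ?_⟩, ?_⟩
    U := ⟨⟨fun v => F.uf z 4 v, ?_⟩, ?_⟩
    uu := F.ee 0 z hz
    pL := fun k => by rw [F.pL]
    Lpos := fun k => F.Lpos k z hz
    Mu := ?_
    pM := ?_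
    Gsym := ?_
    Gu := ?_
    pG := ?_
    Uiso := fun v w => F.inner_uf hz 4 v w
    Uu := ?_
    detU := F.det_uf hz _ fun v => rfl
    fix := ?_
    close := ?_
    tri := F.tri hz
    pv := ?_
    cl := ?_ }, rfl, fun k => rfl, fun k => rfl, fun k v => rfl, fun v => rfl⟩
  · intro v w
    change F.uf z k (F.go k z (F.ufi z k (v + w))) = _
    rw [F.ufi_add]
    unfold go
    rw [gam_add, F.uf_add]
  · intro r v
    change F.uf z k (F.go k z (F.ufi z k (r • v))) = _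
    rw [F.ufi_smul]
    unfold go
    rw [gam_smul, F.uf_smul]
    rfl
  · intro v w
    exact F.uf_add 4 v w
  · intro r v
    exact F.uf_smul 4 r v
  · intro k
    change ⟪F.uf z k (F.mo k z), F.e 0 z⟫_ℝ = 1
    rw [← F.uf_e hz k, F.inner_uf hz, F.inner_mo_e hz]
  · intro k
    change F.uf z (k + 4) (F.mo (k + 4) z) = F.uf z 4 (F.uf z k (F.mo k z))
    rw [F.mo_period, F.uf_period]
  · intro k v w
    change ⟪F.uf z k (F.go k z (F.ufi z k v)), w⟫_ℝ = ⟪v, F.uf z k (F.go k z (F.ufi z k w))⟫_ℝ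
    conv_lhs => rw [← F.uf_ufi hz k w]
    conv_rhs => rw [← F.uf_ufi hz k v]
    rw [F.inner_uf hz, F.inner_uf hz]
    exact gam_sym (F.sym k z hz) _ _
  · intro k
    change F.uf z k (F.go k z (F.ufi z k (F.e 0 z))) = 0
    have h1 : F.ufi z k (F.e 0 z) = F.e k z := by rw [← F.uf_e hz k, F.ufi_uf hz]
    rw [h1]
    have h2 : F.go k z (F.e k z) = 0 := gam_self (F.inner_mo_e hz k)
    rw [h2]
    have := F.uf_smul (z := z) k 0 0
    simpa using this
  · intro k v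
    change F.uf z (k + 4) (F.go (k + 4) z (F.ufi z (k + 4) (F.uf z 4 v))) =
      F.uf z 4 (F.uf z k (F.go k z (F.ufi z k v)))
    rw [hufi, F.go_period, F.uf_period]
  · change F.uf z 4 (F.e 0 z) = F.e 0 z
    have h1 := F.uf_e hz 4
    rwa [show F.e 4 = F.e 0 from F.pe 0] at h1
  · intro f h0 h1 h2
    change F.uf z 4 f = f
    rw [hM0] at h1
    rw [hM1] at h2
    exact (F.fix_uf hz f h0 h1 h2).2.2
  · intro Y d hY hd h1 h2
    refine F.closure hz Y d hY hd h1 fun k => ?_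
    have h3 := h2 k
    change d (k + 1) = d k + (⟪F.uf z (k + 1) (F.mo (k + 1) z),
      F.uf z (k + 1) (F.mo (k + 1) z)⟫_ℝ)⁻¹ •
        F.uf z (k + 1) (F.go (k + 1) z (F.ufi z (k + 1) (Y (k + 1)))) at h3
    rw [hMM, inv_inv] at h3
    exact h3
  · intro k
    change F.L (k + 2) z + F.L (k + 3) z - 4 * F.L (k + 2) z * F.L (k + 3) z / (F.P z *
      ⟪F.uf z (k + 3) (F.mo (k + 3) z), F.uf z (k + 3) (F.mo (k + 3) z)⟫_ℝ) =
      F.L k z + F.L (k + 1) z - 4 * F.L k z * F.L (k + 1) z / (F.P z *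
      ⟪F.uf z (k + 1) (F.mo (k + 1) z), F.uf z (k + 1) (F.mo (k + 1) z)⟫_ℝ)
    rw [hMM, hMM, F.vv hz k]
    have h4 := F.vv hz (k + 2)
    rw [show k + 2 + 1 = k + 3 by ring] at h4
    rw [h4, (F.A1_shift (k + 1)).1, (F.A1_shift k).2]
  · intro k
    have h1 := (F.shift k).cl_phys hz
    have h2 := congrArg (F.uf z k) h1
    have e0 : (F.shift k).e 0 z = F.e k z := by
      change F.e (0 + k) z = _; rw [zero_add]
    have eL : (F.shift k).mL z = F.mo k z := by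
      change F.mo (0 + k) z = _; rw [zero_add]
    have eC : (F.shift k).mC z = F.mi k z := by
      change (⟪F.n (0 + 1 + k) z, F.e (0 + k) z⟫_ℝ)⁻¹ • F.n (0 + 1 + k) z = _
      rw [show 0 + 1 + k = k + 1 by ring, zero_add]; rfl
    have eR : (F.shift k).mR z = rf (F.n (k + 1) z) (F.mi (k + 1) z) := by
      change rf (F.n (1 + k) z) ((⟪F.n (1 + 1 + k) z, F.e (1 + k) z⟫_ℝ)⁻¹ • F.n (1 + 1 + k) z) = _
      rw [show 1 + 1 + k = k + 1 + 1 by ring, show 1 + k = k + 1 by ring]; rfl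
    have eU' : ∀ (v : E) (r : ℝ), F.uf z k (r • (v - F.e k z)) = r • (F.uf z k v - F.e 0 z) := by
      intro v r
      have hs := F.uf_add (z := z) k (v - F.e k z) (F.e k z)
      rw [sub_add_cancel, F.uf_e hz] at hs
      rw [F.uf_smul, hs]
      congr 1
      abel
    rw [e0, eL, eC, eR, F.uf_add, F.uf_add, eU', eU', eU', eU'] at h2
    have hMR : F.uf z k (rf (F.n (k + 1) z) (F.mi (k + 1) z)) =
        F.uf z (k + 2) (F.mo (k + 2) z) := F.uf_mi hz (k + 1)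
    rw [hMR, F.uf_mi hz k, F.fPhi_shift, F.P_shift] at h2
    have hA2 : (F.shift k).A2 z / F.P z = F.L (k + 1) z + F.L (k + 2) z -
        4 * F.L (k + 1) z * F.L (k + 2) z / (F.P z * (F.c (k + 2) z ^ 2)⁻¹) := by
      rw [← (F.A1_shift k).1, ← F.vv hz (k + 1)]
    have l2 : (F.shift k).L 2 z = F.L (k + 2) z := by
      change F.L (2 + k) z = _; rw [add_comm]
    have l3 : (F.shift k).L 3 z = F.L (k + 3) z := by
      change F.L (3 + k) z = _; rw [add_comm]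
    have l0 : (F.shift k).L 0 z = F.L k z := by
      change F.L (0 + k) z = _; rw [zero_add]
    have l1 : (F.shift k).L 1 z = F.L (k + 1) z := by
      change F.L (1 + k) z = _; rw [add_comm]
    have c2 : (F.shift k).c 2 z = F.c (k + 2) z := by
      change F.c (2 + k) z = _; rw [add_comm]
    have c1 : (F.shift k).c 1 z = F.c (k + 1) z := by
      change F.c (1 + k) z = _; rw [add_comm]
    have c0 : (F.shift k).c 0 z = F.c k z := by
      change F.c (0 + k) z = _; rw [zero_add]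
    rw [hA2, l0, l1, l2, l3, c0, c1, c2] at h2
    change (F.L (k + 2) z / ⟪F.uf z (k + 2) (F.mo (k + 2) z), F.uf z (k + 2) (F.mo (k + 2) z)⟫_ℝ) •
        (F.uf z (k + 2) (F.mo (k + 2) z) - F.e 0 z) +
      ((F.L (k + 1) z + F.L (k + 2) z - 4 * F.L (k + 1) z * F.L (k + 2) z /
        (F.P z * ⟪F.uf z (k + 2) (F.mo (k + 2) z), F.uf z (k + 2) (F.mo (k + 2) z)⟫_ℝ)) /
        ⟪F.uf z (k + 1) (F.mo (k + 1) z), F.uf z (k + 1) (F.mo (k + 1) z)⟫_ℝ) •
        (F.uf z (k + 1) (F.mo (k + 1) z) - F.e 0 z) +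
      (F.L (k + 3) z / ⟪F.uf z k (F.mo k z), F.uf z k (F.mo k z)⟫_ℝ) •
        (F.uf z k (F.mo k z) - F.e 0 z) =
      (F.P z / 4 * (F.L 0 z * F.L 2 z + F.L 1 z * F.L 3 z -
        (F.L 0 z + F.L 1 z - 4 * F.L 0 z * F.L 1 z / (F.P z *
          ⟪F.uf z 1 (F.mo 1 z), F.uf z 1 (F.mo 1 z)⟫_ℝ)) *
        (F.L 1 z + F.L 2 z - 4 * F.L 1 z * F.L 2 z / (F.P z *
          ⟪F.uf z 2 (F.mo 2 z), F.uf z 2 (F.mo 2 z)⟫_ℝ))) / (F.L k z * F.L (k + 1) z)) •
        (F.uf z (k + 1) (F.mo (k + 1) z) - F.e 0 z)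
    rw [hMM, hMM, hMM, hMM, hMM]
    have hv0 := F.vv hz 0
    have hv1 := F.vv hz 1
    rw [(F.A1_shift 0).1] at hv1
    change F.L 0 z + F.L 1 z - 4 * F.L 0 z * F.L 1 z / (F.P z * (F.c 1 z ^ 2)⁻¹) =
      F.A1 z / F.P z at hv0
    change F.L 1 z + F.L 2 z - 4 * F.L 1 z * F.L 2 z / (F.P z * (F.c 2 z ^ 2)⁻¹) =
      F.A2 z / F.P z at hv1
    rw [hv0, hv1]
    have hP := (F.P_pos hz).ne'
    have hl0 := (F.Lpos k z hz).ne'
    have hl1 := (F.Lpos (k + 1) z hz).ne'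
    have e1 : -(F.fPhi z / (4 * F.P z * (F.L k z * F.L (k + 1) z))) =
        F.P z / 4 * (F.L 0 z * F.L 2 z + F.L 1 z * F.L 3 z - F.A1 z / F.P z * (F.A2 z / F.P z)) /
          (F.L k z * F.L (k + 1) z) := by
      unfold fPhi
      field_simp
      ring
    rw [e1] at h2
    simp only [div_inv_eq_mul]
    exact h2

end Fam

end Pool.Agent.H721R2.Quart

end
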